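import Mathlib
import Pool.Agent.Lib.PNT.Theta
import Pool.Agent.Lib.Z579.Defs

set_option autoImplicit false
set_option maxHeartbeats 4000000

namespace DIM3.Ap

/-- `F_n(t) = (t-1)...(t-n) / (t (t+1) ... (t+n))` -/
noncomputable def F : ℕ → ℝ → ℝ
  | 0 => fun t => 1 / t
  | n + 1 => fun t => F n t * ((t - (n + 1)) / (t + (n + 1)))

/-- its derivative -/
noncomputable def D : ℕ → ℝ → ℝ
  | 0 => fun t => -1 / t ^ 2
  | n + 1 => fun t => D n t * ((t - (n + 1)) / (t + (n + 1))) +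
      F n t * (2 * (n + 1) / (t + (n + 1)) ^ 2)

theorem F_zero (t : ℝ) : F 0 t = 1 / t := rfl

theorem F_succ (n : ℕ) (t : ℝ) : F (n + 1) t = F n t * ((t - (n + 1)) / (t + (n + 1))) := rfl

theorem D_zero (t : ℝ) : D 0 t = -1 / t ^ 2 := rfl

theorem D_succ (n : ℕ) (t : ℝ) : D (n + 1) t = D n t * ((t - (n + 1)) / (t + (n + 1))) +
      F n t * (2 * (n + 1) / (t + (n + 1)) ^ 2) := rfl

theorem hasDerivAt_F (n : ℕ) {t : ℝ} (ht : 0 < t) : HasDerivAt (F n) (D n t) t := by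
  induction n with
  | zero =>
    have h := hasDerivAt_inv ht.ne'
    have h2 : (F 0) = fun t : ℝ => t⁻¹ := by funext t; rw [F_zero, one_div]
    rw [h2, D_zero]
    have h3 : (-1 : ℝ) / t ^ 2 = -(t ^ 2)⁻¹ := by rw [neg_div, one_div]
    rw [h3]; exact h
  | succ n ih =>
    have hne : t + ((n : ℝ) + 1) ≠ 0 := by positivity
    have h1 : HasDerivAt (fun t : ℝ => (t - ((n : ℝ) + 1)) / (t + ((n : ℝ) + 1)))
        ((1 * (t + ((n : ℝ) + 1)) - (t - ((n : ℝ) + 1)) * 1) / (t + ((n : ℝ) + 1)) ^ 2) t :=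
      ((hasDerivAt_id' t).sub_const _).div ((hasDerivAt_id' t).add_const _) hne
    have h2 := ih.mul h1
    have h3 : D (n + 1) t = D n t * ((t - ((n : ℝ) + 1)) / (t + ((n : ℝ) + 1))) +
        F n t * ((1 * (t + ((n : ℝ) + 1)) - (t - ((n : ℝ) + 1)) * 1) / (t + ((n : ℝ) + 1)) ^ 2) := by
      rw [D_succ]; congr 3; ring
    rw [h3]
    exact h2

theorem abs_ratio_le {t c : ℝ} (ht : 0 < t) (hc : 0 < c) : |(t - c) / (t + c)| ≤ 1 := by
  rw [abs_div, abs_of_pos (show 0 < t + c by positivity), div_le_one (by positivity), abs_le]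
  constructor <;> linarith

theorem F_abs_le (n : ℕ) {t : ℝ} (ht : 0 < t) : |F n t| ≤ 1 / t := by
  induction n with
  | zero => rw [F_zero, abs_of_pos (by positivity)]
  | succ n ih =>
    rw [F_succ, abs_mul]
    have h1 := abs_ratio_le ht (show (0:ℝ) < (n : ℝ) + 1 by positivity)
    calc |F n t| * |(t - ((n : ℝ) + 1)) / (t + ((n : ℝ) + 1))| ≤ |F n t| * 1 :=
          mul_le_mul_of_nonneg_left h1 (abs_nonneg _)
      _ ≤ 1 / t := by rw [mul_one]; exact ih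

theorem D_abs_le (n : ℕ) {t : ℝ} (ht : 0 < t) : |D n t| ≤ (n + 1) / t ^ 2 := by
  induction n with
  | zero =>
    rw [D_zero, abs_div, abs_neg, abs_one, abs_of_pos (show 0 < t ^ 2 by positivity)]
    simp
  | succ n ih =>
    have hc : (0:ℝ) < (n : ℝ) + 1 := by positivity
    have h1 := abs_ratio_le ht hc
    have h2 : |F n t * (2 * ((n : ℝ) + 1) / (t + ((n : ℝ) + 1)) ^ 2)| ≤ 1 / t ^ 2 := by
      rw [abs_mul, abs_of_pos (show 0 < 2 * ((n : ℝ) + 1) / (t + ((n : ℝ) + 1)) ^ 2 by positivity)]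
      have h3 : 2 * ((n : ℝ) + 1) / (t + ((n : ℝ) + 1)) ^ 2 ≤ 1 / t := by
        rw [div_le_div_iff₀ (by positivity) ht]
        nlinarith [sq_nonneg (t - ((n : ℝ) + 1)), mul_pos ht hc]
      calc |F n t| * (2 * ((n : ℝ) + 1) / (t + ((n : ℝ) + 1)) ^ 2) ≤ (1 / t) * (1 / t) :=
            mul_le_mul (F_abs_le n ht) h3 (by positivity) (by positivity)
        _ = 1 / t ^ 2 := by field_simp
    have h4 : |D n t * ((t - ((n : ℝ) + 1)) / (t + ((n : ℝ) + 1)))| ≤ ((n : ℝ) + 1) / t ^ 2 := by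
      rw [abs_mul]
      calc |D n t| * |(t - ((n : ℝ) + 1)) / (t + ((n : ℝ) + 1))| ≤ |D n t| * 1 :=
            mul_le_mul_of_nonneg_left h1 (abs_nonneg _)
        _ ≤ _ := by rw [mul_one]; exact ih
    rw [D_succ]
    refine (abs_add_le _ _).trans ((add_le_add h4 h2).trans (le_of_eq ?_))
    push_cast
    ring

theorem F_shift (n : ℕ) {t : ℝ} (ht : 0 < t) :
    F (n + 1) (t + 1) = F n t * (t ^ 2 / ((t + (n + 1)) * (t + (n + 2)))) := by
  induction n with
  | zero =>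
    rw [F_succ, F_zero, F_zero]
    push_cast
    have h1 : t + 1 ≠ 0 := by positivity
    have h2 : t + 2 ≠ 0 := by positivity
    have h3 : t + 1 + 1 ≠ 0 := by positivity
    field_simp
    ring
  | succ n ih =>
    rw [F_succ (n + 1), ih, F_succ n]
    push_cast
    have h1 : t + ((n : ℝ) + 1) ≠ 0 := by positivity
    have h2 : t + ((n : ℝ) + 2) ≠ 0 := by positivity
    have h3 : t + 1 + ((n : ℝ) + 1 + 1) ≠ 0 := by positivity
    have h4 : t + ((n : ℝ) + 1 + 1) ≠ 0 := by positivity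
    have h5 : t + ((n : ℝ) + 1 + 2) ≠ 0 := by positivity
    field_simp
    ring

/-- the certificate -/
noncomputable def sc (n : ℕ) (t : ℝ) : ℝ := 4 * (2 * n + 3) * (-2 * t ^ 2 + t + (2 * n + 3) ^ 2)

noncomputable def Pc (n : ℕ) : ℝ := (2 * n + 3) * (17 * (n + 1) ^ 2 + 17 * (n + 1) + 5)

theorem tele (n : ℕ) {t : ℝ} (ht : 0 < t) :
    (n + 2) ^ 3 * F (n + 2) t ^ 2 - Pc n * F (n + 1) t ^ 2 + (n + 1) ^ 3 * F n t ^ 2 =
      sc n (t + 1) * F (n + 1) (t + 1) ^ 2 - sc n t * F (n + 1) t ^ 2 := by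
  rw [F_shift n ht, F_succ (n + 1), F_succ n]
  unfold sc Pc
  push_cast
  have h1 : t + ((n : ℝ) + 1) ≠ 0 := by positivity
  have h2 : t + ((n : ℝ) + 2) ≠ 0 := by positivity
  have h4 : t + ((n : ℝ) + 1 + 1) ≠ 0 := by positivity
  field_simp
  ring


/-- derivative of `sc n t * F (n+1) t ^ 2` -/
noncomputable def U (n : ℕ) (t : ℝ) : ℝ :=
  4 * (2 * n + 3) * (-4 * t + 1) * F (n + 1) t ^ 2 + sc n t * (2 * F (n + 1) t * D (n + 1) t)

theorem hasDerivAt_sc (n : ℕ) (t : ℝ) :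
    HasDerivAt (sc n) (4 * (2 * n + 3) * (-4 * t + 1)) t := by
  have h1 : HasDerivAt (fun t : ℝ => -2 * t ^ 2 + t + (2 * (n : ℝ) + 3) ^ 2)
      (-2 * (2 * t) + 1) t := by
    have h2 : HasDerivAt (fun t : ℝ => t ^ 2) (2 * t) t := by
      have := hasDerivAt_pow 2 t
      simpa using this
    exact ((h2.const_mul (-2)).add (hasDerivAt_id' t)).add_const _
  have h3 := h1.const_mul (4 * (2 * (n : ℝ) + 3))
  have h4 : 4 * (2 * (n : ℝ) + 3) * (-4 * t + 1) =
      4 * (2 * (n : ℝ) + 3) * (-2 * (2 * t) + 1) := by ring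
  rw [h4]
  exact h3

theorem hasDerivAt_Fsq (n : ℕ) {t : ℝ} (ht : 0 < t) :
    HasDerivAt (fun t => F n t ^ 2) (2 * F n t * D n t) t := by
  have := (hasDerivAt_F n ht).pow 2
  have h2 : 2 * F n t * D n t = (2 : ℕ) * F n t ^ (2 - 1) * D n t := by norm_num
  rw [h2]
  exact this

theorem hasDerivAt_U (n : ℕ) {t : ℝ} (ht : 0 < t) :
    HasDerivAt (fun t => sc n t * F (n + 1) t ^ 2) (U n t) t :=
  (hasDerivAt_sc n t).mul (hasDerivAt_Fsq (n + 1) ht)

theorem tele' (n : ℕ) {t : ℝ} (ht : 0 < t) :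
    (n + 2) ^ 3 * (2 * F (n + 2) t * D (n + 2) t) - Pc n * (2 * F (n + 1) t * D (n + 1) t) +
      (n + 1) ^ 3 * (2 * F n t * D n t) = U n (t + 1) - U n t := by
  have h1 : HasDerivAt (fun t => (n + 2) ^ 3 * F (n + 2) t ^ 2 - Pc n * F (n + 1) t ^ 2 +
      (n + 1) ^ 3 * F n t ^ 2) ((n + 2) ^ 3 * (2 * F (n + 2) t * D (n + 2) t) -
        Pc n * (2 * F (n + 1) t * D (n + 1) t) + (n + 1) ^ 3 * (2 * F n t * D n t)) t :=
    (((hasDerivAt_Fsq (n + 2) ht).const_mul _).sub ((hasDerivAt_Fsq (n + 1) ht).const_mul _)).add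
      ((hasDerivAt_Fsq n ht).const_mul _)
  have h2 : HasDerivAt (fun t => sc n (t + 1) * F (n + 1) (t + 1) ^ 2 - sc n t * F (n + 1) t ^ 2)
      (U n (t + 1) - U n t) t := by
    have h3 := hasDerivAt_U n (show 0 < t + 1 by positivity)
    have h4 := HasDerivAt.comp_add_const t 1 h3
    exact h4.sub (hasDerivAt_U n ht)
  refine h1.unique (h2.congr_of_eventuallyEq ?_)
  filter_upwards [lt_mem_nhds ht] with x hx
  exact tele n hx

theorem F_one (n : ℕ) : F (n + 1) 1 = 0 := by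
  induction n with
  | zero => rw [F_succ]; norm_num
  | succ n ih => rw [F_succ, ih, zero_mul]

theorem U_one (n : ℕ) : U n 1 = 0 := by
  unfold U
  rw [F_one]; ring

theorem U_abs_le (n : ℕ) {t : ℝ} (ht : 1 ≤ t) :
    |U n t| ≤ (20 * (2 * n + 3) + 8 * (2 * n + 3) * (3 + (2 * n + 3) ^ 2) * (n + 2)) / t := by
  have h0 : 0 < t := by linarith
  have hF := F_abs_le (n + 1) h0
  have hD := D_abs_le (n + 1) h0
  push_cast at hD
  have hN : (0:ℝ) ≤ n := Nat.cast_nonneg n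
  have h1 : |4 * (2 * (n : ℝ) + 3) * (-4 * t + 1)| ≤ 20 * (2 * n + 3) * t := by
    rw [abs_mul, abs_of_pos (show (0:ℝ) < 4 * (2 * n + 3) by positivity)]
    have : |(-4 * t + 1)| ≤ 5 * t := by rw [abs_le]; constructor <;> linarith
    nlinarith
  have h2 : |sc n t| ≤ 4 * (2 * n + 3) * ((3 + (2 * n + 3) ^ 2) * t ^ 2) := by
    unfold sc
    rw [abs_mul, abs_of_pos (show (0:ℝ) < 4 * (2 * n + 3) by positivity)]
    refine mul_le_mul_of_nonneg_left ?_ (by positivity)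
    have h3 : t ≤ t ^ 2 := by nlinarith
    have h4 : 1 ≤ t ^ 2 := by nlinarith
    have h5 : (0:ℝ) ≤ (2 * n + 3) ^ 2 := by positivity
    rw [abs_le]; constructor <;> nlinarith
  unfold U
  refine (abs_add_le _ _).trans ?_
  rw [add_div]
  refine add_le_add ?_ ?_
  · rw [abs_mul, abs_pow]
    calc |4 * (2 * (n : ℝ) + 3) * (-4 * t + 1)| * |F (n + 1) t| ^ 2
        ≤ (20 * (2 * n + 3) * t) * (1 / t) ^ 2 :=
          mul_le_mul h1 (pow_le_pow_left₀ (abs_nonneg _) hF 2) (by positivity) (by positivity)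
      _ = 20 * (2 * n + 3) / t := by field_simp
  · rw [abs_mul, abs_mul, abs_mul, abs_two]
    calc |sc n t| * (2 * |F (n + 1) t| * |D (n + 1) t|)
        ≤ (4 * (2 * n + 3) * ((3 + (2 * n + 3) ^ 2) * t ^ 2)) *
          (2 * (1 / t) * (((n : ℝ) + 1 + 1) / t ^ 2)) := by
          refine mul_le_mul h2 ?_ (by positivity) (by positivity)
          exact mul_le_mul (mul_le_mul_of_nonneg_left hF (by norm_num)) hD (abs_nonneg _)
            (by positivity)
      _ = 8 * (2 * n + 3) * (3 + (2 * n + 3) ^ 2) * (n + 2) / t := by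
          field_simp; ring

/-- the terms of the series -/
noncomputable def T (n : ℕ) (i : ℕ) : ℝ := 2 * F n ((i : ℝ) + 1) * D n ((i : ℝ) + 1)

theorem T_abs_le (n i : ℕ) : |T n i| ≤ 2 * (n + 1) * (1 / ((i : ℝ) + 1) ^ 3) := by
  have h0 : (0:ℝ) < (i : ℝ) + 1 := by positivity
  unfold T
  rw [abs_mul, abs_mul, abs_two]
  calc 2 * |F n ((i : ℝ) + 1)| * |D n ((i : ℝ) + 1)| ≤
        2 * (1 / ((i : ℝ) + 1)) * (((n : ℝ) + 1) / ((i : ℝ) + 1) ^ 2) :=
          mul_le_mul (mul_le_mul_of_nonneg_left (F_abs_le n h0) (by norm_num)) (D_abs_le n h0)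
            (abs_nonneg _) (by positivity)
    _ = _ := by field_simp

theorem summable_z (s : ℕ) (hs : 1 < s) : Summable (fun i : ℕ => 1 / ((i : ℝ) + 1) ^ s) := by
  have h := Real.summable_one_div_nat_pow.2 hs
  have := (summable_nat_add_iff 1).2 h
  simpa using this

theorem summable_T (n : ℕ) : Summable (T n) := by
  refine Summable.of_norm_bounded (((summable_z 3 (by norm_num)).mul_left (2 * ((n : ℝ) + 1)))) ?_
  intro i
  rw [Real.norm_eq_abs]
  exact T_abs_le n i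

noncomputable def I (n : ℕ) : ℝ := ∑' i, T n i

noncomputable def Z3 : ℝ := ∑' i : ℕ, 1 / ((i : ℝ) + 1) ^ 3

theorem I_abs_le (n : ℕ) : |I n| ≤ 2 * (n + 1) * Z3 := by
  have h1 : Summable (fun i => |T n i|) := (summable_T n).abs
  unfold I Z3
  rw [← tsum_mul_left, ← Real.norm_eq_abs]
  refine (norm_tsum_le_tsum_norm h1).trans ?_
  exact h1.tsum_le_tsum (fun i => T_abs_le n i) ((summable_z 3 (by norm_num)).mul_left _)

theorem Z3_pos : 0 < Z3 :=
  (summable_z 3 (by norm_num)).tsum_pos (fun i => by positivity) 0 (by norm_num)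

theorem I_zero : I 0 = -2 * Z3 := by
  unfold I Z3
  rw [← tsum_mul_left]
  refine tsum_congr (fun i => ?_)
  have h0 : (0:ℝ) < (i : ℝ) + 1 := by positivity
  unfold T
  rw [F_zero, D_zero]
  field_simp

theorem rec_I (n : ℕ) :
    ((n : ℝ) + 2) ^ 3 * I (n + 2) - Pc n * I (n + 1) + ((n : ℝ) + 1) ^ 3 * I n = 0 := by
  have h1 : HasSum (fun i => ((n : ℝ) + 2) ^ 3 * T (n + 2) i - Pc n * T (n + 1) i +
      ((n : ℝ) + 1) ^ 3 * T n i)
      (((n : ℝ) + 2) ^ 3 * I (n + 2) - Pc n * I (n + 1) + ((n : ℝ) + 1) ^ 3 * I n) :=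
    (((summable_T (n + 2)).hasSum.mul_left _).sub ((summable_T (n + 1)).hasSum.mul_left _)).add
      ((summable_T n).hasSum.mul_left _)
  have h2 := h1.tendsto_sum_nat
  have h3 : ∀ N : ℕ, ∑ i ∈ Finset.range N, (((n : ℝ) + 2) ^ 3 * T (n + 2) i -
      Pc n * T (n + 1) i + ((n : ℝ) + 1) ^ 3 * T n i) = U n ((N : ℝ) + 1) := by
    intro N
    induction N with
    | zero => simp [U_one]
    | succ N ih =>
      rw [Finset.sum_range_succ, ih]
      have h4 := tele' n (show (0:ℝ) < (N : ℝ) + 1 by positivity)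
      unfold T
      rw [h4]
      push_cast
      ring
  have h5 : Filter.Tendsto (fun N : ℕ => U n ((N : ℝ) + 1)) Filter.atTop (nhds 0) := by
    have h6 : Filter.Tendsto (fun N : ℕ => (20 * (2 * (n : ℝ) + 3) + 8 * (2 * n + 3) *
        (3 + (2 * n + 3) ^ 2) * (n + 2)) / ((N : ℝ) + 1)) Filter.atTop (nhds 0) :=
      tendsto_const_nhds.div_atTop
        (Filter.tendsto_atTop_add_const_right _ _ tendsto_natCast_atTop_atTop)
    refine squeeze_zero_norm (fun N => ?_) h6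
    rw [Real.norm_eq_abs]
    exact U_abs_le n (by have : (0:ℝ) ≤ N := Nat.cast_nonneg N; linarith)
  exact tendsto_nhds_unique (h2.congr h3) h5


/-! ## decay -/

theorem Pc_ge (n : ℕ) : 2 * ((n : ℝ) + 2) ^ 3 ≤ Pc n - 32 * ((n : ℝ) + 1) ^ 3 := by
  unfold Pc
  have hN : (0:ℝ) ≤ n := Nat.cast_nonneg n
  nlinarith [mul_nonneg hN hN, mul_nonneg (mul_nonneg hN hN) hN]

theorem growth {n : ℕ} (h : |I n| < 32 * |I (n + 1)|) :
    2 * |I (n + 1)| ≤ |I (n + 2)| := by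
  have h1 := rec_I n
  have hN : (0:ℝ) ≤ n := Nat.cast_nonneg n
  have h2 : ((n : ℝ) + 2) ^ 3 * I (n + 2) = Pc n * I (n + 1) - ((n : ℝ) + 1) ^ 3 * I n := by
    linarith
  have hPc := Pc_ge n
  have h5 : (0:ℝ) < ((n : ℝ) + 2) ^ 3 := by positivity
  have h6 : (0:ℝ) < ((n : ℝ) + 1) ^ 3 := by positivity
  have hP0 : 0 < Pc n := by linarith
  have h3 : ((n : ℝ) + 2) ^ 3 * |I (n + 2)| ≥ Pc n * |I (n + 1)| - ((n : ℝ) + 1) ^ 3 * |I n| := by
    have h4 := abs_sub_abs_le_abs_sub (Pc n * I (n + 1)) (((n : ℝ) + 1) ^ 3 * I n)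
    rw [← h2, abs_mul, abs_mul, abs_mul, abs_of_pos hP0, abs_of_pos h5, abs_of_pos h6] at h4
    exact h4
  have h7 : ((n : ℝ) + 1) ^ 3 * |I n| ≤ ((n : ℝ) + 1) ^ 3 * (32 * |I (n + 1)|) :=
    mul_le_mul_of_nonneg_left h.le h6.le
  have h8 : 2 * ((n : ℝ) + 2) ^ 3 * |I (n + 1)| ≤
      (Pc n - 32 * ((n : ℝ) + 1) ^ 3) * |I (n + 1)| :=
    mul_le_mul_of_nonneg_right hPc (abs_nonneg _)
  have h9 : ((n : ℝ) + 2) ^ 3 * (2 * |I (n + 1)|) ≤ ((n : ℝ) + 2) ^ 3 * |I (n + 2)| := by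
    nlinarith
  exact le_of_mul_le_mul_left h9 h5

theorem decay (n : ℕ) : 32 * |I (n + 1)| ≤ |I n| := by
  by_contra hcon
  push Not at hcon
  have key : ∀ k : ℕ, 2 ^ k * |I (n + 1)| ≤ |I (n + 1 + k)| ∧ |I (n + k)| < 32 * |I (n + 1 + k)| := by
    intro k
    induction k with
    | zero => simpa using hcon
    | succ k ih =>
      obtain ⟨h1, h2⟩ := ih
      have e1 : n + 1 + k = n + k + 1 := by omega
      have e2 : n + 1 + (k + 1) = n + k + 2 := by omega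
      have e3 : n + (k + 1) = n + k + 1 := by omega
      rw [e1] at h1 h2
      rw [e2, e3]
      have h3 := growth h2
      have h4 : 0 < |I (n + k + 1)| := by
        have := abs_nonneg (I (n + k))
        linarith
      refine ⟨?_, by linarith⟩
      rw [pow_succ]
      nlinarith
  have hpos : 0 < |I (n + 1)| := by
    have := abs_nonneg (I n)
    linarith
  have hZ := Z3_pos
  have h1 : Filter.Tendsto (fun k : ℕ => (k : ℝ) * (1 / 2 : ℝ) ^ k) Filter.atTop (nhds 0) :=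
    tendsto_self_mul_const_pow_of_lt_one (by norm_num) (by norm_num)
  have h2 : Filter.Tendsto (fun k : ℕ => (1 / 2 : ℝ) ^ k) Filter.atTop (nhds 0) :=
    tendsto_pow_atTop_nhds_zero_of_lt_one (by norm_num) (by norm_num)
  have h3 : Filter.Tendsto (fun k : ℕ => 2 * Z3 * ((k : ℝ) * (1 / 2 : ℝ) ^ k +
      ((n : ℝ) + 2) * (1 / 2 : ℝ) ^ k)) Filter.atTop (nhds (2 * Z3 * (0 + ((n : ℝ) + 2) * 0))) :=
    (h1.add (h2.const_mul _)).const_mul _
  have h4 : 2 * Z3 * (0 + ((n : ℝ) + 2) * 0) < |I (n + 1)| := by simpa using hpos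
  obtain ⟨k, hk⟩ := (h3.eventually_lt_const h4).exists
  have h5 := (key k).1
  have h6 := I_abs_le (n + 1 + k)
  have h7 : 2 ^ k * |I (n + 1)| ≤ 2 * ((k : ℝ) + (n + 2)) * Z3 := by
    refine (h5.trans h6).trans (le_of_eq ?_)
    push_cast; ring
  have h8 : (0:ℝ) < 2 ^ k := by positivity
  have h9 : (1 / 2 : ℝ) ^ k = 1 / 2 ^ k := by rw [one_div_pow]
  rw [h9] at hk
  have h10 : 2 * Z3 * ((k : ℝ) * (1 / 2 ^ k) + ((n : ℝ) + 2) * (1 / 2 ^ k)) =
      (2 * ((k : ℝ) + (n + 2)) * Z3) / 2 ^ k := by field_simp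
  rw [h10, div_lt_iff₀ h8] at hk
  linarith

theorem I_small (n : ℕ) : |I n| ≤ 2 * Z3 / 32 ^ n := by
  induction n with
  | zero =>
    rw [I_zero, abs_mul, abs_neg, abs_two, abs_of_pos Z3_pos]; simp
  | succ n ih =>
    have := decay n
    rw [pow_succ]
    have h1 : 2 * Z3 / (32 ^ n * 32) = (2 * Z3 / 32 ^ n) / 32 := by field_simp
    rw [h1]
    linarith

theorem I_nonzero (N : ℕ) : ¬ (I N = 0 ∧ I (N + 1) = 0) := by
  induction N with
  | zero =>
    rintro ⟨h, _⟩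
    rw [I_zero] at h
    have := Z3_pos
    linarith
  | succ N ih =>
    rintro ⟨h1, h2⟩
    apply ih
    refine ⟨?_, h1⟩
    have h3 := rec_I N
    rw [h1, show N + 2 = N + 1 + 1 from rfl, h2] at h3
    have h6 : (0:ℝ) < ((N : ℝ) + 1) ^ 3 := by positivity
    have h7 : ((N : ℝ) + 1) ^ 3 * I N = 0 := by linarith
    rcases mul_eq_zero.1 h7 with h | h
    · exact absurd h h6.ne'
    · exact h

/-! ## partial fractions -/

def f (n k : ℕ) : ℤ := (-1) ^ n * ((-1) ^ k * (n.choose k) * ((n + k).choose n))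

theorem sum_f (n : ℕ) : ∑ k ∈ Finset.range (n + 1), f n k = 1 := by
  have h1 := Polynomial.shiftedLegendre_eval_symm n (R := ℤ) 1
  rw [sub_self] at h1
  have h2 : Polynomial.aeval (1:ℤ) (Polynomial.shiftedLegendre n) =
      ∑ k ∈ Finset.range (n + 1), (-1) ^ k * ((n.choose k : ℕ) : ℤ) * (((n + k).choose n : ℕ) : ℤ) := by
    rw [Polynomial.aeval_eq_sum_range' (n := n + 1)
      (by rw [Polynomial.natDegree_shiftedLegendre]; omega)]
    refine Finset.sum_congr rfl (fun k _ => ?_)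
    rw [Polynomial.coeff_shiftedLegendre]
    simp
  have h3 : Polynomial.aeval (0:ℤ) (Polynomial.shiftedLegendre n) = 1 := by
    rw [Polynomial.aeval_def, Polynomial.eval₂_at_zero, Polynomial.coeff_shiftedLegendre]
    simp
  have h4 : ∑ k ∈ Finset.range (n + 1), f n k = (-1) ^ n *
      Polynomial.aeval (1:ℤ) (Polynomial.shiftedLegendre n) := by
    rw [h2, Finset.mul_sum]
    rfl
  rw [h4, h1, h3, mul_one, ← mul_pow]
  simp

theorem f_succ {n k : ℕ} (hk : k ≤ n) :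
    (f (n + 1) k : ℝ) * ((n : ℝ) + 1 - k) = -((f n k : ℝ) * ((n : ℝ) + 1 + k)) := by
  have h1 := Nat.choose_mul_succ_eq n k
  have h2 := Nat.add_one_mul_choose_eq (n + k) n
  have h3 : (n.choose k : ℝ) * ((n : ℝ) + 1) = ((n + 1).choose k : ℝ) * ((n : ℝ) + 1 - k) := by
    have : ((n + 1 - k : ℕ) : ℝ) = (n : ℝ) + 1 - k := by
      rw [Nat.cast_sub (by omega)]; push_cast; ring
    rw [← this]
    exact_mod_cast h1
  have h4 : ((n : ℝ) + 1 + k) * ((n + k).choose n : ℝ) =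
      ((n + 1 + k).choose (n + 1) : ℝ) * ((n : ℝ) + 1) := by
    have e : n + 1 + k = n + k + 1 := by omega
    rw [e]
    have : ((n + k + 1 : ℕ) : ℝ) = (n : ℝ) + 1 + k := by push_cast; ring
    rw [← this]
    exact_mod_cast h2
  have h5 : ((n : ℝ) + 1) ≠ 0 := by positivity
  unfold f
  push_cast
  have h6 : ((-1 : ℝ) ^ (n + 1) * ((-1) ^ k * ((n + 1).choose k : ℝ) *
      ((n + 1 + k).choose (n + 1) : ℝ))) * ((n : ℝ) + 1 - k) * ((n : ℝ) + 1) =
      -(((-1 : ℝ) ^ n * ((-1) ^ k * (n.choose k : ℝ) * ((n + k).choose n : ℝ))) *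
        ((n : ℝ) + 1 + k)) * ((n : ℝ) + 1) := by
    calc _ = (-1 : ℝ) ^ (n + 1) * (-1) ^ k * (((n + 1).choose k : ℝ) * ((n : ℝ) + 1 - k)) *
          (((n + 1 + k).choose (n + 1) : ℝ) * ((n : ℝ) + 1)) := by ring
      _ = (-1 : ℝ) ^ (n + 1) * (-1) ^ k * ((n.choose k : ℝ) * ((n : ℝ) + 1)) *
          (((n : ℝ) + 1 + k) * ((n + k).choose n : ℝ)) := by rw [h3, h4]
      _ = _ := by ring
  exact mul_right_cancel₀ h5 h6

theorem F_pf (n : ℕ) {t : ℝ} (ht : 0 < t) :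
    F n t = ∑ k ∈ Finset.range (n + 1), (f n k : ℝ) / (t + k) := by
  induction n with
  | zero => simp [F_zero, f]
  | succ n ih =>
    rw [F_succ, ih]
    have hne : t + ((n : ℝ) + 1) ≠ 0 := by positivity
    rw [← mul_div_assoc, div_eq_iff hne]
    have hk : ∀ k : ℕ, t + (k : ℝ) ≠ 0 := fun k => by positivity
    have e1 : (∑ k ∈ Finset.range (n + 1), (f n k : ℝ) / (t + k)) * (t - ((n : ℝ) + 1)) =
        1 - ∑ k ∈ Finset.range (n + 1), (f n k : ℝ) * ((n : ℝ) + 1 + k) / (t + k) := by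
      have h1 : (1:ℝ) = ∑ k ∈ Finset.range (n + 1), (f n k : ℝ) := by
        exact_mod_cast (sum_f n).symm
      rw [h1, Finset.sum_mul, ← Finset.sum_sub_distrib]
      refine Finset.sum_congr rfl (fun k _ => ?_)
      have := hk k
      field_simp
      ring
    have e2 : (∑ k ∈ Finset.range (n + 1 + 1), (f (n + 1) k : ℝ) / (t + k)) *
        (t + ((n : ℝ) + 1)) =
        1 + ∑ k ∈ Finset.range (n + 1 + 1), (f (n + 1) k : ℝ) * ((n : ℝ) + 1 - k) / (t + k) := by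
      have h1 : (1:ℝ) = ∑ k ∈ Finset.range (n + 1 + 1), (f (n + 1) k : ℝ) := by
        exact_mod_cast (sum_f (n + 1)).symm
      rw [h1, Finset.sum_mul, ← Finset.sum_add_distrib]
      refine Finset.sum_congr rfl (fun k _ => ?_)
      have := hk k
      field_simp
      ring
    rw [e1, e2, Finset.sum_range_succ _ (n + 1)]
    have e3 : (f (n + 1) (n + 1) : ℝ) * ((n : ℝ) + 1 - ((n + 1 : ℕ) : ℝ)) /
        (t + ((n + 1 : ℕ) : ℝ)) = 0 := by
      push_cast; simp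
    rw [e3, add_zero, sub_eq_add_neg, ← Finset.sum_neg_distrib]
    congr 1
    refine Finset.sum_congr rfl (fun k hk' => ?_)
    rw [Finset.mem_range] at hk'
    rw [f_succ (show k ≤ n by omega), neg_div]

theorem D_pf (n : ℕ) {t : ℝ} (ht : 0 < t) :
    D n t = -∑ k ∈ Finset.range (n + 1), (f n k : ℝ) / (t + k) ^ 2 := by
  have h1 : HasDerivAt (fun t : ℝ => ∑ k ∈ Finset.range (n + 1), (f n k : ℝ) / (t + k))
      (∑ k ∈ Finset.range (n + 1), -((f n k : ℝ) / (t + k) ^ 2)) t := by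
    refine HasDerivAt.fun_sum (fun k _ => ?_)
    have hk : t + (k : ℝ) ≠ 0 := by positivity
    have h2 := (hasDerivAt_const t (f n k : ℝ)).div ((hasDerivAt_id' t).add_const (k : ℝ)) hk
    have h3 : -((f n k : ℝ) / (t + k) ^ 2) = (0 * (t + (k : ℝ)) - (f n k : ℝ) * 1) / (t + k) ^ 2 := by
      ring
    rw [h3]
    exact h2
  rw [← Finset.sum_neg_distrib]
  refine (hasDerivAt_F n ht).unique (h1.congr_of_eventuallyEq ?_)
  filter_upwards [lt_mem_nhds ht] with x hx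
  exact F_pf n hx

/-! ## the sums -/

noncomputable def Z (s : ℕ) : ℝ := ∑' i : ℕ, 1 / ((i : ℝ) + 1) ^ s

noncomputable def H (s k : ℕ) : ℝ := ∑ i ∈ Finset.range k, 1 / ((i : ℝ) + 1) ^ s

theorem hasSum_tail (s k : ℕ) (hs : 1 < s) :
    HasSum (fun i : ℕ => 1 / ((i : ℝ) + 1 + k) ^ s) (Z s - H s k) := by
  have h1 : HasSum (fun i : ℕ => 1 / ((i : ℝ) + 1) ^ s) (Z s - H s k + H s k) := by
    rw [sub_add_cancel]; exact (summable_z s hs).hasSum
  have h2 := (hasSum_nat_add_iff (f := fun i : ℕ => 1 / ((i : ℝ) + 1) ^ s) k).2 h1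
  refine h2.congr_fun (fun i => ?_)
  push_cast
  rw [show (i : ℝ) + k + 1 = (i : ℝ) + 1 + k by ring]

noncomputable def g (k l : ℕ) (t : ℝ) : ℝ :=
  1 / ((t + k) * (t + l) ^ 2) + 1 / ((t + l) * (t + k) ^ 2)

noncomputable def G (k l : ℕ) : ℝ :=
  if k = l then 2 * (Z3 - H 3 k) else (H 2 l - H 2 k) / ((l : ℝ) - k)

theorem hasSum_g (k l : ℕ) : HasSum (fun i : ℕ => g k l ((i : ℝ) + 1)) (G k l) := by
  unfold G
  split_ifs with h
  · subst h
    have h1 := (hasSum_tail 3 k (by norm_num)).mul_left 2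
    refine h1.congr_fun (fun i => ?_)
    unfold g
    have : (i : ℝ) + 1 + k ≠ 0 := by positivity
    field_simp
    norm_num
  · have hlk : (l : ℝ) - k ≠ 0 := by
      rw [sub_ne_zero]; exact_mod_cast (Ne.symm h)
    have h1 := ((hasSum_tail 2 k (by norm_num)).sub (hasSum_tail 2 l (by norm_num))).div_const
      ((l : ℝ) - k)
    have h2 : (Z 2 - H 2 k - (Z 2 - H 2 l)) / ((l : ℝ) - k) = (H 2 l - H 2 k) / ((l : ℝ) - k) := by
      congr 1; ring
    rw [h2] at h1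
    refine h1.congr_fun (fun i => ?_)
    unfold g
    have a1 : (i : ℝ) + 1 + k ≠ 0 := by positivity
    have a2 : (i : ℝ) + 1 + l ≠ 0 := by positivity
    field_simp
    ring

theorem T_pf (n i : ℕ) : T n i = -∑ k ∈ Finset.range (n + 1), ∑ l ∈ Finset.range (n + 1),
    (f n k : ℝ) * (f n l : ℝ) * g k l ((i : ℝ) + 1) := by
  have h0 : (0:ℝ) < (i : ℝ) + 1 := by positivity
  unfold T
  rw [F_pf n h0, D_pf n h0]
  have h1 : (∑ k ∈ Finset.range (n + 1), (f n k : ℝ) / ((i : ℝ) + 1 + k)) *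
      (∑ k ∈ Finset.range (n + 1), (f n k : ℝ) / ((i : ℝ) + 1 + k) ^ 2) =
      ∑ k ∈ Finset.range (n + 1), ∑ l ∈ Finset.range (n + 1),
        (f n k : ℝ) * (f n l : ℝ) * (1 / (((i : ℝ) + 1 + k) * ((i : ℝ) + 1 + l) ^ 2)) := by
    rw [Finset.sum_mul_sum]
    refine Finset.sum_congr rfl (fun k _ => Finset.sum_congr rfl (fun l _ => ?_))
    have a1 : (i : ℝ) + 1 + k ≠ 0 := by positivity
    have a2 : (i : ℝ) + 1 + l ≠ 0 := by positivity
    field_simp
  have h2 : ∑ k ∈ Finset.range (n + 1), ∑ l ∈ Finset.range (n + 1),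
        (f n k : ℝ) * (f n l : ℝ) * (1 / (((i : ℝ) + 1 + k) * ((i : ℝ) + 1 + l) ^ 2)) =
      ∑ k ∈ Finset.range (n + 1), ∑ l ∈ Finset.range (n + 1),
        (f n k : ℝ) * (f n l : ℝ) * (1 / (((i : ℝ) + 1 + l) * ((i : ℝ) + 1 + k) ^ 2)) := by
    rw [Finset.sum_comm]
    refine Finset.sum_congr rfl (fun k _ => Finset.sum_congr rfl (fun l _ => ?_))
    ring
  have h3 : ∑ k ∈ Finset.range (n + 1), ∑ l ∈ Finset.range (n + 1),
      (f n k : ℝ) * (f n l : ℝ) * g k l ((i : ℝ) + 1) =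
      ∑ k ∈ Finset.range (n + 1), ∑ l ∈ Finset.range (n + 1),
        (f n k : ℝ) * (f n l : ℝ) * (1 / (((i : ℝ) + 1 + k) * ((i : ℝ) + 1 + l) ^ 2)) +
      ∑ k ∈ Finset.range (n + 1), ∑ l ∈ Finset.range (n + 1),
        (f n k : ℝ) * (f n l : ℝ) * (1 / (((i : ℝ) + 1 + l) * ((i : ℝ) + 1 + k) ^ 2)) := by
    rw [← Finset.sum_add_distrib]
    refine Finset.sum_congr rfl (fun k _ => ?_)
    rw [← Finset.sum_add_distrib]
    refine Finset.sum_congr rfl (fun l _ => ?_)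
    unfold g
    ring
  rw [h3, ← h2, ← h1]
  ring

theorem I_pf (n : ℕ) : I n = -∑ k ∈ Finset.range (n + 1), ∑ l ∈ Finset.range (n + 1),
    (f n k : ℝ) * (f n l : ℝ) * G k l := by
  have h1 : HasSum (fun i : ℕ => -∑ k ∈ Finset.range (n + 1), ∑ l ∈ Finset.range (n + 1),
    (f n k : ℝ) * (f n l : ℝ) * g k l ((i : ℝ) + 1))
    (-∑ k ∈ Finset.range (n + 1), ∑ l ∈ Finset.range (n + 1),
    (f n k : ℝ) * (f n l : ℝ) * G k l) := by
    refine HasSum.neg (hasSum_sum (fun k _ => hasSum_sum (fun l _ => ?_)))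
    exact (hasSum_g k l).mul_left _
  unfold I
  rw [← h1.tsum_eq]
  exact tsum_congr (fun i => T_pf n i)

/-! ## integrality -/

def InA (x : ℝ) : Prop := ∃ c z : ℤ, x = c * Z3 + z

theorem InA.add {x y : ℝ} (hx : InA x) (hy : InA y) : InA (x + y) := by
  obtain ⟨c, z, rfl⟩ := hx
  obtain ⟨c', z', rfl⟩ := hy
  exact ⟨c + c', z + z', by push_cast; ring⟩

theorem InA.zmul {x : ℝ} (m : ℤ) (hx : InA x) : InA (m * x) := by
  obtain ⟨c, z, rfl⟩ := hx
  exact ⟨m * c, m * z, by push_cast; ring⟩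

theorem InA.sum {ι : Type*} {s : Finset ι} {x : ι → ℝ} (h : ∀ i ∈ s, InA (x i)) :
    InA (∑ i ∈ s, x i) := by
  classical
  induction s using Finset.induction_on with
  | empty => exact ⟨0, 0, by simp⟩
  | @insert a s ha ih =>
    rw [Finset.sum_insert ha]
    exact (h a (Finset.mem_insert_self a s)).add
      (ih (fun i hi => h i (Finset.mem_insert_of_mem hi)))

/-- `x` is an integer -/
def IsInt (x : ℝ) : Prop := ∃ z : ℤ, x = z

theorem IsInt.sum {ι : Type*} {s : Finset ι} {x : ι → ℝ} (h : ∀ i ∈ s, IsInt (x i)) :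
    IsInt (∑ i ∈ s, x i) := by
  classical
  induction s using Finset.induction_on with
  | empty => exact ⟨0, by simp⟩
  | @insert a s ha ih =>
    rw [Finset.sum_insert ha]
    obtain ⟨z, hz⟩ := h a (Finset.mem_insert_self a s)
    obtain ⟨z', hz'⟩ := ih (fun i hi => h i (Finset.mem_insert_of_mem hi))
    exact ⟨z + z', by rw [hz, hz']; push_cast; rfl⟩

noncomputable def dd (n : ℕ) : ℕ := Nat.lcmUpto n

theorem dvd_dd {n k : ℕ} (h1 : 1 ≤ k) (h2 : k ≤ n) : k ∣ dd n := by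
  unfold dd Nat.lcmUpto
  exact Finset.dvd_lcm (f := id) (Finset.mem_Icc.2 ⟨h1, h2⟩)

theorem H_int {n k s : ℕ} (hk : k ≤ n) : IsInt ((dd n : ℝ) ^ s * H s k) := by
  unfold H
  rw [Finset.mul_sum]
  refine IsInt.sum (fun i hi => ?_)
  rw [Finset.mem_range] at hi
  obtain ⟨c, hc⟩ := dvd_dd (n := n) (k := i + 1) (by omega) (by omega)
  refine ⟨(c : ℤ) ^ s, ?_⟩
  rw [hc]
  push_cast
  have : ((i : ℝ) + 1) ≠ 0 := by positivity
  rw [mul_pow]
  field_simp

theorem inv_int {n k l : ℕ} (hk : k ≤ n) (hl : l ≤ n) (hkl : k ≠ l) :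
    IsInt ((dd n : ℝ) / ((l : ℝ) - k)) := by
  have key : ∀ {k l : ℕ}, k < l → l ≤ n → IsInt ((dd n : ℝ) / ((l : ℝ) - k)) := by
    intro k l h h2
    obtain ⟨c, hc⟩ := dvd_dd (n := n) (k := l - k) (by omega) (by omega)
    refine ⟨c, ?_⟩
    have h3 : (l : ℝ) - k = ((l - k : ℕ) : ℝ) := by rw [Nat.cast_sub h.le]
    have h4 : ((l - k : ℕ) : ℝ) ≠ 0 := by
      have : 0 < l - k := by omega
      positivity
    rw [h3, div_eq_iff h4, hc]
    push_cast; ring
  rcases lt_or_gt_of_ne hkl with h | h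
  · exact key h hl
  · obtain ⟨z, hz⟩ := key h hk
    refine ⟨-z, ?_⟩
    have : (l : ℝ) - k = -((k : ℝ) - l) := by ring
    rw [this, div_neg, hz]
    push_cast; rfl

theorem G_int {n k l : ℕ} (hk : k ≤ n) (hl : l ≤ n) : InA ((dd n : ℝ) ^ 3 * G k l) := by
  unfold G
  split_ifs with h
  · obtain ⟨z, hz⟩ := H_int (s := 3) hk
    refine ⟨2 * (dd n : ℤ) ^ 3, -2 * z, ?_⟩
    push_cast
    rw [← hz]; ring
  · obtain ⟨z, hz⟩ := H_int (s := 2) hk
    obtain ⟨z', hz'⟩ := H_int (s := 2) hl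
    obtain ⟨c, hc⟩ := inv_int hk hl h
    refine ⟨0, c * (z' - z), ?_⟩
    push_cast
    rw [← hz, ← hz', ← hc]
    ring

theorem I_int (n : ℕ) : InA ((dd n : ℝ) ^ 3 * I n) := by
  rw [I_pf]
  have h1 : (dd n : ℝ) ^ 3 * -∑ k ∈ Finset.range (n + 1), ∑ l ∈ Finset.range (n + 1),
    (f n k : ℝ) * (f n l : ℝ) * G k l = ∑ k ∈ Finset.range (n + 1),
      ∑ l ∈ Finset.range (n + 1), (((-(f n k * f n l) : ℤ) : ℝ) * ((dd n : ℝ) ^ 3 * G k l)) := by
    rw [mul_neg, Finset.mul_sum, ← Finset.sum_neg_distrib]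
    refine Finset.sum_congr rfl (fun k _ => ?_)
    rw [Finset.mul_sum, ← Finset.sum_neg_distrib]
    refine Finset.sum_congr rfl (fun l _ => ?_)
    push_cast
    ring
  rw [h1]
  refine InA.sum (fun k hk => InA.sum (fun l hl => InA.zmul _ ?_))
  rw [Finset.mem_range] at hk hl
  exact G_int (by omega) (by omega)

/-! ## the theorem -/

theorem log_dd (n : ℕ) : Real.log (dd n) = Chebyshev.psi n := by
  unfold dd
  exact (Chebyshev.psi_eq_log_lcmUpto n).symm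

theorem dd_pos (n : ℕ) : (0:ℝ) < dd n := by
  unfold dd
  exact_mod_cast Nat.lcmUpto_pos n

theorem dd_le : ∀ᶠ n : ℕ in Filter.atTop, (dd n : ℝ) ^ 3 ≤ Real.exp (33 / 10 * n) := by
  have h1 := PNT.psi_tendsto.comp (tendsto_natCast_atTop_atTop (R := ℝ))
  have h2 := h1.eventually_lt_const (show (1:ℝ) < 11 / 10 by norm_num)
  filter_upwards [h2, Filter.eventually_gt_atTop 0] with n h3 h4
  have h5 : (0:ℝ) < n := by exact_mod_cast h4
  simp only [Function.comp] at h3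
  rw [div_lt_iff₀ h5] at h3
  have h6 : (dd n : ℝ) = Real.exp (Chebyshev.psi n) := by
    rw [← log_dd, Real.exp_log (dd_pos n)]
  rw [h6, ← Real.exp_nat_mul]
  apply Real.exp_le_exp.2
  push_cast
  linarith

theorem irrational_Z3 : Irrational Z3 := by
  rintro ⟨r, hr⟩
  have hr' : Z3 * (r.den : ℝ) = (r.num : ℝ) := by
    rw [← hr]
    exact_mod_cast Rat.mul_den_eq_num r
  have hden : (0:ℝ) < r.den := by exact_mod_cast r.den_pos
  -- the integers
  have hint : ∀ n, ∃ z : ℤ, (r.den : ℝ) * ((dd n : ℝ) ^ 3 * I n) = z := by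
    intro n
    obtain ⟨c, z, h⟩ := I_int n
    refine ⟨c * r.num + r.den * z, ?_⟩
    rw [h]
    push_cast
    rw [← hr']
    ring
  have hlim : Filter.Tendsto (fun n : ℕ => (r.den : ℝ) * (2 * Z3) * Real.exp (-(1 / 10) * n))
      Filter.atTop (nhds ((r.den : ℝ) * (2 * Z3) * 0)) := by
    refine Filter.Tendsto.const_mul _ ?_
    refine Real.tendsto_exp_atBot.comp ?_
    have := (tendsto_natCast_atTop_atTop (R := ℝ)).const_mul_atTop_of_neg
      (show (-(1 / 10) : ℝ) < 0 by norm_num)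
    exact this
  rw [mul_zero] at hlim
  have hev : ∀ᶠ n : ℕ in Filter.atTop, I n = 0 := by
    filter_upwards [hlim.eventually_lt_const one_pos, dd_le] with n h1 h2
    obtain ⟨z, hz⟩ := hint n
    have h3 := I_small n
    have hlog2 : (0.6931471803 : ℝ) < Real.log 2 := Real.log_two_gt_d9
    have h4 : (32:ℝ) ^ n = Real.exp (5 * Real.log 2 * n) := by
      rw [show (32:ℝ) = 2 ^ 5 by norm_num, ← pow_mul]
      rw [show (5 * Real.log 2 * n : ℝ) = ((5 * n : ℕ) : ℝ) * Real.log 2 by push_cast; ring]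
      rw [Real.exp_nat_mul, Real.exp_log (by norm_num)]
    have hn : (0:ℝ) ≤ n := Nat.cast_nonneg n
    have hZ := Z3_pos
    have hd3 : (0:ℝ) < (dd n : ℝ) ^ 3 := pow_pos (dd_pos n) 3
    have h5 : |(r.den : ℝ) * ((dd n : ℝ) ^ 3 * I n)| < 1 := by
      refine lt_of_le_of_lt ?_ h1
      rw [abs_mul, abs_mul, abs_of_pos hden, abs_of_pos hd3]
      calc (r.den : ℝ) * ((dd n : ℝ) ^ 3 * |I n|) ≤
            (r.den : ℝ) * (Real.exp (33 / 10 * n) * (2 * Z3 / 32 ^ n)) := by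
            refine mul_le_mul_of_nonneg_left ?_ hden.le
            exact mul_le_mul h2 h3 (abs_nonneg _) (Real.exp_pos _).le
        _ = (r.den : ℝ) * (2 * Z3) * Real.exp (33 / 10 * n - 5 * Real.log 2 * n) := by
            rw [h4, Real.exp_sub]; ring
        _ ≤ (r.den : ℝ) * (2 * Z3) * Real.exp (-(1 / 10) * n) := by
            refine mul_le_mul_of_nonneg_left ?_ (by positivity)
            apply Real.exp_le_exp.2
            nlinarith
    rw [hz] at h5
    have h6 : z = 0 := by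
      have : |z| < 1 := by exact_mod_cast h5
      exact Int.abs_lt_one_iff.1 this
    rw [h6, Int.cast_zero] at hz
    rcases mul_eq_zero.1 hz with h | h
    · exact absurd h hden.ne'
    · rcases mul_eq_zero.1 h with h | h
      · exact absurd h hd3.ne'
      · exact h
  obtain ⟨N, hN⟩ := Filter.eventually_atTop.1 hev
  exact I_nonzero N ⟨hN N le_rfl, hN (N + 1) (by omega)⟩

end DIM3.Ap

/-- Apery's theorem -/
theorem DIM3.apery : Irrational (Z579.zr 3) := DIM3.Ap.irrational_Z3
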