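import Pool.Agent.Lib.DIM3.Defs
import Pool.Agent.Lib.Z579.BE12

/-!
# D8/D9: the archimedean bound
-/

open Polynomial Finset Z579

namespace DIM3

lemma det2_map {R S : Type*} [CommRing R] [CommRing S] (f : R →+* S) (μA μB : ℕ → R) (K : ℕ) :
    f (det2 μA μB K) = det2 (fun n => f (μA n)) (fun n => f (μB n)) K := by
  unfold det2
  rw [RingHom.map_det]
  congr 1
  ext i c
  rw [RingHom.mapMatrix_apply, Matrix.map_apply, Matrix.of_apply, Matrix.of_apply]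
  cases c <;> rfl

/-- index equivalence -/
def phi (K : ℕ) : Fin K ⊕ Fin K ≃ (Σ _ : Bool, Fin K) where
  toFun := Sum.elim (fun i => ⟨false, i⟩) (fun i => ⟨true, i⟩)
  invFun x := match x with
    | ⟨false, i⟩ => Sum.inl i
    | ⟨true, i⟩ => Sum.inr i
  left_inv x := by cases x <;> rfl
  right_inv x := by rcases x with ⟨b, i⟩; cases b <;> rfl

/-- rows -/
def rowE (K : ℕ) : (Σ _ : Bool, Fin K) ≃ Fin (2 * K) :=
  (phi K).symm.trans (finSumFinEquiv.trans (finCongr (two_mul K).symm))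

lemma rowE_phi (K : ℕ) (x : Fin K ⊕ Fin K) : ((rowE K (phi K x) : Fin (2 * K)) : ℕ) = row x := by
  unfold rowE
  rw [Equiv.trans_apply, Equiv.symm_apply_apply, Equiv.trans_apply, finCongr_apply]
  cases x with
  | inl i => simp [row]
  | inr i => simp [row, add_comm]

lemma det2_eq (ν : Bool → ℕ → ℂ) (K : ℕ) :
    det2 (ν false) (ν true) K = Matrix.det (Matrix.of fun i j : (Σ _ : Bool, Fin K) =>
      ν j.1 ((rowE K i : ℕ) + (j.2 : ℕ))) := by
  rw [← Matrix.det_submatrix_equiv_self (phi K)]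
  unfold det2
  congr 1
  ext i c
  rw [Matrix.submatrix_apply, Matrix.of_apply, Matrix.of_apply, rowE_phi]
  cases c <;> rfl

lemma momA_eq (a n : ℕ) : BE.momA 10 a n =
    ((∑' t : ℕ, Rr a ((a : ℝ) + t) * (((a : ℝ) + t) ^ 2) ^ n : ℝ) : ℂ) := by
  unfold BE.momA
  rw [Complex.ofReal_tsum]
  refine tsum_congr fun t => ?_
  unfold Rc Rr
  push_cast
  rw [pow_zero, mul_one]

lemma momB_eq (a n : ℕ) (b : ℕ → ℚ) : BE.momB 10 a b n = (((FB a 1 b (X ^ n) : ℚ) : ℝ) : ℂ) := by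
  unfold BE.momB FB
  have : (fun (_ : ℤ) (i : ℕ) => ((1 : ℕ) : ℚ) * b i) = fun _ i => b i := by
    funext _ i
    rw [Nat.cast_one, one_mul]
  rw [this]
  push_cast
  rfl

/-- D8/D9 -/
theorem archTot : ArchTot 4 (-72966) := by
  intro b _ δ hδ
  obtain ⟨c⟩ := BE.cert4
  obtain ⟨k0, hk0⟩ := BE.arch_of BE.ok4 c b δ hδ
  refine ⟨k0, fun k hk => ?_⟩
  have h := hk0 k hk (rowE _)
  have ea : BE.P4.al * k + BE.P4.a0 = pa 4 k := by
    simp only [BE.P4, pa]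
  have eK : BE.P4.mu * k + BE.P4.m0 = pK 4 k := by
    simp only [BE.P4, pK]
  have h1 := det2_eq (fun x n => EM.LC (BE.momF BE.P4.q (BE.P4.al * k + BE.P4.a0) b x) (X ^ n))
    (BE.P4.mu * k + BE.P4.m0)
  rw [← h1, ea, eK] at h
  have eq10 : BE.P4.q = 10 := rfl
  rw [eq10] at h
  have h2 : det2 (fun n => EM.LC (BE.momF 10 (pa 4 k) b false) (X ^ n))
      (fun n => EM.LC (BE.momF 10 (pa 4 k) b true) (X ^ n)) (pK 4 k) =
      ((det2 (fun n => ∑' t : ℕ, Rr (pa 4 k) ((pa 4 k : ℝ) + t) * (((pa 4 k : ℝ) + t) ^ 2) ^ n)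
      (fun n => ((FB (pa 4 k) 1 b (X ^ n) : ℚ) : ℝ)) (pK 4 k) : ℝ) : ℂ) := by
    have := det2_map Complex.ofRealHom
      (fun n => ∑' t : ℕ, Rr (pa 4 k) ((pa 4 k : ℝ) + t) * (((pa 4 k : ℝ) + t) ^ 2) ^ n)
      (fun n => ((FB (pa 4 k) 1 b (X ^ n) : ℚ) : ℝ)) (pK 4 k)
    rw [Complex.ofRealHom_eq_coe] at this
    rw [this]
    congr 1
    · funext n
      rw [EM.LC_X_pow]
      exact momA_eq _ _
    · funext n
      rw [EM.LC_X_pow]
      exact momB_eq _ _ _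
  rw [h2, Complex.norm_real, Real.norm_eq_abs] at h
  refine h.trans (le_of_eq ?_)
  congr 1
  simp only [BE.P4]
  push_cast
  ring

end DIM3
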