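import Pool.Agent.Lib.DIM3.Weight

/-!
# D1a: basis independence of the two-block determinant
-/

open Polynomial Finset Z579

namespace DIM3

/-- D1a -/
theorem basis : Basis := by
  intro LA LB K P QA QB hP hPd hQA hQAd hQB hQBd
  rw [hank2_eq, tbdet_basis LA LB K K P QA QB hP hPd hQA hQAd hQB hQBd,
    ← Matrix.det_submatrix_equiv_self (finSumFinEquiv (m := K) (n := K))]
  congr 1
  ext i c
  rw [Matrix.submatrix_apply, Matrix.of_apply, Matrix.of_apply]
  have hrow : ((finSumFinEquiv i : Fin (K + K)) : ℕ) = row i := by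
    rcases i with i | i
    · simp [row]
    · simp [row, add_comm]
  rcases c with j | j
  · have h1 : ((finSumFinEquiv (Sum.inl j : Fin K ⊕ Fin K) : Fin (K + K)) : ℕ) = j := by simp
    rw [hrow, h1, if_pos j.2]
    rfl
  · have h1 : ((finSumFinEquiv (Sum.inr j : Fin K ⊕ Fin K) : Fin (K + K)) : ℕ) = K + j := by
      simp [add_comm]
    rw [hrow, h1, if_neg (by omega), Nat.add_sub_cancel_left]
    rfl

end DIM3
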