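import Pool.Agent.Lib.DIM3.Disc

/-!
# More on integral functions on a residue disc
-/

open Polynomial Finset Z579

namespace DIM3

set_option linter.unusedSectionVars false

section

variable {p : ℕ} [hp : Fact p.Prime]

lemma not_dvd_ne {c : ℤ} (hc : ¬ (p : ℤ) ∣ c) : c ≠ 0 := fun h => hc (h ▸ dvd_zero _)

lemma not_dvd_sub {c d : ℤ} (hd : (p : ℤ) ∣ d) (hc : ¬ (p : ℤ) ∣ c) : ¬ (p : ℤ) ∣ c - d :=
  fun h => hc (by have := dvd_add h hd; rwa [sub_add_cancel] at this)

/-- the expansions of `1 / (x + c)` -/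
noncomputable def il (d c : ℤ) : PP := ((lin c)⁻¹, (lin (c - d))⁻¹)

lemma il_mem {d c : ℤ} (hd : (p : ℤ) ∣ d) (hc : ¬ (p : ℤ) ∣ c) : il d c ∈ IR p d := by
  refine ⟨1, X + Polynomial.C c, ?_, ?_⟩
  · rw [Polynomial.coeff_add, Polynomial.coeff_X_zero, Polynomial.coeff_C_zero, zero_add]
    exact hc
  · rw [evP_X_add, map_one]
    ext1
    · exact lin_mul_inv (not_dvd_ne hc)
    · exact lin_mul_inv (not_dvd_ne (not_dvd_sub hd hc))

lemma il_mul {d c : ℤ} (hd : (p : ℤ) ∣ d) (hc : ¬ (p : ℤ) ∣ c) :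
    ((lin c, lin (c - d)) : PP) * il d c = 1 := by
  ext1
  · exact lin_mul_inv (not_dvd_ne hc)
  · exact lin_mul_inv (not_dvd_ne (not_dvd_sub hd hc))

lemma lin_pair (d c : ℤ) : ((lin c, lin (c - d)) : PP) = xx d + (c : ℚ) • (1 : PP) := by
  ext1
  · simp only [xx, Prod.fst_add, Prod.smul_fst, Prod.fst_one, lin, PowerSeries.smul_eq_C_mul, mul_one]
  · simp only [xx, Prod.snd_add, Prod.smul_snd, Prod.snd_one, lin, PowerSeries.smul_eq_C_mul, mul_one]
    push_cast
    simp only [map_sub, map_neg]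
    ring

lemma xd_eq (d : ℤ) : xd d = xx d + (d : ℚ) • (1 : PP) := by
  rw [← xd_sub_xx]; ring

lemma constantCoeff_one_add (d : ℤ) (J : PP) :
    PowerSeries.constantCoeff (1 + xx d * xd d * J).1 = 1 ∧
      PowerSeries.constantCoeff (1 + xx d * xd d * J).2 = 1 := by
  constructor
  · simp [xx]
  · simp [xd]

lemma one_add_mul_pinv (d : ℤ) (J : PP) :
    (1 + xx d * xd d * J) * pinv (1 + xx d * xd d * J) = 1 := by
  obtain ⟨h1, h2⟩ := constantCoeff_one_add d J
  ext1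
  · exact PowerSeries.mul_inv_cancel _ (by rw [h1]; exact one_ne_zero)
  · exact PowerSeries.mul_inv_cancel _ (by rw [h2]; exact one_ne_zero)

lemma pinv_one_add_mem {d : ℤ} {J : PP} (hJ : J ∈ IR p d) :
    pinv (1 + xx d * xd d * J) ∈ IR p d := by
  obtain ⟨A, B, hB, hJ⟩ := hJ
  refine ⟨B, B + X * (X + Polynomial.C d) * A, ?_, ?_⟩
  · rw [Polynomial.coeff_add, mul_assoc, Polynomial.coeff_X_mul_zero, add_zero]
    exact hB
  · rw [map_add, map_mul, map_mul, evP_X, evP_X_add_d, ← hJ]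
    calc (evP d B + xx d * xd d * (evP d B * J)) * pinv (1 + xx d * xd d * J) =
        evP d B * ((1 + xx d * xd d * J) * pinv (1 + xx d * xd d * J)) := by ring
      _ = _ := by rw [one_add_mul_pinv, mul_one]

/-! ### coefficients of integral functions -/

lemma WA_inv_unit {f : PowerSeries ℚ} (hf : WA p 0 0 f)
    (h0 : VG p 0 (PowerSeries.constantCoeff f)⁻¹) : WA p 0 0 f⁻¹ := by
  intro j
  induction j using Nat.strong_induction_on with
  | _ j ih =>
    rw [PowerSeries.coeff_inv]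
    split_ifs with hj
    · simpa using h0
    · have h1 : VG p 0 (∑ x ∈ Finset.HasAntidiagonal.antidiagonal j, if x.2 < j then
          PowerSeries.coeff x.1 f * PowerSeries.coeff x.2 f⁻¹ else 0) := by
        refine VG.sum fun x _ => ?_
        split_ifs with hx
        · have h2 := hf x.1
          have h3 := ih x.2 hx
          have h4 := h2.mul h3
          simpa using h4
        · exact VG.zero' _ _
      have h2 := (h0.neg).mul h1
      simpa using h2

lemma WA_ev (e : ℤ) (A : ℤ[X]) : WA p 0 0 (ev e A) := by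
  induction A using Polynomial.induction_on' with
  | add f g hf hg => rw [map_add]; exact hf.add hg
  | monomial n c =>
    rw [← Polynomial.C_mul_X_pow_eq_monomial, map_mul, map_pow, ev_X, ev_C]
    have h1 : WA p 0 0 ((c : PowerSeries ℚ)) := by
      have := WA.const (K := 0) (VG.int (p := p) c)
      simpa using this
    have h2 := (WA.lin0 (p := p) (le_refl (0 : ℝ)) e).pow n
    simpa using h1.mul h2

lemma VG_inv_unit {β : ℤ} (hβ : ¬ (p : ℤ) ∣ β) : VG p 0 ((β : ℚ)⁻¹) := by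
  apply VG_of_mul_unit hβ
  rw [mul_inv_cancel₀ (by exact_mod_cast not_dvd_ne hβ)]
  exact VG.one

lemma pinv_evP_mem {d : ℤ} (hd : (p : ℤ) ∣ d) {B : ℤ[X]} (hB : ¬ (p : ℤ) ∣ B.coeff 0) :
    pinv (evP d B) ∈ IR p d :=
  ⟨1, B, hB, by rw [evP_mul_pinv hd hB, map_one]⟩

lemma IR_rep {d : ℤ} (hd : (p : ℤ) ∣ d) {A B : ℤ[X]} (hB : ¬ (p : ℤ) ∣ B.coeff 0) {h : PP}
    (hh : evP d B * h = evP d A) : h = evP d A * pinv (evP d B) := by
  rw [← hh]
  calc h = h * (evP d B * pinv (evP d B)) := by rw [evP_mul_pinv hd hB, mul_one]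
    _ = _ := by ring

lemma IR_WA {d : ℤ} (hd : (p : ℤ) ∣ d) {h : PP} (hh : h ∈ IR p d) :
    WA p 0 0 h.1 ∧ WA p 0 0 h.2 := by
  obtain ⟨A, B, hB, hh⟩ := hh
  rw [IR_rep hd hB hh]
  have hB' : ¬ (p : ℤ) ∣ B.eval (-d) := by
    intro h1
    have h4 := dvd_sub h1 (eval_neg_d hd B)
    rw [sub_sub_cancel] at h4
    exact hB h4
  constructor
  · have h1 : WA p 0 0 (ev 0 B)⁻¹ := WA_inv_unit (WA_ev 0 B) (by
      rw [constantCoeff_ev, ← Polynomial.coeff_zero_eq_eval_zero]
      exact VG_inv_unit hB)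
    have h2 := (WA_ev (p := p) 0 A).mul h1
    rw [add_zero] at h2
    exact h2
  · have h1 : WA p 0 0 (ev (-d) B)⁻¹ := WA_inv_unit (WA_ev (-d) B) (by
      rw [constantCoeff_ev]
      exact VG_inv_unit hB')
    have h2 := (WA_ev (p := p) (-d) A).mul h1
    rw [add_zero] at h2
    exact h2

/-! ### expansion in powers of `W - u^2` -/

lemma evP_C (d c : ℤ) : evP d (Polynomial.C c) = (c : ℚ) • (1 : PP) := by
  ext1
  · rw [evP_fst, ev_C]; simp [PowerSeries.smul_eq_C_mul]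
  · rw [evP_snd, ev_C]; simp [PowerSeries.smul_eq_C_mul]

lemma IR_split {d : ℤ} (hd : (p : ℤ) ∣ d) {h : PP} (hh : h ∈ IR p d) :
    ∃ c : ℚ, VG p 0 c ∧ ∃ h' ∈ IR p d, h = c • (1 : PP) + xx d * h' := by
  obtain ⟨A, B, hB, hh⟩ := hh
  have hrep := IR_rep hd hB hh
  set β := B.coeff 0 with hβ
  set α := A.coeff 0 with hα
  have hβ0 : (β : ℚ) ≠ 0 := by exact_mod_cast not_dvd_ne hB
  have hroot : (Polynomial.C β * A - Polynomial.C α * B).coeff 0 = 0 := by
    rw [Polynomial.coeff_sub, Polynomial.mul_coeff_zero, Polynomial.mul_coeff_zero,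
      Polynomial.coeff_C_zero, Polynomial.coeff_C_zero, hβ, hα]
    ring
  obtain ⟨A', hA'⟩ := Polynomial.X_dvd_iff.2 hroot
  have hBinv := evP_mul_pinv hd hB
  have h1 : (β : ℚ) • h = (α : ℚ) • (1 : PP) + xx d * (evP d A' * pinv (evP d B)) := by
    rw [hrep]
    have h2 := congrArg (evP d) hA'
    rw [map_sub, map_mul, map_mul, map_mul, evP_X, evP_C, evP_C, smul_mul_assoc, smul_mul_assoc,
      one_mul, one_mul] at h2
    calc (β : ℚ) • (evP d A * pinv (evP d B)) =
        ((β : ℚ) • evP d A - (α : ℚ) • evP d B) * pinv (evP d B) +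
          (α : ℚ) • (evP d B * pinv (evP d B)) := by
          rw [sub_mul, smul_mul_assoc, smul_mul_assoc]; ring
      _ = _ := by rw [h2, hBinv]; ring
  refine ⟨(β : ℚ)⁻¹ * α, ?_, (β : ℚ)⁻¹ • (evP d A' * pinv (evP d B)), ?_, ?_⟩
  · have := (VG_inv_unit hB).mul (VG.int (p := p) α)
    simpa using this
  · exact smul_mem_IR d (VG_inv_unit hB) ((IR p d).mul_mem (evP_mem d A') (pinv_evP_mem hd hB))
  · calc h = (β : ℚ)⁻¹ • ((β : ℚ) • h) := by rw [smul_smul, inv_mul_cancel₀ hβ0, one_smul]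
      _ = _ := by
        rw [h1, smul_add, smul_smul, mul_smul_comm]

/-- expansions of a polynomial in `W = v^2` at the two poles `v = -u`, `v = -u-d` -/
noncomputable def GP (d u : ℤ) : ℚ[X] →ₐ[ℚ] PP :=
  Polynomial.aeval ((lin (-u) ^ 2, lin (-u - d) ^ 2) : PP)

lemma GP_fst (d u : ℤ) (G : ℚ[X]) : (GP d u G).1 = Polynomial.aeval (lin (-u) ^ 2) G := by
  have h : (AlgHom.fst ℚ (PowerSeries ℚ) (PowerSeries ℚ)).comp (GP d u) =
      Polynomial.aeval (lin (-u) ^ 2) := by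
    apply Polynomial.algHom_ext
    simp [GP]
  exact congrArg (fun f => f G) h

lemma GP_snd (d u : ℤ) (G : ℚ[X]) : (GP d u G).2 = Polynomial.aeval (lin (-(u + d)) ^ 2) G := by
  have h : (AlgHom.snd ℚ (PowerSeries ℚ) (PowerSeries ℚ)).comp (GP d u) =
      Polynomial.aeval (lin (-(u + d)) ^ 2) := by
    apply Polynomial.algHom_ext
    simp only [GP, AlgHom.comp_apply, Polynomial.aeval_X, AlgHom.snd_apply]
    congr 2
    ring
  exact congrArg (fun f => f G) h

/-- integral polynomials -/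
def IPoly (p : ℕ) (G : ℚ[X]) : Prop := ∀ n, VG p 0 (G.coeff n)

lemma GP_mem (d u : ℤ) {G : ℚ[X]} (hG : IPoly p G) : GP d u G ∈ IR p d := by
  rw [GP, Polynomial.aeval_eq_sum_range]
  refine Subring.sum_mem _ fun i _ => ?_
  refine smul_mem_IR d (hG i) (Subring.pow_mem _ ?_ _)
  have h1 : ((lin (-u) ^ 2, lin (-u - d) ^ 2) : PP) = (lin (-u), lin (-u - d)) ^ 2 := rfl
  rw [h1]
  exact Subring.pow_mem _ (lin_mem d (-u)) 2

/-- the function `W - u^2` -/
noncomputable def ww (d u : ℤ) : PP := xx d * (lin (-2 * u), lin (-2 * u - d))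

lemma GP_ww (d u : ℤ) : GP d u (X - Polynomial.C ((u : ℚ) ^ 2)) = ww d u := by
  have h1 : ((lin (-u) ^ 2, lin (-u - d) ^ 2) : PP) = (lin (-u), lin (-u - d)) ^ 2 := rfl
  rw [GP, map_sub, Polynomial.aeval_X, Polynomial.aeval_C, ww, h1, lin_pair, lin_pair,
    Algebra.algebraMap_eq_smul_one]
  have h2 : ((u : ℚ) ^ 2) • (1 : PP) = ((u : ℚ) • (1 : PP)) ^ 2 := by
    rw [_root_.smul_pow, one_pow]
  have h3 : ((-u : ℤ) : ℚ) • (1 : PP) = -((u : ℚ) • (1 : PP)) := by
    push_cast; rw [neg_smul]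
  have h4 : ((-2 * u : ℤ) : ℚ) • (1 : PP) = -2 * ((u : ℚ) • (1 : PP)) := by
    push_cast
    rw [mul_smul, neg_smul, neg_mul]
    congr 1
    rw [two_smul, two_mul]
  rw [h2, h3, h4]
  ring

lemma IPoly.add {F G : ℚ[X]} (hF : IPoly p F) (hG : IPoly p G) : IPoly p (F + G) := fun n => by
  rw [Polynomial.coeff_add]; exact (hF n).add (hG n)

lemma IPoly.mul {F G : ℚ[X]} (hF : IPoly p F) (hG : IPoly p G) : IPoly p (F * G) := fun n => by
  rw [Polynomial.coeff_mul]
  refine VG.sum fun x _ => ?_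
  have := (hF x.1).mul (hG x.2)
  simpa using this

lemma IPoly.zero : IPoly p 0 := fun n => by simp; exact VG.zero' _ _

lemma IPoly.C {x : ℚ} (hx : VG p 0 x) : IPoly p (Polynomial.C x) := fun n => by
  rw [Polynomial.coeff_C]
  split_ifs
  · exact hx
  · exact VG.zero' _ _

lemma IPoly.one : IPoly p 1 := by
  have := IPoly.C (VG.one (p := p))
  simpa using this

lemma IPoly.var : IPoly p X := fun n => by
  rw [Polynomial.coeff_X]
  split_ifs
  · exact VG.one
  · exact VG.zero' _ _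

lemma IPoly.neg {F : ℚ[X]} (hF : IPoly p F) : IPoly p (-F) := fun n => by
  rw [Polynomial.coeff_neg]; exact (hF n).neg

lemma IPoly.sub {F G : ℚ[X]} (hF : IPoly p F) (hG : IPoly p G) : IPoly p (F - G) := by
  rw [sub_eq_add_neg]; exact hF.add hG.neg

lemma IPoly.pow {F : ℚ[X]} (hF : IPoly p F) (n : ℕ) : IPoly p (F ^ n) := by
  induction n with
  | zero => rw [pow_zero]; exact IPoly.one
  | succ n ih => rw [pow_succ]; exact ih.mul hF

lemma IPoly.X_sub_C (c : ℤ) : IPoly p (X - Polynomial.C (c : ℚ)) :=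
  IPoly.var.sub (IPoly.C (VG.int c))

lemma IPoly.int (G : ℤ[X]) : IPoly p (G.map (Int.castRingHom ℚ)) := fun n => by
  rw [Polynomial.coeff_map]
  exact VG.int _

lemma IPoly.prod {ι : Type*} {s : Finset ι} {f : ι → ℚ[X]} (h : ∀ i ∈ s, IPoly p (f i)) :
    IPoly p (∏ i ∈ s, f i) := by
  classical
  induction s using Finset.induction_on with
  | empty => rw [Finset.prod_empty]; exact IPoly.one
  | insert i s hi ih =>
    rw [Finset.prod_insert hi]
    exact (h i (Finset.mem_insert_self i s)).mul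
      (ih fun j hj => h j (Finset.mem_insert_of_mem hj))

theorem IR_expand {d u : ℤ} (hd : (p : ℤ) ∣ d) (hu : ¬ (p : ℤ) ∣ 2 * u) {h : PP}
    (hh : h ∈ IR p d) (N : ℕ) :
    ∃ S : ℚ[X], IPoly p S ∧ ∃ h' ∈ IR p d, h = GP d u S + ww d u ^ N * h' := by
  induction N with
  | zero => exact ⟨0, IPoly.zero, h, hh, by simp⟩
  | succ N ih =>
    obtain ⟨S, hS, h', hh', heq⟩ := ih
    obtain ⟨c, hc, h'', hh'', heq'⟩ := IR_split hd hh'
    have hu' : ¬ (p : ℤ) ∣ -2 * u := by
      intro h1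
      rw [neg_mul, dvd_neg] at h1
      exact hu h1
    refine ⟨S + Polynomial.C c * (X - Polynomial.C ((u : ℚ) ^ 2)) ^ N, ?_,
      il d (-2 * u) * h'', (IR p d).mul_mem (il_mem hd hu') hh'', ?_⟩
    · refine hS.add ((IPoly.C hc).mul (IPoly.pow ?_ N))
      have := IPoly.X_sub_C (p := p) (u ^ 2)
      push_cast at this
      exact this
    · rw [heq, heq', map_add, map_mul, map_pow, GP_ww]
      have h1 : GP d u (Polynomial.C c) = c • (1 : PP) := by
        rw [GP, Polynomial.aeval_C, Algebra.algebraMap_eq_smul_one]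
      have h2 := il_mul hd hu'
      have h3 : ww d u ^ (N + 1) * (il d (-2 * u) * h'') =
          ww d u ^ N * (xx d * h'') * ((lin (-2 * u), lin (-2 * u - d)) * il d (-2 * u)) := by
        rw [pow_succ]
        nth_rewrite 2 [ww]
        ring
      rw [h1, h3, h2]
      ring

end

end DIM3
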