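import Pool.Agent.Lib.Z579.Defs

/-!
# `dim_ℚ span(1, ζ(3), ζ(5), ζ(7), ζ(9)) ≥ 3`: definitions and module statements

Setting: `R(v) = 2 v / (∏_{|u| ≤ a-1} (v+u))^10`, `W = v^2`, no outer points (`B = 0`, `b = a`),
no derivative (`r = 0`).  `LA = Q (A + ∑ z_s λ_s)` (rational part), `LB = Q ∑ b_s λ_s`.
-/

open Polynomial Finset Z579

namespace DIM3

/-! ## the two-block determinant -/

/-- exponent of a row: `0, ..., K-1` (left) and `K, ..., 2K-1` (right) -/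
def row {K : ℕ} : Fin K ⊕ Fin K → ℕ := Sum.elim (fun i => (i : ℕ)) (fun i => K + (i : ℕ))

/-- two-block determinant of two sequences of moments -/
noncomputable def det2 {R : Type*} [CommRing R] (μA μB : ℕ → R) (K : ℕ) : R :=
  Matrix.det (Matrix.of fun i c : Fin K ⊕ Fin K =>
    Sum.elim (fun j : Fin K => μA (row i + j)) (fun j : Fin K => μB (row i + j)) c)

/-- two-block determinant of two functionals -/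
noncomputable def hank2 (LA LB : ℚ[X] →ₗ[ℚ] ℚ) (K : ℕ) : ℚ :=
  det2 (fun n => LA (X ^ n)) (fun n => LB (X ^ n)) K

/-- D1a: basis independence. -/
def Basis : Prop := ∀ (LA LB : ℚ[X] →ₗ[ℚ] ℚ) (K : ℕ) (P QA QB : ℕ → ℚ[X]),
  (∀ i, (P i).Monic) → (∀ i, (P i).natDegree = i) →
  (∀ i, (QA i).Monic) → (∀ i, (QA i).natDegree = i) →
  (∀ i, (QB i).Monic) → (∀ i, (QB i).natDegree = i) →
  hank2 LA LB K = Matrix.det (Matrix.of fun i c : Fin K ⊕ Fin K =>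
    Sum.elim (fun j : Fin K => LA (P (row i) * QA j)) (fun j : Fin K => LB (P (row i) * QB j)) c)

/-! ## the functionals -/

/-- `Q (A + ∑ z_s λ_s)` -/
noncomputable def FA (a Q : ℕ) (z : ℕ → ℚ) : ℚ[X] →ₗ[ℚ] ℚ := Lw 0 10 0 a a (wt 0 a Q z)

/-- `Q ∑ b_s λ_s` -/
noncomputable def FB (a Q : ℕ) (b : ℕ → ℚ) : ℚ[X] →ₗ[ℚ] ℚ :=
  Lw 0 10 0 a a (fun _ i => (Q : ℚ) * b i)

/-- support of the coefficient sequences, and `b 3 = 1`, `z 3 = 0` -/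
structure Adm (z b : ℕ → ℚ) : Prop where
  b3 : b 3 = 1
  z3 : z 3 = 0
  zs : ∀ s, s ≠ 5 → s ≠ 7 → s ≠ 9 → z s = 0
  bs : ∀ s, s ≠ 3 → s ≠ 5 → s ≠ 7 → s ≠ 9 → b s = 0

/-- `ζ(s) = z s + b s ζ(3)` for `s = 5, 7, 9` -/
structure IsZB (z b : ℕ → ℚ) : Prop extends Adm z b where
  r5 : zr 5 = z 5 + b 5 * zr 3
  r7 : zr 7 = z 7 + b 7 * zr 3
  r9 : zr 9 = z 9 + b 9 * zr 3

/-- the rational function on the real line -/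
noncomputable def Rr (a : ℕ) (v : ℝ) : ℝ := 2 * v / (∏ w ∈ pc a, (v + (w : ℝ))) ^ 10

/-- D1b: the determinant is the real determinant of `F(W^n) = ∑_{v ≥ a} R(v) v^(2n)` and of the
`λ'(W^n)`. -/
def RealId : Prop := ∀ (a Q K : ℕ) (z b : ℕ → ℚ), IsZB z b → 1 ≤ a → 6 * K + 9 ≤ 20 * a →
  ((hank2 (FA a Q z) (FB a Q b) K : ℚ) : ℝ) =
    (Q : ℝ) ^ (2 * K) * det2 (fun n => ∑' t : ℕ, Rr a ((a : ℝ) + t) * (((a : ℝ) + t) ^ 2) ^ n)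
      (fun n => ((FB a 1 b (X ^ n) : ℚ) : ℝ)) K

/-- the parameters: `p = 2 m k + 1`, `2 a - 1 = 5 p`, `K = 7 p` -/
def pa (m k : ℕ) : ℕ := 5 * m * k + 3

def pK (m k : ℕ) : ℕ := 14 * m * k + 7

/-- D8/D9: the archimedean bound (in the scale `k`, `E = 40 a K - 6 K^2 ~ 1624 m^2 k^2`). -/
def ArchTot (m : ℕ) (A0 : ℝ) : Prop := ∀ b : ℕ → ℚ, (∀ s, s ≤ 2 → b s = 0) →
  ∀ δ : ℝ, 0 < δ → ∃ k0 : ℕ, ∀ k : ℕ, k0 ≤ k →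
  |det2 (fun n => ∑' t : ℕ, Rr (pa m k) ((pa m k : ℝ) + t) * (((pa m k : ℝ) + t) ^ 2) ^ n)
      (fun n => ((FB (pa m k) 1 b (X ^ n) : ℚ) : ℝ)) (pK m k)| ≤
    Real.exp (k ^ 2 * (-(1624 * m ^ 2) * Real.log k + A0 + δ))

/-! ## `p`-adic bounds -/

/-- D2a: the two-block weight lemma (real relaxation of the class optimum). -/
def Weight : Prop := ∀ (p : ℕ) (LA LB : ℚ[X] →ₗ[ℚ] ℚ) (I : Finset ℤ) (x : ℤ → ℚ) (e : ℤ → ℝ)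
  (K : ℕ) (lA lB : ℝ), p.Prime → I.Nonempty →
  (∀ (N : ℤ → ℕ) (t : ℝ), (∀ c ∈ I, t ≤ N c - e c) →
    VG p t (LA (∏ c ∈ I, (X - Polynomial.C (x c)) ^ (N c)))) →
  (∀ (N : ℤ → ℕ) (t : ℝ), (∀ c ∈ I, t ≤ N c - e c + 3) →
    VG p t (LB (∏ c ∈ I, (X - Polynomial.C (x c)) ^ (N c)))) →
  VG p (-((lA + lB) * K + 1 / 3 * ∑ c ∈ I, ((e c + 1 - lA) ^ 2 -
    (e c + 1 - lA) * (e c - 2 - lB) + (e c - 2 - lB) ^ 2))) (hank2 LA LB K)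

/-- D2b: small primes; analogue of `M6e`. -/
def PSmall : Prop := ∃ C : ℝ, 0 ≤ C ∧ ∀ (p a K : ℕ) (ωA ωB : ℤ → ℕ → ℚ),
  p.Prime → 1 ≤ a → 1 ≤ K →
  (∀ u ∈ pc a, ∀ i : ℕ, 1 ≤ i → i ≤ 10 →
    VG p (-((i : ℝ) * (Nat.log p (4 * (a + K))))) (ωA u i)) →
  (∀ u ∈ pc a, ∀ i : ℕ, 1 ≤ i → i ≤ 10 →
    VG p (-((i : ℝ) * (Nat.log p (4 * (a + K))))) (ωB u i)) →
  VG p (-((40 * a * K - 6 * (K : ℝ) ^ 2) / (p - 1) + C * (1 + Nat.log p (4 * (a + K))) * K))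
    (hank2 (Lw 0 10 0 a a ωA) (Lw 0 10 0 a a ωB) K)

/-- D3: the class bound for all classes (sharp up to `O(1)` when every class has at least three
points), `ρ = (2a-1) mod p`. -/
def PMid : Prop := ∀ (p a K : ℕ) (ωA ωB : ℤ → ℕ → ℚ),
  p.Prime → p ≠ 2 → 1 ≤ a → p ≤ 2 * a - 1 → 2 * a ≤ p ^ 2 →
  (∀ u ∈ pc a, ∀ i : ℕ, 1 ≤ i → i ≤ 10 → VG p (-(i : ℝ)) (ωA u i)) →
  (∀ u ∈ pc a, ∀ i : ℕ, 1 ≤ i → i ≤ 10 → VG p 0 (ωB u i)) →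
  (∀ u ∈ pc a, ∀ i : ℕ, i ≤ 2 → ωB u i = 0) →
  VG p (-((40 * a * K - 6 * (K : ℝ) ^ 2) / p - K +
    50 / 3 * ((((2 * a - 1) % p : ℕ) : ℝ) * (p - ((2 * a - 1) % p : ℕ)) / p) +
    1 / 6 * (6 * K / p + 10) ^ 2)) (hank2 (Lw 0 10 0 a a ωA) (Lw 0 10 0 a a ωB) K)

/-- restriction of a functional to a set of poles -/
noncomputable def LwS (a : ℕ) (ω : ℤ → ℕ → ℚ) (S : Finset ℤ) (G : ℚ[X]) : ℚ :=
  ∑ u ∈ S, ∑ i ∈ Finset.Icc 1 10, ω u i * Acoef 10 0 a a u i G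

/-- the poles in classes with exactly `n` poles -/
noncomputable def pcn (p a n : ℕ) : Finset ℤ :=
  (pc a).filter fun u => ((pc a).filter fun w => (p : ℤ) ∣ w - u).card = n

/-- D4: on the classes with exactly two poles the functional `LB` is `LA ∘ (p S)` up to a
`p`-integral functional; `S` can be taken divisible by any given power of the other classes. -/
def TwoRel : Prop := ∀ (p a N : ℕ) (z b : ℕ → ℚ),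
  p.Prime → p ≠ 2 → 1 ≤ a → 2 * a - 1 < 3 * p → p ≤ 2 * a - 1 → 2 * a ≤ p ^ 2 → Adm z b →
  (∀ s, VG p 0 (z s)) → (∀ s, VG p 0 (b s)) →
  ∃ S : ℤ[X], ∀ G : ℤ[X],
    VG p 0 (LwS a (fun _ i => b i) (pcn p a 2) (G.map (Int.castRingHom ℚ)) -
      LwS a (wt 0 a 1 z) (pcn p a 2) (Polynomial.C (p : ℚ) *
        ((S * ∏ c ∈ (Ip p).filter (fun c => c ∈ pcn p a 3), (X - Polynomial.C (c ^ 2)) ^ N) *
          G).map (Int.castRingHom ℚ)))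

/-- D5a: `(2a-1)/3 < p < a`. -/
def PTwo1 : Prop := ∀ (p a K : ℕ) (z b : ℕ → ℚ),
  p.Prime → p ≠ 2 → 2 * a - 1 < 3 * p → p < a → 2 * a ≤ p ^ 2 → Adm z b →
  (∀ s, VG p 0 (z s)) → (∀ s, VG p 0 (b s)) →
  VG p (-(K + 50 * (3 * (p : ℝ) - 2 * a + 1) + 281 * ((a : ℝ) - p)))
    (hank2 (FA a 1 z) (FB a 1 b) K)

/-- D5b: `a ≤ p ≤ 2a-1`. -/
def PTwo2 : Prop := ∀ (p a K : ℕ) (z b : ℕ → ℚ),
  p.Prime → p ≠ 2 → a ≤ p → p ≤ 2 * a - 1 → 2 * a ≤ p ^ 2 → Adm z b →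
  (∀ s, VG p 0 (z s)) → (∀ s, VG p 0 (b s)) →
  VG p (-(K + 50 * (2 * (a : ℝ) - 1 - p))) (hank2 (FA a 1 z) (FB a 1 b) K) ∧
  VG p (-(55 * (2 * (a : ℝ) - 1 - p))) (hank2 (FA a 1 z) (FB a 1 b) K)

/-- D5c: `p ≥ 2a-1`. -/
def PBig : Prop := ∀ (p a K : ℕ) (z b : ℕ → ℚ),
  p.Prime → 1 ≤ a → 2 * a - 1 ≤ p → Adm z b →
  (∀ s, VG p 0 (z s)) → (∀ s, VG p 0 (b s)) → VG p 0 (hank2 (FA a 1 z) (FB a 1 b) K)

/-! ## nonvanishing at the prime `p = (2a-1)/5` -/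

/-- expansion at `ξ = -j` (local coordinate `x`, `ξ = x - j`) of `(∏_{j' ∈ S} (ξ + j'))^(-10)`
without the factor `j' = j` -/
noncomputable def locR (S : Finset ℤ) (j : ℤ) : PowerSeries ℚ :=
  ((∏ i ∈ S.erase j, lin (i - j))⁻¹) ^ 10

/-- the germ of `F` at `ξ = -j`: `∑_{i<j} 1/(ξ+i) - ∑_{i>j} 1/(ξ+i)` -/
noncomputable def locF (S : Finset ℤ) (j : ℤ) : PowerSeries ℚ :=
  ∑ i ∈ S.filter (· < j), (lin (i - j))⁻¹ - ∑ i ∈ S.filter (j < ·), (lin (i - j))⁻¹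

/-- local moments of `F`, noncentral class: poles `ξ = 0, -1, ..., -4` -/
noncomputable def fN (n : ℕ) : ℚ := ∑ j ∈ Finset.Icc (0 : ℤ) 4,
  PowerSeries.coeff 9 (locR (Finset.Icc 0 4) j * locF (Finset.Icc 0 4) j * lin (-j) ^ n)

/-- local moments of `λ_3`, noncentral class -/
noncomputable def gN (n : ℕ) : ℚ := ∑ j ∈ Finset.Icc (0 : ℤ) 4,
  PowerSeries.coeff 9 (locR (Finset.Icc 0 4) j * PowerSeries.X ^ 2 * lin (-j) ^ n)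

/-- local moments of `F`, central class: poles `ξ = -2, ..., 2`, factor `2 ξ`, variable `ξ^2` -/
noncomputable def fC (n : ℕ) : ℚ := ∑ j ∈ Finset.Icc (-2 : ℤ) 2,
  PowerSeries.coeff 9 (2 * lin (-j) * locR (Finset.Icc (-2) 2) j * locF (Finset.Icc (-2) 2) j *
    (lin (-j) ^ 2) ^ n)

/-- local moments of `λ_3`, central class -/
noncomputable def gC (n : ℕ) : ℚ := ∑ j ∈ Finset.Icc (-2 : ℤ) 2,
  PowerSeries.coeff 9 (2 * lin (-j) * locR (Finset.Icc (-2) 2) j * PowerSeries.X ^ 2 *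
    (lin (-j) ^ 2) ^ n)

/-- D7: the two local determinants do not vanish. -/
def LocalDet : Prop := det2 fN gN 14 ≠ 0 ∧ det2 fC gC 7 ≠ 0

/-- D6: nonvanishing. -/
def NonVan : Prop := LocalDet → ∀ z b : ℕ → ℚ, Adm z b → ∃ p₀ : ℕ, ∀ p a : ℕ, p.Prime → p₀ ≤ p →
  2 * a = 5 * p + 1 → hank2 (FA a 1 z) (FB a 1 b) (7 * p) ≠ 0

/-! ## the sum over the primes -/

/-- D10: the `p`-adic total, with Mertens constant `c`. -/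
def PSum (m : ℕ) (P0 : ℝ) : Prop := ∀ C δ : ℝ, 0 ≤ C → 0 < δ → ∃ k0 : ℕ, ∀ k : ℕ, k0 ≤ k →
  ∀ (a K : ℕ), a = pa m k → K = pK m k → ∀ β : ℕ → ℝ,
  (∀ p : ℕ, p.Prime → p ^ 2 < 2 * a →
    β p ≤ (40 * a * K - 6 * (K : ℝ) ^ 2) / (p - 1) + C * (1 + Nat.log p (4 * (a + K))) * K) →
  (∀ p : ℕ, p.Prime → 2 * a ≤ p ^ 2 → 3 * p ≤ 2 * a - 1 →
    β p ≤ (40 * a * K - 6 * (K : ℝ) ^ 2) / p - K +
      50 / 3 * ((((2 * a - 1) % p : ℕ) : ℝ) * (p - ((2 * a - 1) % p : ℕ)) / p) +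
      1 / 6 * (6 * K / p + 10) ^ 2) →
  (∀ p : ℕ, p.Prime → 2 * a - 1 < 3 * p → p < a →
    β p ≤ K + 50 * (3 * (p : ℝ) - 2 * a + 1) + 281 * ((a : ℝ) - p)) →
  (∀ p : ℕ, p.Prime → a ≤ p → p ≤ 2 * a - 1 → β p ≤ K + 50 * (2 * (a : ℝ) - 1 - p)) →
  (∀ p : ℕ, p.Prime → a ≤ p → p ≤ 2 * a - 1 → β p ≤ 55 * (2 * (a : ℝ) - 1 - p)) →
  ∑ p ∈ (Finset.Icc 1 (2 * a - 1)).filter Nat.Prime, β p * Real.log p ≤
    k ^ 2 * (1624 * m ^ 2 * Real.log k + P0 + δ)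

/-! ## the theorem -/

/-- the theorem -/
def Main : Prop := ¬ ∃ z b : ℕ → ℚ, IsZB z b

end DIM3
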