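import Pool.Agent.Lib.Z579.M5
import Pool.Agent.Lib.Z579.M6
import Pool.Agent.Lib.Z579.M6de
import Pool.Agent.Lib.DIM3.Defs

/-!
# Two-block determinants: basis change, weight lemmas, small primes

Rows `X^i`, `i < K + K'`; columns `X^j`, `j < K` for the functional `LA` and `X^j`, `j < K'` for
the functional `LB`.
-/

open Polynomial Finset Z579

namespace DIM3

/-- two-block determinant -/
noncomputable def tbdet (LA LB : ℚ[X] →ₗ[ℚ] ℚ) (K K' : ℕ) : ℚ :=
  Matrix.det (Matrix.of fun i j : Fin (K + K') =>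
    if (j : ℕ) < K then LA (X ^ ((i : ℕ) + (j : ℕ))) else LB (X ^ ((i : ℕ) + ((j : ℕ) - K))))

lemma sum_coeff_fin {P : ℚ[X]} {m : ℕ} (h : P.natDegree < m) :
    P = ∑ k : Fin m, P.coeff k • (X ^ (k : ℕ) : ℚ[X]) := by
  conv_lhs => rw [P.as_sum_range' m h]
  rw [Finset.sum_range]
  refine Finset.sum_congr rfl fun k _ => ?_
  rw [← C_mul_X_pow_eq_monomial, smul_eq_C_mul]

/-- basis independence of the two-block determinant -/
theorem tbdet_basis (LA LB : ℚ[X] →ₗ[ℚ] ℚ) (K K' : ℕ) (P G H : ℕ → ℚ[X])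
    (hP : ∀ i, (P i).Monic) (hPd : ∀ i, (P i).natDegree = i)
    (hG : ∀ i, (G i).Monic) (hGd : ∀ i, (G i).natDegree = i)
    (hH : ∀ i, (H i).Monic) (hHd : ∀ i, (H i).natDegree = i) :
    tbdet LA LB K K' = Matrix.det (Matrix.of fun i j : Fin (K + K') =>
      if (j : ℕ) < K then LA (P i * G j) else LB (P i * H ((j : ℕ) - K))) := by
  set Cj : Fin (K + K') → ℚ[X] := fun j => if (j : ℕ) < K then G j else H ((j : ℕ) - K) with hCj
  set Lj : Fin (K + K') → (ℚ[X] →ₗ[ℚ] ℚ) := fun j => if (j : ℕ) < K then LA else LB with hLj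
  have hfin : (Matrix.of fun i j : Fin (K + K') =>
      if (j : ℕ) < K then LA (P i * G j) else LB (P i * H ((j : ℕ) - K))) =
      (Matrix.of fun (i k : Fin (K + K')) => (P i).coeff k) *
        (Matrix.of fun (k j : Fin (K + K')) => Lj j (X ^ (k : ℕ) * Cj j)) := by
    ext i j
    rw [Matrix.mul_apply]
    simp only [Matrix.of_apply]
    have h1 : (if (j : ℕ) < K then LA (P i * G j) else LB (P i * H ((j : ℕ) - K))) =
        Lj j (P i * Cj j) := by
      simp only [hLj, hCj]
      split_ifs <;> rfl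
    rw [h1]
    conv_lhs => rw [sum_coeff_fin (P := P i) (m := K + K') (by rw [hPd]; exact i.2)]
    rw [Finset.sum_mul, map_sum]
    refine Finset.sum_congr rfl fun k _ => ?_
    rw [smul_mul_assoc, map_smul, smul_eq_mul]
  have hmid : (Matrix.of fun (k j : Fin (K + K')) => Lj j (X ^ (k : ℕ) * Cj j)) =
      (Matrix.of fun i j : Fin (K + K') =>
        if (j : ℕ) < K then LA (X ^ ((i : ℕ) + (j : ℕ))) else LB (X ^ ((i : ℕ) + ((j : ℕ) - K)))) *
      (Matrix.of fun (l j : Fin (K + K')) =>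
        if (l : ℕ) < K ∧ (j : ℕ) < K then (G j).coeff l
        else if K ≤ (l : ℕ) ∧ K ≤ (j : ℕ) then (H ((j : ℕ) - K)).coeff ((l : ℕ) - K) else 0) := by
    ext k j
    rw [Matrix.mul_apply]
    simp only [Matrix.of_apply]
    by_cases hj : (j : ℕ) < K
    · have h1 : Lj j (X ^ (k : ℕ) * Cj j) = LA (X ^ (k : ℕ) * G j) := by
        simp only [hLj, hCj, if_pos hj]
      rw [h1]
      conv_lhs => rw [sum_coeff_fin (P := G j) (m := K + K') (by rw [hGd]; exact j.2)]
      rw [Finset.mul_sum, map_sum]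
      refine Finset.sum_congr rfl fun l _ => ?_
      rw [mul_smul_comm, map_smul, smul_eq_mul, ← pow_add]
      by_cases hl : (l : ℕ) < K
      · rw [if_pos hl, if_pos ⟨hl, hj⟩]; ring
      · have h2 : (G j).coeff l = 0 := by
          apply coeff_eq_zero_of_natDegree_lt
          rw [hGd]; omega
        rw [h2, if_neg hl, if_neg (by tauto), if_neg (by omega)]; ring
    · have h1 : Lj j (X ^ (k : ℕ) * Cj j) = LB (X ^ (k : ℕ) * H ((j : ℕ) - K)) := by
        simp only [hLj, hCj, if_neg hj]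
      rw [h1]
      have hsplit : ∀ f : ℕ → ℚ, (∀ l, l < K → f l = 0) →
          ∑ l : Fin (K + K'), f l = ∑ l : Fin K', f (K + l) := by
        intro f hf
        rw [Fin.sum_univ_eq_sum_range f (K + K'), Fin.sum_univ_eq_sum_range (fun l => f (K + l)) K',
          Finset.sum_range_add]
        rw [Finset.sum_eq_zero (fun l hl => hf l (Finset.mem_range.1 hl)), zero_add]
      have h3 : ∀ l : Fin (K + K'),
          (if (l : ℕ) < K then LA (X ^ ((k : ℕ) + (l : ℕ))) else LB (X ^ ((k : ℕ) + ((l : ℕ) - K)))) *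
          (if (l : ℕ) < K ∧ (j : ℕ) < K then (G j).coeff l
            else if K ≤ (l : ℕ) ∧ K ≤ (j : ℕ) then (H ((j : ℕ) - K)).coeff ((l : ℕ) - K) else 0) =
          (fun l : ℕ => if l < K then 0 else
            LB (X ^ ((k : ℕ) + (l - K))) * (H ((j : ℕ) - K)).coeff (l - K)) (l : ℕ) := by
        intro l
        by_cases hl : (l : ℕ) < K
        · simp only [hl, hj, if_true, if_false, and_false, not_le.2 hl, false_and, mul_zero]
        · simp only [hl, hj, if_false, not_lt.1 hl, not_lt.1 hj, and_self, if_true]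
      rw [Finset.sum_congr rfl fun l _ => h3 l, hsplit (fun l : ℕ => if l < K then 0 else
            LB (X ^ ((k : ℕ) + (l - K))) * (H ((j : ℕ) - K)).coeff (l - K)) (fun l hl => if_pos hl)]
      conv_lhs => rw [sum_coeff_fin (P := H ((j : ℕ) - K)) (m := K')
        (by rw [hHd]; have := j.2; omega)]
      rw [Finset.mul_sum, map_sum]
      refine Finset.sum_congr rfl fun l _ => ?_
      rw [mul_smul_comm, map_smul, smul_eq_mul, ← pow_add, if_neg (by omega),
        Nat.add_sub_cancel_left]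
      ring
  rw [hfin, Matrix.det_mul, hmid, Matrix.det_mul]
  have hT : (Matrix.of fun (i k : Fin (K + K')) => (P i).coeff k).det = 1 := by
    rw [Matrix.det_of_isLowerTriangular]
    · refine Finset.prod_eq_one fun i _ => ?_
      rw [Matrix.of_apply]
      have := hP i
      rw [Monic, leadingCoeff, hPd] at this
      exact this
    · intro i j hij
      rw [Matrix.of_apply]
      apply coeff_eq_zero_of_natDegree_lt
      rw [hPd]
      exact hij
  have hU : (Matrix.of fun (l j : Fin (K + K')) =>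
        if (l : ℕ) < K ∧ (j : ℕ) < K then (G j).coeff l
        else if K ≤ (l : ℕ) ∧ K ≤ (j : ℕ) then (H ((j : ℕ) - K)).coeff ((l : ℕ) - K)
        else 0).det = 1 := by
    rw [Matrix.det_of_isUpperTriangular]
    · refine Finset.prod_eq_one fun i _ => ?_
      rw [Matrix.of_apply]
      by_cases hi : (i : ℕ) < K
      · rw [if_pos ⟨hi, hi⟩]
        have := hG i
        rw [Monic, leadingCoeff, hGd] at this
        exact this
      · rw [if_neg (by tauto), if_pos (by omega)]
        have := hH ((i : ℕ) - K)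
        rw [Monic, leadingCoeff, hHd] at this
        exact this
    · intro l j hlj
      have hlj' : (j : ℕ) < (l : ℕ) := hlj
      rw [Matrix.of_apply]
      split_ifs with h1 h2
      · apply coeff_eq_zero_of_natDegree_lt
        rw [hGd]; exact hlj'
      · apply coeff_eq_zero_of_natDegree_lt
        rw [hHd]; omega
      · rfl
  rw [hT, hU, tbdet]
  ring

/-- valuation of a two-block determinant through monic bases -/
theorem tbdet_VG {p : ℕ} [Fact p.Prime] (LA LB : ℚ[X] →ₗ[ℚ] ℚ) (K K' : ℕ) (P G H : ℕ → ℚ[X])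
    (hP : ∀ i, (P i).Monic) (hPd : ∀ i, (P i).natDegree = i)
    (hG : ∀ i, (G i).Monic) (hGd : ∀ i, (G i).natDegree = i)
    (hH : ∀ i, (H i).Monic) (hHd : ∀ i, (H i).natDegree = i) (r sA sB : ℕ → ℝ)
    (hA : ∀ i j, i < K + K' → j < K → VG p (-(r i + sA j)) (LA (P i * G j)))
    (hB : ∀ i j, i < K + K' → j < K' → VG p (-(r i + sB j)) (LB (P i * H j))) :
    VG p (-(∑ i ∈ Finset.range (K + K'), r i + ∑ j ∈ Finset.range K, sA j +
      ∑ j ∈ Finset.range K', sB j)) (tbdet LA LB K K') := by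
  rw [tbdet_basis LA LB K K' P G H hP hPd hG hGd hH hHd]
  have key := VG.det (p := p) (M := Matrix.of fun i j : Fin (K + K') =>
      if (j : ℕ) < K then LA (P i * G j) else LB (P i * H ((j : ℕ) - K)))
    (g := fun i => -r i) (h := fun j => -(if (j : ℕ) < K then sA j else sB ((j : ℕ) - K))) (by
      intro i j
      rw [Matrix.of_apply]
      by_cases hj : (j : ℕ) < K
      · rw [if_pos hj, if_pos hj]
        refine (hA i j i.2 hj).mono (le_of_eq ?_)
        ring
      · rw [if_neg hj, if_neg hj]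
        refine (hB i ((j : ℕ) - K) i.2 (by have := j.2; omega)).mono (le_of_eq ?_)
        ring)
  refine key.mono (le_of_eq ?_)
  have h1 : ∑ j : Fin (K + K'), -(if (j : ℕ) < K then sA j else sB ((j : ℕ) - K)) =
      -(∑ j ∈ Finset.range K, sA j + ∑ j ∈ Finset.range K', sB j) := by
    rw [Fin.sum_univ_eq_sum_range
      (fun j => -(if j < K then sA j else sB (j - K))) (K + K'), Finset.sum_range_add,
      neg_add, ← Finset.sum_neg_distrib, ← Finset.sum_neg_distrib]
    congr 1
    · refine Finset.sum_congr rfl fun j hj => ?_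
      rw [if_pos (Finset.mem_range.1 hj)]
    · refine Finset.sum_congr rfl fun j _ => ?_
      rw [if_neg (by omega), Nat.add_sub_cancel_left]
  rw [h1, Fin.sum_univ_eq_sum_range (fun i => -r i) (K + K'), Finset.sum_neg_distrib]
  ring

/-! ## greedy sequences with real shifts -/

/-- greedy sequence, no floor -/
theorem greedy_exists (I : Finset ℤ) (hI : I.Nonempty) (h : ℤ → ℝ) :
    ∃ (N : ℕ → ℤ → ℕ) (s : ℕ → ℝ), (∀ i, ∑ c ∈ I, N i c = i) ∧
      (∀ i, ∀ c ∈ I, h c - N i c ≤ s i) ∧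
      ∀ (l : ℝ) (k : ℕ), ∑ i ∈ Finset.range k, s i ≤
        l * k + 1 / 2 * ∑ c ∈ I, (h c + 1 / 2 - l) ^ 2 := by
  set e : ℤ → ℝ := fun c => 2 * h c with he
  set N := gseq I hI e with hN
  refine ⟨N, fun i => (e (gch I hI e (N i)) - 2 * (N i (gch I hI e (N i)) : ℝ)) / 2,
    gseq_sum I hI e, ?_, ?_⟩
  · intro i c hc
    have h2 := gch_max I hI e (N i) hc
    simp only [he] at h2 ⊢
    linarith
  · intro l k
    have key : ∀ k : ℕ, ∑ i ∈ Finset.range k,
        (e (gch I hI e (N i)) - 2 * (N i (gch I hI e (N i)) : ℝ)) / 2 =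
        (2 * l * k + gpot I e (2 * l) (N 0) - gpot I e (2 * l) (N k)) / 2 := by
      intro k
      induction k with
      | zero => simp
      | succ k ih =>
        rw [Finset.sum_range_succ, ih]
        have h4 : N (k + 1) = Function.update (N k) (gch I hI e (N k))
          (N k (gch I hI e (N k)) + 1) := rfl
        rw [h4, gpot_update I e (2 * l) (N k) (gch_mem I hI e (N k))]
        push_cast
        ring
    rw [key k]
    have h5 : gpot I e (2 * l) (N 0) = ∑ c ∈ I, (h c + 1 / 2 - l) ^ 2 := by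
      unfold gpot
      rw [Finset.mul_sum]
      refine Finset.sum_congr rfl fun c _ => ?_
      have : N 0 c = 0 := rfl
      rw [this]
      simp only [he]
      push_cast
      ring
    have h6 := gpot_nonneg I e (2 * l) (N k)
    rw [h5]
    linarith

/-- greedy sequence with a floor at zero: exponents of the classes and of an auxiliary factor -/
theorem greedy_floor_exists (J : Finset ℤ) (h : ℤ → ℝ) :
    ∃ (N : ℕ → ℤ → ℕ) (M : ℕ → ℕ) (s : ℕ → ℝ), (∀ i, ∑ c ∈ J, N i c + M i = i) ∧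
      (∀ i, 0 ≤ s i) ∧ (∀ i, ∀ c ∈ J, h c - N i c ≤ s i) ∧
      ∀ (l : ℝ) (k : ℕ), 0 ≤ l → ∑ i ∈ Finset.range k, s i ≤
        l * k + 1 / 2 * ∑ c ∈ J, (h c + 1 / 2 - l) ^ 2 := by
  set e : ℤ → ℝ := fun c => 2 * h c with he
  set s := gseq' J e with hs
  refine ⟨fun i => (s i).1, fun i => (s i).2, fun i => gth J e (s i).1 / 2, ?_, ?_, ?_, ?_⟩
  · intro i
    simp only
    induction i with
    | zero => simp [hs, gseq']
    | succ i ih =>
      have h0 : s (i + 1) = gseq' J e (i + 1) := rfl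
      rw [h0, gseq']
      split_ifs with hg
      · have hm := gch_mem J ⟨_, hg.choose_spec.1⟩ e (gseq' J e i).1
        simp only
        rw [Finset.sum_update_of_mem hm]
        have ih' : ∑ c ∈ J, (gseq' J e i).1 c + (gseq' J e i).2 = i := ih
        rw [← Finset.add_sum_erase J _ hm, ← Finset.sdiff_singleton_eq_erase] at ih'
        omega
      · have ih' : ∑ c ∈ J, (gseq' J e i).1 c + (gseq' J e i).2 = i := ih
        simp only
        omega
  · intro i
    have := gth_nonneg J e (s i).1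
    simp only
    linarith
  · intro i c hc
    have h4 := gth_max J e (s i).1 hc
    simp only [he] at h4 ⊢
    linarith
  · intro l k hl
    have key : ∀ k : ℕ, ∑ i ∈ Finset.range k, gth J e (s i).1 / 2 ≤
        (2 * l * k + gpot J e (2 * l) (s 0).1 - gpot J e (2 * l) (s k).1) / 2 := by
      intro k
      induction k with
      | zero => simp
      | succ k ih =>
        rw [Finset.sum_range_succ]
        have h4 : gth J e (s k).1 ≤ 2 * l + gpot J e (2 * l) (s k).1 -
            gpot J e (2 * l) (s (k + 1)).1 := by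
          have h0 : s (k + 1) = gseq' J e (k + 1) := rfl
          rw [h0, gseq']
          unfold gth
          split_ifs with hg
          · have hm := gch_mem J ⟨_, hg.choose_spec.1⟩ e (gseq' J e k).1
            simp only
            rw [gpot_update J e (2 * l) _ hm]
            simp only [hs]
            linarith
          · simp only [hs]
            linarith
        push_cast
        linarith
    refine (key k).trans ?_
    have h5 : gpot J e (2 * l) (s 0).1 = ∑ c ∈ J, (h c + 1 / 2 - l) ^ 2 := by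
      unfold gpot
      rw [Finset.mul_sum]
      refine Finset.sum_congr rfl fun c _ => ?_
      have : (s 0).1 c = 0 := rfl
      rw [this]
      simp only [he]
      push_cast
      ring
    have h6 := gpot_nonneg J e (2 * l) (s k).1
    rw [h5]
    linarith

/-! ## the two-block weight lemmas -/

/-- Two-block weight lemma with free row shift `ρ`. -/
theorem d2a_rho (p : ℕ) (LA LB : ℚ[X] →ₗ[ℚ] ℚ) (I : Finset ℤ) (x : ℤ → ℚ) (eA eB ρ : ℤ → ℝ)
    (K K' : ℕ) (lr lA lB : ℝ) (hp : p.Prime) (hI : I.Nonempty)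
    (hA : ∀ (N : ℤ → ℕ) (t : ℝ), (∀ c ∈ I, t ≤ N c - eA c) →
      VG p t (LA (∏ c ∈ I, (X - Polynomial.C (x c)) ^ (N c))))
    (hB : ∀ (N : ℤ → ℕ) (t : ℝ), (∀ c ∈ I, t ≤ N c - eB c) →
      VG p t (LB (∏ c ∈ I, (X - Polynomial.C (x c)) ^ (N c)))) :
    VG p (-(lr * (K + K') + lA * K + lB * K' + 1 / 2 * ∑ c ∈ I, ((ρ c + 1 / 2 - lr) ^ 2 +
      (eA c - ρ c + 1 / 2 - lA) ^ 2 + (eB c - ρ c + 1 / 2 - lB) ^ 2))) (tbdet LA LB K K') := by
  have : Fact p.Prime := ⟨hp⟩
  obtain ⟨N0, s0, hN0, hs0, hb0⟩ := greedy_exists I hI ρ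
  obtain ⟨N1, s1, hN1, hs1, hb1⟩ := greedy_exists I hI (fun c => eA c - ρ c)
  obtain ⟨N2, s2, hN2, hs2, hb2⟩ := greedy_exists I hI (fun c => eB c - ρ c)
  have h1 := tbdet_VG (p := p) LA LB K K' (fun i => gpol I x (N0 i)) (fun i => gpol I x (N1 i))
    (fun i => gpol I x (N2 i)) (fun i => gpol_monic I x _)
    (fun i => by rw [gpol_natDegree]; exact hN0 i) (fun i => gpol_monic I x _)
    (fun i => by rw [gpol_natDegree]; exact hN1 i) (fun i => gpol_monic I x _)
    (fun i => by rw [gpol_natDegree]; exact hN2 i) s0 s1 s2 (by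
      intro i j _ _
      rw [gpol_mul]
      refine hA _ _ fun c hc => ?_
      have h2 := hs0 i c hc
      have h3 := hs1 j c hc
      push_cast
      linarith) (by
      intro i j _ _
      rw [gpol_mul]
      refine hB _ _ fun c hc => ?_
      have h2 := hs0 i c hc
      have h3 := hs2 j c hc
      push_cast
      linarith)
  refine h1.mono (neg_le_neg ?_)
  have e0 := hb0 lr (K + K')
  have e1 := hb1 lA K
  have e2 := hb2 lB K'
  push_cast at e0
  rw [Finset.sum_add_distrib, Finset.sum_add_distrib]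
  linarith

/-- D2a: two-block weight lemma. -/
theorem d2a (p : ℕ) (LA LB : ℚ[X] →ₗ[ℚ] ℚ) (I : Finset ℤ) (x : ℤ → ℚ) (eA eB : ℤ → ℝ)
    (K K' : ℕ) (lA lB : ℝ) (hp : p.Prime) (hI : I.Nonempty)
    (hA : ∀ (N : ℤ → ℕ) (t : ℝ), (∀ c ∈ I, t ≤ N c - eA c) →
      VG p t (LA (∏ c ∈ I, (X - Polynomial.C (x c)) ^ (N c))))
    (hB : ∀ (N : ℤ → ℕ) (t : ℝ), (∀ c ∈ I, t ≤ N c - eB c) →
      VG p t (LB (∏ c ∈ I, (X - Polynomial.C (x c)) ^ (N c)))) :
    VG p (-(lA * K + lB * K' + 1 / 3 * ∑ c ∈ I, ((eA c + 1 - lA) ^ 2 -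
      (eA c + 1 - lA) * (eB c + 1 - lB) + (eB c + 1 - lB) ^ 2))) (tbdet LA LB K K') := by
  have h := d2a_rho p LA LB I x eA eB
    (fun c => ((eA c + 1 - lA) + (eB c + 1 - lB)) / 3 - 1 / 2) K K' 0 lA lB hp hI hA hB
  refine h.mono (le_of_eq ?_)
  rw [zero_mul, zero_add, Finset.mul_sum, Finset.mul_sum]
  congr 2
  refine Finset.sum_congr rfl fun c _ => ?_
  ring

/-- Two-block weight lemma with a floor at zero: classes in `J`, auxiliary factor `Y ^ k`. -/
theorem d2a_floor (p : ℕ) (LA LB : ℚ[X] →ₗ[ℚ] ℚ) (J : Finset ℤ) (x : ℤ → ℚ) (Y : ℚ[X])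
    (hY : Y.Monic) (hYd : Y.natDegree = 1) (eA eB ρ : ℤ → ℝ)
    (K K' : ℕ) (lr lA lB : ℝ) (hp : p.Prime) (hlr : 0 ≤ lr) (hlA : 0 ≤ lA) (hlB : 0 ≤ lB)
    (hA : ∀ (N : ℤ → ℕ) (k : ℕ) (t : ℝ), t ≤ 0 → (∀ c ∈ J, t ≤ N c - eA c) →
      VG p t (LA ((∏ c ∈ J, (X - Polynomial.C (x c)) ^ (N c)) * Y ^ k)))
    (hB : ∀ (N : ℤ → ℕ) (k : ℕ) (t : ℝ), t ≤ 0 → (∀ c ∈ J, t ≤ N c - eB c) →
      VG p t (LB ((∏ c ∈ J, (X - Polynomial.C (x c)) ^ (N c)) * Y ^ k))) :
    VG p (-(lr * (K + K') + lA * K + lB * K' + 1 / 2 * ∑ c ∈ J, ((ρ c + 1 / 2 - lr) ^ 2 +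
      (eA c - ρ c + 1 / 2 - lA) ^ 2 + (eB c - ρ c + 1 / 2 - lB) ^ 2))) (tbdet LA LB K K') := by
  have : Fact p.Prime := ⟨hp⟩
  obtain ⟨N0, M0, s0, hN0, hp0, hs0, hb0⟩ := greedy_floor_exists J ρ
  obtain ⟨N1, M1, s1, hN1, hp1, hs1, hb1⟩ := greedy_floor_exists J (fun c => eA c - ρ c)
  obtain ⟨N2, M2, s2, hN2, hp2, hs2, hb2⟩ := greedy_floor_exists J (fun c => eB c - ρ c)
  have hmon : ∀ (N : ℤ → ℕ) (k : ℕ), (gpol J x N * Y ^ k).Monic := fun N k =>
    (gpol_monic J x N).mul (hY.pow k)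
  have hdeg : ∀ (N : ℤ → ℕ) (k : ℕ), (gpol J x N * Y ^ k).natDegree = ∑ c ∈ J, N c + k := by
    intro N k
    rw [(gpol_monic J x N).natDegree_mul (hY.pow k), gpol_natDegree, hY.natDegree_pow, hYd,
      mul_one]
  have hmul : ∀ (N M : ℤ → ℕ) (k l : ℕ), gpol J x N * Y ^ k * (gpol J x M * Y ^ l) =
      gpol J x (fun c => N c + M c) * Y ^ (k + l) := by
    intro N M k l
    rw [← gpol_mul, pow_add]; ring
  have h1 := tbdet_VG (p := p) LA LB K K' (fun i => gpol J x (N0 i) * Y ^ (M0 i))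
    (fun i => gpol J x (N1 i) * Y ^ (M1 i)) (fun i => gpol J x (N2 i) * Y ^ (M2 i))
    (fun i => hmon _ _) (fun i => by rw [hdeg]; exact hN0 i) (fun i => hmon _ _)
    (fun i => by rw [hdeg]; exact hN1 i) (fun i => hmon _ _)
    (fun i => by rw [hdeg]; exact hN2 i) s0 s1 s2 (by
      intro i j _ _
      rw [hmul]
      refine hA _ _ _ (by have := hp0 i; have := hp1 j; linarith) fun c hc => ?_
      have h2 := hs0 i c hc
      have h3 := hs1 j c hc
      push_cast
      linarith) (by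
      intro i j _ _
      rw [hmul]
      refine hB _ _ _ (by have := hp0 i; have := hp2 j; linarith) fun c hc => ?_
      have h2 := hs0 i c hc
      have h3 := hs2 j c hc
      push_cast
      linarith)
  refine h1.mono (neg_le_neg ?_)
  have e0 := hb0 lr (K + K') hlr
  have e1 := hb1 lA K hlA
  have e2 := hb2 lB K' hlB
  push_cast at e0
  rw [Finset.sum_add_distrib, Finset.sum_add_distrib]
  linarith

/-- comparison with `hank2` -/
theorem hank2_eq (LA LB : ℚ[X] →ₗ[ℚ] ℚ) (K : ℕ) : hank2 LA LB K = tbdet LA LB K K := by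
  rw [hank2, det2, tbdet, ← Matrix.det_submatrix_equiv_self (finSumFinEquiv (m := K) (n := K))]
  congr 1
  ext i c
  rw [Matrix.submatrix_apply, Matrix.of_apply, Matrix.of_apply]
  have hrow : ((finSumFinEquiv i : Fin (K + K)) : ℕ) = row i := by
    rcases i with i | i
    · simp [row]
    · simp [row, add_comm]
  rcases c with j | j
  · have h1 : ((finSumFinEquiv (Sum.inl j : Fin K ⊕ Fin K) : Fin (K + K)) : ℕ) = j := by simp
    rw [hrow, h1, if_pos j.2]
    rfl
  · have h1 : ((finSumFinEquiv (Sum.inr j : Fin K ⊕ Fin K) : Fin (K + K)) : ℕ) = K + j := by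
      simp [add_comm]
    rw [hrow, h1, if_neg (by omega), Nat.add_sub_cancel_left]
    rfl

/-- D2a -/
theorem weight : Weight := by
  intro p LA LB I x e K lA lB hp hI hA hB
  rw [hank2_eq]
  have h := d2a p LA LB I x e (fun c => e c - 3) K K lA lB hp hI hA (by
    intro N t ht
    refine hB N t fun c hc => ?_
    have := ht c hc
    linarith)
  refine h.mono (le_of_eq ?_)
  congr 1
  have h2 : ∀ c, e c - 3 + 1 - lB = e c - 2 - lB := fun c => by ring
  simp only [h2]
  ring

end DIM3
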