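import Pool.Agent.Lib.Z579.M4
import Pool.Agent.Lib.DIM3.Defs

/-!
# Integral functions on a residue disc with two poles

A function on the disc is represented by the pair of its expansions at `x = 0` and `x = -d`
(`p ∣ d`).  `Rs d m n h` is the sum of the residues of `h / (x^m (x+d)^n)`.
-/

open Polynomial Finset Z579

namespace DIM3

set_option linter.unusedSectionVars false

/-- pairs of expansions -/
abbrev PP := PowerSeries ℚ × PowerSeries ℚ

/-- evaluation of an integer polynomial at `X + e` -/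
noncomputable def ev (e : ℤ) : ℤ[X] →+* PowerSeries ℚ :=
  Polynomial.eval₂RingHom (Int.castRingHom (PowerSeries ℚ)) (lin e)

/-- the pair of expansions of an integer polynomial -/
noncomputable def evP (d : ℤ) : ℤ[X] →+* PP := (ev 0).prod (ev (-d))

lemma ev_X (e : ℤ) : ev e X = lin e := by simp [ev]

lemma ev_C (e n : ℤ) : ev e (Polynomial.C n) = (n : PowerSeries ℚ) := by
  simp [ev]

lemma lin_zero : lin 0 = PowerSeries.X := by
  rw [lin]; simp

lemma evP_fst (d : ℤ) (A : ℤ[X]) : (evP d A).1 = ev 0 A := rfl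

lemma evP_snd (d : ℤ) (A : ℤ[X]) : (evP d A).2 = ev (-d) A := rfl

lemma constantCoeff_ev (e : ℤ) (A : ℤ[X]) :
    PowerSeries.constantCoeff (ev e A) = ((A.eval e : ℤ) : ℚ) := by
  have h : (PowerSeries.constantCoeff (R := ℚ)).comp (ev e) =
      (Int.castRingHom ℚ).comp (Polynomial.evalRingHom e) := by
    apply Polynomial.ringHom_ext
    · intro n
      simp
    · simp [ev_X, lin]
  exact congrArg (fun f => f A) h

lemma constantCoeff_lin' (c : ℤ) : PowerSeries.constantCoeff (lin c) = (c : ℚ) := by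
  rw [lin]; simp

lemma lin_mul_inv {c : ℤ} (hc : c ≠ 0) : lin c * (lin c)⁻¹ = 1 := by
  apply PowerSeries.mul_inv_cancel
  rw [constantCoeff_lin']
  exact_mod_cast hc

/-- residue sum of `h / (x^m (x+d)^n)` at `0` and `-d` -/
noncomputable def Rs (d : ℤ) (m n : ℕ) (h : PP) : ℚ :=
  PowerSeries.coeff m (PowerSeries.X * (h.1 * ((lin d)⁻¹) ^ n)) +
    PowerSeries.coeff n (PowerSeries.X * (h.2 * ((lin (-d))⁻¹) ^ m))

lemma Rs_add (d : ℤ) (m n : ℕ) (g h : PP) : Rs d m n (g + h) = Rs d m n g + Rs d m n h := by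
  simp only [Rs, Prod.fst_add, Prod.snd_add, add_mul, mul_add, map_add]
  ring

lemma Rs_smul (d : ℤ) (m n : ℕ) (x : ℚ) (h : PP) : Rs d m n (x • h) = x * Rs d m n h := by
  simp only [Rs, Prod.smul_fst, Prod.smul_snd, smul_mul_assoc, mul_smul_comm, PowerSeries.coeff_smul,
    smul_eq_mul]
  ring

lemma Rs_neg (d : ℤ) (m n : ℕ) (h : PP) : Rs d m n (-h) = -Rs d m n h := by
  have := Rs_smul d m n (-1) h
  simpa using this

lemma Rs_sub (d : ℤ) (m n : ℕ) (g h : PP) : Rs d m n (g - h) = Rs d m n g - Rs d m n h := by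
  rw [sub_eq_add_neg, Rs_add, Rs_neg, sub_eq_add_neg]

/-- the coordinate function `x` -/
noncomputable def xx (d : ℤ) : PP := (PowerSeries.X, lin (-d))

/-- the coordinate function `x + d` -/
noncomputable def xd (d : ℤ) : PP := (lin d, PowerSeries.X)

lemma xd_sub_xx (d : ℤ) : xd d - xx d = (d : ℚ) • (1 : PP) := by
  rw [xd, xx, Prod.mk_sub_mk, lin, lin]
  ext1
  · simp only [Prod.smul_fst, Prod.fst_one]
    rw [add_sub_cancel_left]
    rw [PowerSeries.smul_eq_C_mul, mul_one]
  · simp only [Prod.smul_snd, Prod.snd_one]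
    rw [PowerSeries.smul_eq_C_mul, mul_one]
    push_cast
    rw [map_neg]
    ring

lemma Rs_xx {d : ℤ} (hd : d ≠ 0) (m n : ℕ) (h : PP) :
    Rs d (m + 1) n (xx d * h) = Rs d m n h := by
  simp only [Rs, xx, Prod.fst_mul, Prod.snd_mul]
  congr 1
  · rw [PowerSeries.coeff_succ_X_mul]
    congr 1
    ring
  · congr 1
    have := lin_mul_inv (neg_ne_zero.2 hd)
    calc PowerSeries.X * (lin (-d) * h.2 * (lin (-d))⁻¹ ^ (m + 1)) =
        PowerSeries.X * (h.2 * (lin (-d))⁻¹ ^ m) * (lin (-d) * (lin (-d))⁻¹) := by ring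
      _ = _ := by rw [this, mul_one]

lemma Rs_xd {d : ℤ} (hd : d ≠ 0) (m n : ℕ) (h : PP) :
    Rs d m (n + 1) (xd d * h) = Rs d m n h := by
  simp only [Rs, xd, Prod.fst_mul, Prod.snd_mul]
  congr 1
  · congr 1
    have := lin_mul_inv hd
    calc PowerSeries.X * (lin d * h.1 * (lin d)⁻¹ ^ (n + 1)) =
        PowerSeries.X * (h.1 * (lin d)⁻¹ ^ n) * (lin d * (lin d)⁻¹) := by ring
      _ = _ := by rw [this, mul_one]
  · rw [PowerSeries.coeff_succ_X_mul]
    congr 1
    ring

lemma Rs_one_left (d : ℤ) (m : ℕ) : Rs d m 0 1 = if m = 1 then 1 else 0 := by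
  simp only [Rs, Prod.fst_one, Prod.snd_one, pow_zero, mul_one, one_mul,
    PowerSeries.coeff_zero_X_mul, add_zero, PowerSeries.coeff_X]

lemma Rs_one_right (d : ℤ) (n : ℕ) : Rs d 0 n 1 = if n = 1 then 1 else 0 := by
  simp only [Rs, Prod.fst_one, Prod.snd_one, pow_zero, mul_one, one_mul,
    PowerSeries.coeff_zero_X_mul, zero_add, PowerSeries.coeff_X]

lemma Rs_one_step {d : ℤ} (hd : d ≠ 0) (m n : ℕ) :
    (d : ℚ) * Rs d (m + 1) (n + 1) 1 = Rs d (m + 1) n 1 - Rs d m (n + 1) 1 := by
  rw [← Rs_smul, ← xd_sub_xx, Rs_sub]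
  have h1 := Rs_xd hd (m + 1) n 1
  have h2 := Rs_xx hd m (n + 1) 1
  rw [mul_one] at h1 h2
  rw [h1, h2]

lemma Rs_one_zero {d : ℤ} (hd : d ≠ 0) : ∀ s m n : ℕ, m + n = s → Rs d (m + 1) (n + 1) 1 = 0 := by
  intro s
  induction s with
  | zero =>
    intro m n h
    have hm : m = 0 := by omega
    have hn : n = 0 := by omega
    subst hm
    subst hn
    have := Rs_one_step hd 0 0
    rw [Rs_one_left, Rs_one_right] at this
    simp only [zero_add, if_true, sub_self, mul_eq_zero, Int.cast_eq_zero] at this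
    exact this.resolve_left hd
  | succ s ih =>
    intro m n h
    have h0 := Rs_one_step hd m n
    have h1 : Rs d (m + 1) n 1 = if m = 0 ∧ n = 0 then 1 else 0 := by
      rcases n with _ | n
      · rw [Rs_one_left]
        simp
      · rw [ih m n (by omega)]
        simp
    have h2 : Rs d m (n + 1) 1 = if m = 0 ∧ n = 0 then 1 else 0 := by
      rcases m with _ | m
      · rw [Rs_one_right]
        simp
      · rw [ih m n (by omega)]
        simp
    rw [h1, h2, sub_self, mul_eq_zero, Int.cast_eq_zero] at h0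
    exact h0.resolve_left hd

section

variable {p : ℕ} [hp : Fact p.Prime]

lemma Rs_one_int {d : ℤ} (hd : d ≠ 0) (m n : ℕ) : VG p 0 (Rs d m n 1) := by
  rcases m with _ | m
  · rw [Rs_one_right]
    split_ifs
    · exact VG.one
    · exact VG.zero' _ _
  rcases n with _ | n
  · rw [Rs_one_left]
    split_ifs
    · exact VG.one
    · exact VG.zero' _ _
  rw [Rs_one_zero hd _ m n rfl]
  exact VG.zero' _ _

lemma VG_of_mul_unit {β : ℤ} (hβ : ¬ (p : ℤ) ∣ β) {c : ℝ} {x : ℚ} (h : VG p c ((β : ℚ) * x)) :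
    VG p c x := by
  have hβ0 : (β : ℚ) ≠ 0 := by
    intro h0
    have : β = 0 := by exact_mod_cast h0
    exact hβ (this ▸ dvd_zero _)
  rcases h with h | h
  · left
    exact (mul_eq_zero.1 h).resolve_left hβ0
  · by_cases hx : x = 0
    · left; exact hx
    right
    rw [padicValRat.mul hβ0 hx, padicValRat.of_int, padicValInt.eq_zero_of_not_dvd hβ] at h
    simpa using h

/-- integral functions on the disc -/
noncomputable def IR (p : ℕ) [hp : Fact p.Prime] (d : ℤ) : Subring PP where
  carrier := {h | ∃ A B : ℤ[X], ¬ (p : ℤ) ∣ B.coeff 0 ∧ evP d B * h = evP d A}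
  mul_mem' := by
    rintro g h ⟨A, B, hB, hg⟩ ⟨A', B', hB', hh⟩
    refine ⟨A * A', B * B', ?_, ?_⟩
    · rw [Polynomial.mul_coeff_zero]
      intro hd
      rcases (Nat.prime_iff_prime_int.1 hp.out).dvd_or_dvd hd with h1 | h1
      · exact hB h1
      · exact hB' h1
    · rw [map_mul, map_mul, ← hg, ← hh]; ring
  one_mem' := ⟨1, 1, by
    rw [Polynomial.coeff_one_zero]
    intro h
    exact hp.out.one_lt.ne' (by exact_mod_cast Int.eq_one_of_dvd_one (by positivity) h), by simp⟩
  add_mem' := by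
    rintro g h ⟨A, B, hB, hg⟩ ⟨A', B', hB', hh⟩
    refine ⟨A * B' + A' * B, B * B', ?_, ?_⟩
    · rw [Polynomial.mul_coeff_zero]
      intro hd
      rcases (Nat.prime_iff_prime_int.1 hp.out).dvd_or_dvd hd with h1 | h1
      · exact hB h1
      · exact hB' h1
    · rw [map_mul, map_add, map_mul, map_mul, ← hg, ← hh]; ring
  zero_mem' := ⟨0, 1, by
    rw [Polynomial.coeff_one_zero]
    intro h
    exact hp.out.one_lt.ne' (by exact_mod_cast Int.eq_one_of_dvd_one (by positivity) h), by simp⟩
  neg_mem' := by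
    rintro g ⟨A, B, hB, hg⟩
    exact ⟨-A, B, hB, by rw [map_neg, ← hg]; ring⟩

lemma not_dvd_one : ¬ (p : ℤ) ∣ 1 := by
  intro h
  exact hp.out.one_lt.ne' (by exact_mod_cast Int.eq_one_of_dvd_one (by positivity) h)

lemma evP_mem (d : ℤ) (A : ℤ[X]) : evP d A ∈ IR p d :=
  ⟨A, 1, by rw [Polynomial.coeff_one_zero]; exact not_dvd_one, by simp⟩

lemma VG_den {x : ℚ} (hx : VG p 0 x) : ¬ (p : ℤ) ∣ (x.den : ℤ) := by
  intro h
  have h' : p ∣ x.den := by exact_mod_cast h
  rcases hx with h0 | h0
  · subst h0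
    simp at h'
    exact hp.out.one_lt.ne' h'
  have hnum : ¬ p ∣ x.num.natAbs := fun h2 =>
    hp.out.one_lt.ne' (Nat.eq_one_of_dvd_coprimes x.reduced h2 h')
  have h1 : padicValInt p x.num = 0 := by
    rw [padicValInt]
    exact padicValNat.eq_zero_of_not_dvd hnum
  have h2 : 1 ≤ padicValNat p x.den := one_le_padicValNat_of_dvd x.den_nz h'
  rw [padicValRat, h1] at h0
  have h3 : ((0 : ℝ)) ≤ (((0 : ℕ) : ℤ) - (padicValNat p x.den : ℤ) : ℤ) := h0
  have h4 : (0 : ℤ) ≤ ((0 : ℕ) : ℤ) - (padicValNat p x.den : ℤ) := by exact_mod_cast h3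
  omega

lemma const_mem (d : ℤ) {x : ℚ} (hx : VG p 0 x) : x • (1 : PP) ∈ IR p d := by
  refine ⟨Polynomial.C x.num, Polynomial.C (x.den : ℤ), ?_, ?_⟩
  · rw [Polynomial.coeff_C_zero]; exact VG_den hx
  · have h : ∀ e : ℤ, ev e (Polynomial.C (x.den : ℤ)) * (x • (1 : PowerSeries ℚ)) =
        ev e (Polynomial.C x.num) := by
      intro e
      rw [ev_C, ev_C, PowerSeries.smul_eq_C_mul, mul_one]
      have h1 : ((x.den : ℤ) : PowerSeries ℚ) = PowerSeries.C (x.den : ℚ) := by simp
      have h2 : (x.num : PowerSeries ℚ) = PowerSeries.C (x.num : ℚ) := by simp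
      rw [h1, h2, ← map_mul, mul_comm, Rat.mul_den_eq_num]
    ext1
    · exact h 0
    · exact h (-d)

lemma smul_mem_IR (d : ℤ) {x : ℚ} (hx : VG p 0 x) {h : PP} (hh : h ∈ IR p d) :
    x • h ∈ IR p d := by
  have := (IR p d).mul_mem (const_mem d hx) hh
  rwa [smul_mul_assoc, one_mul] at this

lemma xx_mem (d : ℤ) : xx d ∈ IR p d := by
  have := evP_mem (p := p) d X
  have h : evP d X = xx d := by
    ext1
    · rw [evP_fst, ev_X, lin_zero]; rfl
    · rw [evP_snd, ev_X]; rfl
  rwa [h] at this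

lemma evP_X (d : ℤ) : evP d X = xx d := by
  ext1
  · rw [evP_fst, ev_X, lin_zero]; rfl
  · rw [evP_snd, ev_X]; rfl

lemma evP_X_add (d : ℤ) (c : ℤ) : evP d (X + Polynomial.C c) = (lin c, lin (c - d)) := by
  ext1
  · rw [evP_fst, map_add, ev_X, ev_C, lin_zero, lin]; simp
  · rw [evP_snd, map_add, ev_X, ev_C]
    have h : ((c : ℤ) : PowerSeries ℚ) = PowerSeries.C (c : ℚ) := by simp
    rw [h]
    show lin (-d) + PowerSeries.C (c : ℚ) = lin (c - d)
    simp only [lin]
    push_cast
    simp only [map_sub, map_neg]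
    ring

lemma xd_mem (d : ℤ) : xd d ∈ IR p d := by
  have := evP_mem (p := p) d (X + Polynomial.C d)
  rw [evP_X_add, sub_self, lin_zero] at this
  exact this

lemma evP_X_add_d (d : ℤ) : evP d (X + Polynomial.C d) = xd d := by
  rw [evP_X_add, sub_self, lin_zero]; rfl

lemma lin_mem (d c : ℤ) : ((lin c, lin (c - d)) : PP) ∈ IR p d := by
  rw [← evP_X_add]; exact evP_mem d _

lemma eval_neg_d {d : ℤ} (hd : (p : ℤ) ∣ d) (B : ℤ[X]) : (p : ℤ) ∣ B.eval (-d) - B.coeff 0 := by
  rw [Polynomial.coeff_zero_eq_eval_zero]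
  have h1 := Polynomial.sub_dvd_eval_sub (-d) 0 B
  rw [sub_zero] at h1
  exact (hd.neg_right).trans h1

/-- componentwise inverse -/
noncomputable def pinv (h : PP) : PP := (h.1⁻¹, h.2⁻¹)

lemma evP_mul_pinv {d : ℤ} (hd : (p : ℤ) ∣ d) {B : ℤ[X]} (hB : ¬ (p : ℤ) ∣ B.coeff 0) :
    evP d B * pinv (evP d B) = 1 := by
  have h1 : PowerSeries.constantCoeff (ev 0 B) ≠ 0 := by
    rw [constantCoeff_ev]
    intro h
    have h' : B.eval 0 = 0 := by exact_mod_cast h
    rw [← Polynomial.coeff_zero_eq_eval_zero] at h'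
    exact hB (h' ▸ dvd_zero _)
  have h2 : PowerSeries.constantCoeff (ev (-d) B) ≠ 0 := by
    rw [constantCoeff_ev]
    intro h
    have h' : B.eval (-d) = 0 := by exact_mod_cast h
    have h3 := eval_neg_d hd B
    rw [h', zero_sub] at h3
    exact hB ((dvd_neg).1 h3)
  ext1
  · exact PowerSeries.mul_inv_cancel _ h1
  · exact PowerSeries.mul_inv_cancel _ h2

/-- the residue sum of an integral function is integral -/
theorem Rs_int {d : ℤ} (hd : (p : ℤ) ∣ d) (hd0 : d ≠ 0) {h : PP} (hh : h ∈ IR p d) (m n : ℕ) :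
    VG p 0 (Rs d m n h) := by
  obtain ⟨A, B, hB, hh⟩ := hh
  have hBinv := evP_mul_pinv hd hB
  -- reduction to `h = A / B`
  have hrep : ∀ (A : ℤ[X]) (h : PP), evP d B * h = evP d A → h = evP d A * pinv (evP d B) := by
    intro A h hh
    rw [← hh]
    calc h = h * (evP d B * pinv (evP d B)) := by rw [hBinv, mul_one]
      _ = _ := by ring
  rw [hrep A h hh]
  clear hh h
  have key : ∀ s m n : ℕ, m + n = s → ∀ A : ℤ[X], VG p 0 (Rs d m n (evP d A * pinv (evP d B))) := by
    intro s
    induction s with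
    | zero =>
      intro m n hmn A
      have hm : m = 0 := by omega
      have hn : n = 0 := by omega
      subst hm
      subst hn
      rw [Rs]
      simp only [PowerSeries.coeff_zero_X_mul, add_zero]
      exact VG.zero' _ _
    | succ s ih =>
      intro m n hmn A
      rcases m with _ | m
      · -- `m = 0`, `n = s + 1`
        obtain ⟨n', rfl⟩ : ∃ n', n = n' + 1 := ⟨n - 1, by omega⟩
        set β := B.eval (-d) with hβ
        set α := A.eval (-d) with hα
        have hβp : ¬ (p : ℤ) ∣ β := by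
          intro h1
          have h3 := eval_neg_d hd B
          have h4 := dvd_sub h1 h3
          rw [hβ, sub_sub_cancel] at h4
          exact hB h4
        have hroot : (Polynomial.C β * A - Polynomial.C α * B).IsRoot (-d) := by
          rw [Polynomial.IsRoot, Polynomial.eval_sub, Polynomial.eval_mul, Polynomial.eval_mul,
            Polynomial.eval_C, Polynomial.eval_C]
          rw [hβ, hα]; ring
        obtain ⟨A', hA'⟩ := Polynomial.dvd_iff_isRoot.2 hroot
        have hX : (X - Polynomial.C (-d) : ℤ[X]) = X + Polynomial.C d := by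
          rw [map_neg, sub_neg_eq_add]
        rw [hX] at hA'
        have h1 : (β : ℚ) • (evP d A * pinv (evP d B)) =
            (α : ℚ) • (1 : PP) + xd d * (evP d A' * pinv (evP d B)) := by
          have h2 := congrArg (evP d) hA'
          rw [map_sub, map_mul, map_mul, map_mul, evP_X_add_d] at h2
          have hc : ∀ c : ℤ, evP d (Polynomial.C c) = (c : ℚ) • (1 : PP) := by
            intro c
            ext1
            · rw [evP_fst, ev_C]; simp [PowerSeries.smul_eq_C_mul]
            · rw [evP_snd, ev_C]; simp [PowerSeries.smul_eq_C_mul]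
          rw [hc, hc, smul_mul_assoc, smul_mul_assoc, one_mul, one_mul] at h2
          calc (β : ℚ) • (evP d A * pinv (evP d B)) =
              ((β : ℚ) • evP d A - (α : ℚ) • evP d B) * pinv (evP d B) +
                (α : ℚ) • (evP d B * pinv (evP d B)) := by
                rw [sub_mul, smul_mul_assoc, smul_mul_assoc]; ring
            _ = _ := by rw [h2, hBinv]; ring
        have h3 : (β : ℚ) * Rs d 0 (n' + 1) (evP d A * pinv (evP d B)) =
            (α : ℚ) * Rs d 0 (n' + 1) 1 + Rs d 0 n' (evP d A' * pinv (evP d B)) := by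
          rw [← Rs_smul, h1, Rs_add, Rs_smul, Rs_xd hd0]
        apply VG_of_mul_unit hβp
        rw [h3]
        refine VG.add ?_ (ih 0 n' (by omega) A')
        have := (VG.int (p := p) α).mul (Rs_one_int (p := p) hd0 0 (n' + 1))
        simpa using this
      · set β := B.coeff 0 with hβ
        set α := A.coeff 0 with hα
        have hroot : (Polynomial.C β * A - Polynomial.C α * B).coeff 0 = 0 := by
          rw [Polynomial.coeff_sub, Polynomial.mul_coeff_zero, Polynomial.mul_coeff_zero,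
            Polynomial.coeff_C_zero, Polynomial.coeff_C_zero, hβ, hα]
          ring
        obtain ⟨A', hA'⟩ := Polynomial.X_dvd_iff.2 hroot
        have h1 : (β : ℚ) • (evP d A * pinv (evP d B)) =
            (α : ℚ) • (1 : PP) + xx d * (evP d A' * pinv (evP d B)) := by
          have h2 := congrArg (evP d) hA'
          rw [map_sub, map_mul, map_mul, map_mul, evP_X] at h2
          have hc : ∀ c : ℤ, evP d (Polynomial.C c) = (c : ℚ) • (1 : PP) := by
            intro c
            ext1
            · rw [evP_fst, ev_C]; simp [PowerSeries.smul_eq_C_mul]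
            · rw [evP_snd, ev_C]; simp [PowerSeries.smul_eq_C_mul]
          rw [hc, hc, smul_mul_assoc, smul_mul_assoc, one_mul, one_mul] at h2
          calc (β : ℚ) • (evP d A * pinv (evP d B)) =
              ((β : ℚ) • evP d A - (α : ℚ) • evP d B) * pinv (evP d B) +
                (α : ℚ) • (evP d B * pinv (evP d B)) := by
                rw [sub_mul, smul_mul_assoc, smul_mul_assoc]; ring
            _ = _ := by rw [h2, hBinv]; ring
        have h3 : (β : ℚ) * Rs d (m + 1) n (evP d A * pinv (evP d B)) =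
            (α : ℚ) * Rs d (m + 1) n 1 + Rs d m n (evP d A' * pinv (evP d B)) := by
          rw [← Rs_smul, h1, Rs_add, Rs_smul, Rs_xx hd0]
        apply VG_of_mul_unit hB
        rw [h3]
        refine VG.add ?_ (ih m n (by omega) A')
        have := (VG.int (p := p) α).mul (Rs_one_int (p := p) hd0 (m + 1) n)
        simpa using this
  exact key _ m n rfl A

end

end DIM3
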