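import Pool.Agent.Lib.DIM3.Defs

/-!
# D7: the two local determinants of the nonvanishing step do not vanish

Everything is reduced modulo `5`: `Red x y` says that the rational number `x` is `5`-integral with
residue `y`.
-/

open Polynomial Finset Z579

namespace DIM3

namespace LD

instance fact5 : Fact (Nat.Prime 5) := ⟨by norm_num⟩

/-- `x` is `5`-integral with residue `y` -/
def Red (x : ℚ) (y : ZMod 5) : Prop :=
  ∃ a b : ℤ, (b : ZMod 5) ≠ 0 ∧ x * b = a ∧ y * b = a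

lemma Red.int (n : ℤ) : Red n n := ⟨n, 1, by simp, by simp, by simp⟩

lemma Red.zero : Red 0 0 := by simpa using Red.int 0

lemma Red.one : Red 1 1 := by simpa using Red.int 1

lemma Red.add {x x' : ℚ} {y y' : ZMod 5} (h : Red x y) (h' : Red x' y') :
    Red (x + x') (y + y') := by
  obtain ⟨a, b, hb, h1, h2⟩ := h
  obtain ⟨a', b', hb', h1', h2'⟩ := h'
  refine ⟨a * b' + a' * b, b * b', by push_cast; exact mul_ne_zero hb hb', ?_, ?_⟩
  · push_cast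
    linear_combination (b' : ℚ) * h1 + (b : ℚ) * h1'
  · push_cast
    linear_combination (b' : ZMod 5) * h2 + (b : ZMod 5) * h2'

lemma Red.mul {x x' : ℚ} {y y' : ZMod 5} (h : Red x y) (h' : Red x' y') :
    Red (x * x') (y * y') := by
  obtain ⟨a, b, hb, h1, h2⟩ := h
  obtain ⟨a', b', hb', h1', h2'⟩ := h'
  refine ⟨a * a', b * b', by push_cast; exact mul_ne_zero hb hb', ?_, ?_⟩
  · push_cast
    rw [← h1, ← h1']; ring
  · push_cast
    rw [← h2, ← h2']; ring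

lemma Red.neg {x : ℚ} {y : ZMod 5} (h : Red x y) : Red (-x) (-y) := by
  have := (Red.int (-1)).mul h
  simpa using this

lemma Red.sub {x x' : ℚ} {y y' : ZMod 5} (h : Red x y) (h' : Red x' y') :
    Red (x - x') (y - y') := by
  rw [sub_eq_add_neg, sub_eq_add_neg]
  exact h.add h'.neg

lemma Red.sum {ι : Type*} (s : Finset ι) {x : ι → ℚ} {y : ι → ZMod 5}
    (h : ∀ i ∈ s, Red (x i) (y i)) : Red (∑ i ∈ s, x i) (∑ i ∈ s, y i) := by
  classical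
  induction s using Finset.induction_on with
  | empty => simpa using Red.zero
  | insert i s hi ih =>
    rw [Finset.sum_insert hi, Finset.sum_insert hi]
    exact (h i (Finset.mem_insert_self i s)).add (ih fun j hj => h j (Finset.mem_insert_of_mem hj))

lemma Red.prod {ι : Type*} (s : Finset ι) {x : ι → ℚ} {y : ι → ZMod 5}
    (h : ∀ i ∈ s, Red (x i) (y i)) : Red (∏ i ∈ s, x i) (∏ i ∈ s, y i) := by
  classical
  induction s using Finset.induction_on with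
  | empty => simpa using Red.one
  | insert i s hi ih =>
    rw [Finset.prod_insert hi, Finset.prod_insert hi]
    exact (h i (Finset.mem_insert_self i s)).mul (ih fun j hj => h j (Finset.mem_insert_of_mem hj))

lemma Red.det {ι : Type*} [Fintype ι] [DecidableEq ι] {M : Matrix ι ι ℚ}
    {N : Matrix ι ι (ZMod 5)} (h : ∀ i j, Red (M i j) (N i j)) : Red M.det N.det := by
  rw [Matrix.det_apply', Matrix.det_apply']
  refine Red.sum _ fun σ _ => ?_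
  refine Red.mul ?_ (Red.prod _ fun i _ => h _ _)
  have := Red.int ((Equiv.Perm.sign σ : ℤˣ) : ℤ)
  simpa using this

lemma Red.ne_zero {x : ℚ} {y : ZMod 5} (h : Red x y) (hy : y ≠ 0) : x ≠ 0 := by
  obtain ⟨a, b, hb, h1, h2⟩ := h
  rintro rfl
  rw [zero_mul] at h1
  have h3 : a = 0 := by exact_mod_cast h1.symm
  rw [h3, Int.cast_zero] at h2
  exact (mul_ne_zero hy hb) h2

/-! ## truncated power series -/

/-- the first ten coefficients of `f` have the residues `l` -/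
def Rep (l : List ℕ) (f : PowerSeries ℚ) : Prop :=
  ∀ k < 10, Red (PowerSeries.coeff k f) ((l.getD k 0 : ℕ) : ZMod 5)

/-- truncated product -/
def mulT (a b : List ℕ) : List ℕ :=
  (List.range 10).map fun k => (∑ i ∈ Finset.range (k + 1), a.getD i 0 * b.getD (k - i) 0) % 5

/-- truncated sum -/
def addT (a b : List ℕ) : List ℕ :=
  (List.range 10).map fun k => (a.getD k 0 + b.getD k 0) % 5

lemma getD_range_map (g : ℕ → ℕ) {k : ℕ} (hk : k < 10) :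
    ((List.range 10).map g).getD k 0 = g k := by
  rw [List.getD_eq_getElem _ _ (by simpa using hk)]
  simp

lemma cast_mod (n : ℕ) : ((n % 5 : ℕ) : ZMod 5) = n := ZMod.natCast_mod n 5

lemma Rep.mul {a b : List ℕ} {f g : PowerSeries ℚ} (hf : Rep a f) (hg : Rep b g) :
    Rep (mulT a b) (f * g) := by
  intro k hk
  rw [mulT, getD_range_map _ hk, cast_mod, PowerSeries.coeff_mul,
    Finset.Nat.sum_antidiagonal_eq_sum_range_succ_mk]
  push_cast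
  refine Red.sum _ fun i hi => ?_
  rw [Finset.mem_range] at hi
  exact (hf i (by omega)).mul (hg (k - i) (by omega))

lemma Rep.add {a b : List ℕ} {f g : PowerSeries ℚ} (hf : Rep a f) (hg : Rep b g) :
    Rep (addT a b) (f + g) := by
  intro k hk
  rw [addT, getD_range_map _ hk, cast_mod, map_add]
  push_cast
  exact (hf k hk).add (hg k hk)

lemma Rep.congr {a b : List ℕ} {f : PowerSeries ℚ} (hf : Rep a f)
    (h : ∀ k : Fin 10, a.getD k 0 = b.getD k 0) : Rep b f := by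
  intro k hk
  have := h ⟨k, hk⟩
  simp only at this
  rw [← this]
  exact hf k hk

lemma rep_lin (c : ℤ) (n : ℕ) (hn : (n : ZMod 5) = (c : ZMod 5)) : Rep [n, 1] (lin c) := by
  intro k hk
  rw [lin, map_add, PowerSeries.coeff_X, PowerSeries.coeff_C]
  match k with
  | 0 => simpa [hn] using Red.int c
  | 1 => simpa using Red.one
  | (k + 2) => simpa using Red.zero

lemma rep_one : Rep [1] (1 : PowerSeries ℚ) := by
  intro k hk
  rw [PowerSeries.coeff_one]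
  match k with
  | 0 => simpa using Red.one
  | (k + 1) => simpa using Red.zero

lemma rep_zero : Rep [] (0 : PowerSeries ℚ) := by
  intro k hk
  simpa using Red.zero

lemma rep_two : Rep [2] (2 : PowerSeries ℚ) := by
  have := (rep_one.add rep_one).congr (b := [2]) (by decide)
  rw [one_add_one_eq_two] at this
  exact this

lemma rep_X2 : Rep [0, 0, 1] ((PowerSeries.X : PowerSeries ℚ) ^ 2) := by
  intro k hk
  rw [PowerSeries.coeff_X_pow]
  match k with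
  | 0 => simpa using Red.zero
  | 1 => simpa using Red.zero
  | 2 => simpa using Red.one
  | (k + 3) => simpa using Red.zero

lemma lin_inv (c : ℤ) (hc : c ≠ 0) :
    (lin c)⁻¹ = PowerSeries.mk fun k => (-1 : ℚ) ^ k / (c : ℚ) ^ (k + 1) := by
  have hc' : (c : ℚ) ≠ 0 := by exact_mod_cast hc
  have h : PowerSeries.constantCoeff (lin c) ≠ 0 := by simpa [lin] using hc
  rw [eq_comm, PowerSeries.eq_inv_iff_mul_eq_one h]
  ext k
  rw [lin, mul_add, map_add, PowerSeries.coeff_mul_C, PowerSeries.coeff_one]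
  match k with
  | 0 => simp [hc']
  | (k + 1) =>
    rw [PowerSeries.coeff_succ_mul_X, PowerSeries.coeff_mk, PowerSeries.coeff_mk]
    simp only [Nat.add_eq_zero_iff, one_ne_zero, and_false, if_false]
    field_simp
    ring

/-- residues of the coefficients of `s (lin c)⁻¹`, `d = c⁻¹`, `s` a sign (1 or 4) -/
def invL (s d : ℕ) : List ℕ := (List.range 10).map fun k => (s * 4 ^ k * d ^ (k + 1)) % 5

lemma rep_inv (c : ℤ) (d : ℕ) (hd : (c : ZMod 5) * d = 1) (s : ℤ) (s' : ℕ)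
    (hs : (s' : ZMod 5) = s) : Rep (invL s' d) ((s : PowerSeries ℚ) * (lin c)⁻¹) := by
  have hc5 : (c : ZMod 5) ≠ 0 := left_ne_zero_of_mul_eq_one hd
  have hc : c ≠ 0 := by
    rintro rfl
    exact hc5 (by simp)
  have hc' : (c : ℚ) ≠ 0 := by exact_mod_cast hc
  have h4 : ((4 : ℕ) : ZMod 5) = -1 := by decide
  intro k hk
  have e1 : (s : PowerSeries ℚ) = PowerSeries.C (s : ℚ) := by simp
  rw [invL, getD_range_map _ hk, cast_mod, lin_inv c hc, e1, PowerSeries.coeff_C_mul,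
    PowerSeries.coeff_mk]
  refine ⟨s * (-1) ^ k, c ^ (k + 1), ?_, ?_, ?_⟩
  · push_cast
    exact pow_ne_zero _ hc5
  · push_cast
    field_simp
  · rw [Nat.cast_mul, Nat.cast_mul, Nat.cast_pow, h4, hs]
    push_cast
    have : (c : ZMod 5) ^ (k + 1) * d ^ (k + 1) = 1 := by rw [← mul_pow, hd, one_pow]
    linear_combination (s : ZMod 5) * (-1 : ZMod 5) ^ k * this

lemma rep_inv1 (c : ℤ) (d : ℕ) (hd : (c : ZMod 5) * d = 1) : Rep (invL 1 d) (lin c)⁻¹ := by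
  simpa using rep_inv c d hd 1 1 (by simp)

lemma rep_invn (c : ℤ) (d : ℕ) (hd : (c : ZMod 5) * d = 1) : Rep (invL 4 d) (-(lin c)⁻¹) := by
  simpa using rep_inv c d hd (-1) 4 (by decide)

/-! ## the five patterns -/

/-- powers -/
def powL (l : List ℕ) : ℕ → List ℕ
  | 0 => [1]
  | n + 1 => mulT (powL l n) l

lemma rep_pow {l : List ℕ} {f : PowerSeries ℚ} (h : Rep l f) (n : ℕ) :
    Rep (powL l n) (f ^ n) := by
  induction n with
  | zero => simpa [powL] using rep_one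
  | succ n ih => rw [powL, pow_succ]; exact ih.mul h

/-- the product of the inverses of four factors -/
lemma rep_four (c1 c2 c3 c4 : ℤ) (d1 d2 d3 d4 : ℕ) (h1 : (c1 : ZMod 5) * d1 = 1)
    (h2 : (c2 : ZMod 5) * d2 = 1) (h3 : (c3 : ZMod 5) * d3 = 1) (h4 : (c4 : ZMod 5) * d4 = 1) :
    Rep (mulT (invL 1 d1) (mulT (invL 1 d2) (mulT (invL 1 d3) (invL 1 d4))))
      (lin c1 * (lin c2 * (lin c3 * lin c4)))⁻¹ := by
  have e : (lin c1 * (lin c2 * (lin c3 * lin c4)))⁻¹ =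
      (lin c1)⁻¹ * ((lin c2)⁻¹ * ((lin c3)⁻¹ * (lin c4)⁻¹)) := by
    rw [PowerSeries.mul_inv_rev, PowerSeries.mul_inv_rev, PowerSeries.mul_inv_rev]
    ring
  rw [e]
  exact (rep_inv1 c1 d1 h1).mul ((rep_inv1 c2 d2 h2).mul ((rep_inv1 c3 d3 h3).mul
    (rep_inv1 c4 d4 h4)))

/-- the list `1, 0, 0, ...` for the tenth powers -/
lemma rep_ten (c1 c2 c3 c4 : ℤ) (d1 d2 d3 d4 : ℕ) (h1 : (c1 : ZMod 5) * d1 = 1)
    (h2 : (c2 : ZMod 5) * d2 = 1) (h3 : (c3 : ZMod 5) * d3 = 1) (h4 : (c4 : ZMod 5) * d4 = 1)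
    (h : ∀ k : Fin 10, (powL (mulT (invL 1 d1) (mulT (invL 1 d2) (mulT (invL 1 d3) (invL 1 d4))))
      10).getD k 0 = ([1] : List ℕ).getD k 0) :
    Rep [1] ((lin c1 * (lin c2 * (lin c3 * lin c4)))⁻¹ ^ 10) :=
  (rep_pow (rep_four c1 c2 c3 c4 d1 d2 d3 d4 h1 h2 h3 h4) 10).congr h

lemma tenP0 : Rep [1] ((lin 1 * (lin 2 * (lin 3 * lin 4)))⁻¹ ^ 10) :=
  rep_ten 1 2 3 4 1 3 2 4 (by decide) (by decide) (by decide) (by decide) (by decide +kernel)

lemma tenP1 : Rep [1] ((lin (-1) * (lin 1 * (lin 2 * lin 3)))⁻¹ ^ 10) :=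
  rep_ten (-1) 1 2 3 4 1 3 2 (by decide) (by decide) (by decide) (by decide) (by decide +kernel)

lemma tenP2 : Rep [1] ((lin (-2) * (lin (-1) * (lin 1 * lin 2)))⁻¹ ^ 10) :=
  rep_ten (-2) (-1) 1 2 2 4 1 3 (by decide) (by decide) (by decide) (by decide) (by decide +kernel)

lemma tenP3 : Rep [1] ((lin (-3) * (lin (-2) * (lin (-1) * lin 1)))⁻¹ ^ 10) :=
  rep_ten (-3) (-2) (-1) 1 3 2 4 1 (by decide) (by decide) (by decide) (by decide) (by decide +kernel)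

lemma tenP4 : Rep [1] ((lin (-4) * (lin (-3) * (lin (-2) * lin (-1))))⁻¹ ^ 10) :=
  rep_ten (-4) (-3) (-2) (-1) 1 3 2 4 (by decide) (by decide) (by decide) (by decide) (by decide +kernel)

/-- sum of inverses -/
noncomputable def sI (l : List (ℤ × ℕ)) : PowerSeries ℚ := (l.map fun x => (lin x.1)⁻¹).sum

/-- residues -/
def sL (s : ℕ) (l : List (ℤ × ℕ)) : List ℕ := l.foldr (fun x m => addT (invL s x.2) m) []

lemma rep_sI (l : List (ℤ × ℕ)) (hl : ∀ x ∈ l, (x.1 : ZMod 5) * (x.2 : ZMod 5) = 1) :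
    Rep (sL 1 l) (sI l) := by
  induction l with
  | nil => simpa [sL, sI] using rep_zero
  | cons x l ih =>
    have h1 := rep_inv1 x.1 x.2 (hl x (by simp))
    have h2 := ih fun y hy => hl y (by simp [hy])
    have h3 := h1.add h2
    simpa [sL, sI] using h3

lemma rep_sIn (l : List (ℤ × ℕ)) (hl : ∀ x ∈ l, (x.1 : ZMod 5) * (x.2 : ZMod 5) = 1) :
    Rep (sL 4 l) (-sI l) := by
  induction l with
  | nil => simpa [sL, sI] using rep_zero
  | cons x l ih =>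
    have h1 := rep_invn x.1 x.2 (hl x (by simp))
    have h2 := ih fun y hy => hl y (by simp [hy])
    have h3 := h1.add h2
    have e : -sI (x :: l) = -(lin x.1)⁻¹ + -sI l := by
      simp only [sI, List.map_cons, List.sum_cons]
      ring
    rw [e]
    simpa [sL] using h3

lemma rep_germ (lo hi : List (ℤ × ℕ)) (hlo : ∀ x ∈ lo, (x.1 : ZMod 5) * (x.2 : ZMod 5) = 1)
    (hhi : ∀ x ∈ hi, (x.1 : ZMod 5) * (x.2 : ZMod 5) = 1) :
    Rep (addT (sL 1 lo) (sL 4 hi)) (sI lo - sI hi) := by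
  rw [sub_eq_add_neg]
  exact (rep_sI lo hlo).add (rep_sIn hi hhi)

/-- the germ list -/
lemma germ0 : Rep [0, 0, 0, 4, 0, 0, 0, 4, 0, 0] (sI [] - sI [(1, 1), (2, 3), (3, 2), (4, 4)]) :=
  (rep_germ [] [(1, 1), (2, 3), (3, 2), (4, 4)] (by decide) (by decide)).congr (by decide +kernel)

/-- the germ list -/
lemma germ1 : Rep [3, 3, 3, 2, 3, 3, 3, 2, 3, 3] (sI [(-1, 4)] - sI [(1, 1), (2, 3), (3, 2)]) :=
  (rep_germ [(-1, 4)] [(1, 1), (2, 3), (3, 2)] (by decide) (by decide)).congr (by decide +kernel)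

/-- the germ list -/
lemma germ2 : Rep [2, 0, 4, 0, 2, 0, 4, 0, 2, 0] (sI [(-2, 2), (-1, 4)] - sI [(1, 1), (2, 3)]) :=
  (rep_germ [(-2, 2), (-1, 4)] [(1, 1), (2, 3)] (by decide) (by decide)).congr (by decide +kernel)

/-- the germ list -/
lemma germ3 : Rep [3, 2, 3, 3, 3, 2, 3, 3, 3, 2] (sI [(-3, 3), (-2, 2), (-1, 4)] - sI [(1, 1)]) :=
  (rep_germ [(-3, 3), (-2, 2), (-1, 4)] [(1, 1)] (by decide) (by decide)).congr (by decide +kernel)

/-- the germ list -/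
lemma germ4 : Rep [0, 0, 0, 1, 0, 0, 0, 1, 0, 0] (sI [(-4, 1), (-3, 3), (-2, 2), (-1, 4)] - sI []) :=
  (rep_germ [(-4, 1), (-3, 3), (-2, 2), (-1, 4)] [] (by decide) (by decide)).congr (by decide +kernel)

lemma locRN0 : Rep [1] (locR (Finset.Icc 0 4) 0) := by
  have e : (Finset.Icc (0 : ℤ) 4).erase 0 = {1, 2, 3, 4} := by decide
  rw [locR, e, Finset.prod_insert (by decide), Finset.prod_insert (by decide),
    Finset.prod_insert (by decide), Finset.prod_singleton]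
  exact tenP0

lemma locFN0 : Rep [0, 0, 0, 4, 0, 0, 0, 4, 0, 0] (locF (Finset.Icc 0 4) 0) := by
  have e1 : (Finset.Icc (0 : ℤ) 4).filter (· < 0) = ∅ := by decide
  have e2 : (Finset.Icc (0 : ℤ) 4).filter (0 < ·) = {1, 2, 3, 4} := by decide
  have h := germ0
  rw [locF, e1, e2]
  simpa [sI, Finset.sum_insert] using h

lemma locRN1 : Rep [1] (locR (Finset.Icc 0 4) 1) := by
  have e : (Finset.Icc (0 : ℤ) 4).erase 1 = {0, 2, 3, 4} := by decide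
  rw [locR, e, Finset.prod_insert (by decide), Finset.prod_insert (by decide),
    Finset.prod_insert (by decide), Finset.prod_singleton]
  exact tenP1

lemma locFN1 : Rep [3, 3, 3, 2, 3, 3, 3, 2, 3, 3] (locF (Finset.Icc 0 4) 1) := by
  have e1 : (Finset.Icc (0 : ℤ) 4).filter (· < 1) = {0} := by decide
  have e2 : (Finset.Icc (0 : ℤ) 4).filter (1 < ·) = {2, 3, 4} := by decide
  have h := germ1
  rw [locF, e1, e2]
  simpa [sI, Finset.sum_insert] using h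

lemma locRN2 : Rep [1] (locR (Finset.Icc 0 4) 2) := by
  have e : (Finset.Icc (0 : ℤ) 4).erase 2 = {0, 1, 3, 4} := by decide
  rw [locR, e, Finset.prod_insert (by decide), Finset.prod_insert (by decide),
    Finset.prod_insert (by decide), Finset.prod_singleton]
  exact tenP2

lemma locFN2 : Rep [2, 0, 4, 0, 2, 0, 4, 0, 2, 0] (locF (Finset.Icc 0 4) 2) := by
  have e1 : (Finset.Icc (0 : ℤ) 4).filter (· < 2) = {0, 1} := by decide
  have e2 : (Finset.Icc (0 : ℤ) 4).filter (2 < ·) = {3, 4} := by decide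
  have h := germ2
  rw [locF, e1, e2]
  simpa [sI, Finset.sum_insert] using h

lemma locRN3 : Rep [1] (locR (Finset.Icc 0 4) 3) := by
  have e : (Finset.Icc (0 : ℤ) 4).erase 3 = {0, 1, 2, 4} := by decide
  rw [locR, e, Finset.prod_insert (by decide), Finset.prod_insert (by decide),
    Finset.prod_insert (by decide), Finset.prod_singleton]
  exact tenP3

lemma locFN3 : Rep [3, 2, 3, 3, 3, 2, 3, 3, 3, 2] (locF (Finset.Icc 0 4) 3) := by
  have e1 : (Finset.Icc (0 : ℤ) 4).filter (· < 3) = {0, 1, 2} := by decide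
  have e2 : (Finset.Icc (0 : ℤ) 4).filter (3 < ·) = {4} := by decide
  have h := germ3
  rw [locF, e1, e2]
  simpa [sI, Finset.sum_insert] using h

lemma locRN4 : Rep [1] (locR (Finset.Icc 0 4) 4) := by
  have e : (Finset.Icc (0 : ℤ) 4).erase 4 = {0, 1, 2, 3} := by decide
  rw [locR, e, Finset.prod_insert (by decide), Finset.prod_insert (by decide),
    Finset.prod_insert (by decide), Finset.prod_singleton]
  exact tenP4

lemma locFN4 : Rep [0, 0, 0, 1, 0, 0, 0, 1, 0, 0] (locF (Finset.Icc 0 4) 4) := by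
  have e1 : (Finset.Icc (0 : ℤ) 4).filter (· < 4) = {0, 1, 2, 3} := by decide
  have e2 : (Finset.Icc (0 : ℤ) 4).filter (4 < ·) = ∅ := by decide
  have h := germ4
  rw [locF, e1, e2]
  simpa [sI, Finset.sum_insert] using h

lemma locRC0 : Rep [1] (locR (Finset.Icc (-2) 2) (-2)) := by
  have e : (Finset.Icc (-2 : ℤ) 2).erase (-2) = {-1, 0, 1, 2} := by decide
  rw [locR, e, Finset.prod_insert (by decide), Finset.prod_insert (by decide),
    Finset.prod_insert (by decide), Finset.prod_singleton]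
  exact tenP0

lemma locFC0 : Rep [0, 0, 0, 4, 0, 0, 0, 4, 0, 0] (locF (Finset.Icc (-2) 2) (-2)) := by
  have e1 : (Finset.Icc (-2 : ℤ) 2).filter (· < (-2)) = ∅ := by decide
  have e2 : (Finset.Icc (-2 : ℤ) 2).filter ((-2) < ·) = {-1, 0, 1, 2} := by decide
  have h := germ0
  rw [locF, e1, e2]
  simpa [sI, Finset.sum_insert] using h

lemma locRC1 : Rep [1] (locR (Finset.Icc (-2) 2) (-1)) := by
  have e : (Finset.Icc (-2 : ℤ) 2).erase (-1) = {-2, 0, 1, 2} := by decide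
  rw [locR, e, Finset.prod_insert (by decide), Finset.prod_insert (by decide),
    Finset.prod_insert (by decide), Finset.prod_singleton]
  exact tenP1

lemma locFC1 : Rep [3, 3, 3, 2, 3, 3, 3, 2, 3, 3] (locF (Finset.Icc (-2) 2) (-1)) := by
  have e1 : (Finset.Icc (-2 : ℤ) 2).filter (· < (-1)) = {-2} := by decide
  have e2 : (Finset.Icc (-2 : ℤ) 2).filter ((-1) < ·) = {0, 1, 2} := by decide
  have h := germ1
  rw [locF, e1, e2]
  simpa [sI, Finset.sum_insert] using h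

lemma locRC2 : Rep [1] (locR (Finset.Icc (-2) 2) 0) := by
  have e : (Finset.Icc (-2 : ℤ) 2).erase 0 = {-2, -1, 1, 2} := by decide
  rw [locR, e, Finset.prod_insert (by decide), Finset.prod_insert (by decide),
    Finset.prod_insert (by decide), Finset.prod_singleton]
  exact tenP2

lemma locFC2 : Rep [2, 0, 4, 0, 2, 0, 4, 0, 2, 0] (locF (Finset.Icc (-2) 2) 0) := by
  have e1 : (Finset.Icc (-2 : ℤ) 2).filter (· < 0) = {-2, -1} := by decide
  have e2 : (Finset.Icc (-2 : ℤ) 2).filter (0 < ·) = {1, 2} := by decide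
  have h := germ2
  rw [locF, e1, e2]
  simpa [sI, Finset.sum_insert] using h

lemma locRC3 : Rep [1] (locR (Finset.Icc (-2) 2) 1) := by
  have e : (Finset.Icc (-2 : ℤ) 2).erase 1 = {-2, -1, 0, 2} := by decide
  rw [locR, e, Finset.prod_insert (by decide), Finset.prod_insert (by decide),
    Finset.prod_insert (by decide), Finset.prod_singleton]
  exact tenP3

lemma locFC3 : Rep [3, 2, 3, 3, 3, 2, 3, 3, 3, 2] (locF (Finset.Icc (-2) 2) 1) := by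
  have e1 : (Finset.Icc (-2 : ℤ) 2).filter (· < 1) = {-2, -1, 0} := by decide
  have e2 : (Finset.Icc (-2 : ℤ) 2).filter (1 < ·) = {2} := by decide
  have h := germ3
  rw [locF, e1, e2]
  simpa [sI, Finset.sum_insert] using h

lemma locRC4 : Rep [1] (locR (Finset.Icc (-2) 2) 2) := by
  have e : (Finset.Icc (-2 : ℤ) 2).erase 2 = {-2, -1, 0, 1} := by decide
  rw [locR, e, Finset.prod_insert (by decide), Finset.prod_insert (by decide),
    Finset.prod_insert (by decide), Finset.prod_singleton]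
  exact tenP4

lemma locFC4 : Rep [0, 0, 0, 1, 0, 0, 0, 1, 0, 0] (locF (Finset.Icc (-2) 2) 2) := by
  have e1 : (Finset.Icc (-2 : ℤ) 2).filter (· < 2) = {-2, -1, 0, 1} := by decide
  have e2 : (Finset.Icc (-2 : ℤ) 2).filter (2 < ·) = ∅ := by decide
  have h := germ4
  rw [locF, e1, e2]
  simpa [sI, Finset.sum_insert] using h

/-! ## the moments -/

/-- residue of a moment: `[x^9] (A B l^n)` -/
def mo (A B l : List ℕ) (n : ℕ) : ℕ := (mulT (mulT A B) (powL l n)).getD 9 0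

lemma red_mo {A B l : List ℕ} {f g h : PowerSeries ℚ} (hA : Rep A f) (hB : Rep B g)
    (hl : Rep l h) (n : ℕ) :
    Red (PowerSeries.coeff 9 (f * g * h ^ n)) ((mo A B l n : ℕ) : ZMod 5) :=
  ((hA.mul hB).mul (rep_pow hl n)) 9 (by norm_num)

/-- residues of `fN` -/
def fNL (n : ℕ) : ℕ :=
  mo [1] [0, 0, 0, 4, 0, 0, 0, 4, 0, 0] [0, 1] n + mo [1] [3, 3, 3, 2, 3, 3, 3, 2, 3, 3] [4, 1] n + mo [1] [2, 0, 4, 0, 2, 0, 4, 0, 2, 0] [3, 1] n + mo [1] [3, 2, 3, 3, 3, 2, 3, 3, 3, 2] [2, 1] n + mo [1] [0, 0, 0, 1, 0, 0, 0, 1, 0, 0] [1, 1] n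

/-- residues of `gN` -/
def gNL (n : ℕ) : ℕ :=
  mo [1] [0, 0, 1] [0, 1] n + mo [1] [0, 0, 1] [4, 1] n + mo [1] [0, 0, 1] [3, 1] n + mo [1] [0, 0, 1] [2, 1] n + mo [1] [0, 0, 1] [1, 1] n

/-- residues of `fC` -/
def fCL (n : ℕ) : ℕ :=
  mo (mulT (mulT [2] [2, 1]) [1]) [0, 0, 0, 4, 0, 0, 0, 4, 0, 0] (powL [2, 1] 2) n + mo (mulT (mulT [2] [1, 1]) [1]) [3, 3, 3, 2, 3, 3, 3, 2, 3, 3] (powL [1, 1] 2) n + mo (mulT (mulT [2] [0, 1]) [1]) [2, 0, 4, 0, 2, 0, 4, 0, 2, 0] (powL [0, 1] 2) n + mo (mulT (mulT [2] [4, 1]) [1]) [3, 2, 3, 3, 3, 2, 3, 3, 3, 2] (powL [4, 1] 2) n + mo (mulT (mulT [2] [3, 1]) [1]) [0, 0, 0, 1, 0, 0, 0, 1, 0, 0] (powL [3, 1] 2) n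

/-- residues of `gC` -/
def gCL (n : ℕ) : ℕ :=
  mo (mulT (mulT [2] [2, 1]) [1]) [0, 0, 1] (powL [2, 1] 2) n + mo (mulT (mulT [2] [1, 1]) [1]) [0, 0, 1] (powL [1, 1] 2) n + mo (mulT (mulT [2] [0, 1]) [1]) [0, 0, 1] (powL [0, 1] 2) n + mo (mulT (mulT [2] [4, 1]) [1]) [0, 0, 1] (powL [4, 1] 2) n + mo (mulT (mulT [2] [3, 1]) [1]) [0, 0, 1] (powL [3, 1] 2) n

lemma sum_icc0 (F : ℤ → ℚ) : ∑ j ∈ Finset.Icc (0 : ℤ) 4, F j = F 0 + F 1 + F 2 + F 3 + F 4 := by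
  have e : Finset.Icc (0 : ℤ) 4 = {0, 1, 2, 3, 4} := by decide
  rw [e, Finset.sum_insert (by decide), Finset.sum_insert (by decide),
    Finset.sum_insert (by decide), Finset.sum_insert (by decide), Finset.sum_singleton]
  ring

lemma sum_icc2 (F : ℤ → ℚ) :
    ∑ j ∈ Finset.Icc (-2 : ℤ) 2, F j = F (-2) + F (-1) + F 0 + F 1 + F 2 := by
  have e : Finset.Icc (-2 : ℤ) 2 = {-2, -1, 0, 1, 2} := by decide
  rw [e, Finset.sum_insert (by decide), Finset.sum_insert (by decide),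
    Finset.sum_insert (by decide), Finset.sum_insert (by decide), Finset.sum_singleton]
  ring

lemma red_fN (n : ℕ) : Red (fN n) ((fNL n : ℕ) : ZMod 5) := by
  rw [fN, sum_icc0, fNL]
  push_cast
  exact ((((red_mo locRN0 locFN0 (rep_lin (-0) 0 (by decide)) n).add
    (red_mo locRN1 locFN1 (rep_lin (-1) 4 (by decide)) n)).add
    (red_mo locRN2 locFN2 (rep_lin (-2) 3 (by decide)) n)).add
    (red_mo locRN3 locFN3 (rep_lin (-3) 2 (by decide)) n)).add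
    (red_mo locRN4 locFN4 (rep_lin (-4) 1 (by decide)) n)

lemma red_gN (n : ℕ) : Red (gN n) ((gNL n : ℕ) : ZMod 5) := by
  rw [gN, sum_icc0, gNL]
  push_cast
  exact ((((red_mo locRN0 rep_X2 (rep_lin (-0) 0 (by decide)) n).add
    (red_mo locRN1 rep_X2 (rep_lin (-1) 4 (by decide)) n)).add
    (red_mo locRN2 rep_X2 (rep_lin (-2) 3 (by decide)) n)).add
    (red_mo locRN3 rep_X2 (rep_lin (-3) 2 (by decide)) n)).add
    (red_mo locRN4 rep_X2 (rep_lin (-4) 1 (by decide)) n)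

lemma red_fC (n : ℕ) : Red (fC n) ((fCL n : ℕ) : ZMod 5) := by
  rw [fC, sum_icc2, fCL]
  push_cast
  exact ((((red_mo ((rep_two.mul (rep_lin (- -2) 2 (by decide))).mul locRC0) locFC0
      (rep_pow (rep_lin (- -2) 2 (by decide)) 2) n).add
    (red_mo ((rep_two.mul (rep_lin (- -1) 1 (by decide))).mul locRC1) locFC1
      (rep_pow (rep_lin (- -1) 1 (by decide)) 2) n)).add
    (red_mo ((rep_two.mul (rep_lin (-0) 0 (by decide))).mul locRC2) locFC2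
      (rep_pow (rep_lin (-0) 0 (by decide)) 2) n)).add
    (red_mo ((rep_two.mul (rep_lin (-1) 4 (by decide))).mul locRC3) locFC3
      (rep_pow (rep_lin (-1) 4 (by decide)) 2) n)).add
    (red_mo ((rep_two.mul (rep_lin (-2) 3 (by decide))).mul locRC4) locFC4
      (rep_pow (rep_lin (-2) 3 (by decide)) 2) n)

lemma red_gC (n : ℕ) : Red (gC n) ((gCL n : ℕ) : ZMod 5) := by
  rw [gC, sum_icc2, gCL]
  push_cast
  exact ((((red_mo ((rep_two.mul (rep_lin (- -2) 2 (by decide))).mul locRC0) rep_X2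
      (rep_pow (rep_lin (- -2) 2 (by decide)) 2) n).add
    (red_mo ((rep_two.mul (rep_lin (- -1) 1 (by decide))).mul locRC1) rep_X2
      (rep_pow (rep_lin (- -1) 1 (by decide)) 2) n)).add
    (red_mo ((rep_two.mul (rep_lin (-0) 0 (by decide))).mul locRC2) rep_X2
      (rep_pow (rep_lin (-0) 0 (by decide)) 2) n)).add
    (red_mo ((rep_two.mul (rep_lin (-1) 4 (by decide))).mul locRC3) rep_X2
      (rep_pow (rep_lin (-1) 4 (by decide)) 2) n)).add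
    (red_mo ((rep_two.mul (rep_lin (-2) 3 (by decide))).mul locRC4) rep_X2
      (rep_pow (rep_lin (-2) 3 (by decide)) 2) n)

/-- table of `fN` -/
def fNT : List ℕ := [0, 4, 4, 2, 0, 4, 4, 2, 0, 4, 4, 2, 0, 2, 0, 2, 0, 0, 0, 2, 0, 3, 0, 1, 0, 1, 0, 4, 0, 1, 0, 4, 0, 1, 0, 4, 0, 0, 0, 4, 0]

/-- table of `gN` -/
def gNT : List ℕ := [0, 0, 0, 0, 0, 0, 0, 0, 0, 0, 0, 0, 0, 0, 0, 0, 0, 0, 0, 2, 0, 0, 0, 3, 0, 0, 0, 0, 0, 0, 0, 0, 0, 0, 0, 0, 0, 0, 0, 3, 0]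

/-- table of `fC` -/
def fCT : List ℕ := [3, 3, 3, 3, 3, 3, 4, 3, 0, 2, 1, 0, 2, 1, 1, 1, 1, 1, 4, 3]

/-- table of `gC` -/
def gCT : List ℕ := [0, 0, 0, 0, 0, 0, 0, 0, 0, 4, 0, 1, 0, 0, 0, 0, 0, 0, 0, 1]

lemma tab_fN : ∀ n : Fin 41, fNL n % 5 = fNT.getD n 0 := by decide +kernel
lemma tab_gN : ∀ n : Fin 41, gNL n % 5 = gNT.getD n 0 := by decide +kernel
lemma tab_fC : ∀ n : Fin 20, fCL n % 5 = fCT.getD n 0 := by decide +kernel
lemma tab_gC : ∀ n : Fin 20, gCL n % 5 = gCT.getD n 0 := by decide +kernel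

/-! ## certificate -/

/-- nonvanishing of a two-block determinant from residues and an inverse modulo `5` -/
lemma det2_ne_zero {μA μB : ℕ → ℚ} (K : ℕ) (A B : List ℕ) (W : List (List ℕ))
    (hA : ∀ n : ℕ, n < 3 * K - 1 → Red (μA n) ((A.getD n 0 : ℕ) : ZMod 5))
    (hB : ∀ n : ℕ, n < 3 * K - 1 → Red (μB n) ((B.getD n 0 : ℕ) : ZMod 5))
    (hW : ∀ i j : Fin (2 * K), (∑ k ∈ Finset.range (2 * K),
      (if k < K then A.getD ((i : ℕ) + k) 0 else B.getD ((i : ℕ) + (k - K)) 0) *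
        (W.getD k []).getD j 0) % 5 = if i = j then 1 else 0) :
    det2 μA μB K ≠ 0 := by
  classical
  -- the matrix indexed by `Fin (2 * K)`
  let e : Fin K ⊕ Fin K ≃ Fin (2 * K) := finSumFinEquiv.trans (finCongr (by omega))
  have hel : ∀ i : Fin K, ((e (Sum.inl i) : Fin (2 * K)) : ℕ) = i := fun i => by simp [e]
  have her : ∀ i : Fin K, ((e (Sum.inr i) : Fin (2 * K)) : ℕ) = K + i := fun i => by simp [e, add_comm]
  have herow : ∀ i : Fin K ⊕ Fin K, ((e i : Fin (2 * K)) : ℕ) = row i := by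
    rintro (i | i)
    · rw [hel]; rfl
    · rw [her]; rfl
  let N : Matrix (Fin (2 * K)) (Fin (2 * K)) (ZMod 5) := fun i k =>
    (((if (k : ℕ) < K then A.getD ((i : ℕ) + k) 0 else B.getD ((i : ℕ) + (k - K)) 0) : ℕ) : ZMod 5)
  let V : Matrix (Fin (2 * K)) (Fin (2 * K)) (ZMod 5) := fun k j =>
    (((W.getD k []).getD j 0 : ℕ) : ZMod 5)
  have hNV : N * V = 1 := by
    ext i j
    rw [Matrix.mul_apply, Matrix.one_apply]
    have h1 := hW i j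
    have h2 : ((((∑ k ∈ Finset.range (2 * K),
      (if k < K then A.getD ((i : ℕ) + k) 0 else B.getD ((i : ℕ) + (k - K)) 0) *
        (W.getD k []).getD j 0) % 5 : ℕ)) : ZMod 5) = ((if i = j then 1 else 0 : ℕ) : ZMod 5) := by
      rw [h1]
    rw [cast_mod, Finset.sum_range] at h2
    push_cast at h2
    simpa [N, V] using h2
  have hN : N.det ≠ 0 := by
    intro h0
    have := congrArg Matrix.det hNV
    rw [Matrix.det_mul, h0, zero_mul, Matrix.det_one] at this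
    exact zero_ne_one this
  have hred : Red (det2 μA μB K) (N.submatrix e e).det := by
    rw [det2]
    refine Red.det fun i c => ?_
    rw [Matrix.of_apply, Matrix.submatrix_apply]
    have hi : row i < 2 * K := by rw [← herow]; exact (e i).2
    rcases c with c | c
    · have hc := c.2
      have h1 : N (e i) (e (Sum.inl c)) = ((A.getD (row i + c) 0 : ℕ) : ZMod 5) := by
        simp only [N, hel, herow, if_pos hc]
      rw [h1]
      exact hA _ (by omega)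
    · have hc := c.2
      have h1 : N (e i) (e (Sum.inr c)) = ((B.getD (row i + c) 0 : ℕ) : ZMod 5) := by
        have h2 : ¬ (K + (c : ℕ) < K) := by omega
        simp only [N, her, herow, if_neg h2, Nat.add_sub_cancel_left]
      rw [h1]
      exact hB _ (by omega)
  rw [Matrix.det_submatrix_equiv_self] at hred
  exact hred.ne_zero hN

lemma red_tab {x : ℚ} {m n : ℕ} (h : Red x ((m : ℕ) : ZMod 5)) (hmn : m % 5 = n) :
    Red x ((n : ℕ) : ZMod 5) := by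
  rw [← hmn, cast_mod]
  exact h

/-- inverse of the `28 × 28` matrix modulo `5` -/
def WN : List (List ℕ) :=
   [[0, 3, 3, 0, 1, 0, 4, 1, 2, 2, 2, 4, 2, 2, 2, 4, 2, 2, 2, 4, 2, 2, 2, 4, 2, 2, 2, 2],
    [3, 4, 1, 1, 2, 4, 4, 4, 1, 1, 3, 0, 1, 1, 3, 0, 1, 1, 3, 0, 1, 1, 3, 0, 1, 1, 1, 4],
    [4, 3, 0, 2, 2, 4, 1, 4, 2, 4, 1, 3, 2, 4, 1, 3, 2, 4, 1, 3, 2, 4, 1, 3, 0, 1, 0, 1],
    [0, 4, 1, 4, 0, 3, 2, 3, 4, 1, 3, 0, 4, 1, 3, 0, 4, 1, 3, 0, 4, 1, 3, 0, 4, 3, 4, 3],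
    [4, 0, 3, 0, 1, 2, 0, 2, 2, 4, 1, 1, 2, 4, 1, 1, 2, 4, 1, 1, 2, 4, 1, 1, 4, 0, 4, 1],
    [3, 0, 4, 4, 2, 3, 3, 2, 1, 3, 3, 3, 1, 3, 3, 3, 1, 3, 3, 3, 1, 3, 3, 3, 2, 2, 0, 4],
    [4, 1, 1, 1, 3, 2, 0, 1, 4, 4, 4, 4, 4, 4, 4, 4, 4, 4, 4, 4, 4, 4, 4, 4, 4, 2, 1, 2],
    [1, 0, 1, 3, 2, 0, 1, 4, 4, 4, 4, 4, 4, 4, 4, 4, 4, 4, 4, 4, 4, 4, 4, 4, 1, 3, 2, 0],
    [3, 4, 1, 0, 3, 4, 2, 2, 2, 2, 2, 2, 2, 2, 2, 2, 2, 2, 2, 2, 2, 2, 2, 2, 3, 2, 0, 0],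
    [3, 0, 4, 2, 3, 1, 1, 1, 1, 1, 1, 1, 1, 1, 1, 1, 1, 1, 1, 1, 1, 1, 1, 1, 2, 0, 0, 0],
    [4, 3, 1, 2, 0, 0, 0, 0, 0, 0, 0, 0, 0, 0, 0, 0, 0, 0, 0, 0, 0, 0, 0, 0, 0, 0, 0, 0],
    [3, 0, 2, 0, 0, 0, 0, 0, 0, 0, 0, 0, 0, 0, 0, 0, 0, 0, 0, 0, 0, 0, 0, 0, 4, 2, 0, 0],
    [1, 4, 1, 1, 1, 1, 1, 1, 1, 1, 1, 1, 1, 1, 1, 1, 1, 1, 1, 1, 1, 1, 1, 1, 3, 3, 0, 0],
    [2, 4, 4, 4, 4, 4, 4, 4, 4, 4, 4, 4, 4, 4, 4, 4, 4, 4, 4, 4, 4, 4, 4, 4, 3, 0, 0, 0],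
    [2, 1, 0, 2, 3, 2, 1, 3, 4, 4, 4, 1, 4, 4, 4, 1, 4, 4, 4, 1, 4, 4, 4, 3, 3, 0, 2, 2],
    [2, 2, 4, 4, 0, 2, 2, 2, 4, 4, 1, 3, 4, 4, 1, 3, 4, 4, 1, 3, 4, 4, 3, 3, 4, 1, 1, 4],
    [2, 3, 1, 0, 1, 2, 3, 3, 2, 4, 1, 0, 2, 4, 1, 0, 2, 4, 1, 0, 2, 1, 1, 0, 1, 0, 2, 3],
    [4, 0, 4, 2, 4, 4, 3, 4, 2, 4, 3, 2, 2, 4, 3, 2, 2, 4, 3, 2, 4, 4, 3, 2, 2, 4, 0, 2],
    [2, 4, 2, 1, 2, 0, 0, 0, 3, 2, 1, 3, 3, 2, 1, 3, 3, 2, 1, 0, 3, 2, 1, 0, 1, 2, 4, 2],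
    [1, 0, 1, 4, 3, 2, 1, 1, 1, 0, 2, 4, 1, 0, 2, 4, 1, 0, 4, 4, 1, 0, 4, 4, 2, 0, 4, 2],
    [4, 4, 4, 2, 3, 0, 3, 2, 3, 0, 2, 3, 3, 0, 2, 3, 3, 2, 2, 3, 3, 2, 2, 3, 2, 2, 1, 4],
    [0, 1, 2, 4, 4, 4, 0, 2, 2, 4, 0, 1, 2, 4, 0, 1, 4, 4, 0, 1, 4, 4, 0, 1, 0, 3, 0, 1],
    [0, 0, 0, 3, 2, 4, 2, 0, 1, 2, 3, 2, 1, 2, 3, 4, 1, 2, 3, 4, 1, 2, 3, 4, 3, 4, 4, 3],
    [3, 2, 1, 0, 2, 0, 3, 4, 0, 1, 0, 4, 0, 1, 2, 4, 0, 1, 2, 4, 0, 1, 2, 4, 3, 1, 3, 0],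
    [4, 3, 3, 4, 4, 0, 4, 4, 2, 1, 0, 0, 2, 3, 0, 0, 2, 3, 0, 0, 2, 3, 0, 0, 4, 4, 4, 4],
    [1, 1, 4, 2, 2, 2, 3, 4, 2, 1, 1, 1, 4, 1, 1, 1, 4, 1, 1, 1, 4, 1, 1, 1, 0, 1, 2, 3],
    [0, 4, 4, 1, 2, 2, 2, 2, 2, 2, 2, 2, 2, 2, 2, 2, 2, 2, 2, 2, 2, 2, 2, 2, 1, 3, 0, 2],
    [0, 3, 2, 3, 3, 3, 3, 3, 3, 3, 3, 3, 3, 3, 3, 3, 3, 3, 3, 3, 3, 3, 3, 3, 1, 4, 2, 0]]

/-- inverse of the `14 × 14` matrix modulo `5` -/
def WC : List (List ℕ) :=
   [[0, 4, 1, 4, 1, 4, 1, 4, 1, 4, 1, 4, 2, 0],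
    [1, 2, 4, 0, 2, 4, 2, 4, 2, 4, 2, 4, 0, 1],
    [1, 3, 4, 0, 2, 2, 2, 2, 2, 2, 2, 2, 3, 3],
    [3, 2, 3, 3, 3, 2, 3, 2, 3, 2, 3, 2, 3, 1],
    [1, 4, 2, 4, 1, 4, 1, 4, 1, 4, 1, 4, 1, 0],
    [2, 2, 4, 1, 4, 1, 4, 1, 4, 1, 4, 1, 4, 0],
    [3, 1, 4, 1, 4, 1, 4, 1, 4, 1, 4, 1, 4, 0],
    [3, 4, 0, 1, 2, 2, 2, 2, 2, 2, 2, 3, 0, 4],
    [4, 1, 3, 2, 3, 4, 3, 4, 3, 4, 4, 4, 0, 3],
    [0, 3, 3, 1, 3, 0, 3, 0, 3, 1, 3, 1, 1, 1],
    [4, 3, 4, 2, 2, 4, 2, 4, 3, 4, 3, 4, 2, 3],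
    [3, 3, 2, 3, 1, 4, 1, 0, 1, 0, 1, 0, 4, 4],
    [3, 1, 2, 4, 2, 1, 3, 1, 3, 1, 3, 1, 4, 3],
    [2, 4, 3, 2, 3, 2, 3, 2, 3, 2, 3, 2, 3, 1]]

theorem detN : det2 fN gN 14 ≠ 0 := by
  refine det2_ne_zero 14 fNT gNT WN (fun n hn => red_tab (red_fN n) (tab_fN ⟨n, by omega⟩))
    (fun n hn => red_tab (red_gN n) (tab_gN ⟨n, by omega⟩)) ?_
  decide +kernel

theorem detC : det2 fC gC 7 ≠ 0 := by
  refine det2_ne_zero 7 fCT gCT WC (fun n hn => red_tab (red_fC n) (tab_fC ⟨n, by omega⟩))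
    (fun n hn => red_tab (red_gC n) (tab_gC ⟨n, by omega⟩)) ?_
  decide +kernel

end LD

/-- D7 -/
theorem localDet : LocalDet := ⟨LD.detN, LD.detC⟩

end DIM3
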