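import Pool.Agent.Lib.DIM3.NV4

/-!
# D6: nonvanishing of the two-block determinant at a prime `p = (2a-1)/5`
-/

open Polynomial Finset Z579

namespace DIM3

/-- number of row levels of a class -/
def NR (d : ℤ) : ℕ := if d = 0 then 14 else 28

/-- number of column levels of a class (for each of the two functionals) -/
def NCc (d : ℤ) : ℕ := if d = 0 then 7 else 14

/-- exponents of the product of an adapted row and an adapted column polynomial -/
def nn (ca : ℤ) (r : ℕ) (cb : ℤ) (j : ℕ) (d : ℤ) : ℕ :=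
  (if d = ca then r else NR d) + (if d = cb then j else NCc d)

/-- weight of a row -/
def wR (c : ℤ) (r : ℕ) : ℕ := if c = 0 then 2 * r else r

/-- weight of a column -/
def wC (c : ℤ) (j : ℕ) : ℕ := if c = 0 then 2 * j + 1 else j

lemma ne_zero_of_mem_Dn {h : ℕ} {c : ℤ} (hc : c ∈ Dn h) : c ≠ 0 := by
  rw [mem_Dn] at hc; omega

section
variable {p : ℕ} [hp : Fact p.Prime]

/-- the entries of the scaled matrix -/
lemma entry_block {h : ℕ} (hh : p = 2 * h + 1) (hp5 : 5 < p) {ω : ℤ → ℕ → ℚ} {g τ : ℕ}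
    {VN VC : ℤ → PowerSeries (ZMod p)}
    (hwN : ∀ c ∈ Dn h, ∀ j ∈ Finset.Icc (0 : ℤ) 4, ∀ i : ℕ, 1 ≤ i → i ≤ 10 →
      ∃ w : ℚ, (p : ℚ) ^ i * ws ω (c + j * p) i = (p : ℚ) ^ g * w ∧
      red p w (PowerSeries.coeff (i - 1) (VN j)))
    (hwC : ∀ j ∈ Finset.Icc (-2 : ℤ) 2, ∀ i : ℕ, 1 ≤ i → i ≤ 10 →
      ∃ w : ℚ, (p : ℚ) ^ i * ws ω (0 + j * p) i = (p : ℚ) ^ g * w ∧
      red p w (PowerSeries.coeff (i - 1) (VC j)))
    {ca cb : ℤ} {r j : ℕ} (ha : (ca = 0 ∧ r < 14) ∨ (ca ∈ Dn h ∧ r < 28))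
    (hb : (cb = 0 ∧ j < 7) ∨ (cb ∈ Dn h ∧ j < 14)) (hτ : τ + g + wC cb j + wR ca r = 50) :
    red p ((p : ℚ) ^ τ * Lw 0 10 0 (5 * h + 3) (5 * h + 3) ω (PolyN (Da h) (nn ca r cb j)))
      (if ca = cb then (if ca = 0 then KC p h (nn ca r cb j) * mC p VC (r + j) else
        KN p h (nn ca r cb j) ca * mN p VN (r + j)) else 0) := by
  have hn : ∀ c ∈ Dn h, wC cb j + wR ca r ≤ nn ca r cb j c ∧
      ((ca ≠ cb ∨ c ≠ ca) → wC cb j + wR ca r < nn ca r cb j c) := by
    intro c hc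
    have hc0 := ne_zero_of_mem_Dn hc
    rcases ha with ⟨rfl, hr⟩ | ⟨hca, hr⟩ <;> rcases hb with ⟨rfl, hj⟩ | ⟨hcb, hj⟩
    · simp only [nn, wC, wR, NR, NCc, if_true, hc0, if_false]; omega
    · have hcb0 := ne_zero_of_mem_Dn hcb
      simp only [nn, wC, wR, NR, NCc, if_true, hc0, if_false, hcb0]
      split_ifs <;> omega
    · have hca0 := ne_zero_of_mem_Dn hca
      simp only [nn, wC, wR, NR, NCc, if_true, hc0, if_false, hca0]
      split_ifs <;> omega
    · have hcb0 := ne_zero_of_mem_Dn hcb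
      have hca0 := ne_zero_of_mem_Dn hca
      simp only [nn, wC, wR, NR, NCc, hc0, if_false, hca0, hcb0]
      split_ifs with h1 h2 h2
      · subst h1; subst h2; simp; omega
      · omega
      · omega
      · omega
  have hn0 : wC cb j + wR ca r ≤ 2 * nn ca r cb j 0 + 1 ∧
      ((ca ≠ cb ∨ ca ≠ 0) → wC cb j + wR ca r < 2 * nn ca r cb j 0 + 1) := by
    rcases ha with ⟨rfl, hr⟩ | ⟨hca, hr⟩ <;> rcases hb with ⟨rfl, hj⟩ | ⟨hcb, hj⟩
    · simp only [nn, wC, wR, if_true, ne_eq, not_true, or_false, false_imp_iff, and_true]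
      omega
    · have hcb0 := ne_zero_of_mem_Dn hcb
      have hcb0' : (0 : ℤ) ≠ cb := fun h => hcb0 h.symm
      simp only [nn, wC, wR, NR, NCc, if_true, if_false, hcb0, hcb0']
      omega
    · have hca0 := ne_zero_of_mem_Dn hca
      have hca0' : (0 : ℤ) ≠ ca := fun h => hca0 h.symm
      simp only [nn, wC, wR, NR, NCc, if_true, if_false, hca0, hca0']
      omega
    · have hcb0 := ne_zero_of_mem_Dn hcb
      have hcb0' : (0 : ℤ) ≠ cb := fun h => hcb0 h.symm
      have hca0 := ne_zero_of_mem_Dn hca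
      have hca0' : (0 : ℤ) ≠ ca := fun h => hca0 h.symm
      simp only [nn, wC, wR, NR, NCc, if_true, if_false, hca0, hca0', hcb0, hcb0']
      omega
  have key := entry_gen (p := p) (τ := τ) (g := g) hh hp5 (n := nn ca r cb j)
    (kN := fun c => nn ca r cb j c - (wC cb j + wR ca r))
    (kC := 2 * nn ca r cb j 0 + 1 - (wC cb j + wR ca r)) hwN hwC
    (fun c hc => by have := (hn c hc).1; push_cast [this]; omega)
    (by have := hn0.1; push_cast [this]; omega)
  convert key using 1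
  have hz : ∀ c ∈ Dn h, (ca ≠ cb ∨ c ≠ ca) →
      (0 : ZMod p) ^ (nn ca r cb j c - (wC cb j + wR ca r)) * (KN p h (nn ca r cb j) c *
        mN p VN (nn ca r cb j c)) = 0 := by
    intro c hc h1
    have := (hn c hc).2 h1
    rw [zero_pow (by omega), zero_mul]
  have hz0 : (ca ≠ cb ∨ ca ≠ 0) → (0 : ZMod p) ^ (2 * nn ca r cb j 0 + 1 - (wC cb j + wR ca r)) *
      (KC p h (nn ca r cb j) * mC p VC (nn ca r cb j 0)) = 0 := by
    intro h1
    have := hn0.2 h1
    rw [zero_pow (by omega), zero_mul]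
  by_cases hab : ca = cb
  · rw [if_pos hab]
    by_cases hc0 : ca = 0
    · rw [if_pos hc0, Finset.sum_eq_zero, add_zero]
      · subst hab
        subst hc0
        have h1 : nn 0 r 0 j 0 = r + j := by simp [nn]
        have h2 : 2 * (r + j) + 1 - (wC 0 j + wR 0 r) = 0 := by
          simp only [wC, wR, if_true]; omega
        rw [h1, h2, pow_zero, one_mul]
      · intro c hc
        exact hz c hc (Or.inr (by rw [hc0]; exact ne_zero_of_mem_Dn hc))
    · rw [if_neg hc0, hz0 (Or.inr hc0), zero_add]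
      have hca : ca ∈ Dn h := by
        rcases ha with h1 | h1
        · exact absurd h1.1 hc0
        · exact h1.1
      rw [Finset.sum_eq_single ca (fun c hc hcc => hz c hc (Or.inr hcc))
        (fun h1 => absurd hca h1)]
      subst hab
      have h1 : nn ca r ca j ca = r + j := by simp [nn]
      have h2 : (r + j) - (wC ca j + wR ca r) = 0 := by
        simp only [wC, wR, hc0, if_false]; omega
      rw [h1, h2, pow_zero, one_mul]
  · rw [if_neg hab, hz0 (Or.inl hab), zero_add, Finset.sum_eq_zero]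
    intro c hc
    exact hz c hc (Or.inl hab)

/-! ### the units -/

/-- unit of a noncentral class -/
noncomputable def UN (p : ℕ) [Fact p.Prime] (h : ℕ) (c : ℤ) : ZMod p :=
  KN p h (fun d => if d = c then 0 else NR d + NCc d) c

/-- unit of the central class -/
noncomputable def UC (p : ℕ) [Fact p.Prime] (h : ℕ) : ZMod p :=
  KC p h (fun d => NR d + NCc d)

lemma KN_factor {h : ℕ} {c : ℤ} {r j : ℕ} :
    KN p h (nn c r c j) c = UN p h c * ((-2 * (c : ZMod p)) ^ r * (-2 * (c : ZMod p)) ^ j) := by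
  unfold UN KN
  have h1 : nn c r c j c = r + j := by simp [nn]
  have h3 : ∏ d ∈ (Da h).erase c, ((c : ZMod p) ^ 2 - d ^ 2) ^ (nn c r c j d) =
      ∏ d ∈ (Da h).erase c, ((c : ZMod p) ^ 2 - d ^ 2) ^ (if d = c then 0 else NR d + NCc d) := by
    refine Finset.prod_congr rfl fun d hd => ?_
    have hne := (Finset.mem_erase.1 hd).1
    simp [nn, hne]
  rw [h1, h3]
  simp only [if_true, pow_zero, pow_add]
  ring

lemma KC_factor {h : ℕ} {r j : ℕ} : KC p h (nn 0 r 0 j) = UC p h := by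
  unfold UC KC
  congr 1
  refine Finset.prod_congr rfl fun d hd => ?_
  have hne := (Finset.mem_erase.1 hd).1
  simp [nn, hne]

lemma cast_ne_shift {x : ℤ} (k : ℤ) (h0 : x + k * p ≠ 0) (h1 : |x + k * p| < p) :
    (x : ZMod p) ≠ 0 := by
  have := cast_ne_zero_of_small h0 h1
  push_cast at this
  simpa using this

lemma cDn_ne {h : ℕ} (hh : p = 2 * h + 1) {c : ℤ} (hc : c ∈ Dn h) : (c : ZMod p) ≠ 0 := by
  have hpz : (p : ℤ) = 2 * h + 1 := by exact_mod_cast hh
  rw [mem_Dn] at hc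
  refine cast_ne_shift 1 ?_ ?_
  · omega
  · rw [abs_lt]; omega

lemma UN_ne {h : ℕ} (hh : p = 2 * h + 1) (hp5 : 5 < p) {c : ℤ} (hc : c ∈ Dn h) :
    UN p h c ≠ 0 := by
  have hpz : (p : ℤ) = 2 * h + 1 := by exact_mod_cast hh
  have hc0 := cDn_ne hh hc
  have hc' := mem_Dn.1 hc
  unfold UN KN
  refine mul_ne_zero (mul_ne_zero (mul_ne_zero (two_ne hp5) (neg_ne_zero.2 hc0)) ?_)
    (mul_ne_zero ?_ ?_)
  · refine pow_ne_zero _ (inv_ne_zero (Finset.prod_ne_zero_iff.2 fun w hw => ?_))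
    have := On_ne hw
    push_cast at this
    exact this
  · exact pow_ne_zero _ (mul_ne_zero (neg_ne_zero.2 (two_ne hp5)) hc0)
  · refine Finset.prod_ne_zero_iff.2 fun d hd => pow_ne_zero _ ?_
    rw [Finset.mem_erase, Da, Finset.mem_insert] at hd
    obtain ⟨hdc, rfl | hd⟩ := hd
    · push_cast
      simpa using hc0
    · have hd' := mem_Dn.1 hd
      have h5 : (c : ZMod p) ^ 2 - d ^ 2 = ((c - d : ℤ) : ZMod p) * ((c + d : ℤ) : ZMod p) := by
        push_cast; ring
      rw [h5]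
      refine mul_ne_zero ?_ ?_
      · refine cast_ne_zero_of_small (sub_ne_zero.2 (Ne.symm hdc)) ?_
        rw [abs_lt]; omega
      · refine cast_ne_shift 3 ?_ ?_
        · omega
        · rw [abs_lt]; omega

lemma UC_ne {h : ℕ} (hh : p = 2 * h + 1) : UC p h ≠ 0 := by
  unfold UC KC
  refine mul_ne_zero ?_ ?_
  · refine pow_ne_zero _ (inv_ne_zero (Finset.prod_ne_zero_iff.2 fun w hw => ?_))
    have := On_ne hw
    push_cast at this
    simpa using this
  · refine Finset.prod_ne_zero_iff.2 fun d hd => pow_ne_zero _ ?_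
    rw [Finset.mem_erase, Da, Finset.mem_insert] at hd
    obtain ⟨hdc, h1 | hd⟩ := hd
    · exact absurd h1 hdc
    · exact neg_ne_zero.2 (pow_ne_zero _ (cDn_ne hh hd))

/-! ### the index type -/

/-- index type of rows and columns -/
abbrev Idx (h : ℕ) := ((Fin 14 ⊕ Fin 14) × {c // c ∈ Dn h}) ⊕ (Fin 7 ⊕ Fin 7)

/-- column exponent -/
def colx {K : ℕ} : Fin K ⊕ Fin K → ℕ := Sum.elim (fun j => (j : ℕ)) (fun j => (j : ℕ))

def icls {h : ℕ} : Idx h → ℤ := Sum.elim (fun x => x.2.1) (fun _ => 0)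
def irow {h : ℕ} : Idx h → ℕ := Sum.elim (fun x => row x.1) (fun x => row x)
def icol {h : ℕ} : Idx h → ℕ := Sum.elim (fun x => colx x.1) (fun x => colx x)
def iB {h : ℕ} : Idx h → Bool := Sum.elim (fun x => x.1.isRight) (fun x => x.isRight)

lemma row_lt_nv {K : ℕ} (x : Fin K ⊕ Fin K) : row x < K + K := by
  rcases x with x | x
  · have := x.2; simp only [row, Sum.elim_inl]; omega
  · have := x.2; simp only [row, Sum.elim_inr]; omega

lemma colx_lt {K : ℕ} (x : Fin K ⊕ Fin K) : colx x < K := by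
  rcases x with x | x
  · exact x.2
  · exact x.2

lemma irow_lt {h : ℕ} (α : Idx h) : (icls α = 0 ∧ irow α < 14) ∨ (icls α ∈ Dn h ∧ irow α < 28) := by
  rcases α with ⟨x, c⟩ | x
  · right; exact ⟨c.2, row_lt_nv x⟩
  · left; exact ⟨rfl, row_lt_nv x⟩

lemma icol_lt {h : ℕ} (α : Idx h) : (icls α = 0 ∧ icol α < 7) ∨ (icls α ∈ Dn h ∧ icol α < 14) := by
  rcases α with ⟨x, c⟩ | x
  · right; exact ⟨c.2, colx_lt x⟩
  · left; exact ⟨rfl, colx_lt x⟩

lemma card_Dn (h : ℕ) : (Dn h).card = h := by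
  rw [Dn, Int.card_Icc]; omega

lemma zero_notMem_Dn (h : ℕ) : (0 : ℤ) ∉ Dn h := fun h1 => ne_zero_of_mem_Dn h1 rfl

lemma card_Idx (h : ℕ) : Fintype.card (Idx h) = 7 * (2 * h + 1) + 7 * (2 * h + 1) := by
  simp only [Idx, Fintype.card_sum, Fintype.card_prod, Fintype.card_fin, Fintype.card_coe, card_Dn]
  ring

lemma sum_Da (h : ℕ) (x y : ℕ) : ∑ d ∈ Da h, (if d = 0 then x else y) = x + h * y := by
  rw [Da, Finset.sum_insert (zero_notMem_Dn h), if_pos rfl]
  congr 1
  rw [Finset.sum_congr rfl (fun d hd => if_neg (ne_zero_of_mem_Dn hd)), Finset.sum_const, card_Dn,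
    smul_eq_mul]

lemma mem_Da_of {h : ℕ} {c : ℤ} (hc : c = 0 ∨ c ∈ Dn h) : c ∈ Da h := by
  rw [Da, Finset.mem_insert]; exact hc

lemma deg_row {h : ℕ} (α : Idx h) :
    (PolyN (Da h) fun d => if d = icls α then irow α else NR d).natDegree <
      7 * (2 * h + 1) + 7 * (2 * h + 1) := by
  rw [natDegree_PolyN]
  have h1 : ∑ d ∈ Da h, NR d = 7 * (2 * h + 1) + 7 * (2 * h + 1) := by
    have := sum_Da h 14 28
    simp only [NR]
    rw [this]; ring
  rw [← h1]
  have h2 : irow α < NR (icls α) := by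
    rcases irow_lt α with h3 | h3
    · rw [NR, if_pos h3.1]; exact h3.2
    · rw [NR, if_neg (ne_zero_of_mem_Dn h3.1)]; exact h3.2
  refine Finset.sum_lt_sum (fun d _ => ?_) ⟨icls α, mem_Da_of ?_, ?_⟩
  · split_ifs with h3
    · rw [h3]; exact h2.le
    · exact le_rfl
  · rcases irow_lt α with h3 | h3
    · exact Or.inl h3.1
    · exact Or.inr h3.1
  · rw [if_pos rfl]; exact h2

lemma deg_col {h : ℕ} (α : Idx h) :
    (PolyN (Da h) fun d => if d = icls α then icol α else NCc d).natDegree < 7 * (2 * h + 1) := by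
  rw [natDegree_PolyN]
  have h1 : ∑ d ∈ Da h, NCc d = 7 * (2 * h + 1) := by
    have := sum_Da h 7 14
    simp only [NCc]
    rw [this]; ring
  rw [← h1]
  have h2 : icol α < NCc (icls α) := by
    rcases icol_lt α with h3 | h3
    · rw [NCc, if_pos h3.1]; exact h3.2
    · rw [NCc, if_neg (ne_zero_of_mem_Dn h3.1)]; exact h3.2
  refine Finset.sum_lt_sum (fun d _ => ?_) ⟨icls α, mem_Da_of ?_, ?_⟩
  · split_ifs with h3
    · rw [h3]; exact h2.le
    · exact le_rfl
  · rcases irow_lt α with h3 | h3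
    · exact Or.inl h3.1
    · exact Or.inr h3.1
  · rw [if_pos rfl]; exact h2

/-! ### determinants of the blocks -/

/-- a local block -/
noncomputable def blk (K : ℕ) (U x : ZMod p) (f g : ℕ → ZMod p) :
    Matrix (Fin K ⊕ Fin K) (Fin K ⊕ Fin K) (ZMod p) :=
  Matrix.of fun α β => U * (x ^ row α * x ^ colx β) *
    Sum.elim (fun j : Fin K => f (row α + j)) (fun j : Fin K => g (row α + j)) β

lemma blk_det {K : ℕ} {U x : ZMod p} {f g : ℕ → ZMod p} (hU : U ≠ 0) (hx : x ≠ 0)
    (hd : det2 f g K ≠ 0) : (blk K U x f g).det ≠ 0 := by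
  have h1 : blk K U x f g = Matrix.of fun i j => (U * x ^ row i) *
      (Matrix.of fun i c : Fin K ⊕ Fin K =>
        Sum.elim (fun j : Fin K => f (row i + j)) (fun j : Fin K => g (row i + j)) c) i j *
      (x ^ colx j) := by
    ext i j
    simp only [blk, Matrix.of_apply]
    ring
  rw [h1, det_scale]
  refine mul_ne_zero (mul_ne_zero (Finset.prod_ne_zero_iff.2 fun i _ => ?_) hd)
    (Finset.prod_ne_zero_iff.2 fun i _ => pow_ne_zero _ hx)
  exact mul_ne_zero hU (pow_ne_zero _ hx)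

/-! ### the reduced matrix -/

/-- the reduced matrix -/
noncomputable def Mbar (p : ℕ) [Fact p.Prime] (h : ℕ) : Matrix (Idx h) (Idx h) (ZMod p) :=
  Matrix.fromBlocks
    (Matrix.blockDiagonal fun c : {c // c ∈ Dn h} => blk 14 (UN p h c) (-2 * ((c : ℤ) : ZMod p))
      (mN p (VA p (Finset.Icc (0 : ℤ) 4))) (mN p (fun _ => PowerSeries.X ^ 2))) 0 0
    (blk 7 (UC p h) 1 (mC p (VA p (Finset.Icc (-2 : ℤ) 2))) (mC p (fun _ => PowerSeries.X ^ 2)))

lemma Mbar_apply {h : ℕ} (α β : Idx h) :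
    Mbar p h α β = if icls α = icls β then (if icls α = 0 then
      KC p h (nn (icls α) (irow α) (icls β) (icol β)) *
        (if iB β then mC p (fun _ => PowerSeries.X ^ 2) (irow α + icol β) else
          mC p (VA p (Finset.Icc (-2 : ℤ) 2)) (irow α + icol β)) else
      KN p h (nn (icls α) (irow α) (icls β) (icol β)) (icls α) *
        (if iB β then mN p (fun _ => PowerSeries.X ^ 2) (irow α + icol β) else
          mN p (VA p (Finset.Icc (0 : ℤ) 4)) (irow α + icol β))) else 0 := by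
  rcases α with ⟨x, c⟩ | x <;> rcases β with ⟨y, d⟩ | y
  · have hc0 : (c : ℤ) ≠ 0 := ne_zero_of_mem_Dn c.2
    simp only [Mbar, Matrix.fromBlocks_apply₁₁, Matrix.blockDiagonal_apply, icls, irow, icol, iB,
      Sum.elim_inl]
    by_cases hcd : c = d
    · subst hcd
      rw [if_pos rfl, if_pos rfl, if_neg hc0, KN_factor]
      rcases y with y | y
      · simp [blk, colx]
      · simp [blk, colx]
    · rw [if_neg hcd, if_neg (fun h1 => hcd (Subtype.ext h1))]
  · have hc0 : (c : ℤ) ≠ 0 := ne_zero_of_mem_Dn c.2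
    simp [Mbar, icls, hc0]
  · have hc0 : (0 : ℤ) ≠ d := (ne_zero_of_mem_Dn d.2).symm
    simp [Mbar, icls, hc0]
  · simp only [Mbar, Matrix.fromBlocks_apply₂₂, icls, irow, icol, iB, Sum.elim_inr]
    simp only [if_true]
    rw [KC_factor]
    rcases y with y | y
    · simp [blk, colx]
    · simp [blk, colx]

lemma Mbar_det {h : ℕ} (hh : p = 2 * h + 1) (hp5 : 5 < p)
    (hdN : det2 (mN p (VA p (Finset.Icc (0 : ℤ) 4))) (mN p (fun _ => PowerSeries.X ^ 2)) 14 ≠ 0)
    (hdC : det2 (mC p (VA p (Finset.Icc (-2 : ℤ) 2))) (mC p (fun _ => PowerSeries.X ^ 2)) 7 ≠ 0) :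
    (Mbar p h).det ≠ 0 := by
  rw [Mbar, Matrix.det_fromBlocks_zero₂₁, Matrix.det_blockDiagonal]
  refine mul_ne_zero (Finset.prod_ne_zero_iff.2 fun c _ => ?_) ?_
  · refine blk_det (UN_ne hh hp5 c.2) ?_ hdN
    exact mul_ne_zero (neg_ne_zero.2 (two_ne hp5)) (cDn_ne hh c.2)
  · exact blk_det (UC_ne hh) one_ne_zero hdC

/-- the main step -/
lemma nonvan_aux {h : ℕ} (hh : p = 2 * h + 1) (hp5 : 5 < p) {z b : ℕ → ℚ} (hadm : Adm z b)
    (hz : ∀ s, VG p 0 (z s)) (hb : ∀ s, VG p 0 (b s))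
    (hdN : det2 (mN p (VA p (Finset.Icc (0 : ℤ) 4))) (mN p (fun _ => PowerSeries.X ^ 2)) 14 ≠ 0)
    (hdC : det2 (mC p (VA p (Finset.Icc (-2 : ℤ) 2))) (mC p (fun _ => PowerSeries.X ^ 2)) 7 ≠ 0) :
    hank2 (FA (5 * h + 3) 1 z) (FB (5 * h + 3) 1 b) (7 * (2 * h + 1)) ≠ 0 := by
  intro h0
  set P : Idx h → ℚ[X] := fun α => PolyN (Da h) fun d => if d = icls α then irow α else NR d
    with hP
  set Q : Idx h → ℚ[X] := fun α => PolyN (Da h) fun d => if d = icls α then icol α else NCc d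
    with hQ
  have hdet := gram2 (FA (5 * h + 3) 1 z) (FB (5 * h + 3) 1 b) (7 * (2 * h + 1)) P Q iB
    deg_row deg_col (card_Idx h) h0
  have hsc := det_scale (Matrix.of fun α β : Idx h => if iB β then
    FB (5 * h + 3) 1 b (P α * Q β) else FA (5 * h + 3) 1 z (P α * Q β))
    (fun α => (p : ℚ) ^ (27 - wR (icls α) (irow α)))
    (fun β => (p : ℚ) ^ (23 - (if iB β then 3 else 0) - wC (icls β) (icol β)))
  rw [hdet, mul_zero, zero_mul] at hsc
  have hPQ : ∀ α β : Idx h, P α * Q β =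
      PolyN (Da h) (nn (icls α) (irow α) (icls β) (icol β)) := by
    intro α β
    rw [hP, hQ]
    simp only
    rw [PolyN_mul]
    rfl
  have hred : red p 0 (Mbar p h).det := by
    rw [← hsc]
    refine red_det _ _ fun α β => ?_
    rw [Mbar_apply]
    simp only [Matrix.of_apply]
    rw [hPQ]
    have hR : wR (icls α) (irow α) ≤ 27 := by
      rcases irow_lt α with h1 | h1
      · rw [wR, if_pos h1.1]; omega
      · rw [wR, if_neg (ne_zero_of_mem_Dn h1.1)]; omega
    have hC : wC (icls β) (icol β) ≤ 13 := by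
      rcases icol_lt β with h1 | h1
      · rw [wC, if_pos h1.1]; omega
      · rw [wC, if_neg (ne_zero_of_mem_Dn h1.1)]; omega
    cases hB : iB β
    · simp only [Bool.false_eq_true, if_false]
      have key := entry_block (τ := 50 - wC (icls β) (icol β) - wR (icls α) (irow α)) (g := 0)
        hh hp5 (ω := wt 0 (5 * h + 3) 1 z)
        (fun c hc j hj i hi _ => hwA_N hh hp5 hz hc hj hi)
        (fun j hj i hi _ => hwA_C hh hp5 hz hj hi) (irow_lt α) (icol_lt β) (by omega)
      convert key using 1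
      rw [FA, mul_comm ((p : ℚ) ^ (27 - wR (icls α) (irow α))), mul_assoc, mul_comm, ← pow_add]
      congr 2
      omega
    · simp only [if_true]
      have key := entry_block (τ := 47 - wC (icls β) (icol β) - wR (icls α) (irow α)) (g := 3)
        hh hp5 (ω := fun _ i => ((1 : ℕ) : ℚ) * b i)
        (VN := fun _ => PowerSeries.X ^ 2) (VC := fun _ => PowerSeries.X ^ 2)
        (fun c hc j hj i hi hi2 => hwB hadm hb hi hi2)
        (fun j hj i hi hi2 => hwB hadm hb hi hi2) (irow_lt α) (icol_lt β) (by omega)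
      convert key using 1
      rw [FB, mul_comm ((p : ℚ) ^ (27 - wR (icls α) (irow α))), mul_assoc, mul_comm, ← pow_add]
      congr 2
      omega
  exact Mbar_det hh hp5 hdN hdC (red_unique hred red_zero)

omit hp in
lemma VG_of_den_nv {x : ℚ} (hx : x.den < p) : VG p 0 x := by
  right
  have h1 : ¬ p ∣ x.den := fun h => by
    have := Nat.le_of_dvd x.den_pos h
    omega
  have h2 : padicValRat p x = padicValInt p x.num := by
    rw [padicValRat, padicValNat.eq_zero_of_not_dvd h1]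
    simp
  rw [h2]
  exact_mod_cast (Nat.zero_le _)

end

/-- D6 -/
theorem nonVan : NonVan := by
  intro hLD z b hadm
  obtain ⟨hN, hC⟩ := hLD
  set D1 : ℚ := det2 fN (fun n => 2 * gN n) 14 with hD1
  set D2 : ℚ := det2 (fun n => 1 / 2 * fC n) gC 7 with hD2
  have hD1' : D1 ≠ 0 := by
    have h1 : D1 = 1 ^ 14 * 2 ^ 14 * det2 fN gN 14 := by
      rw [← det2_smul]
      simp only [one_mul, hD1]
    rw [h1]
    exact mul_ne_zero (by norm_num) hN
  have hD2' : D2 ≠ 0 := by
    have h1 : D2 = (1 / 2) ^ 7 * 1 ^ 7 * det2 fC gC 7 := by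
      rw [← det2_smul]
      simp only [one_mul, hD2]
    rw [h1]
    exact mul_ne_zero (by norm_num) hC
  refine ⟨10 + D1.num.natAbs + D2.num.natAbs + (z 5).den + (z 7).den + (z 9).den + (b 5).den +
    (b 7).den + (b 9).den, fun p a hp hpp hpa => ?_⟩
  have : Fact p.Prime := ⟨hp⟩
  obtain ⟨h, hh⟩ : ∃ h, p = 2 * h + 1 := by
    rcases Nat.even_or_odd' p with ⟨k, hk | hk⟩
    · omega
    · exact ⟨k, hk⟩
  have ha : a = 5 * h + 3 := by omega
  have hp5 : 5 < p := by omega
  have hz : ∀ s, VG p 0 (z s) := by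
    intro s
    by_cases h5 : s = 5
    · subst h5; exact VG_of_den_nv (by omega)
    by_cases h7 : s = 7
    · subst h7; exact VG_of_den_nv (by omega)
    by_cases h9 : s = 9
    · subst h9; exact VG_of_den_nv (by omega)
    left; exact hadm.zs s h5 h7 h9
  have hb : ∀ s, VG p 0 (b s) := by
    intro s
    by_cases h3 : s = 3
    · subst h3
      refine VG_of_den_nv ?_
      rw [hadm.b3]
      simp
      omega
    by_cases h5 : s = 5
    · subst h5; exact VG_of_den_nv (by omega)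
    by_cases h7 : s = 7
    · subst h7; exact VG_of_den_nv (by omega)
    by_cases h9 : s = 9
    · subst h9; exact VG_of_den_nv (by omega)
    left; exact hadm.bs s h3 h5 h7 h9
  have h1 := nonvan_aux hh hp5 hadm hz hb
    (ne_zero_of_red (red_det2 (red_fN hp5) (red_gN hp5) 14) hD1' (by rw [← hD1]; omega))
    (ne_zero_of_red (red_det2 (red_fC hp5) (red_gC hp5) 7) hD2' (by rw [← hD2]; omega))
  rw [ha, hh]
  exact h1

end DIM3
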