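import Pool.Agent.Lib.DIM3.Defs
import Pool.Agent.Lib.Z579.M4

/-!
# Integrality of the two-block determinant for `p ≥ 2a-1`
-/

open Polynomial Finset Z579

namespace DIM3

section

variable {p : ℕ} [hp : Fact p.Prime]

/-- determinant bound, any index type -/
lemma VG_det_fintype {ι : Type*} [Fintype ι] [DecidableEq ι] {M : Matrix ι ι ℚ} {g h : ι → ℝ}
    (hM : ∀ i j, VG p (g i + h j) (M i j)) :
    VG p (∑ i, g i + ∑ j, h j) M.det := by
  rw [Matrix.det_apply]
  refine VG.sum fun σ _ => ?_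
  have h1 : VG p (∑ i, (g (σ i) + h i)) (∏ i, M (σ i) i) := VG.prod fun i _ => hM (σ i) i
  rw [Finset.sum_add_distrib, Equiv.sum_comp σ g] at h1
  rcases Int.units_eq_one_or (Equiv.Perm.sign σ) with h2 | h2
  · rw [h2, one_smul]; exact h1
  · rw [h2, Units.neg_smul, one_smul]; exact h1.neg

/-- the functional is `p`-integral on integral polynomials when every class has one pole -/
lemma Lw_int {a : ℕ} (ha : 1 ≤ a) (hap : 2 * a - 1 ≤ p) {ω : ℤ → ℕ → ℚ}
    (hω : ∀ u ∈ pc a, ∀ i : ℕ, 1 ≤ i → i ≤ 10 → VG p 0 (ω u i)) (n : ℕ) :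
    VG p 0 (Lw 0 10 0 a a ω (X ^ n)) := by
  rw [Lw_apply]
  refine VG.sum fun u hu => VG.sum fun k hk => ?_
  rw [Finset.mem_Icc] at hk
  have hone : ∀ w ∈ pc a, (p : ℤ) ∣ w - u → w = u := by
    intro w hw hd
    have hu' : 1 - (a : ℤ) ≤ u ∧ u ≤ (a : ℤ) - 1 := by simpa [pc] using hu
    have hw' : 1 - (a : ℤ) ≤ w ∧ w ≤ (a : ℤ) - 1 := by simpa [pc] using hw
    have h1 := Int.eq_zero_of_abs_lt_dvd hd (by rw [abs_lt]; omega)
    omega
  have h1 := base_WA_zero (q := 10) (B := 0) (b := a) hone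
  have h2 := WA.aeval_int (p := p) (le_refl (0 : ℝ)) (-u) (X ^ n)
  rw [Polynomial.map_pow, Polynomial.map_X] at h2
  have h3 := (h1.mul h2) (10 - k)
  have h4 := ((VG.nat (p := p) (Nat.choose (k + 0 - 1) 0)).mul (hω u hu k hk.1 hk.2)).mul h3
  refine VG.mono h4 ?_
  simp

lemma Hs_int {s n : ℕ} (hn : n < p) : VG p 0 (Hs s n) := by
  have h := m4c p s n hp.out
  rwa [Nat.log_of_lt hn, Nat.cast_zero, mul_zero, neg_zero] at h

end

theorem pBig : PBig := by
  intro p a K z b hp ha hap _ hz hb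
  have := Fact.mk hp
  have hA : ∀ n, VG p 0 (FA a 1 z (X ^ n)) := fun n => by
    refine Lw_int ha hap (fun u hu i _ _ => ?_) n
    have hu' : 1 - (a : ℤ) ≤ u ∧ u ≤ (a : ℤ) - 1 := by simpa [pc] using hu
    have h1 : VG p 0 (Hs (i + 0) (u + a - 1).toNat) := Hs_int (by omega)
    have h2 := (hz (i + 0)).sub h1
    simpa [wt] using h2
  have hB : ∀ n, VG p 0 (FB a 1 b (X ^ n)) := fun n => by
    refine Lw_int ha hap (fun u hu i _ _ => ?_) n
    simpa using hb i
  have h : VG p (∑ i : Fin K ⊕ Fin K, (0 : ℝ) + ∑ j : Fin K ⊕ Fin K, (0 : ℝ))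
      (hank2 (FA a 1 z) (FB a 1 b) K) := by
    unfold hank2 det2
    refine VG_det_fintype fun i c => ?_
    rw [Matrix.of_apply, add_zero]
    rcases c with j | j
    · exact hA _
    · exact hB _
  simpa using h

end DIM3
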