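import Pool.Agent.Lib.DIM3.Weight

/-!
# D3: the class bound for mid primes
-/

open Polynomial Finset Z579

namespace DIM3

/-- D3a: class lemma with a real shift. -/
theorem class_shift (p r q B a b : ℕ) (ω : ℤ → ℕ → ℚ) (N : ℤ → ℕ) (G₀ : ℤ[X]) (t s : ℝ)
    (hp : p.Prime) (hp2 : p ≠ 2) (hab : a ≤ b) (habp : a + b ≤ p ^ 2)
    (hω : ∀ u ∈ pc a, ∀ i : ℕ, 1 ≤ i → i ≤ q → VG p (-((i : ℝ) + s)) (ω u i))
    (ht : ∀ c ∈ Ip p, (∃ u ∈ pc a, (p : ℤ) ∣ u - c) → t ≤ (Scl p q B a b c : ℝ) + N c - s) :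
    VG p t (Lw r q B a b ω
      ((∏ c ∈ Ip p, (X - Polynomial.C ((c : ℚ) ^ 2)) ^ (N c)) * G₀.map (Int.castRingHom ℚ))) := by
  have := Fact.mk hp
  rw [Lw_apply]
  refine VG.sum fun u hu => VG.sum fun i hi => ?_
  rw [Finset.mem_Icc] at hi
  obtain ⟨c, hc, huc⟩ := exists_class hp hp2 u
  have hpole : ∃ u ∈ pc a, (p : ℤ) ∣ u - c := by
    rcases huc with h | h
    · exact ⟨u, hu, h⟩
    · refine ⟨-u, pc_neg hu, ?_⟩
      have := (dvd_neg (α := ℤ)).2 h
      rwa [neg_add'] at this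
  have h1 := base_WA (p := p) (q := q) (B := B) hab habp hu
  rw [Scl_class huc] at h1
  have h2 := poly_WA_one (p := p) (N := N) (G₀ := G₀) hc huc
  have h3 := (h1.mul h2) (q - i)
  have h4 := ((VG.nat (p := p) (Nat.choose (i + r - 1) r)).mul (hω u hu i hi.1 hi.2)).mul h3
  refine VG.mono h4 ?_
  have h5 := ht c hc hpole
  rw [Nat.cast_sub hi.2]
  linarith

lemma oc_self (a : ℕ) : oc a a = ∅ := by
  ext w
  simp only [oc, Finset.mem_union, Finset.mem_Icc, Finset.notMem_empty, iff_false]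
  omega

/-- exact second moment of the number of poles in a class -/
lemma disc_sq_eq {p : ℕ} (hp : p.Prime) (hp2 : p ≠ 2) {b : ℕ} (hb : 1 ≤ b) :
    ∑ c ∈ Rp p, ((cnt p (fc b) c : ℝ) - (2 * (b : ℝ) - 1) / p) ^ 2 =
      (((2 * b - 1) % p : ℕ) : ℝ) * (p - ((2 * b - 1) % p : ℕ)) / p := by
  have hp0 : (0 : ℝ) < p := by exact_mod_cast hp.pos
  set M : ℕ := 2 * b - 1 with hM
  have hMR : (M : ℝ) = 2 * (b : ℝ) - 1 := by
    rw [hM, Nat.cast_sub (by omega)]; push_cast; ring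
  rw [← hMR]
  set k : ℕ := M / p with hk
  set ρ : ℕ := M % p with hρ
  have hdiv : M = p * k + ρ := (Nat.div_add_mod M p).symm
  have hdivR : (M : ℝ) = p * k + ρ := by exact_mod_cast hdiv
  have hρlt : ρ < p := Nat.mod_lt _ hp.pos
  have hsum : ∑ c ∈ Rp p, (cnt p (fc b) c : ℝ) = M := by
    have := sum_cnt hp hp2 (fc b)
    rw [card_fc hb] at this
    exact_mod_cast this
  have hval : ∀ c ∈ Rp p, ((cnt p (fc b) c : ℝ) - M / p) ^ 2 =
      (2 * k + 1 - 2 * (M / p)) * (cnt p (fc b) c : ℝ) + ((M / p : ℝ) ^ 2 - k * (k + 1)) := by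
    intro c _
    have h := cnt_Ioc hp.pos (-(b : ℤ)) ((b : ℤ) - 1) (by omega) c
    have h1 : ((((b : ℤ) - 1) - (-(b : ℤ)) : ℤ) : ℝ) / p = M / p := by
      rw [hMR]; push_cast; ring
    rw [h1] at h
    have hk1 : (k : ℝ) ≤ M / p := by
      rw [le_div_iff₀ hp0, hdivR]
      nlinarith [Nat.cast_nonneg (α := ℝ) ρ]
    have hk2 : (M : ℝ) / p < k + 1 := by
      have : (ρ : ℝ) < p := by exact_mod_cast hρlt
      rw [div_lt_iff₀ hp0, hdivR]
      nlinarith
    have h3 : (k : ℝ) < cnt p (fc b) c + 1 := by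
      have := h.1
      unfold fc
      linarith
    have h4 : (cnt p (fc b) c : ℝ) < k + 2 := by
      have := h.2
      unfold fc
      linarith
    have h5 : k < cnt p (fc b) c + 1 := by exact_mod_cast h3
    have h6 : cnt p (fc b) c < k + 2 := by exact_mod_cast h4
    have h7 : cnt p (fc b) c = k ∨ cnt p (fc b) c = k + 1 := by omega
    rcases h7 with h8 | h8
    · rw [h8]; ring
    · rw [h8]; push_cast; ring
  rw [Finset.sum_congr rfl hval, Finset.sum_add_distrib, ← Finset.mul_sum, hsum,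
    Finset.sum_const, card_Rp hp hp2, nsmul_eq_mul, hdivR]
  field_simp
  ring

/-- D3 -/
theorem pMid : PMid := by
  intro p a K ωA ωB hp hp2 ha hpa hap hωA hωB hωB0
  have hp0 : (0 : ℝ) < p := by exact_mod_cast hp.pos
  have hI : (Ip p).Nonempty := ⟨0, Finset.mem_Icc.2 ⟨le_refl _, Int.natCast_nonneg _⟩⟩
  set e : ℤ → ℝ := fun c => 10 * (cnt p (fc a) c : ℝ) with he
  have hScl : ∀ c, (Scl p 10 0 a a c : ℝ) = -e c := by
    intro c
    rw [Scl_eq, pc_eq_fc]
    simp only [he]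
    push_cast
    ring
  set M : ℝ := 2 * (a : ℝ) - 1 with hM
  set lA : ℝ := 10 * (M / p) + 1 - 6 * K / p with hlA
  have h1 := weight p (Lw 0 10 0 a a ωA) (Lw 0 10 0 a a ωB) (Ip p) (fun c => (c : ℚ) ^ 2) e K
    lA (lA - 3) hp hI (by
      intro N t ht
      have h2 := class_shift p 0 10 0 a a ωA N 1 t 0 hp hp2 le_rfl (by omega) (by
        intro u hu i hi1 hi2
        simpa using hωA u hu i hi1 hi2) (by
        intro c hc _
        have := ht c hc
        rw [hScl]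
        linarith)
      simpa using h2) (by
      intro N t ht
      have h2 := class_shift p 0 10 0 a a ωB N 1 t (-3) hp hp2 le_rfl (by omega) (by
        intro u hu i hi1 hi2
        by_cases hi3 : i ≤ 2
        · exact Or.inl (hωB0 u hu i hi3)
        · refine (hωB u hu i hi1 hi2).mono ?_
          have : (3 : ℝ) ≤ i := by
            have : 3 ≤ i := by omega
            exact_mod_cast this
          linarith) (by
        intro c hc _
        have := ht c hc
        rw [hScl]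
        linarith)
      simpa using h2)
  refine h1.mono (neg_le_neg ?_)
  set d : ℤ → ℝ := fun c => (cnt p (fc a) c : ℝ) - M / p with hd
  have hterm : ∀ c, (e c + 1 - lA) ^ 2 - (e c + 1 - lA) * (e c - 2 - (lA - 3)) +
      (e c - 2 - (lA - 3)) ^ 2 = (10 * d c + 6 * K / p) ^ 2 := by
    intro c
    simp only [he, hlA, hd]
    ring
  rw [Finset.sum_congr rfl fun c _ => hterm c]
  have heven : ∀ c, d (-c) = d c := by
    intro c
    simp only [hd]
    rw [cnt_neg (fun w hw => fc_neg hw)]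
  have hfold := sum_Ip p (fun c => (10 * d c + 6 * K / p) ^ 2) (fun c => by rw [heven])
  have hs1 : ∑ c ∈ Rp p, d c = 0 := by
    have := sum_cnt hp hp2 (fc a)
    rw [card_fc ha] at this
    have h2 : ((∑ c ∈ Rp p, cnt p (fc a) c : ℕ) : ℝ) = ((2 * a - 1 : ℕ) : ℝ) := by rw [this]
    push_cast [Nat.cast_sub (show 1 ≤ 2 * a by omega)] at h2
    simp only [hd]
    rw [Finset.sum_sub_distrib, h2, Finset.sum_const, card_Rp hp hp2, nsmul_eq_mul, hM]
    field_simp
    ring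
  have hs2 : ∑ c ∈ Rp p, d c ^ 2 =
      (((2 * a - 1) % p : ℕ) : ℝ) * (p - ((2 * a - 1) % p : ℕ)) / p := disc_sq_eq hp hp2 ha
  set S : ℝ := (((2 * a - 1) % p : ℕ) : ℝ) * (p - ((2 * a - 1) % p : ℕ)) / p with hS
  have hsum : ∑ c ∈ Rp p, (10 * d c + 6 * K / p) ^ 2 = 100 * S + 36 * K ^ 2 / p := by
    have h3 : ∀ c ∈ Rp p, (10 * d c + 6 * K / p) ^ 2 =
        100 * d c ^ 2 + (120 * K / p) * d c + (6 * K / p) ^ 2 := by
      intro c _
      ring
    rw [Finset.sum_congr rfl h3, Finset.sum_add_distrib, Finset.sum_add_distrib,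
      ← Finset.mul_sum, ← Finset.mul_sum, hs1, hs2, Finset.sum_const, card_Rp hp hp2,
      nsmul_eq_mul]
    field_simp
    ring
  have hd0 : |d 0| ≤ 1 := by
    have := disc_abs hp.pos ha 0
    simpa [hd, hM] using this
  have h0 : (10 * d 0 + 6 * K / p) ^ 2 ≤ (6 * K / p + 10) ^ 2 := by
    rw [abs_le] at hd0
    have h9 : (0 : ℝ) ≤ 6 * K / p := by positivity
    apply sq_le_sq'
    · linarith
    · linarith
  rw [hfold, hsum]
  have hK0 : (0 : ℝ) ≤ 20 * K / p := by positivity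
  have h5 : (lA + (lA - 3)) * K = (40 * a * K - 12 * (K : ℝ) ^ 2) / p - K - 20 * K / p := by
    simp only [hlA, hM]
    field_simp
    ring
  have h6 : (40 * a * K - 12 * (K : ℝ) ^ 2) / p + 6 * K ^ 2 / p =
      (40 * a * K - 6 * (K : ℝ) ^ 2) / p := by
    ring
  rw [h5]
  have h7 : 1 / 3 * (1 / 2 * (100 * S + 36 * (K : ℝ) ^ 2 / p + (10 * d 0 + 6 * K / p) ^ 2)) =
      50 / 3 * S + 6 * K ^ 2 / p + 1 / 6 * (10 * d 0 + 6 * K / p) ^ 2 := by ring
  rw [h7]
  linarith

end DIM3
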