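import Pool.Agent.Lib.DIM3.Weight

/-!
# D2b: small primes
-/

open Polynomial Finset Z579

namespace DIM3

/-- entry bound -/
lemma small_entry {p : ℕ} [hp : Fact p.Prime] {a κ : ℕ} (ω : ℤ → ℕ → ℚ)
    (hκ : 2 * a + a < p ^ (κ + 1))
    (hω : ∀ u ∈ pc a, ∀ i : ℕ, 1 ≤ i → i ≤ 10 → VG p (-((i : ℝ) * κ)) (ω u i))
    {i j : ℕ} (hi : i < p ^ (κ + 1)) (hj : j < p ^ (κ + 1)) :
    VG p (-(-(2 * (i : ℝ) / ((p : ℝ) - 1)) + (-(2 * (j : ℝ) / ((p : ℝ) - 1)) +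
      (20 * a / ((p : ℝ) - 1) + 14 * κ + 4)))) (Lw 0 10 0 a a ω (PB i * PB j)) := by
  have hp1 : (1 : ℝ) < p := by exact_mod_cast hp.out.one_lt
  rw [Lw_apply]
  refine VG.sum fun u hu => VG.sum fun k hk => ?_
  rw [Finset.mem_Icc] at hk
  have h1 := base_WA_K (p := p) (q := 10) (B := 0) (K := κ) (le_refl a) hκ hu
  have h2 := PB_WA (p := p) (K := κ) (i := i) hi u
  have h3 := PB_WA (p := p) (K := κ) (i := j) hj u
  have h4 := (h1.mul (h2.mul h3)) (10 - k)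
  rw [← map_mul] at h4
  have h5 := ((VG.nat (p := p) (Nat.choose (k + 0 - 1) 0)).mul (hω u hu k hk.1 hk.2)).mul h4
  refine VG.mono h5 ?_
  rw [Nat.cast_sub hk.2]
  apply le_of_eq
  push_cast
  field_simp
  ring

theorem sum_range_two (n : ℕ) : ∑ i ∈ Finset.range n, (i : ℝ) = (n : ℝ) * (n - 1) / 2 := by
  induction n with
  | zero => simp
  | succ n ih => rw [Finset.sum_range_succ, ih]; push_cast; ring

/-- D2b -/
theorem pSmall : PSmall := by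
  refine ⟨28, by norm_num, ?_⟩
  intro p a K ωA ωB hp ha hK hA hB
  have := Fact.mk hp
  have hp1 : (1 : ℝ) < p := by exact_mod_cast hp.one_lt
  have hp2 : (2 : ℝ) ≤ p := by exact_mod_cast hp.two_le
  set κ := Nat.log p (4 * (a + K)) with hκdef
  have hlt : 4 * (a + K) < p ^ (κ + 1) := Nat.lt_pow_succ_log_self hp.one_lt _
  rw [hank2_eq]
  have key := tbdet_VG (p := p) (Lw 0 10 0 a a ωA) (Lw 0 10 0 a a ωB) K K PB PB PB
    PB_monic PB_natDegree PB_monic PB_natDegree PB_monic PB_natDegree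
    (fun i => -(2 * (i : ℝ) / ((p : ℝ) - 1)))
    (fun j => -(2 * (j : ℝ) / ((p : ℝ) - 1)) + (20 * a / ((p : ℝ) - 1) + 14 * κ + 4))
    (fun j => -(2 * (j : ℝ) / ((p : ℝ) - 1)) + (20 * a / ((p : ℝ) - 1) + 14 * κ + 4))
    (fun i j hi hj => small_entry ωA (by omega) hA (by omega) (by omega))
    (fun i j hi hj => small_entry ωB (by omega) hB (by omega) (by omega))
  refine key.mono ?_
  have s1 : ∑ i ∈ Finset.range (K + K), -(2 * (i : ℝ) / ((p : ℝ) - 1)) =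
      -(2 * K * (2 * K - 1) / ((p : ℝ) - 1)) := by
    rw [Finset.sum_neg_distrib, ← Finset.sum_div, ← Finset.mul_sum, sum_range_two]
    push_cast; ring
  have s2 : ∑ j ∈ Finset.range K, (-(2 * (j : ℝ) / ((p : ℝ) - 1)) +
      (20 * a / ((p : ℝ) - 1) + 14 * κ + 4)) =
      -(K * (K - 1) / ((p : ℝ) - 1)) + K * (20 * a / ((p : ℝ) - 1) + 14 * κ + 4) := by
    rw [Finset.sum_add_distrib, Finset.sum_neg_distrib, ← Finset.sum_div, ← Finset.mul_sum,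
      sum_range_two, Finset.sum_const, Finset.card_range, nsmul_eq_mul]
    ring
  rw [s1, s2]
  have hκ0 : (0 : ℝ) ≤ κ := Nat.cast_nonneg κ
  have hK0 : (0 : ℝ) ≤ K := Nat.cast_nonneg K
  have hdiv : (K : ℝ) / ((p : ℝ) - 1) ≤ K := by
    rw [div_le_iff₀ (by linarith)]
    nlinarith
  have e1 : -(-(2 * (K : ℝ) * (2 * K - 1) / ((p : ℝ) - 1)) +
      (-(K * (K - 1) / ((p : ℝ) - 1)) + K * (20 * a / ((p : ℝ) - 1) + 14 * κ + 4)) +
      (-(K * (K - 1) / ((p : ℝ) - 1)) + K * (20 * a / ((p : ℝ) - 1) + 14 * κ + 4))) =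
      -((40 * a * K - 6 * (K : ℝ) ^ 2) / ((p : ℝ) - 1)) - 4 * (K / ((p : ℝ) - 1)) -
        K * (28 * κ + 8) := by
    field_simp
    ring
  rw [e1]
  nlinarith
end DIM3
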