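import Pool.Agent.Lib.DIM3.PSumA

/-!
# D10: the `p`-adic total
-/

open Filter Topology Finset MeasureTheory Z579 Z579.EM

namespace DIM3

/-- integrand on `N/3 < p ≤ N/2` -/
noncomputable def f3 (t : ℝ) : ℝ := 7 / 5 + 50 * (3 * t - 1) + 281 * (1 / 2 - t)

/-- integrand on `N/2 < p ≤ 18/25 N` -/
noncomputable def f4 (t : ℝ) : ℝ := 7 / 5 + 50 * (1 - t)

/-- integrand on `18/25 N < p ≤ N` -/
noncomputable def f5 (t : ℝ) : ℝ := 55 * (1 - t)

lemma integral_aff (A B α β : ℝ) :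
    ∫ t in α..β, (A - B * t) = A * (β - α) - B * ((β ^ 2 - α ^ 2) / 2) := by
  rw [intervalIntegral.integral_sub intervalIntegrable_const
    (intervalIntegral.intervalIntegrable_id.const_mul _), intervalIntegral.integral_const_mul,
    integral_id, intervalIntegral.integral_const, smul_eq_mul]
  ring

lemma integral_f3 : ∫ t in (1 / 3 : ℝ)..(1 / 2), f3 t = 2239 / 360 := by
  have : ∀ t : ℝ, f3 t = (7 / 5 - 50 + 281 / 2) - 131 * t := by intro t; unfold f3; ring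
  simp_rw [this]
  rw [integral_aff]
  norm_num

lemma integral_f4 : ∫ t in (1 / 2 : ℝ)..(18 / 25), f4 t = 308 / 1000 + 429 / 100 := by
  have : ∀ t : ℝ, f4 t = (7 / 5 + 50) - 50 * t := by intro t; unfold f4; ring
  simp_rw [this]
  rw [integral_aff]
  norm_num

lemma integral_f5 : ∫ t in (18 / 25 : ℝ)..1, f5 t = 2156 / 1000 := by
  have : ∀ t : ℝ, f5 t = 55 - 55 * t := by intro t; unfold f5; ring
  simp_rw [this]
  rw [integral_aff]
  norm_num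

/-- integral of `gj` -/
noncomputable def Gj (j : ℕ) : ℝ :=
  1 / 2 * (1 / (j : ℝ) + 1 / ((j : ℝ) + 1)) - (Real.log ((j : ℝ) + 1) - Real.log j)

lemma gj_cont (j : ℕ) :
    ContinuousOn (gj j) (Set.Icc (1 / ((j : ℝ) + 1)) (1 / (j : ℝ))) := by
  unfold gj
  refine ContinuousOn.sub (ContinuousOn.sub continuousOn_const ?_) ?_
  · refine ContinuousOn.div continuousOn_const continuousOn_id ?_
    intro x hx
    have : (0 : ℝ) < 1 / ((j : ℝ) + 1) := by positivity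
    exact (lt_of_lt_of_le this hx.1).ne'
  · exact continuousOn_const.mul continuousOn_id

lemma integral_gj (j : ℕ) (hj : 1 ≤ j) :
    ∫ t in (1 / ((j : ℝ) + 1))..(1 / (j : ℝ)), gj j t = Gj j := by
  have hj' : (0 : ℝ) < j := by exact_mod_cast hj
  have h1 : (0 : ℝ) < 1 / ((j : ℝ) + 1) := by positivity
  have h2 : (1 : ℝ) / ((j : ℝ) + 1) ≤ 1 / j := one_div_le_one_div_of_le hj' (by linarith)
  have hne : ∀ x ∈ Set.uIcc (1 / ((j : ℝ) + 1)) (1 / (j : ℝ)), x ≠ 0 := by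
    intro x hx
    rw [Set.uIcc_of_le h2] at hx
    exact (lt_of_lt_of_le h1 hx.1).ne'
  have hnot : (0 : ℝ) ∉ Set.uIcc (1 / ((j : ℝ) + 1)) (1 / (j : ℝ)) := fun h => hne 0 h rfl
  unfold gj
  have i1 : IntervalIntegrable (fun t : ℝ => 1 / t) volume (1 / ((j : ℝ) + 1)) (1 / (j : ℝ)) :=
    intervalIntegral.intervalIntegrable_one_div hne continuousOn_id
  rw [intervalIntegral.integral_sub (intervalIntegrable_const.sub i1)
    (intervalIntegral.intervalIntegrable_id.const_mul _),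
    intervalIntegral.integral_sub intervalIntegrable_const i1,
    intervalIntegral.integral_const_mul, integral_id, intervalIntegral.integral_const, smul_eq_mul,
    integral_one_div hnot, Real.log_div (by positivity) (by positivity), Real.log_div (by norm_num)
    (by positivity), Real.log_div (by norm_num) (by positivity), Real.log_one]
  unfold Gj
  field_simp
  ring

/-- the constant -/
noncomputable def c1 (J : ℕ) (c : ℝ) : ℝ :=
  406 / 25 * (-Real.log 3 - c) - 7 / 15 + 50 / 3 * (∑ j ∈ Finset.Ico 3 J, Gj j + 1 / (8 * (J : ℝ) ^ 2)) +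
    2239 / 360 + (308 / 1000 + 429 / 100) + 2156 / 1000

/-- upper bound for the total, main term removed -/
noncomputable def VN (C c ε : ℝ) (J N : ℕ) : ℝ :=
  (EN N * (Real.log (N / 3) - c + ε) - 406 / 25 * (N : ℝ) ^ 2 * Real.log N) -
      7 / 5 * N * PS (fun _ => 1) (N : ℝ) ⌊(0 : ℝ) * (N : ℝ)⌋₊ ⌊1 / (3 : ℝ) * (N : ℝ)⌋₊ +
      50 / 3 * (N * (∑ j ∈ Finset.Ico 3 J, PS (gj j) (N : ℝ) ⌊1 / ((j : ℝ) + 1) * (N : ℝ)⌋₊
        ⌊1 / (j : ℝ) * (N : ℝ)⌋₊ + 1 / 4 * PS (fun t => t) (N : ℝ) ⌊(0 : ℝ) * (N : ℝ)⌋₊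
        ⌊1 / (J : ℝ) * (N : ℝ)⌋₊)) + errN C c N +
  (N * PS f3 (N : ℝ) ⌊1 / (3 : ℝ) * (N : ℝ)⌋₊ ⌊1 / (2 : ℝ) * (N : ℝ)⌋₊ +
    281 / 2 * PS (fun _ => 1) (N : ℝ) ⌊1 / (3 : ℝ) * (N : ℝ)⌋₊ ⌊1 / (2 : ℝ) * (N : ℝ)⌋₊) +
  N * PS f4 (N : ℝ) ⌊1 / (2 : ℝ) * (N : ℝ)⌋₊ ⌊18 / (25 : ℝ) * (N : ℝ)⌋₊ +
  N * PS f5 (N : ℝ) ⌊18 / (25 : ℝ) * (N : ℝ)⌋₊ ⌊(1 : ℝ) * (N : ℝ)⌋₊

lemma tendsto_VN (C c ε : ℝ) (hC : 0 ≤ C) (J : ℕ) (hJ : 3 ≤ J) :
    Tendsto (fun N : ℕ => VN C c ε J N / (N : ℝ) ^ 2) atTop (𝓝 (c1 J c + 406 / 25 * ε)) := by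
  have hJ0 : (0 : ℝ) < J := by
    have : 0 < J := by omega
    exact_mod_cast this
  have hl := tendsto_logK 1 (by norm_num)
  simp only [one_mul] at hl
  -- first term
  have k1 : Tendsto (fun N : ℕ => 406 / 25 * (-Real.log 3 - c + ε) +
      28 * (Real.log N / √(N : ℝ) * (√(N : ℝ))⁻¹ + (-Real.log 3 - c + ε) * ((N : ℝ))⁻¹)) atTop
      (𝓝 (406 / 25 * (-Real.log 3 - c + ε) + 28 * (0 * 0 + (-Real.log 3 - c + ε) * 0))) :=
    tendsto_const_nhds.add (((hl.mul tendsto_inv_sqrtk).add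
      (tendsto_invk.const_mul _)).const_mul _)
  have k2 := (m7bk 0 (1 / 3) (fun _ => 1) le_rfl (by norm_num) continuousOn_const).const_mul
    (7 / 5 : ℝ)
  have k3 : Tendsto (fun N : ℕ => ∑ j ∈ Finset.Ico 3 J, PS (gj j) (N : ℝ)
      ⌊1 / ((j : ℝ) + 1) * (N : ℝ)⌋₊ ⌊1 / (j : ℝ) * (N : ℝ)⌋₊ / (N : ℝ)) atTop
      (𝓝 (∑ j ∈ Finset.Ico 3 J, Gj j)) := by
    refine tendsto_finsetSum _ fun j hj => ?_
    rw [Finset.mem_Ico] at hj
    have hj1 : 1 ≤ j := by omega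
    have hj' : (0 : ℝ) < j := by exact_mod_cast hj1
    have h := m7bk (1 / ((j : ℝ) + 1)) (1 / (j : ℝ)) (gj j) (by positivity)
      (one_div_le_one_div_of_le hj' (by linarith)) (gj_cont j)
    rw [integral_gj j hj1] at h
    exact h
  have k4 := m7bk 0 (1 / (J : ℝ)) (fun t => t) le_rfl (by positivity) continuousOn_id
  have i4 : ∫ t in (0 : ℝ)..(1 / (J : ℝ)), t = 1 / (2 * (J : ℝ) ^ 2) := by
    rw [integral_id]; field_simp; ring
  rw [i4] at k4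
  have k5 := tendsto_errN C c hC
  have k6 := m7bk (1 / 3) (1 / 2) f3 (by norm_num) (by norm_num) (by unfold f3; fun_prop)
  rw [integral_f3] at k6
  have k7 := (m7bk (1 / 3) (1 / 2) (fun _ => 1) (by norm_num) (by norm_num)
    continuousOn_const).mul tendsto_invk
  have k8 := m7bk (1 / 2) (18 / 25) f4 (by norm_num) (by norm_num) (by unfold f4; fun_prop)
  rw [integral_f4] at k8
  have k9 := m7bk (18 / 25) 1 f5 (by norm_num) (by norm_num) (by unfold f5; fun_prop)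
  rw [integral_f5] at k9
  rw [integral_cst] at k2 k7
  have K := (((((k1.sub k2).add ((k3.add (k4.const_mul (1 / 4 : ℝ))).const_mul (50 / 3 : ℝ))).add
    k5).add (k6.add (k7.const_mul (281 / 2 : ℝ)))).add k8).add k9
  have hlim : 406 / 25 * (-Real.log 3 - c + ε) + 28 * (0 * 0 + (-Real.log 3 - c + ε) * 0) -
      7 / 5 * (1 / 3 - 0) + 50 / 3 * (∑ j ∈ Finset.Ico 3 J, Gj j + 1 / 4 * (1 / (2 * (J : ℝ) ^ 2))) +
      0 + (2239 / 360 + 281 / 2 * ((1 / 2 - 1 / 3) * 0)) + (308 / 1000 + 429 / 100) +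
      2156 / 1000 = c1 J c + 406 / 25 * ε := by
    unfold c1
    field_simp
    ring
  rw [hlim] at K
  refine K.congr' ?_
  filter_upwards [eventually_gt_atTop 0] with N hN
  have hN' : (0 : ℝ) < N := by exact_mod_cast hN
  have hs : 0 < √(N : ℝ) := Real.sqrt_pos.mpr hN'
  have hsq : √(N : ℝ) * √(N : ℝ) = N := Real.mul_self_sqrt hN'.le
  have e1 : Real.log N / √(N : ℝ) * (√(N : ℝ))⁻¹ = Real.log N / N := by
    rw [← div_eq_mul_inv, div_div, hsq]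
  rw [e1]
  unfold VN
  rw [Real.log_div hN'.ne' (by norm_num), ← Finset.sum_div]
  unfold EN
  field_simp
  ring

/-- the total in terms of `N = 2 a - 1` -/
theorem psumN (J : ℕ) (hJ : 3 ≤ J) (c : ℝ) (hMert : MertensUB c) (C δ : ℝ) (hC : 0 ≤ C)
    (hδ : 0 < δ) : ∃ N0 : ℕ, ∀ N a K : ℕ, N0 ≤ N → N + 1 = 2 * a → 5 * K = 7 * N →
  ∀ β : ℕ → ℝ,
  (∀ p : ℕ, p.Prime → p ^ 2 < 2 * a →
    β p ≤ (40 * a * K - 6 * (K : ℝ) ^ 2) / (p - 1) + C * (1 + Nat.log p (4 * (a + K))) * K) →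
  (∀ p : ℕ, p.Prime → 2 * a ≤ p ^ 2 → 3 * p ≤ 2 * a - 1 →
    β p ≤ (40 * a * K - 6 * (K : ℝ) ^ 2) / p - K +
      50 / 3 * ((((2 * a - 1) % p : ℕ) : ℝ) * (p - ((2 * a - 1) % p : ℕ)) / p) +
      1 / 6 * (6 * K / p + 10) ^ 2) →
  (∀ p : ℕ, p.Prime → 2 * a - 1 < 3 * p → p < a →
    β p ≤ K + 50 * (3 * (p : ℝ) - 2 * a + 1) + 281 * ((a : ℝ) - p)) →
  (∀ p : ℕ, p.Prime → a ≤ p → p ≤ 2 * a - 1 → β p ≤ K + 50 * (2 * (a : ℝ) - 1 - p)) →
  (∀ p : ℕ, p.Prime → a ≤ p → p ≤ 2 * a - 1 → β p ≤ 55 * (2 * (a : ℝ) - 1 - p)) →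
  ∑ p ∈ (Finset.Icc 1 (2 * a - 1)).filter Nat.Prime, β p * Real.log p ≤
    (N : ℝ) ^ 2 * (406 / 25 * Real.log N + c1 J c + δ) := by
  obtain ⟨ε, hε, hε1, hεδ⟩ : ∃ ε : ℝ, 0 < ε ∧ ε ≤ 1 ∧ 406 / 25 * ε < δ :=
    ⟨min 1 (δ / 20), lt_min one_pos (by positivity), min_le_left _ _, by
      have := min_le_right 1 (δ / 20)
      linarith⟩
  have hlim := tendsto_VN C c ε hC J hJ
  have hev := hlim.eventually_lt_const
    (show c1 J c + 406 / 25 * ε < c1 J c + δ by linarith)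
  rw [eventually_atTop] at hev
  obtain ⟨n₁, hn₁⟩ := hev
  obtain ⟨n₂, hn₂⟩ := hMert ε hε
  refine ⟨max n₁ (max (3 * n₂ + 3) 3), fun N a K hN ha hK β h1 h2 h3 h4 h5 => ?_⟩
  have hN1 : n₁ ≤ N := (le_max_left _ _).trans hN
  have hN2 : 3 * n₂ + 3 ≤ N := ((le_max_left _ _).trans (le_max_right _ _)).trans hN
  have hN3 : 3 ≤ N := ((le_max_right _ _).trans (le_max_right _ _)).trans hN
  have hNr : (3 : ℝ) ≤ N := by exact_mod_cast hN3
  have hN0 : (0 : ℝ) < N := by linarith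
  have ha' : (N : ℝ) + 1 = 2 * a := by exact_mod_cast ha
  have hK' : 5 * (K : ℝ) = 7 * N := by exact_mod_cast hK
  have h2a : 2 * a - 1 = N := by omega
  have hfl3 : n₂ ≤ ⌊1 / (3 : ℝ) * (N : ℝ)⌋₊ := by
    rw [Nat.le_floor_iff (by positivity)]
    have : (3 * n₂ + 3 : ℝ) ≤ N := by exact_mod_cast hN2
    linarith
  have hM := hn₂ _ hfl3
  have s1 := sum_third C c ε hC hε1 J N a K ha hK hN3 hJ β hM h1 h2
  -- floors
  have m1 : ⌊1 / (3 : ℝ) * (N : ℝ)⌋₊ ≤ ⌊1 / (2 : ℝ) * (N : ℝ)⌋₊ :=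
    Nat.floor_le_floor (mul_le_mul_of_nonneg_right (by norm_num) hN0.le)
  have m2 : ⌊1 / (2 : ℝ) * (N : ℝ)⌋₊ ≤ ⌊18 / (25 : ℝ) * (N : ℝ)⌋₊ :=
    Nat.floor_le_floor (mul_le_mul_of_nonneg_right (by norm_num) hN0.le)
  have m3 : ⌊18 / (25 : ℝ) * (N : ℝ)⌋₊ ≤ N := by
    calc ⌊18 / (25 : ℝ) * (N : ℝ)⌋₊ ≤ ⌊(N : ℝ)⌋₊ := Nat.floor_le_floor (by linarith)
      _ = N := Nat.floor_natCast N
  have e1N : ⌊(1 : ℝ) * (N : ℝ)⌋₊ = N := by rw [one_mul, Nat.floor_natCast]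
  -- block 3
  have b3 : ∑ p ∈ (Finset.Ioc ⌊1 / (3 : ℝ) * (N : ℝ)⌋₊ ⌊1 / (2 : ℝ) * (N : ℝ)⌋₊).filter Nat.Prime,
      β p * Real.log p ≤ N * PS f3 (N : ℝ) ⌊1 / (3 : ℝ) * (N : ℝ)⌋₊ ⌊1 / (2 : ℝ) * (N : ℝ)⌋₊ +
    281 / 2 * PS (fun _ => 1) (N : ℝ) ⌊1 / (3 : ℝ) * (N : ℝ)⌋₊ ⌊1 / (2 : ℝ) * (N : ℝ)⌋₊ := by
    unfold PS
    rw [Finset.mul_sum, Finset.mul_sum, ← Finset.sum_add_distrib]
    refine Finset.sum_le_sum fun p hp => ?_
    rw [Finset.mem_filter, Finset.mem_Ioc] at hp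
    have hlp : 0 ≤ Real.log p := Real.log_natCast_nonneg p
    have u1 : 1 / (3 : ℝ) * N < p := Nat.lt_of_floor_lt hp.1.1
    have u2 : (p : ℝ) ≤ 1 / 2 * N := (Nat.le_floor_iff (by positivity)).mp hp.1.2
    have u3 : 2 * a - 1 < 3 * p := by
      rw [h2a]
      have : (N : ℝ) < 3 * p := by linarith
      exact_mod_cast this
    have u4 : p < a := by
      have : (p : ℝ) < a := by linarith
      exact_mod_cast this
    have u5 := mul_le_mul_of_nonneg_right (h3 p hp.2 u3 u4) hlp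
    refine u5.trans (le_of_eq ?_)
    unfold f3
    have : (a : ℝ) = (N + 1) / 2 := by linarith
    have hKe : (K : ℝ) = 7 / 5 * N := by linarith
    rw [this, hKe]
    field_simp
    ring
  have b4 : ∑ p ∈ (Finset.Ioc ⌊1 / (2 : ℝ) * (N : ℝ)⌋₊ ⌊18 / (25 : ℝ) * (N : ℝ)⌋₊).filter Nat.Prime,
      β p * Real.log p ≤ N * PS f4 (N : ℝ) ⌊1 / (2 : ℝ) * (N : ℝ)⌋₊ ⌊18 / (25 : ℝ) * (N : ℝ)⌋₊ := by
    unfold PS
    rw [Finset.mul_sum]
    refine Finset.sum_le_sum fun p hp => ?_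
    rw [Finset.mem_filter, Finset.mem_Ioc] at hp
    have hlp : 0 ≤ Real.log p := Real.log_natCast_nonneg p
    have u1 : 1 / (2 : ℝ) * N < p := Nat.lt_of_floor_lt hp.1.1
    have u4 : a ≤ p := by
      have : N < 2 * p := by
        have : (N : ℝ) < 2 * p := by linarith
        exact_mod_cast this
      omega
    have u6 : p ≤ 2 * a - 1 := by rw [h2a]; exact hp.1.2.trans m3
    have u5 := mul_le_mul_of_nonneg_right (h4 p hp.2 u4 u6) hlp
    refine u5.trans (le_of_eq ?_)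
    unfold f4
    have : (a : ℝ) = (N + 1) / 2 := by linarith
    have hKe : (K : ℝ) = 7 / 5 * N := by linarith
    rw [this, hKe]
    field_simp
    ring
  have b5 : ∑ p ∈ (Finset.Ioc ⌊18 / (25 : ℝ) * (N : ℝ)⌋₊ N).filter Nat.Prime,
      β p * Real.log p ≤ N * PS f5 (N : ℝ) ⌊18 / (25 : ℝ) * (N : ℝ)⌋₊ ⌊(1 : ℝ) * (N : ℝ)⌋₊ := by
    rw [e1N]
    unfold PS
    rw [Finset.mul_sum]
    refine Finset.sum_le_sum fun p hp => ?_
    rw [Finset.mem_filter, Finset.mem_Ioc] at hp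
    have hlp : 0 ≤ Real.log p := Real.log_natCast_nonneg p
    have u1 : 18 / (25 : ℝ) * N < p := Nat.lt_of_floor_lt hp.1.1
    have u4 : a ≤ p := by
      have : N < 2 * p := by
        have : (N : ℝ) < 2 * p := by linarith
        exact_mod_cast this
      omega
    have u6 : p ≤ 2 * a - 1 := by rw [h2a]; exact hp.1.2
    have u5 := mul_le_mul_of_nonneg_right (h5 p hp.2 u4 u6) hlp
    refine u5.trans (le_of_eq ?_)
    unfold f5
    have : (a : ℝ) = (N + 1) / 2 := by linarith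
    rw [this]
    field_simp
    ring
  have hIcc : Finset.Icc 1 N = Finset.Ioc 0 N := by
    ext x; simp [Nat.succ_le_iff]
  rw [h2a, hIcc, Finset.sum_filter, ← Finset.sum_Ioc_consecutive _ (Nat.zero_le _) (m1.trans (m2.trans m3)),
    ← Finset.sum_Ioc_consecutive _ m1 (m2.trans m3), ← Finset.sum_Ioc_consecutive _ m2 m3,
    ← Finset.sum_filter, ← Finset.sum_filter, ← Finset.sum_filter, ← Finset.sum_filter]
  have hfin := hn₁ N hN1
  rw [div_lt_iff₀ (by positivity)] at hfin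
  unfold VN at hfin
  linarith [s1, b3, b4, b5, hfin]

/-- monotonicity in the constant -/
lemma PSum.mono {m : ℕ} {P P' : ℝ} (h : PSum m P) (hP : P ≤ P') : PSum m P' := by
  intro C δ hC hδ
  obtain ⟨k0, hk0⟩ := h C δ hC hδ
  refine ⟨k0, fun k hk a K ha hK β h1 h2 h3 h4 h5 => (hk0 k hk a K ha hK β h1 h2 h3 h4 h5).trans ?_⟩
  have : (0 : ℝ) ≤ (k : ℝ) ^ 2 := by positivity
  nlinarith

/-- `N = 2 a - 1` in terms of `k` -/
def Nk (m k : ℕ) : ℕ := 10 * m * k + 5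

lemma tendsto_Nk (m : ℕ) (hm : 1 ≤ m) (c : ℝ) :
    Tendsto (fun k : ℕ => (((Nk m k : ℕ) : ℝ) ^ 2 * (406 / 25 * Real.log (Nk m k : ℕ) + c) -
      1624 * (m : ℝ) ^ 2 * k ^ 2 * Real.log k) / (k : ℝ) ^ 2) atTop
      (𝓝 ((m : ℝ) ^ 2 * (1624 * Real.log (10 * m) + 100 * c))) := by
  have hm' : (0 : ℝ) < m := by exact_mod_cast hm
  have hNk : ∀ k : ℕ, ((Nk m k : ℕ) : ℝ) = 10 * m * k + 5 := by intro k; unfold Nk; push_cast; ring
  simp_rw [hNk]
  have h0 : Tendsto (fun k : ℕ => 10 * (m : ℝ) + 5 * ((k : ℝ))⁻¹) atTop (𝓝 (10 * m + 5 * 0)) :=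
    tendsto_const_nhds.add (tendsto_invk.const_mul _)
  rw [mul_zero, add_zero] at h0
  have h1 := h0.log (by positivity)
  have hl := tendsto_logK 1 (by norm_num)
  simp only [one_mul] at hl
  have h2 : Tendsto (fun k : ℕ => 406 / 25 * (100 * m * (Real.log k / √(k : ℝ) * (√(k : ℝ))⁻¹) +
      25 * (Real.log k / √(k : ℝ) * (√(k : ℝ))⁻¹ * ((k : ℝ))⁻¹))) atTop
      (𝓝 (406 / 25 * (100 * m * (0 * 0) + 25 * (0 * 0 * 0)))) :=
    (((hl.mul tendsto_inv_sqrtk).const_mul _).add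
      (((hl.mul tendsto_inv_sqrtk).mul tendsto_invk).const_mul _)).const_mul _
  have h3 := ((h0.pow 2).mul ((h1.const_mul (406 / 25 : ℝ)).add_const c)).add h2
  have hlim : (10 * (m : ℝ)) ^ 2 * (406 / 25 * Real.log (10 * m) + c) +
      406 / 25 * (100 * m * (0 * 0) + 25 * (0 * 0 * 0)) =
      (m : ℝ) ^ 2 * (1624 * Real.log (10 * m) + 100 * c) := by ring
  rw [hlim] at h3
  refine h3.congr' ?_
  filter_upwards [eventually_gt_atTop 0] with k hk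
  have hk' : (0 : ℝ) < k := by exact_mod_cast hk
  have hs : 0 < √(k : ℝ) := Real.sqrt_pos.mpr hk'
  have hsq : √(k : ℝ) * √(k : ℝ) = k := Real.mul_self_sqrt hk'.le
  have e1 : Real.log k / √(k : ℝ) * (√(k : ℝ))⁻¹ = Real.log k / k := by
    rw [← div_eq_mul_inv, div_div, hsq]
  rw [e1]
  have e2 : Real.log (10 * m + 5 * ((k : ℝ))⁻¹) = Real.log (10 * m * k + 5) - Real.log k := by
    rw [← Real.log_div (by positivity) hk'.ne']
    congr 1
    field_simp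
  rw [e2]
  field_simp
  ring

/-- D10, general form: `PSum` with the explicit constant -/
theorem psum_gen (J : ℕ) (hJ : 3 ≤ J) (c : ℝ) (hMert : MertensUB c) (m : ℕ) (hm : 1 ≤ m) :
    PSum m ((m : ℝ) ^ 2 * (1624 * Real.log (10 * m) + 100 * c1 J c)) := by
  intro C δ hC hδ
  have hm' : (0 : ℝ) < m := by exact_mod_cast hm
  set δ' := δ / (200 * (m : ℝ) ^ 2) with hδ'
  have hδ'0 : 0 < δ' := by positivity
  obtain ⟨N0, hN0⟩ := psumN J hJ c hMert C δ' hC hδ'0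
  have hlim := tendsto_Nk m hm (c1 J c + δ')
  have e1 : (m : ℝ) ^ 2 * (1624 * Real.log (10 * m) + 100 * (c1 J c + δ')) =
      (m : ℝ) ^ 2 * (1624 * Real.log (10 * m) + 100 * c1 J c) + δ / 2 := by
    rw [hδ']
    field_simp
    ring
  rw [e1] at hlim
  have hev := hlim.eventually_lt_const
    (show _ < (m : ℝ) ^ 2 * (1624 * Real.log (10 * m) + 100 * c1 J c) + δ by linarith)
  rw [eventually_atTop] at hev
  obtain ⟨k1, hk1⟩ := hev
  refine ⟨max k1 (max N0 1), fun k hk a K ha hK β h1 h2 h3 h4 h5 => ?_⟩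
  have hk1' : k1 ≤ k := (le_max_left _ _).trans hk
  have hkN : N0 ≤ k := ((le_max_left _ _).trans (le_max_right _ _)).trans hk
  have hk1'' : 1 ≤ k := ((le_max_right _ _).trans (le_max_right _ _)).trans hk
  have hkr : (0 : ℝ) < k := by exact_mod_cast hk1''
  have hNN : N0 ≤ Nk m k := by
    unfold Nk
    nlinarith
  have ha2 : Nk m k + 1 = 2 * a := by
    rw [ha]; unfold Nk pa; ring
  have hK2 : 5 * K = 7 * Nk m k := by
    rw [hK]; unfold Nk pK; ring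
  have h := hN0 (Nk m k) a K hNN ha2 hK2 β h1 h2 h3 h4 h5
  have hf := hk1 k hk1'
  rw [div_lt_iff₀ (by positivity)] at hf
  have e2 : 406 / 25 * Real.log (Nk m k : ℕ) + c1 J c + δ' =
      406 / 25 * Real.log (Nk m k : ℕ) + (c1 J c + δ') := by ring
  rw [e2] at h
  linarith

lemma sum_Gj (J : ℕ) (hJ : 3 ≤ J) :
    ∑ j ∈ Finset.Ico 3 J, Gj j = ∑ j ∈ Finset.Ico 3 J, 1 / 2 * (1 / (j : ℝ) + 1 / ((j : ℝ) + 1)) -
      (Real.log J - Real.log 3) := by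
  induction J, hJ using Nat.le_induction with
  | base => norm_num
  | succ J hJ ih =>
    rw [Finset.sum_Ico_succ_top hJ, Finset.sum_Ico_succ_top hJ, ih]
    unfold Gj
    push_cast
    ring

/-- `log 3 ≤ 1.098613` -/
lemma log3_le : Real.log 3 ≤ 10987 / 10000 := by
  have h1 : 12 * Real.log 3 = 19 * Real.log 2 + Real.log (531441 / 524288) := by
    have e1 : 12 * Real.log 3 = Real.log (3 ^ 12) := by rw [Real.log_pow]; norm_num
    have e2 : 19 * Real.log 2 = Real.log (2 ^ 19) := by rw [Real.log_pow]; norm_num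
    rw [e1, e2, ← Real.log_mul (by norm_num) (by norm_num)]
    norm_num
  have h2 : Real.log (531441 / 524288) ≤ 531441 / 524288 - 1 :=
    Real.log_le_sub_one_of_pos (by norm_num)
  have h3 := Real.log_two_lt_d9
  norm_num at h2
  linarith

/-- `log 10 ≤ 2.302587` -/
lemma log10_le : Real.log 10 ≤ 2302587 / 1000000 := by
  have h1 : 3 * Real.log 10 = 10 * Real.log 2 - Real.log (1 + 24 / 1000) := by
    have e1 : 3 * Real.log 10 = Real.log (10 ^ 3) := by rw [Real.log_pow]; norm_num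
    have e2 : 10 * Real.log 2 = Real.log (2 ^ 10) := by rw [Real.log_pow]; norm_num
    rw [e1, e2, ← Real.log_div (by norm_num) (by norm_num)]
    norm_num
  have h2 := Real.le_log_one_add_of_nonneg (x := 24 / 1000) (by norm_num)
  have h3 := Real.log_two_lt_d9
  norm_num at h2
  linarith

lemma c1_num : 1624 * Real.log 10 + 100 * c1 32 (57719 / 100000) ≤ 2284 := by
  unfold c1
  rw [sum_Gj 32 (by norm_num)]
  have e : Real.log ((32 : ℕ) : ℝ) = 5 * Real.log 2 := by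
    rw [show (((32 : ℕ) : ℝ)) = 2 ^ 5 by norm_num, Real.log_pow]; norm_num
  rw [e]
  have h1 := log3_le
  have h2 := log10_le
  have h3 := Real.log_two_gt_d9
  have h4 : ∑ j ∈ (Finset.Ico 3 32 : Finset ℕ), 1 / 2 * (1 / (j : ℝ) + 1 / ((j : ℝ) + 1)) ≤
      2376206 / 1000000 := by
    simp only [Finset.sum_Ico_eq_sum_range, Finset.sum_range_succ, Finset.sum_range_zero]
    norm_num
  push_cast
  linarith

/-- D10: `PSum` with the numeric constant -/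
theorem psum (m : ℕ) (hm : 1 ≤ m) : PSum m ((m : ℝ) ^ 2 * (1624 * Real.log m + 2284)) := by
  refine (psum_gen 32 (by norm_num) _ mertens57719 m hm).mono ?_
  have hm' : (0 : ℝ) < m := by exact_mod_cast hm
  rw [Real.log_mul (by norm_num) hm'.ne']
  have := c1_num
  have h2 : 0 ≤ (m : ℝ) ^ 2 := by positivity
  nlinarith

end DIM3
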