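import Pool.Agent.Lib.DIM3.TwoLoc

/-!
# The two-pole relation for a class
-/

open Polynomial Finset Z579

namespace DIM3

set_option linter.unusedSectionVars false

/-- the poles `≡ ± c` -/
noncomputable def cls (p a : ℕ) (c : ℤ) : Finset ℤ :=
  (pc a).filter fun w => (p : ℤ) ∣ w - c ∨ (p : ℤ) ∣ w + c

section

variable {p : ℕ} [hp : Fact p.Prime]

lemma Rs_ww_int {d u : ℤ} (hd0 : d ≠ 0) {k : PP} (hk : WA p 0 0 (lin (-d) * k.2)) :
    VG p 0 (Rs d 10 10 (ww d u ^ 11 * k)) := by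
  have h1 : (ww d u ^ 11 * k).1 * ((lin d)⁻¹) ^ 10 =
      PowerSeries.X ^ 11 * (lin (-2 * u) ^ 11 * k.1 * ((lin d)⁻¹) ^ 10) := by
    rw [Prod.fst_mul, Prod.pow_fst, ww, Prod.fst_mul]
    have : (xx d).1 = PowerSeries.X := rfl
    rw [this]
    ring
  have h2 : (ww d u ^ 11 * k).2 * ((lin (-d))⁻¹) ^ 10 =
      lin (-2 * u - d) ^ 11 * (lin (-d) * k.2) := by
    rw [Prod.snd_mul, Prod.pow_snd, ww, Prod.snd_mul]
    have h3 : (xx d).2 = lin (-d) := rfl
    have e1 : lin (-d) * (lin (-d))⁻¹ = 1 := lin_mul_inv (neg_ne_zero.2 hd0)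
    have e2 : (lin (-d) * (lin (-d))⁻¹) ^ 10 = 1 := by rw [e1, one_pow]
    rw [h3]
    linear_combination (lin (-2 * u - d) ^ 11 * (lin (-d) * k.2)) * e2
  rw [Rs, h1, h2, PowerSeries.coeff_succ_X_mul, PowerSeries.coeff_succ_X_mul,
    PowerSeries.coeff_X_pow_mul']
  rw [if_neg (by norm_num), zero_add]
  have h3 := ((WA.lin0 (p := p) (le_refl (0 : ℝ)) (-2 * u - d)).pow 11).mul hk
  have h4 := h3 9
  simpa using h4

lemma two_mem (d : ℤ) : (2 : PP) ∈ IR p d := by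
  have : (2 : PP) = 1 + 1 := by norm_num
  rw [this]
  exact Subring.add_mem _ (Subring.one_mem _) (Subring.one_mem _)

theorem two_rel_poly {d u : ℤ} {a : ℕ} (hd : (p : ℤ) ∣ d) (hd0 : 0 < d) (hu : u ∈ pc a)
    (hud : u + d ∈ pc a) (hother : ∀ w ∈ pc a, w ≠ u → w ≠ u + d → ¬ (p : ℤ) ∣ w - u)
    (hu2 : ¬ (p : ℤ) ∣ 2 * u)
    {z b : ℕ → ℚ} (hz : ∀ s, VG p 0 (z s)) (hb : ∀ s, VG p 0 (b s)) :
    ∃ S : ℚ[X], IPoly p S ∧ ∀ G : ℚ[X], IPoly p G →
      VG p 0 (Rs d 10 10 (rho d u a * GP d u G * (gG b, gG b)) -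
        d * Rs d 10 10 (rho d u a * GP d u (S * G) * (gF z a u, gF z a (u + d)))) := by
  obtain ⟨U, hU, T, hT, hrel, hWA⟩ := two_rel_pair hd hd0 hu hud hother hz hb
  obtain ⟨S, hS, h', hh', hTS⟩ := IR_expand hd hu2 hT 11
  refine ⟨S, hS, fun G hG => ?_⟩
  have hrho := rho_mem (p := p) (d := d) (u := u) (a := a) hd hother
  have hGP := GP_mem (p := p) d u hG
  set ff : PP := (gF z a u, gF z a (u + d)) with hff
  have h1 : rho d u a * GP d u G * (gG b, gG b) = rho d u a * GP d u G * U +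
      (d : ℚ) • (rho d u a * GP d u (S * G) * ff) +
      (d : ℚ) • (ww d u ^ 11 * (rho d u a * GP d u G * h' * ff)) := by
    rw [hrel, hTS, map_mul]
    simp only [Algebra.smul_def]
    ring
  rw [h1, Rs_add, Rs_add, Rs_smul, Rs_smul]
  have e1 := Rs_int hd hd0.ne' (Subring.mul_mem _ (Subring.mul_mem _ hrho hGP) hU) 10 10
  have e2 : VG p 0 (Rs d 10 10 (ww d u ^ 11 * (rho d u a * GP d u G * h' * ff))) := by
    refine Rs_ww_int hd0.ne' ?_
    have e3 : lin (-d) * (rho d u a * GP d u G * h' * ff).2 =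
        (rho d u a * GP d u G * h').2 * (lin (-d) * gF z a (u + d)) := by
      rw [Prod.snd_mul]
      ring
    rw [e3]
    have e4 := (IR_WA hd (Subring.mul_mem _ (Subring.mul_mem _ hrho hGP) hh')).2.mul hWA
    simpa using e4
  have e3 := (VG.int (p := p) d).mul e2
  rw [add_zero] at e3
  have e4 := e1.add e3
  have e5 : ∀ x y w : ℚ, x + d * y + d * w - d * y = x + d * w := fun x y w => by ring
  rw [e5]
  exact e4

/-- the poles of a class with exactly two poles -/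
lemma cls_two {a : ℕ} (hp2 : p ≠ 2) {c : ℤ} (hc : c ∈ Ip p) (hc0 : c ≠ 0)
    (hcnt : cnt p (pc a) c = 2) :
    ∃ u : ℤ, u ∈ pc a ∧ u + p ∈ pc a ∧ (p : ℤ) ∣ u - c ∧
      (∀ w ∈ pc a, w ≠ u → w ≠ u + p → ¬ (p : ℤ) ∣ w - u) ∧ ¬ (p : ℤ) ∣ 2 * u ∧
      ∀ f : ℤ → ℚ, ∑ w ∈ cls p a c, f w = (f u + f (-u)) + (f (u + p) + f (-(u + p))) := by
  have hp0 : (0 : ℤ) < p := by exact_mod_cast hp.out.pos
  have hodd := Nat.odd_iff.1 (hp.out.odd_of_ne_two hp2)
  rw [Ip, Finset.mem_Icc] at hc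
  obtain ⟨x, y, hxy, hfil⟩ := Finset.card_eq_two.1 hcnt
  have main : ∀ x y : ℤ, x < y → (pc a).filter (fun w => (p : ℤ) ∣ w - c) = {x, y} →
      ∃ u : ℤ, u ∈ pc a ∧ u + p ∈ pc a ∧ (p : ℤ) ∣ u - c ∧
        (pc a).filter (fun w => (p : ℤ) ∣ w - c) = {u, u + p} := by
    intro x y hlt hf
    have hx : x ∈ (pc a).filter (fun w => (p : ℤ) ∣ w - c) := by rw [hf]; simp
    have hy : y ∈ (pc a).filter (fun w => (p : ℤ) ∣ w - c) := by rw [hf]; simp
    rw [Finset.mem_filter] at hx hy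
    have hdiv : (p : ℤ) ∣ y - x := by
      have := dvd_sub hy.2 hx.2
      have h2 : y - c - (x - c) = y - x := by ring
      rwa [h2] at this
    obtain ⟨k, hk⟩ := hdiv
    have hk1 : 1 ≤ k := by
      by_contra h
      push Not at h
      have : y - x ≤ 0 := by
        rw [hk]
        exact mul_nonpos_of_nonneg_of_nonpos hp0.le (by omega)
      omega
    have hxp : x + p ≤ y := by
      have : (p : ℤ) * 1 ≤ p * k := mul_le_mul_of_nonneg_left hk1 hp0.le
      omega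
    have hxm := hx.1
    have hym := hy.1
    rw [pc, Finset.mem_Icc] at hxm hym
    have hmem : x + p ∈ (pc a).filter (fun w => (p : ℤ) ∣ w - c) := by
      rw [Finset.mem_filter]
      refine ⟨by rw [pc, Finset.mem_Icc]; omega, ?_⟩
      have h2 : x + p - c = (x - c) + p := by ring
      rw [h2]
      exact dvd_add hx.2 (dvd_refl _)
    have hmem' := hmem
    rw [hf, Finset.mem_insert, Finset.mem_singleton] at hmem'
    have hy2 : y = x + p := by
      rcases hmem' with h | h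
      · omega
      · exact h.symm
    refine ⟨x, hx.1, ?_, hx.2, ?_⟩
    · rw [← hy2]; exact hy.1
    · rw [← hy2]; exact hf
  obtain ⟨u, hu, hup, huc, hfu⟩ : ∃ u : ℤ, u ∈ pc a ∧ u + p ∈ pc a ∧ (p : ℤ) ∣ u - c ∧
        (pc a).filter (fun w => (p : ℤ) ∣ w - c) = {u, u + p} := by
    rcases lt_or_gt_of_ne hxy with h | h
    · exact main x y h hfil
    · exact main y x h (by rw [hfil, Finset.pair_comm])
  have hcp : ¬ (p : ℤ) ∣ c := by
    intro h
    have := Int.le_of_dvd (by omega) h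
    omega
  have hup2 : ¬ (p : ℤ) ∣ 2 * u := by
    intro h
    rcases (Nat.prime_iff_prime_int.1 hp.out).dvd_or_dvd h with h1 | h1
    · have := Int.le_of_dvd (by norm_num) h1
      omega
    · have h2 := dvd_sub h1 huc
      rw [sub_sub_cancel] at h2
      exact hcp h2
  refine ⟨u, hu, hup, huc, ?_, hup2, ?_⟩
  · intro w hw h1 h2 h3
    have : w ∈ (pc a).filter (fun w => (p : ℤ) ∣ w - c) := by
      rw [Finset.mem_filter]
      refine ⟨hw, ?_⟩
      have := dvd_add h3 huc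
      rwa [sub_add_sub_cancel] at this
    rw [hfu, Finset.mem_insert, Finset.mem_singleton] at this
    rcases this with h | h
    · exact h1 h
    · exact h2 h
  · intro f
    have hcls : cls p a c = {u, -u, u + p, -(u + p)} := by
      ext w
      have key : ∀ w : ℤ, (w ∈ pc a ∧ (p : ℤ) ∣ w - c) ↔ (w = u ∨ w = u + p) := by
        intro w
        have := Finset.ext_iff.1 hfu w
        rw [Finset.mem_filter, Finset.mem_insert, Finset.mem_singleton] at this
        exact this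
      have k1 := key w
      have k2 := key (-w)
      have h3 : (p : ℤ) ∣ -w - c ↔ (p : ℤ) ∣ w + c := by
        rw [← dvd_neg]
        have : -(-w - c) = w + c := by ring
        rw [this]
      have h4 : -w ∈ pc a ↔ w ∈ pc a := neg_mem_pc
      rw [h3, h4] at k2
      rw [cls, Finset.mem_filter, and_or_left, k1, k2]
      simp only [Finset.mem_insert, Finset.mem_singleton]
      omega
    have hne1 : ¬ (p : ℤ) ∣ 2 * u := hup2
    have n1 : u ≠ -u := fun h => hne1 ⟨0, by omega⟩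
    have n2 : u ≠ -(u + p) := fun h => hne1 ⟨-1, by omega⟩
    have n3 : u + p ≠ -(u + p) := fun h => hne1 ⟨-2, by omega⟩
    have n4 : u ≠ u + p := by omega
    rw [hcls, Finset.sum_insert, Finset.sum_insert, Finset.sum_insert, Finset.sum_singleton]
    · ring
    · rw [Finset.mem_singleton]; exact n3
    · rw [Finset.mem_insert, Finset.mem_singleton]
      rintro (h | h)
      · exact n2 (by omega)
      · exact n4 (by omega)
    · rw [Finset.mem_insert, Finset.mem_insert, Finset.mem_singleton]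
      rintro (h | h | h)
      · exact n1 h
      · exact n4 h
      · exact n2 h

/-- the functional of a class with two poles -/
lemma LwS_two {a : ℕ} (ha : 1 ≤ a) {c u : ℤ} (hu : u ∈ pc a) (hup : u + p ∈ pc a)
    (hsum : ∀ f : ℤ → ℚ, ∑ w ∈ cls p a c, f w = (f u + f (-u)) + (f (u + p) + f (-(u + p))))
    (ω : ℤ → ℕ → ℚ) (f1 f2 : PowerSeries ℚ)
    (h1 : ∀ i, 1 ≤ i → i ≤ 10 → PowerSeries.coeff (i - 1) f1 = ω u i + (-1) ^ (i + 1) * ω (-u) i)
    (h2 : ∀ i, 1 ≤ i → i ≤ 10 →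
      PowerSeries.coeff (i - 1) f2 = ω (u + p) i + (-1) ^ (i + 1) * ω (-(u + p)) i) (G : ℚ[X]) :
    LwS a ω (cls p a c) G = Rs p 10 10 (rho p u a * GP p u G * (f1, f2)) := by
  have hp0 : (p : ℤ) ≠ 0 := by exact_mod_cast hp.out.ne_zero
  rw [LwS, hsum, pair_sum ha hu, pair_sum ha hup,
    sum_Acoef_eq a u (fun i => ω u i + (-1) ^ (i + 1) * ω (-u) i) f1 h1,
    sum_Acoef_eq a (u + p) (fun i => ω (u + p) i + (-1) ^ (i + 1) * ω (-(u + p)) i) f2 h2,
    two_poles hp0 hu hup]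

/-- the two-pole relation for a class -/
theorem two_loc {a : ℕ} (hp2 : p ≠ 2) (ha : 1 ≤ a) {c : ℤ} (hc : c ∈ Ip p) (hc0 : c ≠ 0)
    (hcnt : cnt p (pc a) c = 2) {z b : ℕ → ℚ} (hz : ∀ s, VG p 0 (z s)) (hb : ∀ s, VG p 0 (b s)) :
    ∃ S : ℚ[X], IPoly p S ∧ ∀ G : ℚ[X], IPoly p G →
      VG p 0 (LwS a (fun _ i => b i) (cls p a c) G -
        p * LwS a (wt 0 a 1 z) (cls p a c) (S * G)) := by
  obtain ⟨u, hu, hup, huc, hother, hu2, hsum⟩ := cls_two hp2 hc hc0 hcnt
  have hp0 : (0 : ℤ) < p := by exact_mod_cast hp.out.pos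
  obtain ⟨S, hS, hSG⟩ := two_rel_poly (dvd_refl (p : ℤ)) hp0 hu hup hother hu2 hz hb
  refine ⟨S, hS, fun G hG => ?_⟩
  have h1 := hSG G hG
  rw [LwS_two ha hu hup hsum (fun _ i => b i) (gG b) (gG b)
    (fun i h1 h2 => coeff_gG b h1 h2) (fun i h1 h2 => coeff_gG b h1 h2) G,
    LwS_two ha hu hup hsum (wt 0 a 1 z) (gF z a u) (gF z a (u + p))
    (fun i h1 h2 => coeff_gF z hu h1 h2) (fun i h1 h2 => coeff_gF z hup h1 h2) (S * G)]
  have h2 : ((p : ℤ) : ℚ) = (p : ℚ) := Int.cast_natCast p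
  rw [h2] at h1
  exact h1

end

end DIM3
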