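import Pool.Agent.Lib.DIM3.D5Core
import Pool.Agent.Lib.DIM3.TwoLoc2
import Pool.Agent.Lib.DIM3.PBig

/-!
# D5a, D5b: primes `(2a-1)/3 < p ≤ 2a-1`
-/

open Polynomial Finset Z579

namespace DIM3

set_option linter.unusedSectionVars false

section

variable {p : ℕ} [hp : Fact p.Prime]

/-- uniqueness of the class -/
lemma class_unique (hp2 : p ≠ 2) {c c' u : ℤ} (hc : c ∈ Ip p) (hc' : c' ∈ Ip p)
    (h : (p : ℤ) ∣ u - c ∨ (p : ℤ) ∣ u + c) (h' : (p : ℤ) ∣ u - c' ∨ (p : ℤ) ∣ u + c') :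
    c = c' := by
  have hodd := Nat.odd_iff.1 (hp.out.odd_of_ne_two hp2)
  rw [Ip, Finset.mem_Icc] at hc hc'
  have key1 : (p : ℤ) ∣ c - c' → c = c' := by
    intro h1
    have := Int.eq_zero_of_abs_lt_dvd h1 (by rw [abs_lt]; omega)
    omega
  have key2 : (p : ℤ) ∣ c + c' → c = c' := by
    intro h1
    have := Int.eq_zero_of_abs_lt_dvd h1 (by rw [abs_lt]; omega)
    omega
  rcases h with h | h <;> rcases h' with h' | h'
  · have := dvd_sub h' h
    exact key1 (by have e : u - c' - (u - c) = c - c' := by ring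
                   rwa [e] at this)
  · have := dvd_sub h' h
    exact key2 (by have e : u + c' - (u - c) = c + c' := by ring
                   rwa [e] at this)
  · have := dvd_sub h h'
    exact key2 (by have e : u + c - (u - c') = c + c' := by ring
                   rwa [e] at this)
  · have := dvd_sub h h'
    exact key1 (by have e : u + c - (u + c') = c - c' := by ring
                   rwa [e] at this)

/-- partition of the poles into classes -/
lemma sum_cls (hp2 : p ≠ 2) (a : ℕ) (f : ℤ → ℚ) :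
    ∑ u ∈ pc a, f u = ∑ c ∈ Ip p, ∑ u ∈ cls p a c, f u := by
  rw [← Finset.sum_biUnion]
  · congr 1
    ext u
    rw [Finset.mem_biUnion]
    constructor
    · intro hu
      obtain ⟨c, hc, huc⟩ := exists_class hp.out hp2 u
      exact ⟨c, hc, by rw [cls, Finset.mem_filter]; exact ⟨hu, huc⟩⟩
    · rintro ⟨c, _, hu⟩
      rw [cls, Finset.mem_filter] at hu
      exact hu.1
  · intro c hc c' hc' hne
    rw [Function.onFun, Finset.disjoint_left]
    intro u hu hu'
    rw [cls, Finset.mem_filter] at hu hu'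
    exact hne (class_unique hp2 hc hc' hu.2 hu'.2)

/-- the local functional as a linear map -/
noncomputable def FcL (p a : ℕ) (ω : ℤ → ℕ → ℚ) (c : ℤ) : ℚ[X] →ₗ[ℚ] ℚ :=
  ∑ u ∈ cls p a c, ∑ i ∈ Finset.Icc 1 10, ω u i • Acoef 10 0 a a u i

lemma FcL_apply (a : ℕ) (ω : ℤ → ℕ → ℚ) (c : ℤ) (G : ℚ[X]) :
    FcL p a ω c G = LwS a ω (cls p a c) G := by
  simp [FcL, LwS, LinearMap.sum_apply]

lemma Lw_cls (hp2 : p ≠ 2) (a : ℕ) (ω : ℤ → ℕ → ℚ) (G : ℚ[X]) :
    Lw 0 10 0 a a ω G = ∑ c ∈ Ip p, FcL p a ω c G := by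
  rw [Lw_apply, sum_cls hp2]
  refine Finset.sum_congr rfl fun c _ => ?_
  rw [FcL_apply, LwS]
  refine Finset.sum_congr rfl fun u _ => Finset.sum_congr rfl fun i _ => ?_
  simp

lemma WA_aeval {K : ℝ} (hK : 0 ≤ K) (u : ℤ) {G : ℚ[X]} (hG : IPoly p G) :
    WA p K 0 (Polynomial.aeval (lin u ^ 2) G) := by
  rw [Polynomial.aeval_eq_sum_range]
  intro j
  rw [map_sum]
  refine VG.sum fun i _ => ?_
  rw [PowerSeries.coeff_smul, smul_eq_mul]
  have h1 := ((WA.lin0 (p := p) hK u).pow 2).pow i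
  have h2 := (hG i).mul (h1 j)
  refine h2.mono (le_of_eq ?_)
  push_cast
  ring

lemma cls_cnt {a : ℕ} {c u : ℤ} (hu : u ∈ cls p a c) :
    u ∈ pc a ∧ cnt p (pc a) u = cnt p (pc a) c := by
  rw [cls, Finset.mem_filter] at hu
  refine ⟨hu.1, ?_⟩
  rcases hu.2 with h | h
  · exact cnt_congr h
  · have h' : (p : ℤ) ∣ u - (-c) := by simpa using h
    rw [cnt_congr h', cnt_neg (fun w hw => pc_neg hw)]

/-- valuation of the local functional -/
lemma FcL_VG {a : ℕ} (hap : 2 * a ≤ p ^ 2) {c : ℤ} (ω : ℤ → ℕ → ℚ) (s : ℝ)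
    (hω : ∀ u ∈ pc a, ∀ i : ℕ, 1 ≤ i → i ≤ 10 → VG p (-((i : ℝ) + s)) (ω u i))
    (N : ℕ) {G : ℚ[X]} (hG : IPoly p G) :
    VG p ((N : ℝ) - ((10 * cnt p (pc a) c : ℕ) : ℝ) - s)
      (FcL p a ω c ((X - Polynomial.C (((c ^ 2 : ℤ)) : ℚ)) ^ N * G)) := by
  rw [FcL_apply, LwS]
  refine VG.sum fun u hu => VG.sum fun i hi => ?_
  rw [Finset.mem_Icc] at hi
  obtain ⟨hu', hcnt⟩ := cls_cnt hu
  rw [cls, Finset.mem_filter] at hu
  have h1 := base_WA (p := p) (q := 10) (B := 0) (le_refl a) (by omega) hu'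
  have h2 : WA p 1 (N : ℝ) (Polynomial.aeval (lin (-u) ^ 2)
      ((X - Polynomial.C (((c ^ 2 : ℤ)) : ℚ)) ^ N * G)) := by
    have h3 : (X - Polynomial.C (((c ^ 2 : ℤ)) : ℚ) : ℚ[X]) = X - Polynomial.C ((c : ℚ) ^ 2) := by
      push_cast; rfl
    rw [h3, map_mul, map_pow, aeval_factor]
    have h4 : WA p 1 1 (lin (-u - c) * lin (-u + c)) := by
      rcases hu.2 with h | h
      · have h3 : (p : ℤ) ∣ -u + c := by
          have := (dvd_neg (α := ℤ)).2 h
          rwa [neg_sub, sub_eq_neg_add] at this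
        have := (WA.lin0 (p := p) zero_le_one (-u - c)).mul
          (WA.lin (K := 1) (VG.of_dvd h3) le_rfl)
        simpa using this
      · have h3 : (p : ℤ) ∣ -u - c := by
          have := (dvd_neg (α := ℤ)).2 h
          rwa [neg_add'] at this
        have := (WA.lin (K := 1) (VG.of_dvd h3) le_rfl).mul
          (WA.lin0 (p := p) zero_le_one (-u + c))
        simpa using this
    have h5 := (h4.pow N).mul (WA_aeval (p := p) zero_le_one (-u) hG)
    simpa using h5
  have h3 := (h1.mul h2) (10 - i)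
  have h4 := (hω u hu' i hi.1 hi.2).mul h3
  rw [Acoef_apply]
  refine VG.mono h4 ?_
  rw [Nat.cast_sub hi.2, Scl_eq, hcnt]
  push_cast
  linarith

/-- integrality of the local functional of a class with one pole -/
lemma FcL_one {a : ℕ} {c : ℤ} (hc1 : cnt p (pc a) c ≤ 1) (ω : ℤ → ℕ → ℚ)
    (hω : ∀ u ∈ pc a, u + a - 1 < p → ∀ i : ℕ, 1 ≤ i → i ≤ 10 → VG p 0 (ω u i))
    {G : ℚ[X]} (hG : IPoly p G) : VG p 0 (FcL p a ω c G) := by
  rw [FcL_apply, LwS]
  refine VG.sum fun u hu => VG.sum fun i hi => ?_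
  rw [Finset.mem_Icc] at hi
  obtain ⟨hu', hcnt⟩ := cls_cnt hu
  have hone : ∀ w ∈ pc a, (p : ℤ) ∣ w - u → w = u := by
    intro w hw hwu
    by_contra hne
    have : 1 < cnt p (pc a) u := by
      rw [cnt, Finset.one_lt_card]
      exact ⟨w, by rw [Finset.mem_filter]; exact ⟨hw, hwu⟩, u,
        by rw [Finset.mem_filter]; exact ⟨hu', by simp⟩, hne⟩
    omega
  have hlt : u + a - 1 < p := by
    by_contra h
    push Not at h
    have hp0 : (0 : ℤ) < p := by exact_mod_cast hp.out.pos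
    have hu'' : 1 - (a : ℤ) ≤ u ∧ u ≤ (a : ℤ) - 1 := by simpa [pc] using hu'
    have h1 : u - p ∈ pc a := by
      rw [pc, Finset.mem_Icc]; omega
    have h2 := hone (u - p) h1 (by simp)
    omega
  have h1 := base_WA_zero (q := 10) (B := 0) (b := a) hone
  have h2 := WA_aeval (p := p) (le_refl (0 : ℝ)) (-u) hG
  have h3 := (h1.mul h2) (10 - i)
  have h4 := (hω u hu' hlt i hi.1 hi.2).mul h3
  rw [Acoef_apply]
  refine VG.mono h4 ?_
  simp

/-- valuation of the weights -/
lemma wt_VG {a : ℕ} (hap : 2 * a ≤ p ^ 2) {z : ℕ → ℚ} (hz : ∀ s, VG p 0 (z s)) {u : ℤ}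
    (hu : u ∈ pc a) (i : ℕ) : VG p (-((i : ℝ) + 0)) (wt 0 a 1 z u i) := by
  have hu' : 1 - (a : ℤ) ≤ u ∧ u ≤ (a : ℤ) - 1 := by simpa [pc] using hu
  rw [wt, Nat.cast_one, one_mul]
  refine VG.sub ((hz _).mono ?_) ?_
  · have : (0 : ℝ) ≤ i := Nat.cast_nonneg i
    linarith
  · refine (m4c p (i + 0) _ hp.out).mono ?_
    have h1 : Nat.log p (u + a - 1).toNat ≤ 1 := by
      have h2 : (u + a - 1).toNat < p ^ (1 + 1) := by
        have : p ^ (1 + 1) = p ^ 2 := by norm_num
        rw [this]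
        omega
      rcases Nat.eq_zero_or_pos (u + a - 1).toNat with h0 | h0
      · rw [h0]; simp
      · exact Nat.lt_succ_iff.1 (Nat.log_lt_of_lt_pow h0.ne' h2)
    have h2 : (Nat.log p (u + a - 1).toNat : ℝ) ≤ 1 := by exact_mod_cast h1
    have h3 : (0 : ℝ) ≤ ((i + 0 : ℕ) : ℝ) := Nat.cast_nonneg _
    have h4 := mul_le_mul_of_nonneg_left h2 h3
    push_cast at h4 ⊢
    linarith

lemma wt_VG0 {a : ℕ} {z : ℕ → ℚ} (hz : ∀ s, VG p 0 (z s)) {u : ℤ} (hu : u + a - 1 < p) (i : ℕ) :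
    VG p 0 (wt 0 a 1 z u i) := by
  rw [wt, Nat.cast_one, one_mul]
  refine VG.sub (hz _) (Hs_int ?_)
  have := hp.out.pos
  omega

theorem two_core {a : ℕ} (hp2 : p ≠ 2) (ha : 1 ≤ a) (hap : 2 * a ≤ p ^ 2)
    (hcnt3 : ∀ c, cnt p (pc a) c ≤ 3) (h0 : cnt p (pc a) 0 ≠ 2) {z b : ℕ → ℚ} (hzb : Adm z b)
    (hz : ∀ s, VG p 0 (z s)) (hb : ∀ s, VG p 0 (b s)) (l : ℕ) (hl : l ≤ 1) (K : ℕ) :
    VG p (-(l * K +
      ((Ip p).filter fun c => cnt p (pc a) c = 2).card * (55 + ((10 - l : ℕ) : ℝ) * (11 - l) / 2) +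
      ((Ip p).filter fun c => cnt p (pc a) c = 3).card *
        (226 + ((11 - l : ℕ) : ℝ) * (12 - l) / 2)))
      (hank2 (FA a 1 z) (FB a 1 b) K) := by
  classical
  set J2 := (Ip p).filter fun c => cnt p (pc a) c = 2 with hJ2
  set J3 := (Ip p).filter fun c => cnt p (pc a) c = 3 with hJ3
  have hdisj : Disjoint J2 J3 := by
    rw [Finset.disjoint_left]
    intro c h1 h2
    rw [hJ2, Finset.mem_filter] at h1
    rw [hJ3, Finset.mem_filter] at h2
    omega
  set ωB : ℤ → ℕ → ℚ := fun _ i => ((1 : ℕ) : ℚ) * b i with hωB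
  set e : ℤ → ℕ := fun c => 10 * cnt p (pc a) c with he
  set ρ : ℤ → ℕ := fun c => if cnt p (pc a) c = 2 then 10 else 19 with hρ
  -- the polynomials of the two-pole relation
  have hrel : ∀ c ∈ J2, ∃ S : ℚ[X], IPoly p S ∧ ∀ G : ℚ[X], IPoly p G →
      VG p 0 (LwS a (fun _ i => b i) (cls p a c) G -
        p * LwS a (wt 0 a 1 z) (cls p a c) (S * G)) := by
    intro c hc
    rw [hJ2, Finset.mem_filter] at hc
    refine two_loc hp2 ha hc.1 ?_ hc.2 hz hb
    rintro rfl
    exact h0 hc.2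
  choose! S hS hSG using hrel
  have hJm : ∀ c ∈ J2 ∪ J3, c ∈ Ip p ∧ (cnt p (pc a) c = 2 ∨ cnt p (pc a) c = 3) := by
    intro c hc
    rw [Finset.mem_union, hJ2, hJ3, Finset.mem_filter, Finset.mem_filter] at hc
    tauto
  have hsub : J2 ∪ J3 ⊆ Ip p := fun c hc => (hJm c hc).1
  have hωAi : ∀ u ∈ pc a, ∀ i : ℕ, 1 ≤ i → i ≤ 10 → VG p (-((i : ℝ) + 0)) (wt 0 a 1 z u i) :=
    fun u hu i _ _ => wt_VG hap hz hu i
  have hωA0 : ∀ u ∈ pc a, u + a - 1 < p → ∀ i : ℕ, 1 ≤ i → i ≤ 10 → VG p 0 (wt 0 a 1 z u i) :=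
    fun u _ hu' i _ _ => wt_VG0 hz hu' i
  have hωBi : ∀ u ∈ pc a, ∀ i : ℕ, 1 ≤ i → i ≤ 10 → VG p (-((i : ℝ) + (-3))) (ωB u i) := by
    intro u _ i h1 h2
    simp only [hωB, Nat.cast_one, one_mul]
    by_cases hi : 3 ≤ i
    · refine (hb i).mono ?_
      have : (3 : ℝ) ≤ i := by exact_mod_cast hi
      linarith
    · rw [hzb.bs i (by omega) (by omega) (by omega) (by omega)]
      exact VG.zero' _ _
  have hωB0 : ∀ u ∈ pc a, u + a - 1 < p → ∀ i : ℕ, 1 ≤ i → i ≤ 10 → VG p 0 (ωB u i) := by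
    intro u _ _ i _ _
    simp only [hωB, Nat.cast_one, one_mul]
    exact hb i
  have hbeq : (fun _ i => b i : ℤ → ℕ → ℚ) = ωB := by
    ext u i
    simp [hωB]
  have hmain := core (p := p) J2 J3 (fun c => c ^ 2) e ρ 30 l hl
    (by
      intro c hc
      simp only [he]
      have := hcnt3 c
      omega)
    (by
      intro c hc
      obtain ⟨_, h1 | h1⟩ := hJm c hc
      · simp only [he, hρ, h1, if_true]; omega
      · simp only [he, hρ, h1]
        norm_num
        omega)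
    (by
      intro c hc
      rw [hJ3, Finset.mem_filter] at hc
      simp only [he, hρ, hc.2]
      norm_num)
    (FA a 1 z) (FB a 1 b) (FcL p a (wt 0 a 1 z)) (FcL p a ωB) S hS
    (by
      intro G hG
      rw [FA, Lw_cls hp2, ← Finset.sum_sdiff hsub, add_sub_cancel_right]
      refine VG.sum fun c hc => FcL_one ?_ _ hωA0 hG
      rw [Finset.mem_sdiff, Finset.mem_union, hJ2, hJ3, Finset.mem_filter, Finset.mem_filter] at hc
      have := hcnt3 c
      by_contra hcon
      exact hc.2 (by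
        have : cnt p (pc a) c = 2 ∨ cnt p (pc a) c = 3 := by omega
        rcases this with h | h
        · exact Or.inl ⟨hc.1, h⟩
        · exact Or.inr ⟨hc.1, h⟩))
    (by
      intro G hG
      have h1 : FB a 1 b G = ∑ c ∈ Ip p, FcL p a ωB c G := by
        rw [FB, Lw_cls hp2]
      rw [h1, ← Finset.sum_sdiff hsub, Finset.sum_union hdisj]
      have h2 : VG p 0 (∑ c ∈ Ip p \ (J2 ∪ J3), FcL p a ωB c G) := by
        refine VG.sum fun c hc => FcL_one ?_ _ hωB0 hG
        rw [Finset.mem_sdiff, Finset.mem_union, hJ2, hJ3, Finset.mem_filter,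
          Finset.mem_filter] at hc
        have := hcnt3 c
        by_contra hcon
        exact hc.2 (by
          have : cnt p (pc a) c = 2 ∨ cnt p (pc a) c = 3 := by omega
          rcases this with h | h
          · exact Or.inl ⟨hc.1, h⟩
          · exact Or.inr ⟨hc.1, h⟩)
      have h3 : VG p 0 (∑ c ∈ J2, (FcL p a ωB c G - p * FcL p a (wt 0 a 1 z) c (S c * G))) := by
        refine VG.sum fun c hc => ?_
        rw [FcL_apply, FcL_apply, ← hbeq]
        exact hSG c hc G hG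
      rw [Finset.sum_sub_distrib] at h3
      have h4 := h2.add h3
      have e1 : ∀ x1 x2 x3 x4 : ℚ, x1 + (x2 + x3) - (x4 + x3) = x1 + (x2 - x4) :=
        fun x1 x2 x3 x4 => by ring
      rw [e1]
      exact h4)
    (by
      intro c _ N G hG
      have h1 := FcL_VG (p := p) hap (c := c) (wt 0 a 1 z) 0 hωAi N hG
      rw [sub_zero] at h1
      exact h1)
    (by
      intro c _ N G hG
      have h1 := FcL_VG (p := p) hap (c := c) ωB (-3) hωBi N hG
      rw [sub_neg_eq_add] at h1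
      exact h1) K
  refine hmain.mono (neg_le_neg ?_)
  rw [Finset.sum_union hdisj, Finset.sum_union hdisj]
  have t2 : ∀ c ∈ J2, cnt p (pc a) c = 2 := fun c hc => (Finset.mem_filter.1 hc).2
  have t3 : ∀ c ∈ J3, cnt p (pc a) c = 3 := fun c hc => (Finset.mem_filter.1 hc).2
  have s1 : ∑ c ∈ J2, (ρ c : ℝ) * (ρ c + 1) / 2 = J2.card * 55 := by
    rw [Finset.sum_congr rfl (g := fun _ => (55 : ℝ)) (fun c hc => by
      simp only [hρ, t2 c hc, if_true]; norm_num), Finset.sum_const, nsmul_eq_mul]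
  have s2 : ∑ c ∈ J3, (ρ c : ℝ) * (ρ c + 1) / 2 = J3.card * 190 := by
    rw [Finset.sum_congr rfl (g := fun _ => (190 : ℝ)) (fun c hc => by
      simp only [hρ, t3 c hc]; norm_num), Finset.sum_const, nsmul_eq_mul]
  have s3 : ∑ c ∈ J2, ((e c - ρ c - l : ℕ) : ℝ) * ((e c - ρ c - l : ℕ) + 1) / 2 =
      J2.card * (((10 - l : ℕ) : ℝ) * (11 - l) / 2) := by
    rw [Finset.sum_congr rfl (g := fun _ => (((10 - l : ℕ) : ℝ) * (11 - l) / 2)) (fun c hc => by
      have h1 : e c - ρ c - l = 10 - l := by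
        simp only [he, hρ, t2 c hc, if_true]
      rw [h1]
      rw [Nat.cast_sub (by omega)]
      push_cast
      ring), Finset.sum_const, nsmul_eq_mul]
  have s4 : ∑ c ∈ J3, ((e c - ρ c - l : ℕ) : ℝ) * ((e c - ρ c - l : ℕ) + 1) / 2 =
      J3.card * (((11 - l : ℕ) : ℝ) * (12 - l) / 2) := by
    rw [Finset.sum_congr rfl (g := fun _ => (((11 - l : ℕ) : ℝ) * (12 - l) / 2)) (fun c hc => by
      have h1 : e c - ρ c - l = 11 - l := by
        simp only [he, hρ, t3 c hc]
        norm_num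
      rw [h1]
      rw [Nat.cast_sub (by omega)]
      push_cast
      ring), Finset.sum_const, nsmul_eq_mul]
  have s5 : ∑ c ∈ J3, ((e c - ρ c - 3 : ℕ) : ℝ) * ((e c - ρ c - 3 : ℕ) + 1) / 2 =
      J3.card * 36 := by
    rw [Finset.sum_congr rfl (g := fun _ => (36 : ℝ)) (fun c hc => by
      have h1 : e c - ρ c - 3 = 8 := by
        simp only [he, hρ, t3 c hc]
        norm_num
      rw [h1]
      norm_num), Finset.sum_const, nsmul_eq_mul]
  rw [s1, s2, s3, s4, s5]
  apply le_of_eq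
  ring

end

/-- D5b -/
theorem pTwo2 : PTwo2 := by
  intro p a K z b hp hp2 hap hpa hsq hzb hz hb
  have : Fact p.Prime := ⟨hp⟩
  have ha : 1 ≤ a := by
    by_contra h
    have h0 : a = 0 := by omega
    subst h0
    have := hp.pos
    omega
  have hle := cnt_pc_le hp ha hap
  have h0 : ¬ 2 ≤ cnt p (pc a) 0 := cnt_zero hp ha hap
  have hJ3 : (Ip p).filter (fun c => cnt p (pc a) c = 3) = ∅ := by
    rw [Finset.filter_eq_empty_iff]
    intro c _ h
    have := hle c
    omega
  have hJ2 : ((((Ip p).filter fun c => cnt p (pc a) c = 2).card : ℕ) : ℝ) =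
      1 / 2 * (2 * (a : ℝ) - 1 - p) := by
    have h1 : (Ip p).filter (fun c => cnt p (pc a) c = 2) =
        (Ip p).filter (fun c => 2 ≤ cnt p (pc a) c) := by
      refine Finset.filter_congr fun c _ => ?_
      have := hle c
      omega
    have h2 := sum_filter_Ip p (fun c => 2 ≤ cnt p (pc a) c)
      (fun c => by rw [cnt_neg (fun w hw => pc_neg hw)]) h0 (fun _ => (1 : ℝ)) (fun _ => rfl)
    rw [Finset.sum_const, Finset.sum_const, nsmul_eq_mul, nsmul_eq_mul, mul_one, mul_one,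
      card_two hp hp2 ha hap hpa] at h2
    rw [h1, h2, Nat.cast_sub hpa, Nat.cast_sub (show 1 ≤ 2 * a by omega)]
    push_cast
    ring
  constructor
  · have h := two_core (p := p) hp2 ha hsq (fun c => (hle c).trans (by norm_num)) (by omega) hzb hz hb
      1 le_rfl K
    refine h.mono (le_of_eq ?_)
    rw [hJ3, hJ2]
    simp only [Finset.card_empty]
    push_cast
    ring
  · have h := two_core (p := p) hp2 ha hsq (fun c => (hle c).trans (by norm_num)) (by omega) hzb hz hb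
      0 (by norm_num) K
    refine h.mono (le_of_eq ?_)
    rw [hJ3, hJ2]
    simp only [Finset.card_empty]
    push_cast
    ring

/-- D5a -/
theorem pTwo1 : PTwo1 := by
  intro p a K z b hp hp2 h3p hpa hsq hzb hz hb
  have : Fact p.Prime := ⟨hp⟩
  have hp1 := hp.pos
  have ha : 1 ≤ a := by omega
  have hp0 : (0 : ℝ) < p := by exact_mod_cast hp.pos
  have hodd := odd_p hp hp2
  -- the counting function takes the values `2` and `3`
  have hb1 : ∀ c : ℤ, 2 ≤ cnt p (pc a) c ∧ cnt p (pc a) c ≤ 3 := by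
    intro c
    have h := cnt_Ioc hp.pos (-(a : ℤ)) ((a : ℤ) - 1) (by omega) c
    have h1 : ((((a : ℤ) - 1) - (-(a : ℤ)) : ℤ) : ℝ) = 2 * a - 1 := by push_cast; ring
    rw [h1] at h
    have h2 : (2 * (a : ℝ) - 1) / p < 3 := by
      rw [div_lt_iff₀ hp0]
      have h4 : ((2 * a - 1 : ℕ) : ℝ) < ((3 * p : ℕ) : ℝ) := by exact_mod_cast h3p
      rw [Nat.cast_sub (by omega)] at h4
      push_cast at h4
      exact h4
    have h3 : 2 < (2 * (a : ℝ) - 1) / p := by
      rw [lt_div_iff₀ hp0]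
      have h4 : ((p + 1 : ℕ) : ℝ) ≤ a := by exact_mod_cast hpa
      push_cast at h4
      linarith
    have h4 : (1 : ℝ) < cnt p (pc a) c := by
      rw [pc_eq_fc]; unfold fc; linarith [h.1]
    have h5 : (cnt p (pc a) c : ℝ) < 4 := by
      rw [pc_eq_fc]; unfold fc; linarith [h.2]
    have h6 : 1 < cnt p (pc a) c := by exact_mod_cast h4
    have h7 : cnt p (pc a) c < 4 := by exact_mod_cast h5
    omega
  have hc0 : cnt p (pc a) 0 = 3 := by
    have h1 : ({0, (p : ℤ), -(p : ℤ)} : Finset ℤ) ⊆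
        (pc a).filter (fun w => (p : ℤ) ∣ w - 0) := by
      intro w hw
      simp only [Finset.mem_insert, Finset.mem_singleton] at hw
      rw [Finset.mem_filter, pc, Finset.mem_Icc, sub_zero]
      rcases hw with h | h | h
      · subst h; exact ⟨by omega, dvd_zero _⟩
      · subst h; exact ⟨by omega, dvd_refl _⟩
      · subst h; exact ⟨by omega, (dvd_refl _).neg_right⟩
    have h2 := Finset.card_le_card h1
    have h3 : ({0, (p : ℤ), -(p : ℤ)} : Finset ℤ).card = 3 := by
      rw [Finset.card_insert_of_notMem, Finset.card_insert_of_notMem, Finset.card_singleton]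
      · rw [Finset.mem_singleton]; omega
      · rw [Finset.mem_insert, Finset.mem_singleton]; omega
    rw [h3] at h2
    have h4 : 3 ≤ cnt p (pc a) 0 := h2
    have := hb1 0
    omega
  -- counts over the full residue system
  have hR3 : (((Rp p).filter fun c => cnt p (pc a) c = 3).card : ℝ) = 2 * a - 1 - 2 * p ∧
      (((Rp p).filter fun c => cnt p (pc a) c = 2).card : ℝ) = 3 * p - 2 * a + 1 := by
    have h1 := sum_cnt hp hp2 (pc a)
    have h2 : (pc a).card = 2 * a - 1 := by rw [pc_eq_fc, card_fc ha]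
    rw [h2] at h1
    have h3 : ∀ c ∈ Rp p, cnt p (pc a) c = 2 + if cnt p (pc a) c = 3 then 1 else 0 := by
      intro c _
      have := hb1 c
      split_ifs <;> omega
    rw [Finset.sum_congr rfl h3, Finset.sum_add_distrib, Finset.sum_const, card_Rp hp hp2,
      smul_eq_mul, ← Finset.card_filter] at h1
    have h4 : ((Rp p).filter fun c => cnt p (pc a) c = 2).card +
        ((Rp p).filter fun c => cnt p (pc a) c = 3).card = p := by
      have h5 := Finset.card_filter_add_card_filter_not (s := Rp p) (fun c => cnt p (pc a) c = 2)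
      rw [card_Rp hp hp2] at h5
      have h6 : (Rp p).filter (fun c => ¬ cnt p (pc a) c = 2) =
          (Rp p).filter (fun c => cnt p (pc a) c = 3) := by
        refine Finset.filter_congr fun c _ => ?_
        have := hb1 c
        omega
      rw [h6] at h5
      exact h5
    have h5 : (((Rp p).filter fun c => cnt p (pc a) c = 3).card : ℝ) = 2 * a - 1 - 2 * p := by
      have h6 : ((p * 2 + ((Rp p).filter fun c => cnt p (pc a) c = 3).card : ℕ) : ℝ) =
          ((2 * a - 1 : ℕ) : ℝ) := by rw [h1]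
      rw [Nat.cast_sub (by omega)] at h6
      push_cast at h6
      linarith
    refine ⟨h5, ?_⟩
    have h6 : ((((Rp p).filter fun c => cnt p (pc a) c = 2).card +
        ((Rp p).filter fun c => cnt p (pc a) c = 3).card : ℕ) : ℝ) = p := by rw [h4]
    push_cast at h6
    linarith
  have hneg : ∀ c, cnt p (pc a) (-c) = cnt p (pc a) c := fun c => cnt_neg (fun w hw => pc_neg hw) c
  have hI2 : (((Ip p).filter fun c => cnt p (pc a) c = 2).card : ℝ) =
      1 / 2 * (3 * p - 2 * a + 1) := by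
    have h2 := sum_filter_Ip p (fun c => cnt p (pc a) c = 2) (fun c => by rw [hneg])
      (by omega) (fun _ => (1 : ℝ)) (fun _ => rfl)
    rw [Finset.sum_const, Finset.sum_const, nsmul_eq_mul, nsmul_eq_mul, mul_one, mul_one,
      hR3.2] at h2
    exact h2
  have hI3 : (((Ip p).filter fun c => cnt p (pc a) c = 3).card : ℝ) = a - p := by
    have h2 := sum_Ip p (fun c => if cnt p (pc a) c = 3 then (1 : ℝ) else 0)
      (fun c => by simp only [hneg])
    rw [← Finset.sum_filter, ← Finset.sum_filter, Finset.sum_const, Finset.sum_const,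
      nsmul_eq_mul, nsmul_eq_mul, mul_one, mul_one, hR3.1, if_pos hc0] at h2
    rw [h2]
    ring
  have h := two_core (p := p) hp2 ha hsq (fun c => (hb1 c).2) (by omega) hzb hz hb 1 le_rfl K
  refine h.mono (le_of_eq ?_)
  rw [hI2, hI3]
  push_cast
  ring

end DIM3
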