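import Pool.Agent.Lib.DIM3.Defs

/-!
# From the determinant statement to the dimension
-/

open Finset Z579

namespace DIM3

lemma not_mem_of_main (h : Main) : ∃ s : ℕ, (s = 5 ∨ s = 7 ∨ s = 9) ∧
    zr s ∉ Submodule.span ℚ ({1, zr 3} : Set ℝ) := by
  by_contra hcon
  push Not at hcon
  have h5 := hcon 5 (by tauto)
  have h7 := hcon 7 (by tauto)
  have h9 := hcon 9 (by tauto)
  rw [Submodule.mem_span_pair] at h5 h7 h9
  obtain ⟨a5, b5, e5⟩ := h5
  obtain ⟨a7, b7, e7⟩ := h7
  obtain ⟨a9, b9, e9⟩ := h9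
  refine h ⟨fun s => if s = 5 then a5 else if s = 7 then a7 else if s = 9 then a9 else 0,
    fun s => if s = 3 then 1 else if s = 5 then b5 else if s = 7 then b7 else if s = 9 then b9
      else 0, ?_⟩
  refine { b3 := ?_, z3 := ?_, zs := ?_, bs := ?_, r5 := ?_, r7 := ?_, r9 := ?_ }
  · simp
  · simp
  · intro s h1 h2 h3
    simp [h1, h2, h3]
  · intro s h0 h1 h2 h3
    simp [h0, h1, h2, h3]
  · rw [← e5]
    simp [Algebra.smul_def]
  · rw [← e7]
    simp [Algebra.smul_def]
  · rw [← e9]
    simp [Algebra.smul_def]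

/-- the dimension of the span -/
theorem rank_of (hA : Irrational (zr 3)) (hM : Main) :
    3 ≤ Module.finrank ℚ (Submodule.span ℚ ({1, zr 3, zr 5, zr 7, zr 9} : Set ℝ)) := by
  obtain ⟨s, hs, hns⟩ := not_mem_of_main hM
  set S := Submodule.span ℚ ({1, zr 3, zr 5, zr 7, zr 9} : Set ℝ) with hS
  haveI : FiniteDimensional ℚ S := FiniteDimensional.span_of_finite ℚ (by simp)
  have m1 : (1 : ℝ) ∈ S := Submodule.subset_span (by simp)
  have m3 : zr 3 ∈ S := Submodule.subset_span (by simp)
  have ms : zr s ∈ S := Submodule.subset_span (by rcases hs with rfl | rfl | rfl <;> simp)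
  have hpair : LinearIndependent ℚ ![zr 3, (1 : ℝ)] := by
    rw [LinearIndependent.pair_iff]
    intro x y hxy
    have hx : x = 0 := by
      by_contra hx
      apply hA
      refine ⟨-y / x, ?_⟩
      have h1 : (x : ℝ) * zr 3 + y = 0 := by
        simpa [Algebra.smul_def] using hxy
      have hx' : (x : ℝ) ≠ 0 := by exact_mod_cast hx
      push_cast
      field_simp
      linarith
    refine ⟨hx, ?_⟩
    rw [hx] at hxy
    have h1 : (y : ℝ) = 0 := by simpa [Algebra.smul_def] using hxy
    exact_mod_cast h1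
  have htri : LinearIndependent ℚ (Fin.cons (zr s) ![zr 3, (1 : ℝ)] : Fin 3 → ℝ) := by
    rw [linearIndependent_finCons]
    refine ⟨hpair, ?_⟩
    intro hmem
    apply hns
    refine Submodule.span_mono ?_ hmem
    rintro x ⟨i, rfl⟩
    fin_cases i <;> simp
  have hS3 : ∀ i, (Fin.cons (zr s) ![zr 3, (1 : ℝ)] : Fin 3 → ℝ) i ∈ S := by
    intro i
    fin_cases i
    · exact ms
    · exact m3
    · exact m1
  have hli : LinearIndependent ℚ (fun i => (⟨_, hS3 i⟩ : S)) := by
    refine LinearIndependent.of_comp S.subtype ?_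
    exact htri
  simpa using hli.fintype_card_le_finrank

end DIM3
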