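import Pool.Agent.Lib.DIM3.Defs
import Pool.Agent.Lib.Z579.M1

/-!
# D1b: the real identity of the two-block determinant (`r = 0`)
-/

open Polynomial Finset Z579 Filter Topology

namespace DIM3

/-- telescoping -/
lemma hasSum_tel (k : ℕ) (hk : 1 ≤ k) :
    HasSum (fun t : ℕ => 1 / ((t : ℝ) + k) - 1 / ((t : ℝ) + (k + 1 : ℕ))) (1 / (k : ℝ)) := by
  have hk0 : (0 : ℝ) < k := by exact_mod_cast hk
  rw [hasSum_iff_tendsto_nat_of_nonneg]
  · have h1 : ∀ n : ℕ, ∑ t ∈ Finset.range n,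
        (1 / ((t : ℝ) + k) - 1 / ((t : ℝ) + (k + 1 : ℕ))) = 1 / (k : ℝ) - 1 / ((n : ℝ) + k) := by
      intro n
      induction n with
      | zero => simp
      | succ n ih =>
        rw [Finset.sum_range_succ, ih]
        push_cast
        have e : (n : ℝ) + ((k : ℝ) + 1) = n + 1 + k := by ring
        rw [e]
        ring
    simp_rw [h1]
    have h2 : Tendsto (fun n : ℕ => 1 / ((n : ℝ) + k)) atTop (𝓝 0) := by
      have h4 : Tendsto (fun n : ℕ => (n : ℝ) + k) atTop atTop :=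
        tendsto_atTop_add_const_right _ _ tendsto_natCast_atTop_atTop
      simp_rw [one_div]
      exact tendsto_inv_atTop_zero.comp h4
    simpa using (tendsto_const_nhds (x := 1 / (k : ℝ))).sub h2
  · intro t
    have h1 : (0 : ℝ) < (t : ℝ) + k := by positivity
    rw [sub_nonneg]
    apply one_div_le_one_div_of_le h1
    push_cast
    linarith

/-- `∑_t (1/(t+k) - 1/(t+1)) = - H_{k-1}` -/
lemma hasSum_one (k : ℕ) (hk : 1 ≤ k) :
    HasSum (fun t : ℕ => 1 / ((t : ℝ) + k) - 1 / ((t : ℝ) + 1)) (-(Hs 1 (k - 1) : ℝ)) := by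
  induction k, hk using Nat.le_induction with
  | base => simp [Hs]
  | succ k hk ih =>
    have h1 := ih.sub (hasSum_tel k hk)
    have h2 : -(Hs 1 (k - 1) : ℝ) - 1 / (k : ℝ) = -(Hs 1 (k + 1 - 1) : ℝ) := by
      obtain ⟨j, rfl⟩ := Nat.exists_eq_add_of_le' hk
      rw [Nat.add_sub_cancel, Nat.add_sub_cancel]
      unfold Hs
      rw [Finset.sum_range_succ]
      push_cast
      ring
    rw [← h2]
    refine h1.congr_fun ?_
    intro t
    ring

lemma hasSum_ge {i k : ℕ} (hi : 2 ≤ i) (hk : 1 ≤ k) :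
    HasSum (fun t : ℕ => 1 / ((t : ℝ) + k) ^ i) (zr i - (Hs i (k - 1) : ℝ)) := by
  rw [← tsum_tail hi hk]
  refine Summable.hasSum ?_
  have h2 := (summable_nat_add_iff (k - 1)).2 (summable_zr (s := i) hi)
  refine h2.congr fun t => ?_
  have h3 : ((k - 1 : ℕ) : ℝ) = (k : ℝ) - 1 := by
    rw [Nat.cast_sub hk]; simp
  push_cast
  rw [h3]
  congr 2
  ring

/-- the constant attached to `i` -/
noncomputable def cst (i : ℕ) : ℝ := if i = 1 then 0 else zr i

lemma hasSum_ui {i k : ℕ} (hi : 1 ≤ i) (hk : 1 ≤ k) :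
    HasSum (fun t : ℕ => 1 / ((t : ℝ) + k) ^ i - (if i = 1 then 1 / ((t : ℝ) + 1) else 0))
      (cst i - (Hs i (k - 1) : ℝ)) := by
  by_cases h : i = 1
  · subst h
    simpa [cst] using hasSum_one k hk
  · have := hasSum_ge (i := i) (k := k) (by omega) hk
    simpa [cst, h] using this

/-- the real identity -/
theorem hasSum_R {a : ℕ} (ha : 1 ≤ a) (G : ℚ[X]) (hdeg : 2 * G.natDegree + 3 ≤ 10 * (2 * a - 1)) :
    HasSum (fun t : ℕ => Rr a ((a : ℝ) + t) * Polynomial.aeval (((a : ℝ) + t) ^ 2) G)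
      (∑ u ∈ pc a, ∑ i ∈ Finset.Icc 1 10, (Acoef 10 0 a a u i G : ℝ) *
        (cst i - (Hs i ((a : ℤ) + u - 1).toNat : ℝ))) := by
  have hterm : ∀ u ∈ pc a, ∀ i ∈ Finset.Icc 1 10, HasSum
      (fun t : ℕ => (Acoef 10 0 a a u i G : ℝ) *
        (1 / ((t : ℝ) + (((a : ℤ) + u).toNat : ℕ)) ^ i -
          (if i = 1 then 1 / ((t : ℝ) + 1) else 0)))
      ((Acoef 10 0 a a u i G : ℝ) * (cst i - (Hs i ((a : ℤ) + u - 1).toNat : ℝ))) := by
    intro u hu i hi
    rw [Finset.mem_Icc] at hi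
    rw [mem_pc] at hu
    have h1 := hasSum_ui (i := i) (k := ((a : ℤ) + u).toNat) hi.1 (by omega)
    have e : ((a : ℤ) + u).toNat - 1 = ((a : ℤ) + u - 1).toNat := by omega
    rw [e] at h1
    exact h1.mul_left _
  have hsum := hasSum_sum (s := pc a) fun u hu => hasSum_sum (s := Finset.Icc 1 10) fun i hi =>
    hterm u hu i hi
  refine hsum.congr_fun ?_
  intro t
  have h1 := sum_Acoef_one (q := 10) (B := 0) (b := a) ha le_rfl (by norm_num) G (by
    simpa using hdeg)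
  have hv : ∀ u ∈ pc a, ((a : ℝ) + t) + (u : ℝ) ≠ 0 := by
    intro u hu
    rw [mem_pc] at hu
    have h2 : (0 : ℝ) < (a : ℝ) + u := by
      have : (0 : ℤ) < (a : ℤ) + u := by omega
      exact_mod_cast this
    have h3 : (0 : ℝ) ≤ t := Nat.cast_nonneg t
    linarith
  have h2 := pf_field (K := ℝ) (q := 10) (B := 0) (b := a) ha le_rfl G (by
    simp only [Nat.sub_self, mul_zero, zero_add]; omega) ((a : ℝ) + t) hv
  rw [pow_zero, mul_one] at h2
  rw [Rr, h2]
  simp only [mul_sub, Finset.sum_sub_distrib]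
  have h3 : ∑ u ∈ pc a, ∑ i ∈ Finset.Icc 1 10, (Acoef 10 0 a a u i G : ℝ) *
      (if i = 1 then 1 / ((t : ℝ) + 1) else 0) = 0 := by
    have h4 : ∀ u ∈ pc a, ∑ i ∈ Finset.Icc 1 10, (Acoef 10 0 a a u i G : ℝ) *
        (if i = 1 then 1 / ((t : ℝ) + 1) else 0) =
        (Acoef 10 0 a a u 1 G : ℝ) * (1 / ((t : ℝ) + 1)) := by
      intro u _
      rw [Finset.sum_eq_single 1]
      · simp
      · intro i _ hi
        simp [hi]
      · intro h
        exfalso
        apply h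
        rw [Finset.mem_Icc]
        norm_num
    rw [Finset.sum_congr rfl h4, ← Finset.sum_mul]
    have h5 : ∑ u ∈ pc a, (Acoef 10 0 a a u 1 G : ℝ) = 0 := by exact_mod_cast h1
    rw [h5, zero_mul]
  rw [h3, sub_zero]
  refine Finset.sum_congr rfl fun u hu => Finset.sum_congr rfl fun i _ => ?_
  rw [mem_pc] at hu
  have h4 : ((((a : ℤ) + u).toNat : ℕ) : ℝ) = (a : ℝ) + u := by
    have h5 : ((((a : ℤ) + u).toNat : ℕ) : ℤ) = (a : ℤ) + u := Int.toNat_of_nonneg (by omega)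
    exact_mod_cast h5
  rw [h4]
  have e : (t : ℝ) + ((a : ℝ) + u) = (a : ℝ) + t + u := by ring
  rw [e, mul_one_div]

/-- `FA + ζ(3) FB = Q ∑_t R(a+t) G((a+t)^2)` -/
theorem FA_add {a Q : ℕ} {z b : ℕ → ℚ} (h : IsZB z b) (ha : 1 ≤ a) (G : ℚ[X])
    (hdeg : 2 * G.natDegree + 3 ≤ 10 * (2 * a - 1)) :
    ((FA a Q z G : ℚ) : ℝ) + zr 3 * ((FB a Q b G : ℚ) : ℝ) =
      Q * ∑' t : ℕ, Rr a ((a : ℝ) + t) * Polynomial.aeval (((a : ℝ) + t) ^ 2) G := by
  rw [(hasSum_R ha G hdeg).tsum_eq, FA, FB, Lw_apply, Lw_apply]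
  have h1 : ∑ u ∈ pc a, ∑ i ∈ Finset.Icc 1 10, (Acoef 10 0 a a u i G : ℝ) *
      ((z i : ℝ) + b i * zr 3) =
      ∑ u ∈ pc a, ∑ i ∈ Finset.Icc 1 10, (Acoef 10 0 a a u i G : ℝ) * cst i := by
    rw [Finset.sum_comm, Finset.sum_comm (s := pc a)]
    refine Finset.sum_congr rfl fun i hi => ?_
    rw [← Finset.sum_mul, ← Finset.sum_mul]
    rw [Finset.mem_Icc] at hi
    rcases Nat.even_or_odd i with he | ho
    · have := sum_Acoef_even (q := 10) (B := 0) (b := a) ha (by decide) hi.2 he G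
      have h7 : ∑ u ∈ pc a, (Acoef 10 0 a a u i G : ℝ) = 0 := by exact_mod_cast this
      rw [h7, zero_mul, zero_mul]
    · by_cases hi1 : i = 1
      · subst hi1
        have := sum_Acoef_one (q := 10) (B := 0) (b := a) ha le_rfl (by norm_num) G (by
          simpa using hdeg)
        have h7 : ∑ u ∈ pc a, (Acoef 10 0 a a u 1 G : ℝ) = 0 := by exact_mod_cast this
        rw [h7, zero_mul, zero_mul]
      · congr 1
        rw [cst, if_neg hi1]
        obtain ⟨m, hm⟩ := ho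
        have hcase : i = 3 ∨ i = 5 ∨ i = 7 ∨ i = 9 := by omega
        rcases hcase with rfl | rfl | rfl | rfl
        · rw [h.z3, h.b3]; push_cast; ring
        · rw [h.r5]
        · rw [h.r7]
        · rw [h.r9]
  have h2 : (Q : ℝ) * ∑ u ∈ pc a, ∑ i ∈ Finset.Icc 1 10, (Acoef 10 0 a a u i G : ℝ) *
        (cst i - (Hs i ((a : ℤ) + u - 1).toNat : ℝ)) =
      Q * (∑ u ∈ pc a, ∑ i ∈ Finset.Icc 1 10, (Acoef 10 0 a a u i G : ℝ) *
        ((z i : ℝ) + b i * zr 3) - ∑ u ∈ pc a, ∑ i ∈ Finset.Icc 1 10,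
          (Acoef 10 0 a a u i G : ℝ) * (Hs i ((a : ℤ) + u - 1).toNat : ℝ)) := by
    rw [h1, ← Finset.sum_sub_distrib]
    congr 1
    refine Finset.sum_congr rfl fun u _ => ?_
    rw [← Finset.sum_sub_distrib]
    refine Finset.sum_congr rfl fun i _ => ?_
    ring
  rw [h2]
  push_cast
  rw [Finset.mul_sum, ← Finset.sum_add_distrib, ← Finset.sum_sub_distrib, Finset.mul_sum]
  refine Finset.sum_congr rfl fun u _ => ?_
  rw [Finset.mul_sum, ← Finset.sum_add_distrib, ← Finset.sum_sub_distrib, Finset.mul_sum]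
  refine Finset.sum_congr rfl fun i _ => ?_
  have e : u + (a : ℤ) - 1 = (a : ℤ) + u - 1 := by ring
  rw [wt, e, add_zero, Nat.choose_zero_right]
  push_cast
  ring

/-- scaling of `FB` -/
lemma FB_scale (a Q : ℕ) (b : ℕ → ℚ) (G : ℚ[X]) : FB a Q b G = (Q : ℚ) * FB a 1 b G := by
  rw [FB, FB, Lw_apply, Lw_apply, Finset.mul_sum]
  refine Finset.sum_congr rfl fun u _ => ?_
  rw [Finset.mul_sum]
  refine Finset.sum_congr rfl fun i _ => ?_
  push_cast
  ring

lemma row_lt {K : ℕ} (i : Fin K ⊕ Fin K) : row i < 2 * K := by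
  rcases i with i | i
  · have := i.2
    change (i : ℕ) < 2 * K
    omega
  · have := i.2
    change K + (i : ℕ) < 2 * K
    omega

/-- D1b -/
theorem realId : RealId := by
  intro a Q K z b h ha hK
  set S : ℕ → ℝ := fun n => ∑' t : ℕ, Rr a ((a : ℝ) + t) * (((a : ℝ) + t) ^ 2) ^ n with hS
  set T : ℕ → ℝ := fun n => ((FB a 1 b (X ^ n) : ℚ) : ℝ) with hT
  have hFB : ∀ n, ((FB a Q b (X ^ n) : ℚ) : ℝ) = Q * T n := by
    intro n
    rw [FB_scale]
    push_cast
    rfl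
  have hFA : ∀ n, 2 * n + 3 ≤ 10 * (2 * a - 1) →
      ((FA a Q z (X ^ n) : ℚ) : ℝ) = Q * S n - zr 3 * (Q * T n) := by
    intro n hn
    have h1 := FA_add (Q := Q) h ha (X ^ n) (by rw [natDegree_X_pow]; exact hn)
    rw [hFB] at h1
    have h2 : ∑' t : ℕ, Rr a ((a : ℝ) + t) * Polynomial.aeval (((a : ℝ) + t) ^ 2)
        (X ^ n : ℚ[X]) = S n := by
      rw [hS]
      refine tsum_congr fun t => ?_
      rw [map_pow, aeval_X]
    rw [h2] at h1
    linarith
  have hmat : (Matrix.of fun i c : Fin K ⊕ Fin K =>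
      Sum.elim (fun j : Fin K => FA a Q z (X ^ (row i + j)))
        (fun j : Fin K => FB a Q b (X ^ (row i + j))) c).map (Rat.castHom ℝ) =
      (Matrix.of fun i c : Fin K ⊕ Fin K =>
        Sum.elim (fun j : Fin K => S (row i + j)) (fun j : Fin K => T (row i + j)) c) *
      Matrix.fromBlocks ((Q : ℝ) • (1 : Matrix (Fin K) (Fin K) ℝ)) 0
        ((-(zr 3 * Q)) • (1 : Matrix (Fin K) (Fin K) ℝ)) ((Q : ℝ) • 1) := by
    ext i c
    rw [Matrix.map_apply, Matrix.mul_apply, Fintype.sum_sum_type]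
    have hi := row_lt i
    rcases c with j | j
    · have hj := j.2
      simp only [Matrix.of_apply, Sum.elim_inl, Sum.elim_inr, Matrix.fromBlocks_apply₁₁,
        Matrix.fromBlocks_apply₂₁, Matrix.smul_apply, Matrix.one_apply, smul_eq_mul, mul_ite,
        mul_one, mul_zero, Finset.sum_ite_eq', Finset.mem_univ, if_true, Rat.coe_castHom]
      rw [hFA _ (by omega)]
      ring
    · simp only [Matrix.of_apply, Sum.elim_inl, Sum.elim_inr, Matrix.fromBlocks_apply₁₂,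
        Matrix.fromBlocks_apply₂₂, Matrix.smul_apply, Matrix.one_apply, smul_eq_mul, mul_ite,
        mul_one, mul_zero, Finset.sum_ite_eq', Finset.mem_univ, if_true, Rat.coe_castHom,
        Matrix.zero_apply, Finset.sum_const_zero, zero_add]
      rw [hFB]
      ring
  have hdet : ((hank2 (FA a Q z) (FB a Q b) K : ℚ) : ℝ) =
      Matrix.det ((Matrix.of fun i c : Fin K ⊕ Fin K =>
        Sum.elim (fun j : Fin K => FA a Q z (X ^ (row i + j)))
        (fun j : Fin K => FB a Q b (X ^ (row i + j))) c).map (Rat.castHom ℝ)) := by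
    rw [hank2, det2]
    exact RingHom.map_det (Rat.castHom ℝ) _
  rw [hdet, hmat, Matrix.det_mul, Matrix.det_fromBlocks_zero₁₂, Matrix.det_smul, Matrix.det_one,
    Fintype.card_fin, det2]
  ring

end DIM3
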