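import Pool.Agent.Lib.DIM3.Main
import Pool.Agent.Lib.DIM3.Rank
import Pool.Agent.Lib.DIM3.RealId
import Pool.Agent.Lib.DIM3.PSmall
import Pool.Agent.Lib.DIM3.PMid
import Pool.Agent.Lib.DIM3.PTwo
import Pool.Agent.Lib.DIM3.PBig
import Pool.Agent.Lib.DIM3.NonVan
import Pool.Agent.Lib.DIM3.LocalDet
import Pool.Agent.Lib.DIM3.PSum
import Pool.Agent.Lib.DIM3.Arch
import Pool.Agent.Lib.DIM3.Apery

/-!
# `dim_ℚ span(1, ζ(3), ζ(5), ζ(7), ζ(9)) ≥ 3`: assembly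
-/

open Finset Z579

namespace DIM3

lemma num_final : (-72966 : ℝ) + (((4 : ℕ) : ℝ) ^ 2 * (1624 * Real.log ((4 : ℕ) : ℝ) + 2284)) < 0 := by
  have h4 : Real.log ((4 : ℕ) : ℝ) = 2 * Real.log 2 := by
    have : ((4 : ℕ) : ℝ) = 2 ^ 2 := by norm_num
    rw [this, Real.log_pow]
    norm_num
  rw [h4]
  have := Real.log_two_lt_d9
  norm_num
  linarith

/-- not all of `ζ(5), ζ(7), ζ(9)` lie in `ℚ + ℚ ζ(3)` -/
theorem main : Main :=
  main_of (by norm_num) num_final realId archTot pSmall pMid pTwo1 pTwo2 pBig nonVan localDet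
    (psum 4 (by norm_num))

/-- the dimension statement (with Apery's theorem) -/
theorem finrank_ge :
    3 ≤ Module.finrank ℚ (Submodule.span ℚ ({1, zr 3, zr 5, zr 7, zr 9} : Set ℝ)) :=
  rank_of apery main

/-- one of `ζ(5), ζ(7), ζ(9)` is not in `ℚ + ℚ ζ(3)` -/
theorem not_mem_span : zr 5 ∉ Submodule.span ℚ ({1, zr 3} : Set ℝ) ∨
    zr 7 ∉ Submodule.span ℚ ({1, zr 3} : Set ℝ) ∨
    zr 9 ∉ Submodule.span ℚ ({1, zr 3} : Set ℝ) := by
  obtain ⟨s, hs, hns⟩ := not_mem_of_main main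
  rcases hs with rfl | rfl | rfl
  · exact Or.inl hns
  · exact Or.inr (Or.inl hns)
  · exact Or.inr (Or.inr hns)

end DIM3
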