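import Pool.Agent.Lib.DIM3.Defs
import Pool.Agent.Lib.Z579.Asm
import Pool.Agent.Lib.Z579.M4
import Pool.Agent.Lib.Z579.Local

/-!
# Assembly of the proof that `ζ(5), ζ(7), ζ(9)` do not all lie in `ℚ + ℚ ζ(3)`
-/

open Polynomial Finset Z579

namespace DIM3

section weights
variable {p : ℕ} [hp : Fact p.Prime]

lemma VG_wt_gen' {r a Q : ℕ} {z : ℕ → ℚ} (hQz : ∀ s, VG p 0 ((Q : ℚ) * z s)) {u : ℤ} {i : ℕ}
    {K : ℕ} (hK : Nat.log p (u + a - 1).toNat ≤ K) :
    VG p (-(((i : ℝ) + r) * K)) (wt r a Q z u i) := by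
  have h1 := m4c p (i + r) (u + a - 1).toNat hp.out
  have h2 : VG p (-(((i : ℝ) + r) * K)) (Hs (i + r) (u + a - 1).toNat) := by
    refine h1.mono ?_
    push_cast
    have h3 : (Nat.log p (u + a - 1).toNat : ℝ) ≤ K := by exact_mod_cast hK
    have h4 : (0 : ℝ) ≤ (i : ℝ) + r := by positivity
    have := mul_le_mul_of_nonneg_left h3 h4
    linarith
  have h3 : VG p (-(((i : ℝ) + r) * K)) ((Q : ℚ) * Hs (i + r) (u + a - 1).toNat) := by
    have := (VG.nat (p := p) Q).mul h2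
    simpa using this
  have h4 : VG p (-(((i : ℝ) + r) * K)) ((Q : ℚ) * z (i + r)) := by
    refine (hQz (i + r)).mono ?_
    have : (0 : ℝ) ≤ ((i : ℝ) + r) * K := by positivity
    linarith
  rw [wt, mul_sub]
  exact h4.sub h3

lemma VG_wt_one' {r a Q : ℕ} {z : ℕ → ℚ} (hQz : ∀ s, VG p 0 ((Q : ℚ) * z s)) {u : ℤ} {i : ℕ}
    (hu : u ∈ pc a) (ha : 2 * a ≤ p ^ 2) : VG p (-((i : ℝ) + r)) (wt r a Q z u i) := by
  rw [mem_pc] at hu
  have h1 : Nat.log p (u + a - 1).toNat ≤ 1 := by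
    by_cases h0 : (u + a - 1).toNat = 0
    · rw [h0]; simp
    · have h2 : (u + a - 1).toNat < p ^ 2 := by
        have h3 : ((u + a - 1).toNat : ℤ) < (p : ℤ) ^ 2 := by
          have h4 : (2 * (a : ℤ)) ≤ (p : ℤ) ^ 2 := by exact_mod_cast ha
          have h5 : (0 : ℤ) < (p : ℤ) ^ 2 := by have := hp.out.pos; positivity
          omega
        exact_mod_cast h3
      have := Nat.log_lt_of_lt_pow h0 h2
      omega
  have := VG_wt_gen' (r := r) (a := a) (i := i) hQz h1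
  simpa using this

end weights

lemma FA_smul (a Q : ℕ) (z : ℕ → ℚ) : FA a Q z = (Q : ℚ) • FA a 1 z := by
  rw [FA, FA, wt_eq, Lw_smul]

lemma FB_smul (a Q : ℕ) (b : ℕ → ℚ) : FB a Q b = (Q : ℚ) • FB a 1 b := by
  rw [FB, FB, ← Lw_smul]
  simp

lemma hank2_smul (LA LB : ℚ[X] →ₗ[ℚ] ℚ) (c : ℚ) (K : ℕ) :
    hank2 (c • LA) (c • LB) K = c ^ (2 * K) * hank2 LA LB K := by
  rw [hank2, hank2, det2, det2]
  have : (Matrix.of fun i j : Fin K ⊕ Fin K =>
      Sum.elim (fun j : Fin K => (c • LA) (X ^ (row i + (j : ℕ))))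
        (fun j : Fin K => (c • LB) (X ^ (row i + (j : ℕ)))) j) =
      c • (Matrix.of fun i j : Fin K ⊕ Fin K =>
      Sum.elim (fun j : Fin K => LA (X ^ (row i + (j : ℕ))))
        (fun j : Fin K => LB (X ^ (row i + (j : ℕ)))) j) := by
    ext i j
    rcases j with j | j <;> simp
  rw [this, Matrix.det_smul, Fintype.card_sum, Fintype.card_fin, two_mul]

lemma hank2_Q (a Q K : ℕ) (z b : ℕ → ℚ) :
    hank2 (FA a Q z) (FB a Q b) K = (Q : ℚ) ^ (2 * K) * hank2 (FA a 1 z) (FB a 1 b) K := by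
  rw [FA_smul, FB_smul, hank2_smul]

/-- a common denominator -/
lemma exists_den2 {z b : ℕ → ℚ} (h : Adm z b) :
    ∃ Q : ℕ, 1 ≤ Q ∧ (∀ s, ∃ k : ℤ, (Q : ℚ) * z s = k) ∧ (∀ s, ∃ k : ℤ, (Q : ℚ) * b s = k) ∧
      (∀ s, (z s).den ∣ Q) ∧ ∀ s, (b s).den ∣ Q := by
  have hz : ∀ s, 10 ≤ s → z s = 0 := fun s hs => h.zs s (by omega) (by omega) (by omega)
  have hb : ∀ s, 10 ≤ s → b s = 0 := fun s hs =>
    h.bs s (by omega) (by omega) (by omega) (by omega)
  set Q : ℕ := ∏ s ∈ Finset.range 10, ((z s).den * (b s).den) with hQ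
  have h1 : ∀ s, (z s).den ∣ Q := by
    intro s
    by_cases hs : s < 10
    · exact (Dvd.intro _ rfl).trans (Finset.dvd_prod_of_mem
        (fun s => (z s).den * (b s).den) (Finset.mem_range.2 hs))
    · rw [hz s (by omega)]; simp
  have h2 : ∀ s, (b s).den ∣ Q := by
    intro s
    by_cases hs : s < 10
    · exact (Dvd.intro_left _ rfl).trans (Finset.dvd_prod_of_mem
        (fun s => (z s).den * (b s).den) (Finset.mem_range.2 hs))
    · rw [hb s (by omega)]; simp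
  have h3 : ∀ x : ℚ, x.den ∣ Q → ∃ k : ℤ, (Q : ℚ) * x = k := by
    intro x hx
    obtain ⟨k, hk⟩ := hx
    refine ⟨k * x.num, ?_⟩
    rw [hk]
    push_cast
    have : (x.den : ℚ) * x = x.num := by
      rw [mul_comm]; exact Rat.mul_den_eq_num x
    linear_combination (k : ℚ) * this
  exact ⟨Q, Finset.prod_pos fun s _ => Nat.mul_pos (z s).den_pos (b s).den_pos,
    fun s => h3 _ (h1 s), fun s => h3 _ (h2 s), h1, h2⟩

lemma VG_of_den {p Q : ℕ} (hp : p.Prime) (hQ : 1 ≤ Q) (hpQ : Q < p) {x : ℚ} (hx : x.den ∣ Q) :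
    VG p 0 x := by
  haveI : Fact p.Prime := ⟨hp⟩
  by_cases h0 : x = 0
  · exact Or.inl h0
  · right
    have hnd : ¬ p ∣ x.den := by
      intro hd
      have := Nat.le_of_dvd hQ (hd.trans hx)
      omega
    have : 0 ≤ padicValRat p x := by
      rw [padicValRat_def, padicValNat.eq_zero_of_not_dvd hnd]
      simp
    exact_mod_cast this

lemma VG_npow {p : ℕ} (hp : p.Prime) (Q n : ℕ) : VG p 0 ((Q : ℚ) ^ n) := by
  haveI : Fact p.Prime := ⟨hp⟩
  have := VG.int (p := p) ((Q : ℤ) ^ n)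
  simpa using this

/-- the assembly -/
theorem main_of {m : ℕ} {A0 P0 : ℝ} (hm : 1 ≤ m) (hA : A0 + P0 < 0) (h1 : RealId)
    (h2 : ArchTot m A0) (h3 : PSmall) (h4 : PMid) (h5 : PTwo1) (h6 : PTwo2) (h7 : PBig)
    (h8 : NonVan) (h9 : LocalDet) (h10 : PSum m P0) : Main := by
  rintro ⟨z, b, hzb⟩
  obtain ⟨Q, hQ1, hQz, hQb, hQzd, hQbd⟩ := exists_den2 hzb.toAdm
  have hb2 : ∀ s, s ≤ 2 → b s = 0 := fun s hs =>
    hzb.bs s (by omega) (by omega) (by omega) (by omega)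
  have hVz : ∀ p : ℕ, p.Prime → ∀ s, VG p 0 ((Q : ℚ) * z s) := by
    intro p hp s
    haveI : Fact p.Prime := ⟨hp⟩
    obtain ⟨k, hk⟩ := hQz s
    rw [hk]
    exact VG.int k
  have hVb : ∀ p : ℕ, p.Prime → ∀ s, VG p 0 ((Q : ℚ) * b s) := by
    intro p hp s
    haveI : Fact p.Prime := ⟨hp⟩
    obtain ⟨k, hk⟩ := hQb s
    rw [hk]
    exact VG.int k
  set δ : ℝ := -(A0 + P0) / 4 with hδ
  have hδ0 : 0 < δ := by rw [hδ]; linarith
  obtain ⟨C, hC, h3'⟩ := h3
  obtain ⟨k10, h10'⟩ := h10 C δ hC hδ0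
  obtain ⟨k2, h2'⟩ := h2 b hb2 δ hδ0
  obtain ⟨p8, h8'⟩ := h8 h9 z b hzb.toAdm
  -- size of the term `2 K log Q`
  obtain ⟨kQ, hkQ⟩ : ∃ kQ : ℕ, ∀ k : ℕ, kQ ≤ k →
      2 * (14 * m * (k : ℝ) + 7) * Real.log Q ≤ k ^ 2 * δ := by
    have hlQ : 0 ≤ Real.log Q := Real.log_nonneg (by exact_mod_cast hQ1)
    obtain ⟨N, hN⟩ := exists_nat_ge (2 * (14 * m + 7) * Real.log Q / δ)
    refine ⟨N + 1, fun k hk => ?_⟩
    have hk1 : (1 : ℝ) ≤ k := by
      have : 1 ≤ k := by omega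
      exact_mod_cast this
    have hkN : (N : ℝ) ≤ k := by
      have : N ≤ k := by omega
      exact_mod_cast this
    have h1 : 2 * (14 * m + 7) * Real.log Q ≤ k * δ := by
      rw [div_le_iff₀ hδ0] at hN
      nlinarith
    have h2 : 2 * (14 * m * (k : ℝ) + 7) * Real.log Q ≤ k * (2 * (14 * m + 7) * Real.log Q) := by
      have hmm : (0 : ℝ) ≤ m := Nat.cast_nonneg m
      have : 14 * m * (k : ℝ) + 7 ≤ k * (14 * m + 7) := by nlinarith
      nlinarith
    nlinarith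
  obtain ⟨P, hP, hPlt, hPmod⟩ := Nat.exists_prime_gt_modEq_one (k := 2 * m)
    (p8 + 2 * m * (Q ^ 2 + k10 + k2 + kQ + 4) + 4) (by omega)
  obtain ⟨k, hk⟩ : ∃ k, P = 2 * m * k + 1 := by
    have h1 : 1 ≤ P := hP.one_lt.le
    obtain ⟨k, hk⟩ := (Nat.modEq_iff_dvd' h1).1 hPmod.symm
    exact ⟨k, by omega⟩
  have hkb : Q ^ 2 + k10 + k2 + kQ + 4 ≤ k := by
    by_contra hcc
    push Not at hcc
    have : 2 * m * k ≤ 2 * m * (Q ^ 2 + k10 + k2 + kQ + 4) :=
      Nat.mul_le_mul_left _ hcc.le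
    omega
  have hmk : 1 * k ≤ m * k := Nat.mul_le_mul_right k hm
  set a := pa m k with ha
  set K := pK m k with hK
  have haP : 2 * a = 5 * P + 1 := by rw [ha, pa, hk]; ring
  have hKP : K = 7 * P := by rw [hK, pK, hk]; ring
  have ha1 : 1 ≤ a := by omega
  have hkP : 2 * k < P := by
    rw [hk]
    nlinarith
  have hQP : Q ^ 2 < 2 * a := by omega
  -- nonvanishing
  have hne1 : hank2 (FA a 1 z) (FB a 1 b) K ≠ 0 := by
    rw [hKP]
    exact h8' P a hP (by omega) haP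
  set D : ℚ := hank2 (FA a Q z) (FB a Q b) K with hD
  have hDeq : D = (Q : ℚ) ^ (2 * K) * hank2 (FA a 1 z) (FB a 1 b) K := hank2_Q _ _ _ _ _
  have hQ0 : (Q : ℚ) ≠ 0 := by
    have : Q ≠ 0 := by omega
    exact_mod_cast this
  have hD0 : D ≠ 0 := by
    rw [hDeq]
    exact mul_ne_zero (pow_ne_zero _ hQ0) hne1
  -- archimedean bound
  have hlogD : Real.log |((D : ℚ) : ℝ)| ≤
      k ^ 2 * (-(1624 * m ^ 2) * Real.log k + A0 + 2 * δ) := by
    have h11 := h2' k (by omega)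
    have h12 := h1 a Q K z b hzb ha1 (by omega)
    rw [← hD] at h12
    have hDpos : 0 < |((D : ℚ) : ℝ)| := by
      rw [abs_pos]; exact_mod_cast hD0
    have hQr : (0 : ℝ) < Q := by
      have : 0 < Q := by omega
      exact_mod_cast this
    have hle : |((D : ℚ) : ℝ)| ≤ (Q : ℝ) ^ (2 * K) *
        Real.exp (k ^ 2 * (-(1624 * m ^ 2) * Real.log k + A0 + δ)) := by
      rw [h12, abs_mul, abs_of_nonneg (by positivity : (0 : ℝ) ≤ (Q : ℝ) ^ (2 * K))]
      exact mul_le_mul_of_nonneg_left h11 (by positivity)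
    have hlog := Real.log_le_log hDpos hle
    rw [Real.log_mul (by positivity) (Real.exp_pos _).ne', Real.log_exp, Real.log_pow] at hlog
    have hq := hkQ k (by omega)
    have hKr : (K : ℝ) = 14 * m * k + 7 := by rw [hK, pK]; push_cast; ring
    have e1 : ((2 * K : ℕ) : ℝ) * Real.log Q = 2 * (14 * m * (k : ℝ) + 7) * Real.log Q := by
      push_cast
      rw [hKr]
    rw [e1] at hlog
    have e2 : (k : ℝ) ^ 2 * (-(1624 * m ^ 2) * Real.log k + A0 + 2 * δ) =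
      k ^ 2 * (-(1624 * m ^ 2) * Real.log k + A0 + δ) + k ^ 2 * δ := by ring
    linarith
  -- valuations with `Q = 1` transfer to `D`
  have htr : ∀ p : ℕ, p.Prime → ∀ t : ℝ, VG p t (hank2 (FA a 1 z) (FB a 1 b) K) → VG p t D := by
    intro p hp t ht
    haveI : Fact p.Prime := ⟨hp⟩
    rw [hDeq]
    have := (VG_npow hp Q (2 * K)).mul ht
    simpa using this
  have hbig : ∀ p : ℕ, p.Prime → 2 * a ≤ p ^ 2 → (∀ s, VG p 0 (z s)) ∧ ∀ s, VG p 0 (b s) := by
    intro p hp h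
    have hlt : Q < p := by
      by_contra hcc
      push Not at hcc
      have := Nat.pow_le_pow_left hcc 2
      omega
    exact ⟨fun s => VG_of_den hp hQ1 hlt (hQzd s), fun s => VG_of_den hp hQ1 hlt (hQbd s)⟩
  have hp2a : ∀ p : ℕ, 2 * a - 1 < p → 2 * a ≤ p ^ 2 := by
    intro p h
    have h1 : 2 * a ≤ p := by omega
    have h2 : p * 1 ≤ p * p := Nat.mul_le_mul_left p (by omega)
    nlinarith
  have hden := log_abs_ge D hD0 (2 * a - 1) (by
    intro p hp hpa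
    obtain ⟨hz0, hb0⟩ := hbig p hp (hp2a p hpa)
    exact htr p hp 0 (h7 p a K z b hp ha1 (by omega) hzb.toAdm hz0 hb0))
  have har : (a : ℝ) = 5 * m * k + 3 := by rw [ha, pa]; push_cast; ring
  have hKr : (K : ℝ) = 14 * m * k + 7 := by rw [hK, pK]; push_cast; ring
  have hEnn : (0 : ℝ) ≤ 40 * a * K - 6 * (K : ℝ) ^ 2 := by
    rw [har, hKr]
    have h1 : (0 : ℝ) ≤ (m : ℝ) * k := by positivity
    nlinarith
  have hpadic := h10' k (by omega) a K rfl rfl (fun p => (D.den.factorization p : ℝ)) ?_ ?_ ?_ ?_ ?_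
  · have h13 : (0 : ℝ) < (k : ℝ) ^ 2 := by
      have : 0 < k := by omega
      have : (0 : ℝ) < k := by exact_mod_cast this
      positivity
    have h14 : (k : ℝ) ^ 2 * (-(1624 * m ^ 2) * Real.log k + A0 + 2 * δ) +
        k ^ 2 * (1624 * m ^ 2 * Real.log k + P0 + δ) = k ^ 2 * (A0 + P0 + 3 * δ) := by ring
    have h15 : A0 + P0 + 3 * δ < 0 := by rw [hδ]; linarith
    have h16 := mul_neg_of_pos_of_neg h13 h15
    linarith
  · -- small primes
    intro p hp hp2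
    haveI : Fact p.Prime := ⟨hp⟩
    have hp1 : (0 : ℝ) < (p : ℝ) - 1 := by
      have : (1 : ℝ) < p := by exact_mod_cast hp.one_lt
      linarith
    refine fact_le_of_VG hp hD0 (by positivity) ?_
    refine h3' p a K _ _ hp ha1 (by omega) ?_ ?_
    · intro u hu i _ _
      have := VG_wt_gen' (r := 0) (a := a) (i := i) (u := u) (hVz p hp)
        (K := Nat.log p (4 * (a + K))) (by
          apply Nat.log_mono_right
          rw [mem_pc] at hu
          omega)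
      simpa using this
    · intro u hu i _ _
      exact (hVb p hp i).mono (by
        have : (0 : ℝ) ≤ (i : ℝ) * (Nat.log p (4 * (a + K)) : ℕ) := by positivity
        linarith)
  · -- middle primes
    intro p hp hp2 hp3
    haveI : Fact p.Prime := ⟨hp⟩
    have hp0 : (0 : ℝ) < (p : ℝ) := by exact_mod_cast hp.pos
    have hpa : 3 * (p : ℝ) ≤ 10 * m * k + 5 := by
      have h1 : 3 * p + 1 ≤ 2 * a := by omega
      have h2 : 3 * (p : ℝ) + 1 ≤ 2 * a := by exact_mod_cast h1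
      rw [har] at h2
      linarith
    have hnn : (0 : ℝ) ≤ (40 * a * K - 6 * (K : ℝ) ^ 2) / p - K := by
      rw [sub_nonneg, le_div_iff₀ hp0, har, hKr]
      have h1 : (0 : ℝ) ≤ (m : ℝ) * k := by positivity
      nlinarith
    have hmod : (((2 * a - 1) % p : ℕ) : ℝ) ≤ p := by
      exact_mod_cast (Nat.mod_lt _ hp.pos).le
    refine fact_le_of_VG hp hD0 (by
      have h1 : (0 : ℝ) ≤ (((2 * a - 1) % p : ℕ) : ℝ) * (p - ((2 * a - 1) % p : ℕ)) / p :=
        div_nonneg (mul_nonneg (Nat.cast_nonneg _) (by linarith)) hp0.le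
      have h2 : (0 : ℝ) ≤ (6 * (K : ℝ) / p + 10) ^ 2 := sq_nonneg _
      linarith) ?_
    have hpne : p ≠ 2 := by
      rintro rfl
      omega
    refine h4 p a K _ _ hp hpne ha1 (by omega) hp2 ?_ ?_ ?_
    · intro u hu i _ _
      have := VG_wt_one' (r := 0) (i := i) (hVz p hp) hu hp2
      simpa using this
    · intro u hu i _ _
      exact hVb p hp i
    · intro u hu i hi
      rw [hb2 i hi, mul_zero]
  · intro p hp hp2 hp3
    haveI : Fact p.Prime := ⟨hp⟩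
    have hsq : 2 * a ≤ p ^ 2 := by
      have h31 : 3 ≤ p := by omega
      have h32 : p * 3 ≤ p * p := Nat.mul_le_mul_left p h31
      rw [pow_two]
      omega
    obtain ⟨hz0, hb0⟩ := hbig p hp hsq
    have hpne : p ≠ 2 := by
      rintro rfl
      omega
    refine fact_le_of_VG hp hD0 ?_ (htr p hp _ (h5 p a K z b hp hpne hp2 hp3 hsq hzb.toAdm hz0 hb0))
    have h1 : (p : ℝ) ≤ a := by exact_mod_cast hp3.le
    have h2 : (2 * (a : ℝ)) ≤ 3 * p + 1 := by
      have : 2 * a ≤ 3 * p + 1 := by omega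
      exact_mod_cast this
    have h3 : (0 : ℝ) ≤ K := Nat.cast_nonneg K
    linarith
  · intro p hp hp2 hp3
    haveI : Fact p.Prime := ⟨hp⟩
    have hsq : 2 * a ≤ p ^ 2 := by nlinarith
    obtain ⟨hz0, hb0⟩ := hbig p hp hsq
    have hpne : p ≠ 2 := by
      rintro rfl
      omega
    refine fact_le_of_VG hp hD0 ?_
      (htr p hp _ (h6 p a K z b hp hpne hp2 hp3 hsq hzb.toAdm hz0 hb0).1)
    have h1 : (p : ℝ) + 1 ≤ 2 * a := by
      have : p + 1 ≤ 2 * a := by omega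
      exact_mod_cast this
    have h3 : (0 : ℝ) ≤ K := Nat.cast_nonneg K
    linarith
  · intro p hp hp2 hp3
    haveI : Fact p.Prime := ⟨hp⟩
    have hsq : 2 * a ≤ p ^ 2 := by nlinarith
    obtain ⟨hz0, hb0⟩ := hbig p hp hsq
    have hpne : p ≠ 2 := by
      rintro rfl
      omega
    refine fact_le_of_VG hp hD0 ?_
      (htr p hp _ (h6 p a K z b hp hpne hp2 hp3 hsq hzb.toAdm hz0 hb0).2)
    have h1 : (p : ℝ) + 1 ≤ 2 * a := by
      have : p + 1 ≤ 2 * a := by omega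
      exact_mod_cast this
    linarith

end DIM3
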