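import Pool.Agent.Lib.Z579.MertUB

/-!
# Mertens type upper bound, constant `0.57719` (`γ = 0.577215...`)
-/

open Filter Topology Finset MeasureTheory

namespace Z579

namespace EM

lemma log_succ_le (j : ℕ) (hj : 1 ≤ j) :
    Real.log ((j : ℝ) + 1) - Real.log j ≤ 1 / 2 * (1 / (j : ℝ) + 1 / ((j : ℝ) + 1)) := by
  have hj' : (1 : ℝ) ≤ j := by exact_mod_cast hj
  have hj0 : (0 : ℝ) < j := by linarith
  rw [← Real.log_div (by linarith) hj0.ne']
  have h1 : 0 < ((j : ℝ) + 1) / j := by positivity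
  have h2 : 0 ≤ Real.log (((j : ℝ) + 1) / j) := by
    apply Real.log_nonneg
    rw [le_div_iff₀ hj0]
    linarith
  have h3 := (Real.self_le_sinh_iff (x := Real.log (((j : ℝ) + 1) / j))).mpr h2
  rw [Real.sinh_log h1] at h3
  refine h3.trans (le_of_eq ?_)
  field_simp
  ring

lemma cK_succ (K : ℕ) (hK : 1 ≤ K) :
    cK K + 1 / (2 * (K : ℝ)) - 1 / (2 * ((K + 1 : ℕ) : ℝ)) ≤ cK (K + 1) := by
  have hK' : (1 : ℝ) ≤ K := by exact_mod_cast hK
  have hK0 : (0 : ℝ) < K := by linarith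
  have h := log_succ_le K hK
  unfold cK
  rw [Finset.sum_range_succ]
  push_cast
  have e1 : 1 / 2 * (1 / (K : ℝ) + 1 / ((K : ℝ) + 1)) = 1 / (K : ℝ) -
      (1 / (2 * (K : ℝ)) - 1 / (2 * ((K : ℝ) + 1))) := by
    field_simp
    ring
  rw [e1] at h
  linarith

lemma cK_mono (K L : ℕ) (hK : 1 ≤ K) (hL : K ≤ L) :
    cK K + 1 / (2 * (K : ℝ)) - 1 / (2 * (L : ℝ)) ≤ cK L := by
  induction L, hL using Nat.le_induction with
  | base => linarith
  | succ L hL ih =>
    have := cK_succ L (hK.trans hL)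
    linarith

/-- Mertens type upper bound with the Euler-Maclaurin constant -/
theorem mertensUB_EM (K : ℕ) (hK : 1 ≤ K) : MertensUB (cK K + 1 / (2 * (K : ℝ))) := by
  intro ε hε
  obtain ⟨L0, hL0⟩ := exists_nat_gt (1 / ε)
  set L := max K L0 with hL
  have hKL : K ≤ L := le_max_left _ _
  have hL1 : 1 ≤ L := hK.trans hKL
  have hL' : (1 : ℝ) ≤ L := by exact_mod_cast hL1
  have hLε : 1 / ε < L := hL0.trans_le (by exact_mod_cast le_max_right _ _)
  have h1 : 1 / (2 * (L : ℝ)) ≤ ε / 2 := by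
    rw [div_lt_iff₀ hε] at hLε
    rw [div_le_div_iff₀ (by linarith) (by norm_num)]
    nlinarith
  obtain ⟨n₀, hn₀⟩ := mertensUB_cK L hL1 (ε / 2) (by linarith)
  refine ⟨n₀, fun n hn => (hn₀ n hn).trans ?_⟩
  have := cK_mono K L hK hKL
  linarith

lemma cK_64' : (57719 / 100000 : ℝ) ≤ cK 64 + 1 / (2 * ((64 : ℕ) : ℝ)) := by
  unfold cK
  have h8 : Real.log ((64 : ℕ) : ℝ) = 6 * Real.log 2 := by
    rw [show (((64 : ℕ) : ℝ)) = 2 ^ 6 by norm_num, Real.log_pow]; norm_num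
  rw [h8]
  have h9 := Real.log_two_lt_d9
  have h10 : (4743890 / 1000000 : ℝ) ≤ ∑ i ∈ range 64, 1 / ((i : ℝ) + 1) := by
    simp only [Finset.sum_range_succ, Finset.sum_range_zero]
    norm_num
  push_cast
  linarith

/-- Mertens type upper bound with the constant `0.57719` -/
theorem mertens57719 : MertensUB (57719 / 100000) :=
  (mertensUB_EM 64 (by norm_num)).mono cK_64'

end EM

end Z579
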