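import Pool.Agent.Lib.DIM3.Defs
import Pool.Agent.Lib.Z579.M8c

/-!
# D6, part 1: local coefficients at the classes with five poles
-/

open Polynomial Finset Z579

namespace DIM3

section
variable {p : ℕ} [hp : Fact p.Prime]

/-- `locR` modulo `p` -/
noncomputable def locRp (p : ℕ) [Fact p.Prime] (S : Finset ℤ) (j : ℤ) : PowerSeries (ZMod p) :=
  ((∏ i ∈ S.erase j, linp p (i - j))⁻¹) ^ 10

/-- `locF` modulo `p` -/
noncomputable def locFp (p : ℕ) [Fact p.Prime] (S : Finset ℤ) (j : ℤ) : PowerSeries (ZMod p) :=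
  ∑ i ∈ S.filter (· < j), (linp p (i - j))⁻¹ - ∑ i ∈ S.filter (j < ·), (linp p (i - j))⁻¹

lemma Red_sum {ι : Type*} (s : Finset ι) (f : ι → PowerSeries ℚ) (g : ι → PowerSeries (ZMod p))
    (h : ∀ i ∈ s, Red p (f i) (g i)) : Red p (∑ i ∈ s, f i) (∑ i ∈ s, g i) := by
  intro n
  rw [map_sum, map_sum]
  exact red_sum _ _ _ fun i hi => h i hi n

lemma Red_sub {f f' : PowerSeries ℚ} {g g' : PowerSeries (ZMod p)} (h : Red p f g)
    (h' : Red p f' g') : Red p (f - f') (g - g') := by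
  intro n
  rw [map_sub, map_sub]
  exact red_sub (h n) (h' n)

lemma Red_lin_inv {c : ℤ} (hc : (c : ZMod p) ≠ 0) : Red p (lin c)⁻¹ (linp p c)⁻¹ :=
  Red_inv (Red_lin c) (by rw [constantCoeff_linp]; exact hc)

lemma Red_locR {S : Finset ℤ} {j : ℤ} (hS : ∀ i ∈ S, i ≠ j → ((i - j : ℤ) : ZMod p) ≠ 0) :
    Red p (locR S j) (locRp p S j) := by
  refine Red_pow (Red_inv (Red_prod _ _ _ fun i _ => Red_lin _) ?_) 10
  rw [map_prod]
  refine Finset.prod_ne_zero_iff.2 fun i hi => ?_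
  rw [constantCoeff_linp]
  rw [Finset.mem_erase] at hi
  exact hS i hi.2 hi.1

lemma Red_locF {S : Finset ℤ} {j : ℤ} (hS : ∀ i ∈ S, i ≠ j → ((i - j : ℤ) : ZMod p) ≠ 0) :
    Red p (locF S j) (locFp p S j) := by
  refine Red_sub (Red_sum _ _ _ fun i hi => ?_) (Red_sum _ _ _ fun i hi => ?_)
  · rw [Finset.mem_filter] at hi
    exact Red_lin_inv (hS i hi.1 (ne_of_lt hi.2))
  · rw [Finset.mem_filter] at hi
    exact Red_lin_inv (hS i hi.1 (ne_of_gt hi.2))

/-- local inverse product at a pole of a class -/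
lemma inv_cls {a : ℕ} {S O : Finset ℤ} {e j : ℤ} (hj : j ∈ S)
    (hpc : pc a = S.image (fun i => e + i * p) ∪ O)
    (hdis : Disjoint (S.image (fun i => e + i * p)) O)
    (hS : ∀ i ∈ S, i ≠ j → ((i - j : ℤ) : ZMod p) ≠ 0)
    (hO : ∀ w ∈ O, ((w - (e + j * p) : ℤ) : ZMod p) ≠ 0) :
    ∃ F : PowerSeries ℚ,
      PowerSeries.rescale (p : ℚ) ((∏ w ∈ (pc a).erase (e + j * p), lin (w - (e + j * p)))⁻¹) =
        PowerSeries.C (((p : ℚ)⁻¹) ^ (S.erase j).card) * F ∧
      Red p F ((∏ i ∈ S.erase j, linp p (i - j))⁻¹ *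
        PowerSeries.C ((∏ w ∈ O, ((w - (e + j * p) : ℤ) : ZMod p))⁻¹)) := by
  classical
  have hp0 : (p : ℚ) ≠ 0 := by exact_mod_cast hp.out.ne_zero
  have hpz : (p : ℤ) ≠ 0 := by exact_mod_cast hp.out.ne_zero
  have hinj : Function.Injective (fun i : ℤ => e + i * p) := by
    intro x y hxy
    have : x * (p : ℤ) = y * p := by simpa using hxy
    exact mul_right_cancel₀ hpz this
  have hne : PowerSeries.constantCoeff
      (∏ w ∈ (pc a).erase (e + j * p), lin (w - (e + j * p))) ≠ 0 :=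
    constantCoeff_prod_lin_ne fun w hw => (Finset.mem_erase.1 hw).1
  have hjO : e + j * p ∉ O := by
    intro h
    have h2 : e + j * p ∈ S.image (fun i => e + i * (p : ℤ)) := Finset.mem_image_of_mem _ hj
    exact (Finset.disjoint_left.1 hdis) h2 h
  have her : (pc a).erase (e + j * p) = (S.erase j).image (fun i => e + i * p) ∪ O := by
    rw [hpc, Finset.erase_union_distrib, Finset.erase_eq_of_notMem hjO,
      Finset.image_erase hinj S j]
  have hdis2 : Disjoint ((S.erase j).image (fun i => e + i * (p : ℤ))) O :=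
    hdis.mono_left (Finset.image_subset_image (Finset.erase_subset _ _))
  set Pi : PowerSeries ℚ := ∏ w ∈ O, PowerSeries.rescale (p : ℚ) (lin (w - (e + j * p)))
    with hPi
  refine ⟨(∏ i ∈ S.erase j, lin (i - j))⁻¹ * Pi⁻¹, ?_, ?_⟩
  · rw [rescale_inv _ _ hne, map_prod, her, Finset.prod_union hdis2,
      Finset.prod_image (fun x _ y _ h => hinj h), ← hPi]
    have h1 : ∏ x ∈ S.erase j, PowerSeries.rescale (p : ℚ) (lin (e + x * p - (e + j * p))) =
        PowerSeries.C ((p : ℚ) ^ (S.erase j).card) * ∏ i ∈ S.erase j, lin (i - j) := by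
      have h2 : ∀ x ∈ S.erase j, PowerSeries.rescale (p : ℚ) (lin (e + x * p - (e + j * p))) =
          PowerSeries.C (p : ℚ) * lin (x - j) := by
        intro x _
        exact resc_lin_p _ (by ring)
      rw [Finset.prod_congr rfl h2, Finset.prod_mul_distrib, Finset.prod_const, map_pow]
    rw [h1, PowerSeries.mul_inv_rev, PowerSeries.mul_inv_rev, PowerSeries.C_inv, inv_pow]
    ring
  · have hRi : Red p Pi (PowerSeries.C (∏ w ∈ O, ((w - (e + j * p) : ℤ) : ZMod p))) := by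
      rw [map_prod]
      exact Red_prod _ _ _ fun w _ => Red_resc_lin _
    have hRi' : Red p Pi⁻¹ (PowerSeries.C ((∏ w ∈ O, ((w - (e + j * p) : ℤ) : ZMod p))⁻¹)) := by
      rw [← PowerSeries.C_inv]
      refine Red_inv hRi ?_
      rw [PowerSeries.constantCoeff_C]
      exact Finset.prod_ne_zero_iff.2 hO
    refine Red_mul (Red_inv (Red_prod _ _ _ fun i _ => Red_lin _) ?_) hRi'
    rw [map_prod]
    refine Finset.prod_ne_zero_iff.2 fun i hi => ?_
    rw [constantCoeff_linp]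
    rw [Finset.mem_erase] at hi
    exact hS i hi.2 hi.1

/-- from rescaled expansion to coefficients -/
lemma Acoef_of_resc {a : ℕ} {u : ℤ} {G : ℚ[X]} {E : ℤ} {F : PowerSeries ℚ}
    {f : PowerSeries (ZMod p)}
    (h : PowerSeries.rescale (p : ℚ) (base 10 0 a a u * Polynomial.aeval (lin (-u) ^ 2) G) =
      PowerSeries.C ((p : ℚ) ^ (E - 40)) * F) (hF : Red p F f) {i : ℕ} (hi : i ≤ 10) :
    ∃ x : ℚ, Acoef 10 0 a a u i G = (p : ℚ) ^ (E + i - 50) * x ∧
      red p x (PowerSeries.coeff (10 - i) f) := by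
  have hp0 : (p : ℚ) ≠ 0 := by exact_mod_cast hp.out.ne_zero
  refine ⟨PowerSeries.coeff (10 - i) F, ?_, hF _⟩
  rw [Acoef_apply]
  have h3 := congrArg (PowerSeries.coeff (10 - i)) h
  rw [PowerSeries.coeff_rescale, PowerSeries.coeff_C_mul] at h3
  have h4 : (p : ℚ) ^ (10 - i) ≠ 0 := pow_ne_zero _ hp0
  refine mul_left_cancel₀ h4 ?_
  rw [h3, ← mul_assoc, ← zpow_natCast (p : ℚ) (10 - i), ← zpow_add₀ hp0]
  congr 2
  push_cast [hi]
  ring

/-- noncentral class: expansion of `base` times the adapted polynomial -/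
lemma resc_N {a : ℕ} {D S O : Finset ℤ} {n : ℤ → ℕ} {c j : ℤ} (hc : c ∈ D) (hj : j ∈ S)
    (hcard : (S.erase j).card = 4)
    (hpc : pc a = S.image (fun i => c + i * p) ∪ O)
    (hdis : Disjoint (S.image (fun i => c + i * p)) O)
    (hS : ∀ i ∈ S, i ≠ j → ((i - j : ℤ) : ZMod p) ≠ 0)
    (hO : ∀ w ∈ O, ((w - c : ℤ) : ZMod p) ≠ 0) :
    ∃ F : PowerSeries ℚ,
      PowerSeries.rescale (p : ℚ) (base 10 0 a a (c + j * p) *
        Polynomial.aeval (lin (-(c + j * p)) ^ 2) (PolyN D n)) =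
        PowerSeries.C ((p : ℚ) ^ ((n c : ℤ) - 40)) * F ∧
      Red p F (PowerSeries.C (2 * (-(c : ZMod p)) * ((∏ w ∈ O, ((w : ZMod p) - c))⁻¹) ^ 10 *
          ((-2 * (c : ZMod p)) ^ (n c) * ∏ d ∈ D.erase c, ((c : ZMod p) ^ 2 - d ^ 2) ^ (n d))) *
        (locRp p S j * linp p (-j) ^ (n c))) := by
  have hp0 : (p : ℚ) ≠ 0 := by exact_mod_cast hp.out.ne_zero
  have hcc : ∀ w : ℤ, ((w - (c + j * p) : ℤ) : ZMod p) = (w : ZMod p) - c := by
    intro w; push_cast; simp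
  obtain ⟨F1, hF1, hR1⟩ := inv_cls (p := p) hj hpc hdis hS (fun w hw => by
    rw [hcc]; have := hO w hw; push_cast at this; exact this)
  obtain ⟨F2, hF2, hR2⟩ := aeval_two (p := p) (D := D) (n := n) (c := c) (u := c + j * p)
    (l0 := -j) hc (by ring)
  refine ⟨(2 * PowerSeries.rescale (p : ℚ) (lin (-(c + j * p))) * F1 ^ 10) * F2, ?_, ?_⟩
  · rw [map_mul, hF2, base, pow_zero, mul_one, map_mul, map_mul, map_pow, hF1, hcard]
    have h3 : PowerSeries.rescale (p : ℚ) (2 : PowerSeries ℚ) = 2 := map_ofNat _ 2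
    rw [h3]
    have h4 : PowerSeries.C ((p : ℚ) ^ ((n c : ℤ) - 40)) =
        PowerSeries.C (((p : ℚ)⁻¹) ^ 4) ^ 10 * PowerSeries.C ((p : ℚ) ^ n c) := by
      rw [← map_pow, ← map_mul]
      congr 1
      rw [zpow_sub₀ hp0, zpow_natCast, ← pow_mul, inv_pow, div_eq_mul_inv, mul_comm]
      norm_cast
    rw [h4]
    ring
  · have hA := Red_mul (Red_mul (Red_mul (Red_two (p := p)) (Red_resc_lin (p := p) (-(c + j * p))))
      (Red_pow hR1 10)) hR2
    have e1 : ((-(c + j * p) : ℤ) : ZMod p) = -(c : ZMod p) := by push_cast; simp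
    have e2 : ∏ w ∈ O, ((w - (c + j * p) : ℤ) : ZMod p) = ∏ w ∈ O, ((w : ZMod p) - c) :=
      Finset.prod_congr rfl fun w _ => hcc w
    have e3 : ((-(c + j * p) - c : ℤ) : ZMod p) = -2 * (c : ZMod p) := by
      push_cast; simp; ring
    have e4 : ∏ d ∈ D.erase c, (((-(c + j * p) - d) * (-(c + j * p) + d) : ℤ) : ZMod p) ^ (n d) =
        ∏ d ∈ D.erase c, ((c : ZMod p) ^ 2 - d ^ 2) ^ (n d) := by
      refine Finset.prod_congr rfl fun d _ => ?_
      congr 1
      push_cast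
      simp
      ring
    rw [e1, e2, e3, e4] at hA
    convert hA using 1
    rw [locRp]
    simp only [map_mul, map_pow, mul_pow]
    ring

/-- central class -/
lemma resc_C {a : ℕ} {D S O : Finset ℤ} {n : ℤ → ℕ} {j : ℤ} (h0 : (0 : ℤ) ∈ D) (hj : j ∈ S)
    (hcard : (S.erase j).card = 4)
    (hpc : pc a = S.image (fun i => (0 : ℤ) + i * p) ∪ O)
    (hdis : Disjoint (S.image (fun i => (0 : ℤ) + i * p)) O)
    (hS : ∀ i ∈ S, i ≠ j → ((i - j : ℤ) : ZMod p) ≠ 0)
    (hO : ∀ w ∈ O, ((w : ℤ) : ZMod p) ≠ 0) :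
    ∃ F : PowerSeries ℚ,
      PowerSeries.rescale (p : ℚ) (base 10 0 a a (0 + j * p) *
        Polynomial.aeval (lin (-(0 + j * p)) ^ 2) (PolyN D n)) =
        PowerSeries.C ((p : ℚ) ^ ((2 * n 0 + 1 : ℤ) - 40)) * F ∧
      Red p F (PowerSeries.C (((∏ w ∈ O, (w : ZMod p))⁻¹) ^ 10 *
          (∏ d ∈ D.erase 0, (-(d : ZMod p) ^ 2) ^ (n d))) *
        (2 * linp p (-j) * locRp p S j * (linp p (-j) ^ 2) ^ (n 0))) := by
  have hp0 : (p : ℚ) ≠ 0 := by exact_mod_cast hp.out.ne_zero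
  have hcc : ∀ w : ℤ, ((w - (0 + j * p) : ℤ) : ZMod p) = (w : ZMod p) := by
    intro w; push_cast; simp
  obtain ⟨F1, hF1, hR1⟩ := inv_cls (p := p) hj hpc hdis hS (fun w hw => by
    rw [hcc]; exact hO w hw)
  have hlin : PowerSeries.rescale (p : ℚ) (lin (-(0 + j * p))) =
      PowerSeries.C (p : ℚ) * lin (-j) := resc_lin_p _ (by ring)
  set P : PowerSeries ℚ := ∏ d ∈ D.erase 0, (PowerSeries.rescale (p : ℚ) (lin (-(0 + j * p) - d)) *
        PowerSeries.rescale (p : ℚ) (lin (-(0 + j * p) + d))) ^ (n d) with hP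
  have hae : PowerSeries.rescale (p : ℚ)
      (Polynomial.aeval (lin (-(0 + j * p)) ^ 2) (PolyN D n)) =
      (PowerSeries.C (p : ℚ) * lin (-j)) ^ (2 * n 0) * P := by
    rw [PolyN, map_prod, map_prod, ← Finset.mul_prod_erase _ _ h0]
    congr 1
    · rw [map_pow, map_pow, aeval_lin_sq, map_mul, sub_zero, add_zero, hlin, pow_mul]
      congr 1
      ring
    · refine Finset.prod_congr rfl fun d _ => ?_
      rw [map_pow, map_pow, aeval_lin_sq, map_mul]
  have hRP : Red p P (PowerSeries.C (∏ d ∈ D.erase 0, (-(d : ZMod p) ^ 2) ^ (n d))) := by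
    rw [map_prod]
    refine Red_prod _ _ _ fun d _ => ?_
    rw [map_pow]
    refine Red_pow ?_ _
    have := Red_mul (Red_resc_lin (p := p) (-(0 + j * p) - d))
      (Red_resc_lin (p := p) (-(0 + j * p) + d))
    rw [← map_mul (PowerSeries.rescale (p : ℚ)), ← map_mul (PowerSeries.C)] at this
    rw [← map_mul (PowerSeries.rescale (p : ℚ))]
    convert this using 2
    push_cast
    simp
    ring
  refine ⟨(2 * lin (-j) * F1 ^ 10) * (lin (-j) ^ (2 * n 0) * P), ?_, ?_⟩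
  · rw [map_mul, hae, base, pow_zero, mul_one, map_mul, map_mul, map_pow, hF1, hcard, hlin]
    have h3 : PowerSeries.rescale (p : ℚ) (2 : PowerSeries ℚ) = 2 := map_ofNat _ 2
    rw [h3]
    have h4 : PowerSeries.C ((p : ℚ) ^ ((2 * n 0 + 1 : ℤ) - 40)) =
        PowerSeries.C (p : ℚ) * PowerSeries.C (((p : ℚ)⁻¹) ^ 4) ^ 10 *
          PowerSeries.C (p : ℚ) ^ (2 * n 0) := by
      rw [← map_pow, ← map_pow, ← map_mul, ← map_mul]
      congr 1
      have h5 : ((2 * n 0 + 1 : ℤ) - 40) = ((2 * n 0 + 1 : ℕ) : ℤ) - (40 : ℕ) := by push_cast; ring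
      rw [h5, zpow_sub₀ hp0, zpow_natCast, zpow_natCast, ← pow_mul, inv_pow, div_eq_mul_inv,
        pow_succ]
      ring
    rw [h4, mul_pow]
    ring
  · have hl : Red p (lin (-j)) (linp p (-j)) := Red_lin _
    have hA := Red_mul (Red_mul (Red_mul (Red_two (p := p)) hl) (Red_pow hR1 10))
      (Red_mul (Red_pow hl (2 * n 0)) hRP)
    have e2 : ∏ w ∈ O, ((w - (0 + j * p) : ℤ) : ZMod p) = ∏ w ∈ O, (w : ZMod p) :=
      Finset.prod_congr rfl fun w _ => hcc w
    rw [e2] at hA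
    convert hA using 1
    have h2 : (PowerSeries.C (2 : ZMod p)) = (2 : PowerSeries (ZMod p)) := map_ofNat _ 2
    rw [locRp, h2]
    simp only [map_mul, map_pow, mul_pow, ← pow_mul]
    ring

end

end DIM3
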