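import Pool.Agent.Lib.DIM3.NV2

/-!
# D6, part 3: entries of the scaled matrix modulo `p`
-/

open Polynomial Finset Z579

namespace DIM3

section
variable {p : ℕ} [hp : Fact p.Prime]

omit hp in
lemma coeff_nine_mul {R : Type*} [CommRing R] (V f : PowerSeries R) :
    ∑ i ∈ Finset.Icc 1 10, PowerSeries.coeff (i - 1) V * PowerSeries.coeff (10 - i) f =
      PowerSeries.coeff 9 (V * f) := by
  rw [PowerSeries.coeff_mul, Finset.Nat.sum_antidiagonal_eq_sum_range_succ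
    (fun i j => PowerSeries.coeff i V * PowerSeries.coeff j f)]
  refine Finset.sum_nbij' (fun i => i - 1) (fun i => i + 1) ?_ ?_ ?_ ?_ ?_
  · intro i hi; rw [Finset.mem_Icc] at hi; rw [Finset.mem_range]; omega
  · intro i hi; rw [Finset.mem_range] at hi; rw [Finset.mem_Icc]; omega
  · intro i hi; rw [Finset.mem_Icc] at hi; omega
  · intro i hi; omega
  · intro i hi
    rw [Finset.mem_Icc] at hi
    have : 9 - (i - 1) = 10 - i := by omega
    rw [this]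

/-- reduction of the contribution of one pole -/
lemma pole_red {a : ℕ} {u : ℤ} {G : ℚ[X]} {E : ℤ} {ω : ℤ → ℕ → ℚ} {g τ k : ℕ}
    {V f : PowerSeries (ZMod p)}
    (hA : ∀ i : ℕ, i ≤ 10 → ∃ x : ℚ, Acoef 10 0 a a u i G = (p : ℚ) ^ (E + i - 50) * x ∧
      red p x (PowerSeries.coeff (10 - i) f))
    (hw : ∀ i : ℕ, 1 ≤ i → i ≤ 10 → ∃ w : ℚ, (p : ℚ) ^ i * ws ω u i = (p : ℚ) ^ g * w ∧
      red p w (PowerSeries.coeff (i - 1) V))
    (hk : (τ : ℤ) + E + g = 50 + k) :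
    red p ((p : ℚ) ^ τ * Sv a ω u G) ((0 : ZMod p) ^ k * PowerSeries.coeff 9 (V * f)) := by
  have hp0 : (p : ℚ) ≠ 0 := by exact_mod_cast hp.out.ne_zero
  rw [Sv, Finset.mul_sum, ← coeff_nine_mul, Finset.mul_sum]
  refine red_sum _ _ _ fun i hi => ?_
  rw [Finset.mem_Icc] at hi
  obtain ⟨x, hx1, hx2⟩ := hA i hi.2
  obtain ⟨w, hw1, hw2⟩ := hw i hi.1 hi.2
  have h1 : (p : ℚ) ^ τ * (ws ω u i * Acoef 10 0 a a u i G) = (p : ℚ) ^ k * (w * x) := by
    have h2 : (p : ℚ) ^ i ≠ 0 := pow_ne_zero _ hp0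
    refine mul_left_cancel₀ h2 ?_
    have h3 : (p : ℚ) ^ τ * (p : ℚ) ^ (E + i - 50) * (p : ℚ) ^ g = (p : ℚ) ^ k * (p : ℚ) ^ i := by
      rw [← zpow_natCast (p : ℚ) τ, ← zpow_natCast (p : ℚ) g, ← zpow_natCast (p : ℚ) k,
        ← zpow_natCast (p : ℚ) i, ← zpow_add₀ hp0, ← zpow_add₀ hp0, ← zpow_add₀ hp0]
      congr 1
      linarith
    rw [hx1]
    calc (p : ℚ) ^ i * ((p : ℚ) ^ τ * (ws ω u i * ((p : ℚ) ^ (E + i - 50) * x)))
        = (p : ℚ) ^ τ * (p : ℚ) ^ (E + i - 50) * ((p : ℚ) ^ i * ws ω u i) * x := by ring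
      _ = (p : ℚ) ^ τ * (p : ℚ) ^ (E + i - 50) * (p : ℚ) ^ g * (w * x) := by rw [hw1]; ring
      _ = _ := by rw [h3]; ring
  rw [h1]
  exact red_mul (red_pow red_p k) (red_mul hw2 hx2)

/-! ### geometry of the classes -/

/-- poles outside the class of `c` -/
noncomputable def On (p h : ℕ) (c : ℤ) : Finset ℤ :=
  (pc (5 * h + 3)).filter fun w => ¬ (p : ℤ) ∣ w - c

lemma cast_ne_zero_of_small {x : ℤ} (h0 : x ≠ 0) (h1 : |x| < p) : (x : ZMod p) ≠ 0 := by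
  rw [Ne, ZMod.intCast_zmod_eq_zero_iff_dvd]
  intro hd
  exact h0 (Int.eq_zero_of_abs_lt_dvd hd h1)

lemma On_ne {h : ℕ} {c w : ℤ} (hw : w ∈ On p h c) : ((w - c : ℤ) : ZMod p) ≠ 0 := by
  rw [On, Finset.mem_filter] at hw
  rw [Ne, ZMod.intCast_zmod_eq_zero_iff_dvd]
  exact hw.2

omit hp in
lemma pc_cls_N {h : ℕ} (hh : p = 2 * h + 1) {c : ℤ} (hc : c ∈ Dn h) :
    pc (5 * h + 3) = (Finset.Icc (0 : ℤ) 4).image (fun i => c + i * p) ∪ On p h c := by
  have hpz : (p : ℤ) = 2 * h + 1 := by exact_mod_cast hh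
  rw [mem_Dn] at hc
  ext u
  rw [Finset.mem_union, Finset.mem_image, On, Finset.mem_filter, mem_pc]
  push_cast
  constructor
  · rintro ⟨h1, h2⟩
    by_cases hd : (p : ℤ) ∣ u - c
    · left
      obtain ⟨k, hk⟩ := hd
      refine ⟨k, ?_, by linarith⟩
      rw [Finset.mem_Icc]
      constructor
      · by_contra hcc
        push Not at hcc
        have : (p : ℤ) * k ≤ p * (-1) := mul_le_mul_of_nonneg_left (by omega) (by positivity)
        omega
      · by_contra hcc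
        push Not at hcc
        have : (p : ℤ) * 5 ≤ p * k := mul_le_mul_of_nonneg_left (by omega) (by positivity)
        omega
    · right
      exact ⟨⟨h1, h2⟩, hd⟩
  · rintro (⟨j, hj, rfl⟩ | h1)
    · rw [Finset.mem_Icc] at hj
      obtain ⟨h1, h2⟩ := hj
      rw [hpz]
      interval_cases j <;> constructor <;> omega
    · exact h1.1

omit hp in
lemma pc_cls_C {h : ℕ} (hh : p = 2 * h + 1) :
    pc (5 * h + 3) = (Finset.Icc (-2 : ℤ) 2).image (fun i => (0 : ℤ) + i * p) ∪ On p h 0 := by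
  have hpz : (p : ℤ) = 2 * h + 1 := by exact_mod_cast hh
  ext u
  rw [Finset.mem_union, Finset.mem_image, On, Finset.mem_filter, mem_pc]
  push_cast
  constructor
  · rintro ⟨h1, h2⟩
    by_cases hd : (p : ℤ) ∣ u - 0
    · left
      obtain ⟨k, hk⟩ := hd
      refine ⟨k, ?_, by linarith⟩
      rw [Finset.mem_Icc]
      constructor
      · by_contra hcc
        push Not at hcc
        have : (p : ℤ) * k ≤ p * (-3) := mul_le_mul_of_nonneg_left (by omega) (by positivity)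
        omega
      · by_contra hcc
        push Not at hcc
        have : (p : ℤ) * 3 ≤ p * k := mul_le_mul_of_nonneg_left (by omega) (by positivity)
        omega
    · right
      exact ⟨⟨h1, h2⟩, hd⟩
  · rintro (⟨j, hj, rfl⟩ | h1)
    · rw [Finset.mem_Icc] at hj
      obtain ⟨h1, h2⟩ := hj
      rw [hpz]
      interval_cases j <;> constructor <;> omega
    · exact h1.1

omit hp in
lemma disj_cls (h : ℕ) (S : Finset ℤ) (c : ℤ) :
    Disjoint (S.image (fun i => c + i * (p : ℤ))) (On p h c) := by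
  rw [Finset.disjoint_left]
  intro u h1 h2
  rw [Finset.mem_image] at h1
  obtain ⟨j, _, rfl⟩ := h1
  rw [On, Finset.mem_filter] at h2
  exact h2.2 ⟨j, by ring⟩

lemma small_ne {S : Finset ℤ} {j : ℤ} (hp5 : 5 < p) {A B : ℤ} (hS : S = Finset.Icc A B)
    (hAB : B - A ≤ 4) (hj : j ∈ S) : ∀ i ∈ S, i ≠ j → ((i - j : ℤ) : ZMod p) ≠ 0 := by
  intro i hi hij
  rw [hS, Finset.mem_Icc] at hi hj
  refine cast_ne_zero_of_small (sub_ne_zero.2 hij) ?_
  have : (5 : ℤ) < p := by exact_mod_cast hp5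
  rw [abs_lt]
  omega

/-- unit attached to a noncentral class -/
noncomputable def KN (p : ℕ) [Fact p.Prime] (h : ℕ) (n : ℤ → ℕ) (c : ℤ) : ZMod p :=
  2 * (-(c : ZMod p)) * ((∏ w ∈ On p h c, ((w : ZMod p) - c))⁻¹) ^ 10 *
    ((-2 * (c : ZMod p)) ^ (n c) * ∏ d ∈ (Da h).erase c, ((c : ZMod p) ^ 2 - d ^ 2) ^ (n d))

/-- unit attached to the central class -/
noncomputable def KC (p : ℕ) [Fact p.Prime] (h : ℕ) (n : ℤ → ℕ) : ZMod p :=
  ((∏ w ∈ On p h 0, (w : ZMod p))⁻¹) ^ 10 * (∏ d ∈ (Da h).erase 0, (-(d : ZMod p) ^ 2) ^ (n d))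

/-- local moment, noncentral class -/
noncomputable def mN (p : ℕ) [Fact p.Prime] (V : ℤ → PowerSeries (ZMod p)) (m : ℕ) : ZMod p :=
  ∑ j ∈ Finset.Icc (0 : ℤ) 4, 2 * PowerSeries.coeff 9
    (V j * (locRp p (Finset.Icc (0 : ℤ) 4) j * linp p (-j) ^ m))

/-- local moment, central class -/
noncomputable def mC (p : ℕ) [Fact p.Prime] (V : ℤ → PowerSeries (ZMod p)) (m : ℕ) : ZMod p :=
  ∑ j ∈ Finset.Icc (-2 : ℤ) 2, PowerSeries.coeff 9
    (V j * (2 * linp p (-j) * locRp p (Finset.Icc (-2 : ℤ) 2) j * (linp p (-j) ^ 2) ^ m))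

/-- the general entry -/
lemma entry_gen {h : ℕ} (hh : p = 2 * h + 1) (hp5 : 5 < p) {ω : ℤ → ℕ → ℚ} {g τ kC : ℕ}
    {VN VC : ℤ → PowerSeries (ZMod p)} {n kN : ℤ → ℕ}
    (hwN : ∀ c ∈ Dn h, ∀ j ∈ Finset.Icc (0 : ℤ) 4, ∀ i : ℕ, 1 ≤ i → i ≤ 10 →
      ∃ w : ℚ, (p : ℚ) ^ i * ws ω (c + j * p) i = (p : ℚ) ^ g * w ∧
      red p w (PowerSeries.coeff (i - 1) (VN j)))
    (hwC : ∀ j ∈ Finset.Icc (-2 : ℤ) 2, ∀ i : ℕ, 1 ≤ i → i ≤ 10 →
      ∃ w : ℚ, (p : ℚ) ^ i * ws ω (0 + j * p) i = (p : ℚ) ^ g * w ∧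
      red p w (PowerSeries.coeff (i - 1) (VC j)))
    (hkN : ∀ c ∈ Dn h, (τ : ℤ) + n c + g = 50 + kN c)
    (hkC : (τ : ℤ) + (2 * n 0 + 1) + g = 50 + kC) :
    red p ((p : ℚ) ^ τ * Lw 0 10 0 (5 * h + 3) (5 * h + 3) ω (PolyN (Da h) n))
      ((0 : ZMod p) ^ kC * (KC p h n * mC p VC (n 0)) +
        ∑ c ∈ Dn h, (0 : ZMod p) ^ kN c * (KN p h n c * mN p VN (n c))) := by
  rw [Lw_eq_sum_Sv (by omega), sum_cls_nv hh _ fun u hu => Sv_neg (by omega) ω hu _, mul_add,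
    Finset.mul_sum, Finset.mul_sum]
  refine red_add ?_ ?_
  · have h1 : (0 : ZMod p) ^ kC * (KC p h n * mC p VC (n 0)) = ∑ j ∈ Finset.Icc (-2 : ℤ) 2,
        (0 : ZMod p) ^ kC * PowerSeries.coeff 9 (VC j * (PowerSeries.C (KC p h n) *
        (2 * linp p (-j) * locRp p (Finset.Icc (-2 : ℤ) 2) j * (linp p (-j) ^ 2) ^ (n 0)))) := by
      rw [mC, Finset.mul_sum, Finset.mul_sum]
      refine Finset.sum_congr rfl fun j _ => ?_
      rw [mul_left_comm (VC j) (PowerSeries.C (KC p h n)), PowerSeries.coeff_C_mul]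
    rw [h1]
    refine red_sum _ _ _ fun j hj => ?_
    have hcard : ((Finset.Icc (-2 : ℤ) 2).erase j).card = 4 := by
      rw [Finset.card_erase_of_mem hj]; rfl
    obtain ⟨F, hF, hR⟩ := resc_C (p := p) (n := n) (D := Da h) (Finset.mem_insert_self 0 _) hj
      hcard (pc_cls_C hh) (disj_cls h _ _) (small_ne hp5 rfl (by norm_num) hj)
      (fun w hw => by have := On_ne hw; rwa [sub_zero] at this)
    exact pole_red (fun i hi => Acoef_of_resc hF hR hi) (hwC j hj) hkC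
  · refine red_sum _ _ _ fun c hc => ?_
    have h1 : (0 : ZMod p) ^ kN c * (KN p h n c * mN p VN (n c)) = ∑ j ∈ Finset.Icc (0 : ℤ) 4,
        (2 : ℤ) * ((0 : ZMod p) ^ kN c * PowerSeries.coeff 9 (VN j * (PowerSeries.C (KN p h n c) *
        (locRp p (Finset.Icc (0 : ℤ) 4) j * linp p (-j) ^ (n c))))) := by
      rw [mN, Finset.mul_sum, Finset.mul_sum]
      refine Finset.sum_congr rfl fun j _ => ?_
      rw [mul_left_comm (VN j) (PowerSeries.C (KN p h n c)), PowerSeries.coeff_C_mul]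
      push_cast
      ring
    rw [h1, Finset.mul_sum]
    refine red_sum _ _ _ fun j hj => ?_
    have hcard : ((Finset.Icc (0 : ℤ) 4).erase j).card = 4 := by
      rw [Finset.card_erase_of_mem hj]; rfl
    obtain ⟨F, hF, hR⟩ := resc_N (p := p) (n := n) (D := Da h)
      (Finset.mem_insert_of_mem hc) hj
      hcard (pc_cls_N hh hc) (disj_cls h _ _) (small_ne hp5 rfl (by norm_num) hj)
      (fun w hw => On_ne hw)
    have key := pole_red (fun i hi => Acoef_of_resc hF hR hi) (hwN c hc j hj) (hkN c hc)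
    have h2 : (p : ℚ) ^ τ * (2 * Sv (5 * h + 3) ω (c + j * p) (PolyN (Da h) n)) =
        (2 : ℤ) * ((p : ℚ) ^ τ * Sv (5 * h + 3) ω (c + j * p) (PolyN (Da h) n)) := by
      push_cast; ring
    rw [h2]
    exact red_mul (red_int 2) key

end

end DIM3
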