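import Pool.Agent.Lib.DIM3.NV3
import Pool.Agent.Lib.Z579.VGL

/-!
# D6, part 4: the weights of `FA` and `FB`, local determinants, the Gram relation
-/

open Polynomial Finset Z579

namespace DIM3

/-! ### the Gram relation -/

lemma sum_row {M : Type*} [AddCommMonoid M] (K : ℕ) (f : ℕ → M) :
    ∑ i : Fin K ⊕ Fin K, f (row i) = ∑ n ∈ Finset.range (K + K), f n := by
  rw [Fintype.sum_sum_type, Finset.sum_range_add, Finset.sum_range, Finset.sum_range]
  rfl

lemma lin_mul (L : ℚ[X] →ₗ[ℚ] ℚ) {P Q : ℚ[X]} {m k : ℕ} (hP : P.natDegree < m)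
    (hQ : Q.natDegree < k) :
    L (P * Q) = ∑ n ∈ Finset.range m, ∑ j ∈ Finset.range k,
      P.coeff n * Q.coeff j * L (X ^ (n + j)) := by
  conv_lhs => rw [P.as_sum_range' m hP, Q.as_sum_range' k hQ]
  rw [Finset.sum_mul_sum, map_sum]
  refine Finset.sum_congr rfl fun n _ => ?_
  rw [map_sum]
  refine Finset.sum_congr rfl fun j _ => ?_
  rw [Polynomial.monomial_mul_monomial, ← Polynomial.C_mul_X_pow_eq_monomial,
    ← Polynomial.smul_eq_C_mul, map_smul, smul_eq_mul]

lemma gram2 {ι : Type*} [Fintype ι] [DecidableEq ι] (LA LB : ℚ[X] →ₗ[ℚ] ℚ) (K : ℕ)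
    (P Q : ι → ℚ[X]) (isB : ι → Bool) (hP : ∀ α, (P α).natDegree < K + K)
    (hQ : ∀ β, (Q β).natDegree < K) (hcard : Fintype.card ι = K + K)
    (h0 : hank2 LA LB K = 0) :
    (Matrix.of fun α β : ι => if isB β then LB (P α * Q β) else LA (P α * Q β)).det = 0 := by
  set H : Matrix (Fin K ⊕ Fin K) (Fin K ⊕ Fin K) ℚ := Matrix.of fun i c =>
    Sum.elim (fun j : Fin K => LA (X ^ (row i + (j : ℕ))))
      (fun j : Fin K => LB (X ^ (row i + (j : ℕ)))) c with hH
  have hH0 : H.det = 0 := h0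
  let T : Matrix ι (Fin K ⊕ Fin K) ℚ := Matrix.of fun α i => (P α).coeff (row i)
  let S : Matrix (Fin K ⊕ Fin K) ι ℚ := Matrix.of fun c β =>
    Sum.elim (fun j : Fin K => if isB β then 0 else (Q β).coeff j)
      (fun j : Fin K => if isB β then (Q β).coeff j else 0) c
  have hM : (Matrix.of fun α β : ι => if isB β then LB (P α * Q β) else LA (P α * Q β)) =
      T * H * S := by
    ext α β
    rw [Matrix.mul_apply, Fintype.sum_sum_type]
    simp only [Matrix.mul_apply, T, S, H, Matrix.of_apply, Sum.elim_inl, Sum.elim_inr]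
    cases hb : isB β
    · simp only [if_false, Bool.false_eq_true, mul_zero, Finset.sum_const_zero, add_zero]
      rw [lin_mul LA (hP α) (hQ β), Finset.sum_comm, ← Finset.sum_range
        (fun j => (∑ x : Fin K ⊕ Fin K, (P α).coeff (row x) * LA (X ^ (row x + j))) *
          (Q β).coeff j)]
      refine Finset.sum_congr rfl fun j _ => ?_
      rw [sum_row K (fun n => (P α).coeff n * LA (X ^ (n + j))), Finset.sum_mul]
      refine Finset.sum_congr rfl fun n _ => ?_
      ring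
    · simp only [if_true, mul_zero, Finset.sum_const_zero, zero_add]
      rw [lin_mul LB (hP α) (hQ β), Finset.sum_comm, ← Finset.sum_range
        (fun j => (∑ x : Fin K ⊕ Fin K, (P α).coeff (row x) * LB (X ^ (row x + j))) *
          (Q β).coeff j)]
      refine Finset.sum_congr rfl fun j _ => ?_
      rw [sum_row K (fun n => (P α).coeff n * LB (X ^ (n + j))), Finset.sum_mul]
      refine Finset.sum_congr rfl fun n _ => ?_
      ring
  rw [hM]
  have hc2 : Fintype.card ι = Fintype.card (Fin K ⊕ Fin K) := by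
    rw [hcard, Fintype.card_sum, Fintype.card_fin]
  let e : ι ≃ Fin K ⊕ Fin K := Fintype.equivOfCardEq hc2
  have h1 : T * H * S =
      (T.submatrix id e) * (H.submatrix e e) * (S.submatrix e id) := by
    rw [Matrix.submatrix_mul_equiv, Matrix.submatrix_mul_equiv, Matrix.submatrix_id_id]
  rw [h1, Matrix.det_mul, Matrix.det_mul, Matrix.det_submatrix_equiv_self, hH0]
  ring

/-! ### the coefficients of `locF` -/

lemma coeff_locF {A B j : ℤ} (hj : j ∈ Finset.Icc A B) {i : ℕ} (hi : 1 ≤ i) :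
    PowerSeries.coeff (i - 1) (locF (Finset.Icc A B) j) =
      -Hs i (j - A).toNat + (-1) ^ (i + 1) * (-Hs i (B - j).toNat) := by
  rw [Finset.mem_Icc] at hj
  rw [locF, map_sub, map_sum, map_sum]
  obtain ⟨i, rfl⟩ := Nat.exists_eq_add_of_le' hi
  rw [Nat.add_sub_cancel]
  have h1 : ∑ k ∈ (Finset.Icc A B).filter (· < j), PowerSeries.coeff i (lin (k - j))⁻¹ =
      -Hs (i + 1) (j - A).toNat := by
    rw [Hs, ← Finset.sum_neg_distrib]
    refine Finset.sum_nbij' (fun k => (j - 1 - k).toNat) (fun k => j - 1 - k) ?_ ?_ ?_ ?_ ?_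
    · intro k hk
      rw [Finset.mem_filter, Finset.mem_Icc] at hk
      rw [Finset.mem_range]
      omega
    · intro k hk
      rw [Finset.mem_range] at hk
      rw [Finset.mem_filter, Finset.mem_Icc]
      omega
    · intro k hk
      rw [Finset.mem_filter, Finset.mem_Icc] at hk
      omega
    · intro k hk
      omega
    · intro k hk
      rw [Finset.mem_filter, Finset.mem_Icc] at hk
      obtain ⟨m, hm⟩ : ∃ m : ℕ, j - 1 - k = m := ⟨(j - 1 - k).toNat, by omega⟩
      rw [hm, Int.toNat_natCast, coeff_lin_inv (by omega)]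
      have h2 : ((k - j : ℤ) : ℚ) = -((m : ℚ) + 1) := by
        have : k - j = -((m : ℤ) + 1) := by omega
        rw [this]; push_cast; ring
      have h3 : (m : ℚ) + 1 ≠ 0 := by positivity
      rw [h2, inv_neg, neg_pow ((m : ℚ) + 1)⁻¹, one_div, inv_pow, ← mul_assoc, ← pow_add]
      have h4 : (-1 : ℚ) ^ (i + (i + 1)) = -1 := by
        rw [show i + (i + 1) = 2 * i + 1 by ring, pow_succ, pow_mul]; norm_num
      rw [h4]
      ring
  have h2 : ∑ k ∈ (Finset.Icc A B).filter (j < ·), PowerSeries.coeff i (lin (k - j))⁻¹ =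
      (-1) ^ i * Hs (i + 1) (B - j).toNat := by
    rw [Hs, Finset.mul_sum]
    refine Finset.sum_nbij' (fun k => (k - j - 1).toNat) (fun k => j + 1 + k) ?_ ?_ ?_ ?_ ?_
    · intro k hk
      rw [Finset.mem_filter, Finset.mem_Icc] at hk
      rw [Finset.mem_range]
      omega
    · intro k hk
      rw [Finset.mem_range] at hk
      rw [Finset.mem_filter, Finset.mem_Icc]
      omega
    · intro k hk
      rw [Finset.mem_filter, Finset.mem_Icc] at hk
      omega
    · intro k hk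
      omega
    · intro k hk
      rw [Finset.mem_filter, Finset.mem_Icc] at hk
      obtain ⟨m, hm⟩ : ∃ m : ℕ, k - j - 1 = m := ⟨(k - j - 1).toNat, by omega⟩
      rw [hm, Int.toNat_natCast, coeff_lin_inv (by omega)]
      have h2 : ((k - j : ℤ) : ℚ) = (m : ℚ) + 1 := by
        have : k - j = (m : ℤ) + 1 := by omega
        rw [this]; push_cast; ring
      rw [h2, one_div, inv_pow]
  rw [h1, h2]
  ring

section
variable {p : ℕ} [hp : Fact p.Prime]

/-! ### weights -/

lemma toNat_div {x r : ℤ} {m : ℕ} (hx : x = m * p + r) (h0 : 0 ≤ r) (h1 : r < p) :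
    x.toNat / p = m := by
  obtain ⟨r', rfl⟩ := Int.eq_ofNat_of_zero_le h0
  have h2 : x.toNat = r' + m * p := by
    have : x = ((r' + m * p : ℕ) : ℤ) := by rw [hx]; push_cast; ring
    rw [this, Int.toNat_natCast]
  rw [h2, Nat.add_mul_div_right _ _ hp.out.pos, Nat.div_eq_of_lt (by omega), zero_add]

/-- the series of weights of `FA` -/
noncomputable def VA (p : ℕ) [Fact p.Prime] (S : Finset ℤ) (j : ℤ) : PowerSeries (ZMod p) :=
  PowerSeries.C (2 : ZMod p)⁻¹ * locFp p S j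

lemma two_ne (hp5 : 5 < p) : (2 : ZMod p) ≠ 0 := by
  have := cast_ne_zero_of_small (p := p) (x := 2) (by norm_num) (by
    rw [abs_of_pos (by norm_num)]; exact_mod_cast (by omega : 2 < p))
  simpa using this

lemma hwA {a : ℕ} {z : ℕ → ℚ} (hz : ∀ s, VG p 0 (z s)) (hp5 : 5 < p) {A B j u : ℤ}
    (hAB : B - A ≤ 4) (hj : j ∈ Finset.Icc A B)
    (h1 : (u + a - 1).toNat / p = (j - A).toNat) (h2 : (-u + a - 1).toNat / p = (B - j).toNat)
    {i : ℕ} (hi : 1 ≤ i) :
    ∃ w : ℚ, (p : ℚ) ^ i * ws (wt 0 a 1 z) u i = (p : ℚ) ^ 0 * w ∧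
      red p w (PowerSeries.coeff (i - 1) (VA p (Finset.Icc A B) j)) := by
  have hj' := Finset.mem_Icc.1 hj
  obtain ⟨y1, hy1, hy1'⟩ := red_wt_gen (p := p) (hz i) (by omega) h1 (by omega)
  obtain ⟨y2, hy2, hy2'⟩ := red_wt_gen (p := p) (hz i) (by omega) h2 (by omega)
  have hs : red p ((-1 : ℚ) ^ (i + 1)) ((-1) ^ (i + 1)) := by
    have := red_pow (red_neg (red_one (p := p))) (i + 1)
    exact this
  have h3 := (Red_locF (p := p) (small_ne hp5 rfl hAB hj)) (i - 1)
  rw [coeff_locF hj hi] at h3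
  have h4 := red_add hy1' (red_mul hs hy2')
  have h5 := red_unique h3 h4
  refine ⟨_, (by rw [pow_zero, one_mul]), ?_⟩
  rw [VA, PowerSeries.coeff_C_mul, h5, ws]
  have h6 := red_mul (red_inv (red_int (p := p) 2) (by simpa using two_ne hp5))
    (red_add hy1 (red_mul hs hy2))
  convert h6 using 1
  · push_cast; ring
  · push_cast; rfl

lemma hwA_N {h : ℕ} (hh : p = 2 * h + 1) (hp5 : 5 < p) {z : ℕ → ℚ} (hz : ∀ s, VG p 0 (z s))
    {c : ℤ} (hc : c ∈ Dn h) {j : ℤ} (hj : j ∈ Finset.Icc (0 : ℤ) 4) {i : ℕ} (hi : 1 ≤ i) :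
    ∃ w : ℚ, (p : ℚ) ^ i * ws (wt 0 (5 * h + 3) 1 z) (c + j * p) i = (p : ℚ) ^ 0 * w ∧
      red p w (PowerSeries.coeff (i - 1) (VA p (Finset.Icc (0 : ℤ) 4) j)) := by
  have hpz : (p : ℤ) = 2 * h + 1 := by exact_mod_cast hh
  rw [mem_Dn] at hc
  have hj' := Finset.mem_Icc.1 hj
  refine hwA hz hp5 (by norm_num) hj ?_ ?_ hi
  · refine toNat_div (r := c + 5 * h + 2) ?_ (by omega) (by omega)
    have : ((j - 0).toNat : ℤ) = j := by omega
    rw [this]; push_cast; ring
  · refine toNat_div (r := -c + 5 * h + 2 - 4 * p) ?_ (by omega) (by omega)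
    have : ((4 - j).toNat : ℤ) = 4 - j := by omega
    rw [this]; push_cast; ring

lemma hwA_C {h : ℕ} (hh : p = 2 * h + 1) (hp5 : 5 < p) {z : ℕ → ℚ} (hz : ∀ s, VG p 0 (z s))
    {j : ℤ} (hj : j ∈ Finset.Icc (-2 : ℤ) 2) {i : ℕ} (hi : 1 ≤ i) :
    ∃ w : ℚ, (p : ℚ) ^ i * ws (wt 0 (5 * h + 3) 1 z) (0 + j * p) i = (p : ℚ) ^ 0 * w ∧
      red p w (PowerSeries.coeff (i - 1) (VA p (Finset.Icc (-2 : ℤ) 2) j)) := by
  have hpz : (p : ℤ) = 2 * h + 1 := by exact_mod_cast hh
  have hj' := Finset.mem_Icc.1 hj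
  refine hwA hz hp5 (by norm_num) hj ?_ ?_ hi
  · refine toNat_div (r := 5 * h + 2 - 2 * p) ?_ (by omega) (by omega)
    have : ((j - -2).toNat : ℤ) = j + 2 := by omega
    rw [this]; push_cast; ring
  · refine toNat_div (r := 5 * h + 2 - 2 * p) ?_ (by omega) (by omega)
    have : ((2 - j).toNat : ℤ) = 2 - j := by omega
    rw [this]; push_cast; ring

lemma hwB {z b : ℕ → ℚ} (hadm : Adm z b) (hb : ∀ s, VG p 0 (b s)) {u : ℤ} {i : ℕ} (hi : 1 ≤ i)
    (hi2 : i ≤ 10) :
    ∃ w : ℚ, (p : ℚ) ^ i * ws (fun _ i => ((1 : ℕ) : ℚ) * b i) u i = (p : ℚ) ^ 3 * w ∧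
      red p w (PowerSeries.coeff (i - 1) (PowerSeries.X ^ 2 : PowerSeries (ZMod p))) := by
  have hz0 : ∀ s, s ≠ 3 → s ≠ 5 → s ≠ 7 → s ≠ 9 → b s = 0 := hadm.bs
  have key0 : ∀ s, b s = 0 → s ≠ 3 → ∃ w : ℚ, (p : ℚ) ^ s * ws (fun _ i => ((1 : ℕ) : ℚ) * b i) u s =
      (p : ℚ) ^ 3 * w ∧ red p w (if s - 1 = 2 then (1 : ZMod p) else 0) := by
    intro s hs h3
    refine ⟨0, by simp [ws, hs], ?_⟩
    rw [if_neg (by omega)]
    exact red_zero
  have key1 : ∀ s k, s = 3 + k → k ≠ 0 → Odd s →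
      ∃ w : ℚ, (p : ℚ) ^ s * ws (fun _ i => ((1 : ℕ) : ℚ) * b i) u s =
      (p : ℚ) ^ 3 * w ∧ red p w (if s - 1 = 2 then (1 : ZMod p) else 0) := by
    intro s k hs hk hodd
    obtain ⟨y, hy⟩ := exists_red (hb s)
    refine ⟨(p : ℚ) ^ k * b s, ?_, ?_⟩
    · have h1 : (-1 : ℚ) ^ (s + 1) = 1 := (hodd.add_one).neg_one_pow
      rw [ws, h1, hs, pow_add]; push_cast; ring
    · rw [if_neg (by omega)]
      exact red_ppow_mul hy hk
  rw [PowerSeries.coeff_X_pow]
  interval_cases i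
  · exact key0 1 (hz0 1 (by norm_num) (by norm_num) (by norm_num) (by norm_num)) (by norm_num)
  · exact key0 2 (hz0 2 (by norm_num) (by norm_num) (by norm_num) (by norm_num)) (by norm_num)
  · refine ⟨1, ?_, ?_⟩
    · rw [ws, hadm.b3]; push_cast; ring
    · simpa using red_one
  · exact key0 4 (hz0 4 (by norm_num) (by norm_num) (by norm_num) (by norm_num)) (by norm_num)
  · exact key1 5 2 rfl (by norm_num) (by decide)
  · exact key0 6 (hz0 6 (by norm_num) (by norm_num) (by norm_num) (by norm_num)) (by norm_num)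
  · exact key1 7 4 rfl (by norm_num) (by decide)
  · exact key0 8 (hz0 8 (by norm_num) (by norm_num) (by norm_num) (by norm_num)) (by norm_num)
  · exact key1 9 6 rfl (by norm_num) (by decide)
  · exact key0 10 (hz0 10 (by norm_num) (by norm_num) (by norm_num) (by norm_num)) (by norm_num)

/-! ### local moments -/

lemma Rlin (c : ℤ) : Red p (lin c) (linp p c) := Red_lin c

lemma red_fN (hp5 : 5 < p) (m : ℕ) : red p (fN m) (mN p (VA p (Finset.Icc (0 : ℤ) 4)) m) := by
  rw [fN, mN]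
  refine red_sum _ _ _ fun j hj => ?_
  have hs := small_ne (p := p) hp5 rfl (by norm_num) hj
  have h1 := (Red_mul (Red_mul (Red_locR (p := p) hs) (Red_locF hs))
    (Red_pow (Rlin (p := p) (-j)) m)) 9
  convert h1 using 1
  have h2 : VA p (Finset.Icc (0 : ℤ) 4) j * (locRp p (Finset.Icc (0 : ℤ) 4) j * linp p (-j) ^ m) =
      PowerSeries.C (2 : ZMod p)⁻¹ * (locRp p (Finset.Icc (0 : ℤ) 4) j *
        locFp p (Finset.Icc (0 : ℤ) 4) j * linp p (-j) ^ m) := by
    rw [VA]; ring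
  rw [h2, PowerSeries.coeff_C_mul, ← mul_assoc, mul_inv_cancel₀ (two_ne hp5), one_mul]

lemma red_gN (hp5 : 5 < p) (m : ℕ) : red p (2 * gN m) (mN p (fun _ => PowerSeries.X ^ 2) m) := by
  rw [gN, mN, Finset.mul_sum]
  refine red_sum _ _ _ fun j hj => ?_
  have hs := small_ne (p := p) hp5 rfl (by norm_num) hj
  have h1 := (Red_mul (Red_mul (Red_locR (p := p) hs) (Red_pow (Red_X (p := p)) 2))
    (Red_pow (Rlin (p := p) (-j)) m)) 9
  have h2 := red_mul (red_int (p := p) 2) h1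
  push_cast at h2
  convert h2 using 3
  ring

lemma red_fC (hp5 : 5 < p) (m : ℕ) :
    red p (1 / 2 * fC m) (mC p (VA p (Finset.Icc (-2 : ℤ) 2)) m) := by
  rw [fC, mC, Finset.mul_sum]
  refine red_sum _ _ _ fun j hj => ?_
  have hs := small_ne (p := p) hp5 rfl (by norm_num) hj
  have h1 := (Red_mul (Red_mul (Red_mul (Red_mul (Red_two (p := p)) (Rlin (-j)))
    (Red_locR (p := p) hs)) (Red_locF hs)) (Red_pow (Red_pow (Rlin (p := p) (-j)) 2) m)) 9
  have h3 := red_mul (red_inv (red_int (p := p) 2) (by simpa using two_ne hp5)) h1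
  push_cast at h3
  convert h3 using 1
  · ring
  · have hC2 : (PowerSeries.C (2 : ZMod p)) = (2 : PowerSeries (ZMod p)) := map_ofNat _ 2
    have h2 : VA p (Finset.Icc (-2 : ℤ) 2) j * (2 * linp p (-j) *
        locRp p (Finset.Icc (-2 : ℤ) 2) j * (linp p (-j) ^ 2) ^ m) =
        PowerSeries.C (2 : ZMod p)⁻¹ * (PowerSeries.C 2 * linp p (-j) *
        locRp p (Finset.Icc (-2 : ℤ) 2) j * locFp p (Finset.Icc (-2 : ℤ) 2) j *
        (linp p (-j) ^ 2) ^ m) := by
      rw [VA, hC2]; ring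
    rw [h2, PowerSeries.coeff_C_mul]

lemma red_gC (hp5 : 5 < p) (m : ℕ) :
    red p (gC m) (mC p (fun _ => PowerSeries.X ^ 2) m) := by
  rw [gC, mC]
  refine red_sum _ _ _ fun j hj => ?_
  have hs := small_ne (p := p) hp5 rfl (by norm_num) hj
  have h1 := (Red_mul (Red_mul (Red_mul (Red_mul (Red_two (p := p)) (Rlin (-j)))
    (Red_locR (p := p) hs)) (Red_pow (Red_X (p := p)) 2))
    (Red_pow (Red_pow (Rlin (p := p) (-j)) 2) m)) 9
  have hC2 : (PowerSeries.C (2 : ZMod p)) = (2 : PowerSeries (ZMod p)) := map_ofNat _ 2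
  rw [hC2] at h1
  convert h1 using 2
  ring

/-- reduction of `det2` -/
lemma red_det2 {f g : ℕ → ℚ} {f' g' : ℕ → ZMod p} (hf : ∀ n, red p (f n) (f' n))
    (hg : ∀ n, red p (g n) (g' n)) (K : ℕ) : red p (det2 f g K) (det2 f' g' K) := by
  refine red_det _ _ fun i j => ?_
  rcases j with j | j
  · exact hf _
  · exact hg _

lemma ne_zero_of_red {x : ℚ} {y : ZMod p} (h : red p x y) (hx : x ≠ 0)
    (hpx : x.num.natAbs < p) : y ≠ 0 := by
  intro h0
  rw [h0] at h
  have h2 := dvd_num_of_red_zero h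
  have h3 : (p : ℤ) ∣ (x.num.natAbs : ℤ) := Int.dvd_natAbs.2 h2
  have h4 : p ∣ x.num.natAbs := by exact_mod_cast h3
  have h5 : 0 < x.num.natAbs := by
    rw [Int.natAbs_pos]
    exact Rat.num_ne_zero.2 hx
  have := Nat.le_of_dvd h5 h4
  omega

omit hp in
lemma det2_smul {R : Type*} [CommRing R] (f g : ℕ → R) (x y : R) (K : ℕ) :
    det2 (fun n => x * f n) (fun n => y * g n) K = x ^ K * y ^ K * det2 f g K := by
  have h1 : det2 (fun n => x * f n) (fun n => y * g n) K =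
      (Matrix.of fun i j : Fin K ⊕ Fin K => (fun _ => (1 : R)) i * (Matrix.of fun i c : Fin K ⊕ Fin K =>
        Sum.elim (fun j : Fin K => f (row i + j)) (fun j : Fin K => g (row i + j)) c) i j *
        (Sum.elim (fun _ => x) (fun _ => y) : Fin K ⊕ Fin K → R) j).det := by
    rw [det2]
    congr 1
    ext i j
    rcases j with j | j
    · simp only [Matrix.of_apply, Sum.elim_inl]; ring
    · simp only [Matrix.of_apply, Sum.elim_inr]; ring
  rw [h1, det_scale]
  simp only [Fintype.prod_sum_type, Finset.prod_const_one, one_mul, Sum.elim_inl, Sum.elim_inr,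
    Finset.prod_const, Finset.card_univ, Fintype.card_fin]
  rw [det2]
  ring

end

end DIM3
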