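import Pool.Agent.Lib.Z579.M9g
import Pool.Agent.Lib.DIM3.MertEM
import Pool.Agent.Lib.DIM3.Defs

/-!
# D10, first part: sums over the primes `p ≤ N/3`
-/

open Filter Topology Finset MeasureTheory Z579 Z579.EM

namespace DIM3

/-- `40 a K - 6 K ^ 2` for `a = (N+1)/2`, `K = 7 N / 5` -/
noncomputable def EN (N : ℕ) : ℝ := 406 / 25 * (N : ℝ) ^ 2 + 28 * N

lemma EN_nonneg (N : ℕ) : 0 ≤ EN N := by unfold EN; positivity

lemma EN_eq (N a K : ℕ) (ha : N + 1 = 2 * a) (hK : 5 * K = 7 * N) :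
    (40 * a * K - 6 * (K : ℝ) ^ 2) = EN N := by
  have ha' : (N : ℝ) + 1 = 2 * a := by exact_mod_cast ha
  have hK' : 5 * (K : ℝ) = 7 * N := by exact_mod_cast hK
  have h1 : (a : ℝ) = (N + 1) / 2 := by linarith
  have h2 : (K : ℝ) = 7 * N / 5 := by linarith
  unfold EN
  rw [h1, h2]
  ring

/-- the variance term -/
noncomputable def rhoN (N p : ℕ) : ℝ := ((N % p : ℕ) : ℝ) * (p - (N % p : ℕ)) / p

lemma rhoN_nonneg (N p : ℕ) (hp : 0 < p) : 0 ≤ rhoN N p := by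
  unfold rhoN
  have h1 : (N % p : ℕ) < p := Nat.mod_lt _ hp
  have h2 : ((N % p : ℕ) : ℝ) ≤ p := by exact_mod_cast h1.le
  have h3 : (0 : ℝ) ≤ ((N % p : ℕ) : ℝ) := Nat.cast_nonneg _
  have h4 : (0 : ℝ) < p := by exact_mod_cast hp
  apply div_nonneg _ h4.le
  exact mul_nonneg h3 (by linarith)

lemma rhoN_le (N p : ℕ) (hp : 0 < p) : rhoN N p ≤ (p : ℝ) / 4 := by
  unfold rhoN
  have h4 : (0 : ℝ) < p := by exact_mod_cast hp
  rw [div_le_iff₀ h4]
  nlinarith [sq_nonneg ((p : ℝ) - 2 * (N % p : ℕ))]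

/-- the density of the variance term on the block `N/(j+1) < p ≤ N/j` -/
noncomputable def gj (j : ℕ) (t : ℝ) : ℝ := (2 * j + 1) - 1 / t - j * (j + 1) * t

lemma rhoN_block (N p j : ℕ) (hp : 0 < p) (hN : 0 < N) (h1 : j * p ≤ N) (h2 : N < (j + 1) * p) :
    rhoN N p = N * gj j (p / N) := by
  have h4 : (0 : ℝ) < p := by exact_mod_cast hp
  have h5 : (0 : ℝ) < N := by exact_mod_cast hN
  have hdiv : N / p = j := by
    apply Nat.div_eq_of_lt_le
    · exact h1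
    · exact h2
  have hmod : N % p = N - j * p := by
    have := Nat.mod_add_div N p
    rw [hdiv] at this
    rw [mul_comm p j] at this
    omega
  have hm : ((N % p : ℕ) : ℝ) = N - j * p := by
    rw [hmod, Nat.cast_sub h1]
    push_cast
    ring
  unfold rhoN gj
  rw [hm]
  field_simp
  ring

/-- pointwise bound for `p ≤ N/3` -/
lemma point_small (C : ℝ) (hC : 0 ≤ C) (N a K : ℕ) (ha : N + 1 = 2 * a)
    (hK : 5 * K = 7 * N) (hN : 1 ≤ N) (b : ℝ) (p : ℕ) (hp : p.Prime) (hpN : p ≤ N)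
    (h1 : p ^ 2 < 2 * a → b ≤ (40 * a * K - 6 * (K : ℝ) ^ 2) / (p - 1) +
      C * (1 + Nat.log p (4 * (a + K))) * K)
    (h2 : 2 * a ≤ p ^ 2 → b ≤ (40 * a * K - 6 * (K : ℝ) ^ 2) / p - K +
      50 / 3 * ((((2 * a - 1) % p : ℕ) : ℝ) * (p - ((2 * a - 1) % p : ℕ)) / p) +
      1 / 6 * (6 * K / p + 10) ^ 2) :
    b * Real.log p ≤ EN N * (Real.log p / (p - 1)) - 7 / 5 * N * Real.log p +
      50 / 3 * (rhoN N p * Real.log p) +
      (if p ≤ Nat.sqrt (N + 1) then (1 + 2 * C) * (7 / 5 * N) * Real.log (12 * N) else 0) +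
      (6 * (7 / 5 * N) ^ 2 / √((N : ℝ) + 1) + 20 * (7 / 5 * N)) * (Real.log p / (p - 1)) +
      50 / 3 * Real.log p := by
  have hK' : 5 * (K : ℝ) = 7 * N := by exact_mod_cast hK
  have hKe : (K : ℝ) = 7 / 5 * N := by linarith
  have ha' : (N : ℝ) + 1 = 2 * a := by exact_mod_cast ha
  have hNr : (1 : ℝ) ≤ N := by exact_mod_cast hN
  have hN0 : (0 : ℝ) < N := by linarith
  have hK0 : (0 : ℝ) ≤ K := Nat.cast_nonneg K
  have hp2 : (2 : ℝ) ≤ p := by exact_mod_cast hp.two_le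
  have hp0 : (0 : ℝ) < p := by linarith
  have hp1 : (0 : ℝ) < p - 1 := by linarith
  have hlp : 0 ≤ Real.log p := Real.log_natCast_nonneg p
  have hE := EN_nonneg N
  have hr := rhoN_nonneg N p hp.pos
  have h2a : 2 * a - 1 = N := by omega
  rw [h2a] at h2
  rw [EN_eq N a K ha hK] at h1 h2
  set X := 4 * (a + K) with hX
  have hXr : (X : ℝ) ≤ 12 * N := by
    rw [hX]; push_cast
    linarith
  have hX0 : (0 : ℝ) < X := by
    have : 0 < X := by omega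
    exact_mod_cast this
  have hlogX : Real.log X ≤ Real.log (12 * N) := Real.log_le_log hX0 hXr
  have hlogp : Real.log p ≤ Real.log (12 * N) := by
    apply Real.log_le_log hp0
    have : (p : ℝ) ≤ N := by exact_mod_cast hpN
    linarith
  have hL0 : 0 ≤ Real.log (12 * N) := hlp.trans hlogp
  have q1 : 0 ≤ 50 / 3 * (rhoN N p * Real.log p) := by positivity
  have q3 : 0 ≤ (6 * (7 / 5 * N) ^ 2 / √((N : ℝ) + 1) + 20 * (7 / 5 * N)) *
      (Real.log p / (p - 1)) := by positivity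
  have q4 : 0 ≤ 50 / 3 * Real.log p := by positivity
  by_cases hc : p ^ 2 < 2 * a
  · have hb := h1 hc
    have hsq : p ≤ Nat.sqrt (N + 1) := by
      rw [Nat.le_sqrt]; nlinarith
    rw [if_pos hsq]
    have hXne : X ≠ 0 := by omega
    have hlog : (Nat.log p X : ℝ) * Real.log p ≤ Real.log (X : ℝ) := by
      rw [← Real.log_pow]
      refine Real.log_le_log (pow_pos hp0 _) ?_
      exact_mod_cast Nat.pow_log_le_self p hXne
    have hm := mul_le_mul_of_nonneg_right hb hlp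
    have e1 : (EN N / (p - 1) + C * (1 + (Nat.log p X : ℝ)) * K) * Real.log p =
        EN N * (Real.log p / (p - 1)) +
          C * K * (Real.log p + (Nat.log p X : ℝ) * Real.log p) := by ring
    rw [e1] at hm
    have e2 : C * K * (Real.log p + (Nat.log p X : ℝ) * Real.log p) ≤
        C * K * (2 * Real.log (12 * N)) :=
      mul_le_mul_of_nonneg_left (by linarith) (by positivity)
    have e3 : 7 / 5 * N * Real.log p ≤ 7 / 5 * N * Real.log (12 * N) :=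
      mul_le_mul_of_nonneg_left hlogp (by positivity)
    have e4 : (1 + 2 * C) * (7 / 5 * N) * Real.log (12 * N) =
        7 / 5 * N * Real.log (12 * N) + C * K * (2 * Real.log (12 * N)) := by
      rw [hKe]; ring
    rw [e4]
    linarith
  · push Not at hc
    have hb := h2 hc
    have q5 : 0 ≤ (if p ≤ Nat.sqrt (N + 1) then
        (1 + 2 * C) * (7 / 5 * (N : ℝ)) * Real.log (12 * N) else 0) := by
      split_ifs
      · positivity
      · exact le_rfl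
    have hm := mul_le_mul_of_nonneg_right hb hlp
    have hs0 : 0 < √((N : ℝ) + 1) := Real.sqrt_pos.mpr (by positivity)
    have hsp : √((N : ℝ) + 1) ≤ p := by
      rw [Real.sqrt_le_left hp0.le, ha']
      exact_mod_cast hc
    have e1 : 1 / 6 * (6 * (K : ℝ) / p + 10) ^ 2 =
        6 * (K : ℝ) ^ 2 / (p : ℝ) ^ 2 + 20 * K / p + 50 / 3 := by
      field_simp
      ring
    have e3 : 6 * (K : ℝ) ^ 2 / (p : ℝ) ^ 2 * Real.log p ≤
        6 * (K : ℝ) ^ 2 / √((N : ℝ) + 1) * (Real.log p / (p - 1)) := by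
      rw [div_mul_div_comm, div_mul_eq_mul_div]
      apply div_le_div_of_nonneg_left (by positivity) (by positivity)
      nlinarith
    have e3' : 20 * (K : ℝ) / p * Real.log p ≤ 20 * K * (Real.log p / (p - 1)) := by
      rw [← mul_div_assoc, div_mul_eq_mul_div]
      apply div_le_div_of_nonneg_left (by positivity) (by positivity)
      linarith
    have e4 : EN N / p ≤ EN N / (p - 1) :=
      div_le_div_of_nonneg_left hE hp1 (by linarith)
    have e5 := mul_le_mul_of_nonneg_right e4 hlp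
    have e7 : EN N / (p - 1) * Real.log p = EN N * (Real.log p / (p - 1)) := by ring
    have e8 : (6 * (7 / 5 * (N : ℝ)) ^ 2 / √((N : ℝ) + 1) + 20 * (7 / 5 * N)) *
      (Real.log p / (p - 1)) = 6 * (K : ℝ) ^ 2 / √((N : ℝ) + 1) * (Real.log p / (p - 1)) +
        20 * K * (Real.log p / (p - 1)) := by
      rw [hKe]; ring
    rw [e8]
    have e9 : (EN N / p - K + 50 / 3 * (((N % p : ℕ) : ℝ) * (p - (N % p : ℕ)) / p) +
      1 / 6 * (6 * K / p + 10) ^ 2) * Real.log p = EN N / p * Real.log p - 7 / 5 * N * Real.log p +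
      50 / 3 * (rhoN N p * Real.log p) + (6 * (K : ℝ) ^ 2 / (p : ℝ) ^ 2 * Real.log p +
        20 * K / p * Real.log p + 50 / 3 * Real.log p) := by
      rw [e1]
      unfold rhoN
      rw [hKe]
      ring
    rw [e9] at hm
    linarith

/-- the sum of the variance terms -/
lemma sum_rho (N J : ℕ) (hN : 0 < N) (hJ : 3 ≤ J) :
    ∑ p ∈ (Finset.Ioc 0 ⌊1 / (3 : ℝ) * (N : ℝ)⌋₊).filter Nat.Prime, rhoN N p * Real.log p ≤
      N * (∑ j ∈ Finset.Ico 3 J, PS (gj j) (N : ℝ) ⌊1 / ((j : ℝ) + 1) * (N : ℝ)⌋₊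
        ⌊1 / (j : ℝ) * (N : ℝ)⌋₊ + 1 / 4 * PS (fun t => t) (N : ℝ) ⌊(0 : ℝ) * (N : ℝ)⌋₊
        ⌊1 / (J : ℝ) * (N : ℝ)⌋₊) := by
  have hN' : (0 : ℝ) < N := by exact_mod_cast hN
  have key : ∀ J : ℕ, 3 ≤ J → ∑ p ∈ (Finset.Ioc ⌊1 / (J : ℝ) * (N : ℝ)⌋₊
      ⌊1 / (3 : ℝ) * (N : ℝ)⌋₊).filter Nat.Prime, rhoN N p * Real.log p =
      N * ∑ j ∈ Finset.Ico 3 J, PS (gj j) (N : ℝ) ⌊1 / ((j : ℝ) + 1) * (N : ℝ)⌋₊
        ⌊1 / (j : ℝ) * (N : ℝ)⌋₊ := by
    intro J hJ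
    induction J, hJ using Nat.le_induction with
    | base => norm_num
    | succ J hJ ih =>
      have hJ' : (0 : ℝ) < J := by
        have : 0 < J := by omega
        exact_mod_cast this
      have hJ3 : (3 : ℝ) ≤ J := by exact_mod_cast hJ
      have hle : (1 : ℝ) / (J + 1) ≤ 1 / J := one_div_le_one_div_of_le hJ' (by linarith)
      have hle3 : (1 : ℝ) / J ≤ 1 / 3 := one_div_le_one_div_of_le (by norm_num) hJ3
      have m1 : ⌊1 / ((J : ℝ) + 1) * (N : ℝ)⌋₊ ≤ ⌊1 / (J : ℝ) * (N : ℝ)⌋₊ :=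
        Nat.floor_le_floor (mul_le_mul_of_nonneg_right hle hN'.le)
      have m2 : ⌊1 / (J : ℝ) * (N : ℝ)⌋₊ ≤ ⌊1 / (3 : ℝ) * (N : ℝ)⌋₊ :=
        Nat.floor_le_floor (mul_le_mul_of_nonneg_right hle3 hN'.le)
      push_cast
      rw [Finset.sum_filter, ← Finset.sum_Ioc_consecutive _ m1 m2, ← Finset.sum_filter,
        ← Finset.sum_filter, ih, Finset.sum_Ico_succ_top hJ, mul_add, add_comm]
      refine congrArg₂ (· + ·) rfl ?_
      unfold PS
      rw [Finset.mul_sum]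
      refine Finset.sum_congr rfl fun p hp => ?_
      rw [Finset.mem_filter, Finset.mem_Ioc] at hp
      have h1 : 1 / ((J : ℝ) + 1) * (N : ℝ) < p := Nat.lt_of_floor_lt hp.1.1
      have h2 : (p : ℝ) ≤ 1 / (J : ℝ) * (N : ℝ) :=
        (Nat.le_floor_iff (by positivity)).mp hp.1.2
      have h3 : J * p ≤ N := by
        have : (J : ℝ) * p ≤ N := by
          rw [one_div, inv_mul_eq_div, le_div_iff₀ hJ'] at h2
          linarith
        exact_mod_cast this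
      have h4 : N < (J + 1) * p := by
        have : (N : ℝ) < ((J : ℝ) + 1) * p := by
          rw [one_div, inv_mul_eq_div, div_lt_iff₀ (by linarith)] at h1
          linarith
        exact_mod_cast this
      rw [rhoN_block N p J hp.2.pos hN h3 h4]
      ring
  have hJ' : (0 : ℝ) < J := by
    have : 0 < J := by omega
    exact_mod_cast this
  have hJ3 : (3 : ℝ) ≤ J := by exact_mod_cast hJ
  have hle3 : (1 : ℝ) / J ≤ 1 / 3 := one_div_le_one_div_of_le (by norm_num) hJ3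
  have m2 : ⌊1 / (J : ℝ) * (N : ℝ)⌋₊ ≤ ⌊1 / (3 : ℝ) * (N : ℝ)⌋₊ :=
    Nat.floor_le_floor (mul_le_mul_of_nonneg_right hle3 hN'.le)
  rw [Finset.sum_filter, ← Finset.sum_Ioc_consecutive _ (Nat.zero_le _) m2, ← Finset.sum_filter,
        ← Finset.sum_filter, key J hJ, mul_add, add_comm]
  refine add_le_add le_rfl ?_
  rw [zero_mul, Nat.floor_zero]
  unfold PS
  rw [Finset.mul_sum, Finset.mul_sum]
  refine Finset.sum_le_sum fun p hp => ?_
  rw [Finset.mem_filter] at hp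
  have h1 := rhoN_le N p hp.2.pos
  have hlp : 0 ≤ Real.log p := Real.log_natCast_nonneg p
  have h2 := mul_le_mul_of_nonneg_right h1 hlp
  refine h2.trans (le_of_eq ?_)
  field_simp

/-- the error term -/
noncomputable def errN (C c : ℝ) (N : ℕ) : ℝ :=
  Nat.sqrt (N + 1) * ((1 + 2 * C) * (7 / 5 * N) * Real.log (12 * N)) +
  (6 * (7 / 5 * (N : ℝ)) ^ 2 / √((N : ℝ) + 1) + 20 * (7 / 5 * N)) * (Real.log N + (|c| + 1)) +
  50 / 3 * Chebyshev.theta N

lemma tendsto_errN (C c : ℝ) (hC : 0 ≤ C) :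
    Tendsto (fun N : ℕ => errN C c N / (N : ℝ) ^ 2) atTop (𝓝 0) := by
  have h1 : Tendsto (fun N : ℕ => (2 * ((1 + 2 * C) * (7 / 5))) *
      (Real.log (12 * N) / √(N : ℝ))) atTop (𝓝 ((2 * ((1 + 2 * C) * (7 / 5))) * 0)) :=
    (tendsto_logK 12 (by norm_num)).const_mul _
  have hl := tendsto_logK 1 (by norm_num)
  simp only [one_mul] at hl
  have h2 : Tendsto (fun N : ℕ => (6 * (7 / 5) ^ 2 : ℝ) * (Real.log N / √(N : ℝ) +
      (|c| + 1) * (√(N : ℝ))⁻¹)) atTop (𝓝 ((6 * (7 / 5) ^ 2 : ℝ) * (0 + (|c| + 1) * 0))) :=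
    (hl.add (tendsto_inv_sqrtk.const_mul _)).const_mul _
  have h3 : Tendsto (fun N : ℕ => (20 * (7 / 5) : ℝ) * (Real.log N / √(N : ℝ) * (√(N : ℝ))⁻¹ +
      (|c| + 1) * ((N : ℝ))⁻¹)) atTop (𝓝 ((20 * (7 / 5) : ℝ) * (0 * 0 + (|c| + 1) * 0))) :=
    ((hl.mul tendsto_inv_sqrtk).add (tendsto_invk.const_mul _)).const_mul _
  have h4 : Tendsto (fun N : ℕ => (50 / 3 : ℝ) *
      (Chebyshev.theta N / N * ((N : ℝ))⁻¹)) atTop (𝓝 ((50 / 3 : ℝ) * (1 * 0))) :=
    ((PNT.theta_tendsto.comp (tendsto_natCast_atTop_atTop (R := ℝ))).mul tendsto_invk).const_mul _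
  have h5 := ((h1.add h2).add h3).add h4
  simp only [mul_zero, add_zero] at h5
  refine squeeze_zero' ?_ ?_ h5
  · filter_upwards [eventually_ge_atTop 1] with N hN
    have hN' : (1 : ℝ) ≤ N := by exact_mod_cast hN
    have l1 : 0 ≤ Real.log (12 * N) := Real.log_nonneg (by linarith)
    have l2 : 0 ≤ Real.log N := Real.log_natCast_nonneg N
    have l3 := Chebyshev.theta_nonneg (N : ℝ)
    unfold errN
    positivity
  · filter_upwards [eventually_ge_atTop 1] with N hN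
    have hN' : (1 : ℝ) ≤ N := by exact_mod_cast hN
    have hN0 : (0 : ℝ) < N := by linarith
    have hs : 0 < √(N : ℝ) := Real.sqrt_pos.mpr hN0
    have hsq : √(N : ℝ) * √(N : ℝ) = N := Real.mul_self_sqrt hN0.le
    have l1 : 0 ≤ Real.log (12 * N) := Real.log_nonneg (by linarith)
    have l2 : 0 ≤ Real.log N := Real.log_natCast_nonneg N
    have hsqrt : (Nat.sqrt (N + 1) : ℝ) ≤ 2 * √(N : ℝ) := by
      have e : (2 : ℝ) * √(N : ℝ) = √(4 * N) := by
        rw [show (4 : ℝ) * N = 2 ^ 2 * N by ring, Real.sqrt_mul (by norm_num),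
          Real.sqrt_sq (by norm_num)]
      rw [e]
      refine Real.nat_sqrt_le_real_sqrt.trans (Real.sqrt_le_sqrt ?_)
      push_cast
      linarith
    have hsN : √(N : ℝ) ≤ √((N : ℝ) + 1) := Real.sqrt_le_sqrt (by linarith)
    have hs2 : (N : ℝ) ^ 2 = (√(N : ℝ) * √(N : ℝ)) * N := by rw [hsq]; ring
    have t1 : Nat.sqrt (N + 1) * ((1 + 2 * C) * (7 / 5 * (N : ℝ)) * Real.log (12 * N)) ≤
        2 * √(N : ℝ) * ((1 + 2 * C) * (7 / 5 * N) * Real.log (12 * N)) :=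
      mul_le_mul_of_nonneg_right hsqrt (by positivity)
    have e1 : 2 * √(N : ℝ) * ((1 + 2 * C) * (7 / 5 * N) * Real.log (12 * N)) / (N : ℝ) ^ 2 =
        (2 * ((1 + 2 * C) * (7 / 5))) * (Real.log (12 * N) / √(N : ℝ)) := by
      rw [hs2]
      field_simp
    have t2 : 6 * (7 / 5 * (N : ℝ)) ^ 2 / √((N : ℝ) + 1) ≤ 6 * (7 / 5 * (N : ℝ)) ^ 2 / √(N : ℝ) :=
      div_le_div_of_nonneg_left (by positivity) hs hsN
    have t3 : (6 * (7 / 5 * (N : ℝ)) ^ 2 / √((N : ℝ) + 1) + 20 * (7 / 5 * N)) *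
        (Real.log N + (|c| + 1)) ≤ (6 * (7 / 5 * (N : ℝ)) ^ 2 / √(N : ℝ) + 20 * (7 / 5 * N)) *
        (Real.log N + (|c| + 1)) :=
      mul_le_mul_of_nonneg_right (by linarith) (by positivity)
    have e3 : (6 * (7 / 5 * (N : ℝ)) ^ 2 / √(N : ℝ) + 20 * (7 / 5 * N)) *
        (Real.log N + (|c| + 1)) / (N : ℝ) ^ 2 =
        (6 * (7 / 5) ^ 2 : ℝ) * (Real.log N / √(N : ℝ) + (|c| + 1) * (√(N : ℝ))⁻¹) +
        (20 * (7 / 5) : ℝ) * (Real.log N / √(N : ℝ) * (√(N : ℝ))⁻¹ + (|c| + 1) * ((N : ℝ))⁻¹) := by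
      have e : Real.log N / √(N : ℝ) * (√(N : ℝ))⁻¹ = Real.log N / N := by
        rw [← div_eq_mul_inv, div_div, hsq]
      rw [e]
      field_simp
    have e4 : 50 / 3 * Chebyshev.theta N / (N : ℝ) ^ 2 =
        (50 / 3 : ℝ) * (Chebyshev.theta N / N * ((N : ℝ))⁻¹) := by
      field_simp
    unfold errN
    rw [add_div, add_div, e4]
    have u1 := div_le_div_of_nonneg_right t1 (show (0 : ℝ) ≤ (N : ℝ) ^ 2 by positivity)
    have u3 := div_le_div_of_nonneg_right t3 (show (0 : ℝ) ≤ (N : ℝ) ^ 2 by positivity)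
    rw [e1] at u1
    rw [e3] at u3
    linarith

/-- the sum over `p ≤ N/3` -/
lemma sum_third (C c ε : ℝ) (hC : 0 ≤ C) (hε1 : ε ≤ 1) (J N a K : ℕ) (ha : N + 1 = 2 * a)
    (hK : 5 * K = 7 * N) (hN : 3 ≤ N) (hJ : 3 ≤ J) (β : ℕ → ℝ)
    (hM : ∑ p ∈ (Finset.Icc 1 ⌊1 / (3 : ℝ) * (N : ℝ)⌋₊).filter Nat.Prime,
      Real.log p / ((p : ℝ) - 1) ≤ Real.log ⌊1 / (3 : ℝ) * (N : ℝ)⌋₊ - c + ε)
    (h1 : ∀ p : ℕ, p.Prime → p ^ 2 < 2 * a →
      β p ≤ (40 * a * K - 6 * (K : ℝ) ^ 2) / (p - 1) + C * (1 + Nat.log p (4 * (a + K))) * K)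
    (h2 : ∀ p : ℕ, p.Prime → 2 * a ≤ p ^ 2 → 3 * p ≤ 2 * a - 1 →
      β p ≤ (40 * a * K - 6 * (K : ℝ) ^ 2) / p - K +
      50 / 3 * ((((2 * a - 1) % p : ℕ) : ℝ) * (p - ((2 * a - 1) % p : ℕ)) / p) +
      1 / 6 * (6 * K / p + 10) ^ 2) :
    ∑ p ∈ (Finset.Ioc 0 ⌊1 / (3 : ℝ) * (N : ℝ)⌋₊).filter Nat.Prime, β p * Real.log p ≤
      EN N * (Real.log (N / 3) - c + ε) -
      7 / 5 * N * PS (fun _ => 1) (N : ℝ) ⌊(0 : ℝ) * (N : ℝ)⌋₊ ⌊1 / (3 : ℝ) * (N : ℝ)⌋₊ +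
      50 / 3 * (N * (∑ j ∈ Finset.Ico 3 J, PS (gj j) (N : ℝ) ⌊1 / ((j : ℝ) + 1) * (N : ℝ)⌋₊
        ⌊1 / (j : ℝ) * (N : ℝ)⌋₊ + 1 / 4 * PS (fun t => t) (N : ℝ) ⌊(0 : ℝ) * (N : ℝ)⌋₊
        ⌊1 / (J : ℝ) * (N : ℝ)⌋₊)) + errN C c N := by
  have hNr : (3 : ℝ) ≤ N := by exact_mod_cast hN
  have hN0 : (0 : ℝ) < N := by linarith
  set n := ⌊1 / (3 : ℝ) * (N : ℝ)⌋₊ with hn
  have hn1 : 1 ≤ n := by
    rw [hn, Nat.one_le_floor_iff]
    linarith
  have hn0 : (0 : ℝ) < n := by exact_mod_cast hn1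
  have hnN : (n : ℝ) ≤ 1 / (3 : ℝ) * N := Nat.floor_le (by positivity)
  have hnN' : 3 * n ≤ N := by
    have : (3 : ℝ) * n ≤ N := by linarith
    exact_mod_cast this
  have hlogn : Real.log n ≤ Real.log (N / 3) :=
    Real.log_le_log hn0 (by linarith)
  have hlogn2 : Real.log n ≤ Real.log N := Real.log_le_log hn0 (by linarith)
  have hIcc : Finset.Icc 1 n = Finset.Ioc 0 n := by
    ext x; simp [Nat.succ_le_iff]
  rw [hIcc] at hM
  have hEN := EN_nonneg N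
  have hL0 : 0 ≤ Real.log (12 * N) := Real.log_nonneg (by linarith)
  refine (Finset.sum_le_sum (g := fun p : ℕ => EN N * (Real.log p / (p - 1)) -
      7 / 5 * N * Real.log p + 50 / 3 * (rhoN N p * Real.log p) +
      (if p ≤ Nat.sqrt (N + 1) then (1 + 2 * C) * (7 / 5 * N) * Real.log (12 * N) else 0) +
      (6 * (7 / 5 * N) ^ 2 / √((N : ℝ) + 1) + 20 * (7 / 5 * N)) * (Real.log p / (p - 1)) +
      50 / 3 * Real.log p) (fun p hp => by
      rw [Finset.mem_filter, Finset.mem_Ioc] at hp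
      exact point_small C hC N a K ha hK (by omega) (β p) p hp.2 (by omega) (h1 p hp.2)
        (fun h => h2 p hp.2 h (by omega)))).trans ?_
  rw [Finset.sum_add_distrib, Finset.sum_add_distrib, Finset.sum_add_distrib,
    Finset.sum_add_distrib, Finset.sum_sub_distrib, ← Finset.mul_sum, ← Finset.mul_sum,
    ← Finset.mul_sum, ← Finset.mul_sum, ← Finset.mul_sum]
  have hPS1 : PS (fun _ => 1) (N : ℝ) ⌊(0 : ℝ) * (N : ℝ)⌋₊ n =
      ∑ p ∈ (Finset.Ioc 0 n).filter Nat.Prime, Real.log p := by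
    rw [zero_mul, Nat.floor_zero]
    unfold PS
    simp
  have hth : ∑ p ∈ (Finset.Ioc 0 n).filter Nat.Prime, Real.log p ≤ Chebyshev.theta N := by
    unfold Chebyshev.theta
    rw [Nat.floor_natCast]
    refine Finset.sum_le_sum_of_subset_of_nonneg ?_ ?_
    · apply Finset.filter_subset_filter
      exact Finset.Ioc_subset_Ioc_right (by omega)
    · intro p _ _
      exact Real.log_natCast_nonneg p
  rw [hPS1]
  have hsum1 : ∑ p ∈ (Finset.Ioc 0 n).filter Nat.Prime,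
      (if p ≤ Nat.sqrt (N + 1) then (1 + 2 * C) * (7 / 5 * (N : ℝ)) * Real.log (12 * N) else 0) ≤
      Nat.sqrt (N + 1) * ((1 + 2 * C) * (7 / 5 * N) * Real.log (12 * N)) := by
    rw [← Finset.sum_filter, Finset.sum_const, nsmul_eq_mul]
    have h6 : ((Finset.Ioc 0 n).filter Nat.Prime).filter
        (fun p => p ≤ Nat.sqrt (N + 1)) ⊆ Finset.Ioc 0 (Nat.sqrt (N + 1)) := by
      intro p hp
      rw [Finset.mem_filter, Finset.mem_filter, Finset.mem_Ioc] at hp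
      rw [Finset.mem_Ioc]
      exact ⟨hp.1.1.1, hp.2⟩
    have h7 := Finset.card_le_card h6
    rw [Nat.card_Ioc, Nat.sub_zero] at h7
    have h8 : ((((Finset.Ioc 0 n).filter Nat.Prime).filter
        (fun p => p ≤ Nat.sqrt (N + 1))).card : ℝ) ≤ Nat.sqrt (N + 1) := by
      exact_mod_cast h7
    exact mul_le_mul_of_nonneg_right h8 (by positivity)
  have hrho := sum_rho N J (by omega) hJ
  rw [← hn] at hrho
  have hE := mul_le_mul_of_nonneg_left (hM.trans (show _ ≤ Real.log (N / 3) - c + ε by linarith))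
    hEN
  have hM2 : ∑ p ∈ (Finset.Ioc 0 n).filter Nat.Prime,
      Real.log p / ((p : ℝ) - 1) ≤ Real.log N + (|c| + 1) := by
    have := neg_abs_le c
    linarith
  have hE2 := mul_le_mul_of_nonneg_left hM2
    (show 0 ≤ 6 * (7 / 5 * (N : ℝ)) ^ 2 / √((N : ℝ) + 1) + 20 * (7 / 5 * N) by positivity)
  unfold errN
  linarith

end DIM3
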