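import Pool.Agent.Lib.DIM3.Disc2
import Pool.Agent.Lib.Z579.Local

/-!
# The two-pole relation, local form
-/

open Polynomial Finset Z579

namespace DIM3

set_option linter.unusedSectionVars false

section basic

/-- a functional at a pole through its germ -/
lemma sum_Acoef_eq (a : ℕ) (w : ℤ) (ω : ℕ → ℚ) (f : PowerSeries ℚ)
    (hf : ∀ i, 1 ≤ i → i ≤ 10 → PowerSeries.coeff (i - 1) f = ω i) (G : ℚ[X]) :
    ∑ i ∈ Finset.Icc 1 10, ω i * Acoef 10 0 a a w i G =
      PowerSeries.coeff 9 (base 10 0 a a w * Polynomial.aeval (lin (-w) ^ 2) G * f) := by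
  rw [PowerSeries.coeff_mul]
  refine Finset.sum_nbij' (fun i => (10 - i, i - 1)) (fun x => x.2 + 1) ?_ ?_ ?_ ?_ ?_
  · intro i hi
    rw [Finset.mem_Icc] at hi
    rw [Finset.HasAntidiagonal.mem_antidiagonal]
    show 10 - i + (i - 1) = 9
    omega
  · intro x hx
    rw [Finset.HasAntidiagonal.mem_antidiagonal] at hx
    rw [Finset.mem_Icc]
    omega
  · intro i hi
    rw [Finset.mem_Icc] at hi
    show i - 1 + 1 = i
    omega
  · intro x hx
    rw [Finset.HasAntidiagonal.mem_antidiagonal] at hx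
    ext
    · show 10 - (x.2 + 1) = x.1
      omega
    · show x.2 + 1 - 1 = x.2
      omega
  · intro i hi
    rw [Finset.mem_Icc] at hi
    rw [Acoef_apply, hf i hi.1 hi.2, mul_comm]

/-- combination of a pole and its mirror -/
lemma pair_sum {a : ℕ} (ha : 1 ≤ a) {w : ℤ} (hw : w ∈ pc a) (ω : ℤ → ℕ → ℚ) (G : ℚ[X]) :
    ∑ i ∈ Finset.Icc 1 10, ω w i * Acoef 10 0 a a w i G +
      ∑ i ∈ Finset.Icc 1 10, ω (-w) i * Acoef 10 0 a a (-w) i G =
    ∑ i ∈ Finset.Icc 1 10, (ω w i + (-1) ^ (i + 1) * ω (-w) i) * Acoef 10 0 a a w i G := by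
  rw [← Finset.sum_add_distrib]
  refine Finset.sum_congr rfl fun i hi => ?_
  rw [Finset.mem_Icc] at hi
  rw [Acoef_neg ha hw (by decide) hi.2]
  ring

/-- the even polynomial `∑ z_(2i+1) h^(2i)` -/
noncomputable def zP (z : ℕ → ℚ) (h : PP) : PP := ∑ i ∈ Finset.range 5, z (2 * i + 1) • h ^ (2 * i)

/-- the even polynomial `∑ z_(2i+1) h^(2i)` -/
noncomputable def zS (z : ℕ → ℚ) (h : PowerSeries ℚ) : PowerSeries ℚ :=
  ∑ i ∈ Finset.range 5, z (2 * i + 1) • h ^ (2 * i)

lemma zP_fst (z : ℕ → ℚ) (h : PP) : (zP z h).1 = zS z h.1 := by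
  rw [zP, zS, Prod.fst_sum]
  rfl

lemma zP_snd (z : ℕ → ℚ) (h : PP) : (zP z h).2 = zS z h.2 := by
  rw [zP, zS, Prod.snd_sum]
  rfl

/-- the germ of `λ` at every pole, together with its mirror -/
noncomputable def gG (b : ℕ → ℚ) : PowerSeries ℚ := 2 * zS b PowerSeries.X

/-- the germ of `F` at the pole `w`, together with its mirror -/
noncomputable def gF (z : ℕ → ℚ) (a : ℕ) (w : ℤ) : PowerSeries ℚ :=
  2 * zS z PowerSeries.X + ∑ j ∈ (pc a).filter (fun j => j < w), (lin (j - w))⁻¹ -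
    ∑ j ∈ (pc a).filter (fun j => w < j), (lin (j - w))⁻¹

lemma coeff_gG (b : ℕ → ℚ) {i : ℕ} (h1 : 1 ≤ i) (h2 : i ≤ 10) :
    PowerSeries.coeff (i - 1) (gG b) = b i + (-1) ^ (i + 1) * b i := by
  have h : gG b = (2 : ℚ) • zS b PowerSeries.X := by
    rw [gG, two_mul, two_smul]
  rw [h, PowerSeries.coeff_smul, zS]
  simp only [Finset.sum_range_succ, Finset.sum_range_zero, zero_add, map_add,
    PowerSeries.coeff_smul, PowerSeries.coeff_X_pow, smul_eq_mul]
  interval_cases i <;> norm_num <;> ring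

lemma sum_lo {a : ℕ} {w : ℤ} (hw : w ∈ pc a) {i : ℕ} (hi : 1 ≤ i) :
    PowerSeries.coeff (i - 1) (∑ j ∈ (pc a).filter (fun j => j < w), (lin (j - w))⁻¹) =
      -Hs i (w + a - 1).toNat := by
  rw [pc, Finset.mem_Icc] at hw
  rw [map_sum, Hs, ← Finset.sum_neg_distrib]
  refine Finset.sum_nbij' (fun j => (w - 1 - j).toNat) (fun k => w - 1 - (k : ℤ)) ?_ ?_ ?_ ?_ ?_
  · intro j hj
    rw [Finset.mem_filter, pc, Finset.mem_Icc] at hj
    rw [Finset.mem_range]
    omega
  · intro k hk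
    rw [Finset.mem_range] at hk
    rw [Finset.mem_filter, pc, Finset.mem_Icc]
    omega
  · intro j hj
    rw [Finset.mem_filter, pc, Finset.mem_Icc] at hj
    show w - 1 - ((w - 1 - j).toNat : ℤ) = j
    omega
  · intro k hk
    rw [Finset.mem_range] at hk
    show (w - 1 - (w - 1 - (k : ℤ))).toNat = k
    omega
  · intro j hj
    rw [Finset.mem_filter, pc, Finset.mem_Icc] at hj
    rw [coeff_lin_inv (by omega)]
    have h1 : (((w - 1 - j).toNat : ℕ) : ℚ) + 1 = -((j - w : ℤ) : ℚ) := by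
      have : (((w - 1 - j).toNat : ℕ) : ℤ) = w - 1 - j := Int.toNat_of_nonneg (by omega)
      have h2 : (((w - 1 - j).toNat : ℕ) : ℚ) = ((w - 1 - j : ℤ) : ℚ) := by
        calc (((w - 1 - j).toNat : ℕ) : ℚ) = ((((w - 1 - j).toNat : ℕ) : ℤ) : ℚ) :=
              (Int.cast_natCast _).symm
          _ = _ := by rw [this]
      rw [h2]; push_cast; ring
    obtain ⟨k, rfl⟩ : ∃ k, i = k + 1 := ⟨i - 1, by omega⟩
    rw [h1, Nat.add_sub_cancel, one_div, ← inv_pow]
    have h3 : (-((j - w : ℤ) : ℚ))⁻¹ = -(((j - w : ℤ) : ℚ)⁻¹) := by rw [inv_neg]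
    rw [h3, neg_pow _ (k + 1), pow_succ (-1 : ℚ)]
    ring

lemma sum_hi {a : ℕ} {w : ℤ} (hw : w ∈ pc a) {i : ℕ} (hi : 1 ≤ i) :
    PowerSeries.coeff (i - 1) (∑ j ∈ (pc a).filter (fun j => w < j), (lin (j - w))⁻¹) =
      (-1) ^ (i + 1) * Hs i (-w + a - 1).toNat := by
  rw [pc, Finset.mem_Icc] at hw
  rw [map_sum, Hs, Finset.mul_sum]
  refine Finset.sum_nbij' (fun j => (j - w - 1).toNat) (fun k => w + 1 + (k : ℤ)) ?_ ?_ ?_ ?_ ?_
  · intro j hj
    rw [Finset.mem_filter, pc, Finset.mem_Icc] at hj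
    rw [Finset.mem_range]
    omega
  · intro k hk
    rw [Finset.mem_range] at hk
    rw [Finset.mem_filter, pc, Finset.mem_Icc]
    omega
  · intro j hj
    rw [Finset.mem_filter, pc, Finset.mem_Icc] at hj
    show w + 1 + ((j - w - 1).toNat : ℤ) = j
    omega
  · intro k hk
    rw [Finset.mem_range] at hk
    show (w + 1 + (k : ℤ) - w - 1).toNat = k
    omega
  · intro j hj
    rw [Finset.mem_filter, pc, Finset.mem_Icc] at hj
    rw [coeff_lin_inv (by omega)]
    have h1 : (((j - w - 1).toNat : ℕ) : ℚ) + 1 = ((j - w : ℤ) : ℚ) := by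
      have : (((j - w - 1).toNat : ℕ) : ℤ) = j - w - 1 := Int.toNat_of_nonneg (by omega)
      have h2 : (((j - w - 1).toNat : ℕ) : ℚ) = ((j - w - 1 : ℤ) : ℚ) := by
        calc (((j - w - 1).toNat : ℕ) : ℚ) = ((((j - w - 1).toNat : ℕ) : ℤ) : ℚ) :=
              (Int.cast_natCast _).symm
          _ = _ := by rw [this]
      rw [h2]; push_cast; ring
    obtain ⟨k, rfl⟩ : ∃ k, i = k + 1 := ⟨i - 1, by omega⟩
    rw [h1, Nat.add_sub_cancel, one_div, ← inv_pow]
    congr 1
    rw [pow_succ, pow_succ]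
    ring

lemma coeff_gF (z : ℕ → ℚ) {a : ℕ} {w : ℤ} (hw : w ∈ pc a) {i : ℕ} (h1 : 1 ≤ i) (h2 : i ≤ 10) :
    PowerSeries.coeff (i - 1) (gF z a w) = wt 0 a 1 z w i + (-1) ^ (i + 1) * wt 0 a 1 z (-w) i := by
  have h := coeff_gG z h1 h2
  rw [gG] at h
  rw [gF, map_sub, map_add, h, sum_lo hw h1, sum_hi hw h1, wt, wt]
  simp only [add_zero, Nat.cast_one, one_mul]
  ring

end basic

section

variable {p : ℕ} [hp : Fact p.Prime]

/-- the regular part of `R` on the disc -/
noncomputable def rho (d u : ℤ) (a : ℕ) : PP :=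
  2 * (lin (-u), lin (-u - d)) * (∏ w ∈ ((pc a).erase u).erase (u + d), il d (w - u)) ^ 10

lemma base_u {d u : ℤ} {a : ℕ} (hd0 : d ≠ 0) (hud : u + d ∈ pc a) :
    base 10 0 a a u = (rho d u a).1 * ((lin d)⁻¹) ^ 10 := by
  have hmem : u + d ∈ (pc a).erase u := by
    rw [Finset.mem_erase]
    exact ⟨by omega, hud⟩
  rw [base, pow_zero, mul_one, PS_prod_inv, ← Finset.mul_prod_erase _ _ hmem, rho, Prod.fst_mul,
    Prod.fst_mul, Prod.pow_fst, Prod.fst_prod]
  have h1 : u + d - u = d := by ring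
  rw [h1]
  simp only [il]
  have h2 : (2 : PP).1 = 2 := rfl
  rw [h2]
  ring

lemma base_ud {d u : ℤ} {a : ℕ} (hd0 : d ≠ 0) (hu : u ∈ pc a) :
    base 10 0 a a (u + d) = (rho d u a).2 * ((lin (-d))⁻¹) ^ 10 := by
  have hmem : u ∈ (pc a).erase (u + d) := by
    rw [Finset.mem_erase]
    exact ⟨by omega, hu⟩
  rw [base, pow_zero, mul_one, PS_prod_inv, ← Finset.mul_prod_erase _ _ hmem, rho, Prod.snd_mul,
    Prod.snd_mul, Prod.pow_snd, Prod.snd_prod, Finset.erase_right_comm]
  have h1 : u - (u + d) = -d := by ring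
  have h3 : -(u + d) = -u - d := by ring
  rw [h1, h3]
  simp only [il]
  have h2 : (2 : PP).2 = 2 := rfl
  rw [h2]
  have h4 : ∀ w : ℤ, w - (u + d) = w - u - d := fun w => by ring
  simp only [h4]
  ring

lemma rho_mem {d u : ℤ} {a : ℕ} (hd : (p : ℤ) ∣ d)
    (hother : ∀ w ∈ pc a, w ≠ u → w ≠ u + d → ¬ (p : ℤ) ∣ w - u) : rho d u a ∈ IR p d := by
  rw [rho]
  refine Subring.mul_mem _ (Subring.mul_mem _ ?_ (lin_mem d (-u))) (Subring.pow_mem _ ?_ _)
  · have : (2 : PP) = 1 + 1 := by norm_num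
    rw [this]
    exact Subring.add_mem _ (Subring.one_mem _) (Subring.one_mem _)
  · refine Subring.prod_mem _ fun w hw => ?_
    rw [Finset.mem_erase, Finset.mem_erase] at hw
    exact il_mem hd (hother w hw.2.2 hw.2.1 hw.1)

/-- functional of two poles `u`, `u + d` with germs `f1`, `f2` -/
lemma two_poles {d u : ℤ} {a : ℕ} (hd0 : d ≠ 0) (hu : u ∈ pc a) (hud : u + d ∈ pc a)
    (f1 f2 : PowerSeries ℚ) (G : ℚ[X]) :
    PowerSeries.coeff 9 (base 10 0 a a u * Polynomial.aeval (lin (-u) ^ 2) G * f1) +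
      PowerSeries.coeff 9 (base 10 0 a a (u + d) * Polynomial.aeval (lin (-(u + d)) ^ 2) G * f2) =
    Rs d 10 10 (rho d u a * GP d u G * (f1, f2)) := by
  rw [Rs, PowerSeries.coeff_succ_X_mul, PowerSeries.coeff_succ_X_mul, base_u hd0 hud,
    base_ud hd0 hu]
  simp only [Prod.fst_mul, Prod.snd_mul, GP_fst, GP_snd]
  congr 2 <;> ring

lemma zP_mem {z : ℕ → ℚ} (hz : ∀ s, VG p 0 (z s)) {d : ℤ} {h : PP} (hh : h ∈ IR p d) :
    zP z h ∈ IR p d :=
  Subring.sum_mem _ fun _ _ => smul_mem_IR d (hz _) (Subring.pow_mem _ hh _)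

lemma zP_diff {z : ℕ → ℚ} (hz : ∀ s, VG p 0 (z s)) (d : ℤ) :
    ∃ c ∈ IR p d, zP z (xd d) - zP z (xx d) = (d : ℚ) • ((xx d + xd d) * c) := by
  refine ⟨∑ i ∈ Finset.range 5, z (2 * i + 1) •
    ∑ k ∈ Finset.range i, (xd d ^ 2) ^ k * (xx d ^ 2) ^ (i - 1 - k), ?_, ?_⟩
  · refine Subring.sum_mem _ fun i _ => smul_mem_IR d (hz _) (Subring.sum_mem _ fun k _ => ?_)
    exact Subring.mul_mem _ (Subring.pow_mem _ (Subring.pow_mem _ (xd_mem d) _) _)
      (Subring.pow_mem _ (Subring.pow_mem _ (xx_mem d) _) _)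
  · rw [zP, zP, ← Finset.sum_sub_distrib, Finset.mul_sum, Finset.smul_sum]
    refine Finset.sum_congr rfl fun i _ => ?_
    have h1 := geom_sum₂_mul (xd d ^ 2) (xx d ^ 2) i
    have h2 : xd d ^ 2 - xx d ^ 2 = (d : ℚ) • (xx d + xd d) := by
      have h3 := xd_sub_xx d
      calc xd d ^ 2 - xx d ^ 2 = (xd d - xx d) * (xx d + xd d) := by ring
        _ = _ := by rw [h3, smul_mul_assoc, one_mul]
    rw [← smul_sub, pow_mul, pow_mul, ← h1, h2]
    simp only [mul_smul_comm]
    rw [smul_comm]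
    congr 2
    ring

/-- the exact two-pole relation on the disc -/
theorem two_rel_pair {d u : ℤ} {a : ℕ} (hd : (p : ℤ) ∣ d) (hd0 : 0 < d) (hu : u ∈ pc a)
    (hud : u + d ∈ pc a) (hother : ∀ w ∈ pc a, w ≠ u → w ≠ u + d → ¬ (p : ℤ) ∣ w - u)
    {z b : ℕ → ℚ} (hz : ∀ s, VG p 0 (z s)) (hb : ∀ s, VG p 0 (b s)) :
    ∃ U ∈ IR p d, ∃ T ∈ IR p d,
      ((gG b, gG b) : PP) = U + (d : ℚ) • (T * (gF z a u, gF z a (u + d))) ∧
      WA p 0 0 (lin (-d) * gF z a (u + d)) := by
  have hd0' : d ≠ 0 := hd0.ne'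
  have hu' := hu
  have hud' := hud
  rw [pc, Finset.mem_Icc] at hu' hud'
  obtain ⟨cz, hcz, hcz'⟩ := zP_diff hz d
  obtain ⟨cb, hcb, hcb'⟩ := zP_diff hb d
  set Lo := (pc a).filter (fun j => j < u) with hLo
  set Mi := Finset.Ioo u (u + d) with hMi
  set Hi := (pc a).filter (fun j => u + d < j) with hHi
  -- the three sums
  set A : PP := ∑ j ∈ Lo, il d (j - u) with hA
  set M : PP := ∑ j ∈ Mi, il d (j - u) with hM
  set Z : PP := ∑ j ∈ Hi, il d (j - u) with hZ
  have hLom : ∀ j ∈ Lo, ¬ (p : ℤ) ∣ j - u := by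
    intro j hj
    rw [hLo, Finset.mem_filter] at hj
    exact hother j hj.1 (by omega) (by omega)
  have hMipc : ∀ j ∈ Mi, j ∈ pc a ∧ u < j ∧ j < u + d := by
    intro j hj
    rw [hMi, Finset.mem_Ioo] at hj
    refine ⟨?_, hj.1, hj.2⟩
    rw [pc, Finset.mem_Icc]
    omega
  have hMim : ∀ j ∈ Mi, ¬ (p : ℤ) ∣ j - u := by
    intro j hj
    obtain ⟨h1, h2, h3⟩ := hMipc j hj
    exact hother j h1 (by omega) (by omega)
  have hHim : ∀ j ∈ Hi, ¬ (p : ℤ) ∣ j - u := by
    intro j hj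
    rw [hHi, Finset.mem_filter] at hj
    exact hother j hj.1 (by omega) (by omega)
  have hAm : A ∈ IR p d := Subring.sum_mem _ fun j hj => il_mem hd (hLom j hj)
  have hMm : M ∈ IR p d := Subring.sum_mem _ fun j hj => il_mem hd (hMim j hj)
  have hZm : Z ∈ IR p d := Subring.sum_mem _ fun j hj => il_mem hd (hHim j hj)
  -- the sum `I`
  set I : PP := ∑ j ∈ Mi, il d (j - u) * il d (2 * u + d - j - u) with hI
  have hrefl : ∀ j ∈ Mi, 2 * u + d - j ∈ Mi := by
    intro j hj
    rw [hMi, Finset.mem_Ioo] at hj ⊢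
    omega
  have hIm : I ∈ IR p d := Subring.sum_mem _ fun j hj =>
    Subring.mul_mem _ (il_mem hd (hMim j hj)) (il_mem hd (hMim _ (hrefl j hj)))
  have h2M : 2 * M = (xx d + xd d) * I := by
    have h1 : M = ∑ j ∈ Mi, il d (2 * u + d - j - u) := by
      rw [hM]
      refine Finset.sum_nbij' (fun j => 2 * u + d - j) (fun j => 2 * u + d - j) hrefl hrefl ?_ ?_ ?_
      · intro j _; ring
      · intro j _; ring
      · intro j _
        congr 1
        ring
    calc 2 * M = M + M := by ring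
      _ = ∑ j ∈ Mi, il d (j - u) + ∑ j ∈ Mi, il d (2 * u + d - j - u) := by
          conv_lhs => rw [h1]
          rw [← h1]
      _ = ∑ j ∈ Mi, (il d (j - u) + il d (2 * u + d - j - u)) := by
          rw [Finset.sum_add_distrib]
      _ = (xx d + xd d) * I := by
          rw [hI, Finset.mul_sum]
          refine Finset.sum_congr rfl fun j hj => ?_
          have e1 := il_mul hd (hMim j hj)
          have e2 := il_mul hd (hMim _ (hrefl j hj))
          rw [lin_pair] at e1 e2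
          have e3 : xx d + xd d = (xx d + ((j - u : ℤ) : ℚ) • (1 : PP)) +
              (xx d + ((2 * u + d - j - u : ℤ) : ℚ) • (1 : PP)) := by
            rw [xd_eq]
            have : (d : ℚ) • (1 : PP) = ((j - u : ℤ) : ℚ) • (1 : PP) +
                ((2 * u + d - j - u : ℤ) : ℚ) • (1 : PP) := by
              rw [← add_smul]
              congr 1
              push_cast
              ring
            rw [this]
            ring
          rw [e3]
          calc il d (j - u) + il d (2 * u + d - j - u) =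
              ((xx d + ((j - u : ℤ) : ℚ) • (1 : PP)) * il d (j - u)) * il d (2 * u + d - j - u) +
              ((xx d + ((2 * u + d - j - u : ℤ) : ℚ) • (1 : PP)) *
                il d (2 * u + d - j - u)) * il d (j - u) := by
                rw [e1, e2]; ring
            _ = _ := by ring
  -- decomposition of the germs
  have hf1 : gF z a u = 2 * zS z PowerSeries.X + A.1 - M.1 - (lin d)⁻¹ - Z.1 := by
    have hset : (pc a).filter (fun j => u < j) = insert (u + d) (Mi ∪ Hi) := by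
      ext j
      rw [hMi, hHi, Finset.mem_filter, Finset.mem_insert, Finset.mem_union, Finset.mem_Ioo,
        Finset.mem_filter, pc, Finset.mem_Icc]
      omega
    have hn1 : u + d ∉ Mi ∪ Hi := by
      rw [hMi, hHi, Finset.mem_union, Finset.mem_Ioo, Finset.mem_filter]
      omega
    have hdis : Disjoint Mi Hi := by
      rw [Finset.disjoint_left]
      intro j h1 h2
      rw [hMi, Finset.mem_Ioo] at h1
      rw [hHi, Finset.mem_filter] at h2
      omega
    rw [gF, hset, Finset.sum_insert hn1, Finset.sum_union hdis, hA, hM, hZ, Prod.fst_sum,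
      Prod.fst_sum, Prod.fst_sum]
    have h3 : u + d - u = d := by ring
    rw [h3]
    simp only [il]
    ring
  have hf2 : gF z a (u + d) = 2 * zS z PowerSeries.X + A.2 + (lin (-d))⁻¹ + M.2 - Z.2 := by
    have hset : (pc a).filter (fun j => j < u + d) = insert u (Lo ∪ Mi) := by
      ext j
      rw [hLo, hMi, Finset.mem_filter, Finset.mem_insert, Finset.mem_union, Finset.mem_Ioo,
        Finset.mem_filter, pc, Finset.mem_Icc]
      omega
    have hn1 : u ∉ Lo ∪ Mi := by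
      rw [hLo, hMi, Finset.mem_union, Finset.mem_Ioo, Finset.mem_filter]
      omega
    have hdis : Disjoint Lo Mi := by
      rw [Finset.disjoint_left]
      intro j h1 h2
      rw [hLo, Finset.mem_filter] at h1
      rw [hMi, Finset.mem_Ioo] at h2
      omega
    rw [gF, hset, Finset.sum_insert hn1, Finset.sum_union hdis, hA, hM, hZ, Prod.snd_sum,
      Prod.snd_sum, Prod.snd_sum]
    have h3 : u - (u + d) = -d := by ring
    rw [h3]
    simp only [il]
    have h4 : ∀ w : ℤ, w - (u + d) = w - u - d := fun w => by ring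
    simp only [h4]
    ring
  -- integrality of `lin (-d) * gF`
  have hWA : WA p 0 0 (lin (-d) * gF z a (u + d)) := by
    rw [hf2]
    have e1 : lin (-d) * (lin (-d))⁻¹ = 1 := lin_mul_inv (neg_ne_zero.2 hd0')
    have e2 : lin (-d) * (2 * zS z PowerSeries.X + A.2 + (lin (-d))⁻¹ + M.2 - Z.2) =
        (xx d * (2 * zP z (xd d) + A + M - Z) + 1).2 := by
      simp only [Prod.snd_add, Prod.snd_mul, Prod.snd_sub, Prod.snd_one, zP_snd]
      have e3 : (2 : PP).2 = 2 := rfl
      have e4 : (xd d).2 = PowerSeries.X := rfl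
      have e5 : (xx d).2 = lin (-d) := rfl
      rw [e3, e4, e5]
      linear_combination e1
    rw [e2]
    refine (IR_WA hd ?_).2
    have h2m : (2 : PP) ∈ IR p d := by
      have : (2 : PP) = 1 + 1 := by norm_num
      rw [this]
      exact Subring.add_mem _ (Subring.one_mem _) (Subring.one_mem _)
    exact Subring.add_mem _ (Subring.mul_mem _ (xx_mem d) (Subring.sub_mem _ (Subring.add_mem _
      (Subring.add_mem _ (Subring.mul_mem _ h2m (zP_mem hz (xd_mem d))) hAm) hMm) hZm))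
      (Subring.one_mem _)
  -- the functions `J`, `E`, `T`, `φ`, `U`
  have h2m : (2 : PP) ∈ IR p d := by
    have : (2 : PP) = 1 + 1 := by norm_num
    rw [this]
    exact Subring.add_mem _ (Subring.one_mem _) (Subring.one_mem _)
  have hdV : VG p 0 (d : ℚ) := VG.int d
  set J : PP := I + (d : ℚ) • (2 * cz) with hJ
  have hJm : J ∈ IR p d :=
    Subring.add_mem _ hIm (smul_mem_IR d hdV (Subring.mul_mem _ h2m hcz))
  set E : PP := pinv (1 + xx d * xd d * J) with hE
  have hEm : E ∈ IR p d := pinv_one_add_mem hJm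
  have hEe : (1 + xx d * xd d * J) * E = 1 := one_add_mul_pinv d J
  set T : PP := 2 * (cb * (xx d * xd d) * E) with hT
  have hTm : T ∈ IR p d := Subring.mul_mem _ h2m (Subring.mul_mem _ (Subring.mul_mem _ hcb
    (Subring.mul_mem _ (xx_mem d) (xd_mem d))) hEm)
  set φ : PP := 2 * zP z (xx d) + A - M - Z with hφ
  have hφm : φ ∈ IR p d := Subring.sub_mem _ (Subring.sub_mem _ (Subring.add_mem _
    (Subring.mul_mem _ h2m (zP_mem hz (xx_mem d))) hAm) hMm) hZm
  set U : PP := 2 * zP b (xx d) - (d : ℚ) • (T * φ) + (d : ℚ) • (2 * (cb * xx d * E)) with hU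
  have hUm : U ∈ IR p d := Subring.add_mem _ (Subring.sub_mem _ (Subring.mul_mem _ h2m
    (zP_mem hb (xx_mem d))) (smul_mem_IR d hdV (Subring.mul_mem _ hTm hφm)))
    (smul_mem_IR d hdV (Subring.mul_mem _ h2m (Subring.mul_mem _ (Subring.mul_mem _ hcb
      (xx_mem d)) hEm)))
  refine ⟨U, hUm, T, hTm, ?_, hWA⟩
  ext1
  · -- first component
    have e1 : lin d * (lin d)⁻¹ = 1 := lin_mul_inv hd0'
    simp only [Prod.fst_add, Prod.smul_fst, Prod.fst_mul]
    have e2 : gF z a u = φ.1 - (lin d)⁻¹ := by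
      rw [hf1, hφ]
      simp only [Prod.fst_sub, Prod.fst_add, Prod.fst_mul, zP_fst]
      have e3 : (2 : PP).1 = 2 := rfl
      have e4 : (xx d).1 = PowerSeries.X := rfl
      rw [e3, e4]
      ring
    have e5 : U.1 = 2 * zS b PowerSeries.X - (d : ℚ) • (T.1 * φ.1) +
        (d : ℚ) • (2 * (cb.1 * PowerSeries.X * E.1)) := by
      rw [hU]
      simp only [Prod.fst_sub, Prod.fst_add, Prod.fst_mul, Prod.smul_fst, zP_fst]
      rfl
    have e6 : T.1 = 2 * (cb.1 * (PowerSeries.X * lin d) * E.1) := rfl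
    rw [e2, e5, gG]
    have e7 : T.1 * (φ.1 - (lin d)⁻¹) = T.1 * φ.1 - 2 * (cb.1 * PowerSeries.X * E.1) := by
      rw [mul_sub]
      congr 1
      rw [e6]
      linear_combination (2 * (cb.1 * PowerSeries.X * E.1)) * e1
    rw [e7, smul_sub]
    ring
  · -- second component
    have e1 : lin (-d) * (lin (-d))⁻¹ = 1 := lin_mul_inv (neg_ne_zero.2 hd0')
    simp only [Prod.snd_add, Prod.smul_snd, Prod.snd_mul]
    have hcz2 : zS z PowerSeries.X = zS z (lin (-d)) + (d : ℚ) • (((xx d + xd d) * cz).2) := by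
      have h1 := congrArg Prod.snd hcz'
      rw [Prod.snd_sub, zP_snd, zP_snd, Prod.smul_snd] at h1
      have e4 : (xd d).2 = PowerSeries.X := rfl
      have e5 : (xx d).2 = lin (-d) := rfl
      rw [e4, e5] at h1
      rw [← h1]; ring
    have hcb2 : zS b PowerSeries.X = zS b (lin (-d)) + (d : ℚ) • (((xx d + xd d) * cb).2) := by
      have h1 := congrArg Prod.snd hcb'
      rw [Prod.snd_sub, zP_snd, zP_snd, Prod.smul_snd] at h1
      have e4 : (xd d).2 = PowerSeries.X := rfl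
      have e5 : (xx d).2 = lin (-d) := rfl
      rw [e4, e5] at h1
      rw [← h1]; ring
    have h2M' : 2 * M.2 = ((xx d + xd d) * I).2 := by
      rw [← h2M]; rfl
    have e2 : gF z a (u + d) = φ.2 + ((xx d + xd d) * J).2 + (lin (-d))⁻¹ := by
      have eJ : ((xx d + xd d) * J).2 = 2 * M.2 + (d : ℚ) • (2 * ((xx d + xd d) * cz).2) := by
        rw [h2M']
        have h3 : (xx d + xd d) * J =
            (xx d + xd d) * I + (d : ℚ) • (2 * ((xx d + xd d) * cz)) := by
          rw [hJ, mul_add, mul_smul_comm]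
          congr 2
          ring
        rw [h3]
        rfl
      have eφ : φ.2 = 2 * zS z (lin (-d)) + A.2 - M.2 - Z.2 := by
        rw [hφ]
        simp only [Prod.snd_sub, Prod.snd_add, Prod.snd_mul, zP_snd]
        rfl
      rw [hf2, hcz2, eJ, eφ]
      generalize ((xx d + xd d) * cz).2 = q
      simp only [Algebra.smul_def]
      ring
    have e5 : U.2 = 2 * zS b (lin (-d)) - (d : ℚ) • (T.2 * φ.2) +
        (d : ℚ) • (2 * (cb.2 * lin (-d) * E.2)) := by
      rw [hU]
      simp only [Prod.snd_sub, Prod.snd_add, Prod.snd_mul, Prod.smul_snd, zP_snd]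
      rfl
    have e6 : T.2 = 2 * (cb.2 * (lin (-d) * PowerSeries.X) * E.2) := rfl
    have e7 : ((xx d + xd d) * J).2 = (lin (-d) + PowerSeries.X) * J.2 := rfl
    have e8 : ((xx d + xd d) * cb).2 = (lin (-d) + PowerSeries.X) * cb.2 := rfl
    have e9 : (1 + lin (-d) * PowerSeries.X * J.2) * E.2 = 1 := by
      have := congrArg Prod.snd hEe
      exact this
    rw [e2, e5, gG, hcb2, e7, e8]
    have e10 : T.2 * (φ.2 + (lin (-d) + PowerSeries.X) * J.2 + (lin (-d))⁻¹) =
        T.2 * φ.2 + 2 * cb.2 * (lin (-d) + PowerSeries.X) - 2 * (cb.2 * lin (-d) * E.2) := by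
      rw [e6]
      linear_combination (2 * cb.2 * (lin (-d) + PowerSeries.X)) * e9 +
        (2 * cb.2 * PowerSeries.X * E.2) * e1
    rw [e10]
    simp only [Algebra.smul_def]
    ring

end

end DIM3
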